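import Pool.Agent.Lib.H2AF.PSD

/-! # Certificate A of MP_afe93a, block 1 (P1_A1, sq, size 26): the Gram matrix is positive semidefinite -/

namespace Pool.Agent.H2AF

/-- Gram matrix (integers), block P1_A1, certificate A. -/
def gA1 : List (List Int) :=
 [[.ofNat 2969293680, .ofNat 2586960, .negSucc 59850863, .ofNat 91071360, .ofNat 137471760, .negSucc 48480479, .ofNat 1350369360, .ofNat 508957200, .negSucc 139642559, .negSucc 197681039, .negSucc 26921519, .negSucc 1302331679, .negSucc 422268479, .ofNat 253630080, .ofNat 327628800, .ofNat 974880, .ofNat 1076011920, .negSucc 370138319, .negSucc 208306799, .ofNat 364735440, .ofNat 27460080, .negSucc 1483998479, .ofNat 130078800, .ofNat 111170160, .negSucc 479658239, .ofNat 17857440],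
  [.ofNat 2586960, .ofNat 24104160, .ofNat 2520720, .negSucc 4656239, .negSucc 58547519, .negSucc 10113119, .ofNat 28122480, .negSucc 7431839, .negSucc 12320639, .negSucc 1793519, .ofNat 4132080, .negSucc 25655039, .ofNat 2705040, .ofNat 66481200, .ofNat 8241840, .negSucc 11086559, .ofNat 35953200, .ofNat 17158320, .negSucc 35820719, .negSucc 10475279, .ofNat 7833600, .ofNat 7483680, .ofNat 14628960, .ofNat 2740320, .ofNat 9225360, .negSucc 485999],
  [.negSucc 59850863, .ofNat 2520720, .ofNat 271524960, .negSucc 94221359, .negSucc 189363869, .ofNat 2519280, .ofNat 142724880, .negSucc 34209359, .negSucc 1429919, .ofNat 62221680, .ofNat 10910160, .negSucc 82907999, .negSucc 16721999, .negSucc 34184159, .negSucc 9826559, .negSucc 24225839, .negSucc 82913039, .negSucc 9818639, .negSucc 34195679, .negSucc 16724159, .negSucc 24225119, .ofNat 142753680, .ofNat 62220960, .negSucc 1429919, .negSucc 34202159, .ofNat 10908000],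
  [.ofNat 91071360, .negSucc 4656239, .negSucc 94221359, .ofNat 79223760, .ofNat 90059760, .negSucc 4651199, .negSucc 45313199, .ofNat 23867280, .negSucc 7955999, .negSucc 24094799, .negSucc 2098799, .negSucc 45732959, .negSucc 17373599, .ofNat 40084560, .ofNat 621360, .ofNat 12283920, .negSucc 45736559, .ofNat 616320, .ofNat 40104000, .negSucc 17370719, .ofNat 12281760, .negSucc 45334079, .negSucc 24099119, .negSucc 7959599, .ofNat 23856480, .negSucc 2095919],
  [.ofNat 137471760, .negSucc 58547519, .negSucc 189363869, .ofNat 90059760, .ofNat 526482720, .ofNat 80028720, .negSucc 31015439, .ofNat 50515200, .negSucc 29474639, .negSucc 63524879, .negSucc 5842079, .ofNat 108960480, .negSucc 54336959, .negSucc 150490799, .ofNat 117716400, .ofNat 45796320, .negSucc 69149519, .negSucc 52611839, .ofNat 305883360, .ofNat 29976480, .negSucc 12813839, .negSucc 87924239, .negSucc 127439, .ofNat 866160, .ofNat 20998800, .ofNat 807840],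
  [.negSucc 48480479, .negSucc 10113119, .ofNat 2519280, .negSucc 4651199, .ofNat 80028720, .ofNat 24104880, .ofNat 7490880, .ofNat 9228960, .ofNat 2738880, .ofNat 14628960, .negSucc 485999, .ofNat 35941680, .negSucc 10479599, .negSucc 35816399, .ofNat 17159760, .ofNat 7834320, .negSucc 25657919, .ofNat 8243280, .ofNat 66487680, .ofNat 2703600, .negSucc 11087279, .ofNat 28118880, .negSucc 1793519, .negSucc 12322079, .negSucc 7432559, .ofNat 4132800],
  [.ofNat 1350369360, .ofNat 28122480, .ofNat 142724880, .negSucc 45313199, .negSucc 31015439, .ofNat 7490880, .ofNat 1130208660, .ofNat 346257360, .negSucc 36780479, .ofNat 31770300, .negSucc 22965119, .negSucc 1036080719, .negSucc 248821919, .ofNat 204109920, .ofNat 103073760, .ofNat 37030320, .ofNat 929329200, .negSucc 44521919, .negSucc 135668879, .ofNat 194366880, .negSucc 67501439, .negSucc 889284239, .ofNat 62645040, .ofNat 1088640, .negSucc 369737279, .ofNat 44616240],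
  [.ofNat 508957200, .negSucc 7431839, .negSucc 34209359, .ofNat 23867280, .ofNat 50515200, .ofNat 9228960, .ofNat 346257360, .ofNat 193282520, .ofNat 31015540, .ofNat 40889520, .negSucc 19588319, .negSucc 353554559, .negSucc 103709519, .ofNat 66736800, .negSucc 2687759, .ofNat 33820560, .ofNat 347743440, .ofNat 3096000, .negSucc 43814159, .ofNat 99930960, .negSucc 26537039, .negSucc 369741599, .negSucc 52878959, .negSucc 27971279, .negSucc 172563839, .ofNat 18917280],
  [.negSucc 139642559, .negSucc 12320639, .negSucc 1429919, .negSucc 7955999, .negSucc 29474639, .ofNat 2738880, .negSucc 36780479, .ofNat 31015540, .ofNat 83614400, .ofNat 55446480, .negSucc 7653599, .ofNat 52722000, .ofNat 40064400, .negSucc 71018639, .negSucc 53426159, .ofNat 16291440, .ofNat 11420640, .ofNat 6294240, .negSucc 6734879, .ofNat 1321920, .negSucc 15883199, .ofNat 1097280, .negSucc 61633439, .negSucc 39236399, .negSucc 27966959, .ofNat 3481200],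
  [.negSucc 197681039, .negSucc 1793519, .ofNat 62221680, .negSucc 24094799, .negSucc 63524879, .ofNat 14628960, .ofNat 31770300, .ofNat 40889520, .ofNat 55446480, .ofNat 101801340, .negSucc 8473679, .ofNat 9273600, .ofNat 3119760, .negSucc 8512559, .negSucc 59748479, .ofNat 10812240, .negSucc 36099359, .ofNat 74960640, .ofNat 17713440, .negSucc 15901919, .negSucc 24292799, .ofNat 62649360, .negSucc 62128079, .negSucc 61634879, .negSucc 52878239, .ofNat 16562880],
  [.negSucc 26921519, .ofNat 4132080, .ofNat 10910160, .negSucc 2098799, .negSucc 5842079, .negSucc 485999, .negSucc 22965119, .negSucc 19588319, .negSucc 7653599, .negSucc 8473679, .ofNat 5935680, .ofNat 11702160, .ofNat 2840400, .ofNat 8154720, .ofNat 11745360, .negSucc 4906079, .negSucc 24284879, .negSucc 5214239, .ofNat 1936080, .negSucc 9363599, .ofNat 2610720, .ofNat 44614800, .ofNat 16562160, .ofNat 3481200, .ofNat 18915840, .negSucc 3294719],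
  [.negSucc 1302331679, .negSucc 25655039, .negSucc 82907999, .negSucc 45732959, .ofNat 108960480, .ofNat 35941680, .negSucc 1036080719, .negSucc 353554559, .ofNat 52722000, .ofNat 9273600, .ofNat 11702160, .ofNat 1543435200, .ofNat 309020400, .negSucc 443354399, .ofNat 27623520, .negSucc 94683599, .negSucc 1209839039, .negSucc 43644959, .ofNat 329644080, .negSucc 197051039, .ofNat 96726240, .ofNat 929329920, .negSucc 36095039, .ofNat 11428560, .ofNat 347753520, .negSucc 24287759],
  [.negSucc 422268479, .ofNat 2705040, .negSucc 16721999, .negSucc 17373599, .negSucc 54336959, .negSucc 10479599, .negSucc 248821919, .negSucc 103709519, .ofNat 40064400, .ofNat 3119760, .ofNat 2840400, .ofNat 309020400, .ofNat 117102240, .negSucc 98121599, .negSucc 38105999, .negSucc 13881599, .negSucc 197046719, .ofNat 316800, .ofNat 14986080, .negSucc 64203119, .ofNat 14678640, .ofNat 194372640, .negSucc 15899759, .ofNat 1326240, .ofNat 99936000, .negSucc 9365039],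
  [.ofNat 253630080, .ofNat 66481200, .negSucc 34184159, .ofNat 40084560, .negSucc 150490799, .negSucc 35816399, .ofNat 204109920, .ofNat 66736800, .negSucc 71018639, .negSucc 8512559, .ofNat 8154720, .negSucc 443354399, .negSucc 98121599, .ofNat 365408640, .negSucc 11860559, .ofNat 455040, .ofNat 329675040, .ofNat 113119200, .negSucc 176910479, .ofNat 15001200, .ofNat 4632480, .negSucc 135697679, .ofNat 17710560, .negSucc 6733439, .negSucc 43833599, .ofNat 1937520],
  [.ofNat 327628800, .ofNat 8241840, .negSucc 9826559, .ofNat 621360, .ofNat 117716400, .ofNat 17159760, .ofNat 103073760, .negSucc 2687759, .negSucc 53426159, .negSucc 59748479, .ofNat 11745360, .ofNat 27623520, .negSucc 38105999, .negSucc 11860559, .ofNat 160701840, .negSucc 22793039, .negSucc 43638479, .negSucc 86855039, .ofNat 113127840, .ofNat 318240, .ofNat 20059200, .negSucc 44537759, .ofNat 74957760, .ofNat 6292080, .ofNat 3092400, .negSucc 5213519],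
  [.ofNat 974880, .negSucc 11086559, .negSucc 24225839, .ofNat 12283920, .ofNat 45796320, .ofNat 7834320, .ofNat 37030320, .ofNat 33820560, .ofNat 16291440, .ofNat 10812240, .negSucc 4906079, .negSucc 94683599, .negSucc 13881599, .ofNat 455040, .negSucc 22793039, .ofNat 24507360, .ofNat 96721920, .ofNat 20059920, .ofNat 4638240, .ofNat 14676480, .negSucc 18606959, .negSucc 67502159, .negSucc 24292799, .negSucc 15883919, .negSucc 26536319, .ofNat 2610720],
  [.ofNat 1076011920, .ofNat 35953200, .negSucc 82913039, .negSucc 45736559, .negSucc 69149519, .negSucc 25657919, .ofNat 929329200, .ofNat 347743440, .ofNat 11420640, .negSucc 36099359, .negSucc 24284879, .negSucc 1209839039, .negSucc 197046719, .ofNat 329675040, .negSucc 43638479, .ofNat 96721920, .ofNat 1543456080, .ofNat 27633600, .negSucc 443368799, .ofNat 309016080, .negSucc 94679999, .negSucc 1036065599, .ofNat 9283680, .ofNat 52725600, .negSucc 353543759, .ofNat 11700720],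
  [.negSucc 370138319, .ofNat 17158320, .negSucc 9818639, .ofNat 616320, .negSucc 52611839, .ofNat 8243280, .negSucc 44521919, .ofNat 3096000, .ofNat 6294240, .ofNat 74960640, .negSucc 5214239, .negSucc 43644959, .ofNat 316800, .ofNat 113119200, .negSucc 86855039, .ofNat 20059920, .ofNat 27633600, .ofNat 160698960, .negSucc 11861279, .negSucc 38101679, .negSucc 22795199, .ofNat 103063680, .negSucc 59747039, .negSucc 53425439, .negSucc 2694959, .ofNat 11746080],
  [.negSucc 208306799, .negSucc 35820719, .negSucc 34195679, .ofNat 40104000, .ofNat 305883360, .ofNat 66487680, .negSucc 135668879, .negSucc 43814159, .negSucc 6734879, .ofNat 17713440, .ofNat 1936080, .ofNat 329644080, .ofNat 14986080, .negSucc 176910479, .ofNat 113127840, .ofNat 4638240, .negSucc 443368799, .negSucc 11861279, .ofNat 365443200, .negSucc 98124479, .ofNat 453600, .ofNat 204081840, .negSucc 8519039, .negSucc 71026559, .ofNat 66728880, .ofNat 8158320],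
  [.ofNat 364735440, .negSucc 10475279, .negSucc 16724159, .negSucc 17370719, .ofNat 29976480, .ofNat 2703600, .ofNat 194366880, .ofNat 99930960, .ofNat 1321920, .negSucc 15901919, .negSucc 9363599, .negSucc 197051039, .negSucc 64203119, .ofNat 15001200, .ofNat 318240, .ofNat 14676480, .ofNat 309016080, .negSucc 38101679, .negSucc 98124479, .ofNat 117097200, .negSucc 13880159, .negSucc 248809679, .ofNat 3123360, .ofNat 40064400, .negSucc 103702319, .ofNat 2839680],
  [.ofNat 27460080, .ofNat 7833600, .negSucc 24225119, .ofNat 12281760, .negSucc 12813839, .negSucc 11087279, .negSucc 67501439, .negSucc 26537039, .negSucc 15883199, .negSucc 24292799, .ofNat 2610720, .ofNat 96726240, .ofNat 14678640, .ofNat 4632480, .ofNat 20059200, .negSucc 18606959, .negSucc 94679999, .negSucc 22795199, .ofNat 453600, .negSucc 13880159, .ofNat 24507360, .ofNat 37026000, .ofNat 10811520, .ofNat 16292160, .ofNat 33819120, .negSucc 4906079],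
  [.negSucc 1483998479, .ofNat 7483680, .ofNat 142753680, .negSucc 45334079, .negSucc 87924239, .ofNat 28118880, .negSucc 889284239, .negSucc 369741599, .ofNat 1097280, .ofNat 62649360, .ofNat 44614800, .ofNat 929329920, .ofNat 194372640, .negSucc 135697679, .negSucc 44537759, .negSucc 67502159, .negSucc 1036065599, .ofNat 103063680, .ofNat 204081840, .negSucc 248809679, .ofNat 37026000, .ofNat 1130202720, .ofNat 31768560, .negSucc 36774719, .ofNat 346243680, .negSucc 22965839],
  [.ofNat 130078800, .ofNat 14628960, .ofNat 62220960, .negSucc 24099119, .negSucc 127439, .negSucc 1793519, .ofNat 62645040, .negSucc 52878959, .negSucc 61633439, .negSucc 62128079, .ofNat 16562160, .negSucc 36095039, .negSucc 15899759, .ofNat 17710560, .ofNat 74957760, .negSucc 24292799, .ofNat 9283680, .negSucc 59747039, .negSucc 8519039, .ofNat 3123360, .ofNat 10811520, .ofNat 31768560, .ofNat 101799360, .ofNat 55447920, .ofNat 40887360, .negSucc 8474399],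
  [.ofNat 111170160, .ofNat 2740320, .negSucc 1429919, .negSucc 7959599, .ofNat 866160, .negSucc 12322079, .ofNat 1088640, .negSucc 27971279, .negSucc 39236399, .negSucc 61634879, .ofNat 3481200, .ofNat 11428560, .ofNat 1326240, .negSucc 6733439, .ofNat 6292080, .negSucc 15883919, .ofNat 52725600, .negSucc 53425439, .negSucc 71026559, .ofNat 40064400, .ofNat 16292160, .negSucc 36774719, .ofNat 55447920, .ofNat 83616480, .ofNat 31018320, .negSucc 7655039],
  [.negSucc 479658239, .ofNat 9225360, .negSucc 34202159, .ofNat 23856480, .ofNat 20998800, .negSucc 7432559, .negSucc 369737279, .negSucc 172563839, .negSucc 27966959, .negSucc 52878239, .ofNat 18915840, .ofNat 347753520, .ofNat 99936000, .negSucc 43833599, .ofNat 3092400, .negSucc 26536319, .negSucc 353543759, .negSucc 2694959, .ofNat 66728880, .negSucc 103702319, .ofNat 33819120, .ofNat 346243680, .ofNat 40887360, .ofNat 31018320, .ofNat 193274640, .negSucc 19588319],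
  [.ofNat 17857440, .negSucc 485999, .ofNat 10908000, .negSucc 2095919, .ofNat 807840, .ofNat 4132800, .ofNat 44616240, .ofNat 18917280, .ofNat 3481200, .ofNat 16562880, .negSucc 3294719, .negSucc 24287759, .negSucc 9365039, .ofNat 1937520, .negSucc 5213519, .ofNat 2610720, .ofNat 11700720, .ofNat 11746080, .ofNat 8158320, .ofNat 2839680, .negSucc 4906079, .negSucc 22965839, .negSucc 8474399, .negSucc 7655039, .negSucc 19588319, .ofNat 5935680]]

/-- Rounded Cholesky factor (lower triangular rows). -/
def lA1 : List (List Int) :=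
 [[.ofNat 3487155],
  [.ofNat 3039, .ofNat 311034],
  [.negSucc 70300, .ofNat 33882, .ofNat 1050760],
  [.ofNat 106972, .negSucc 62362, .negSucc 358118, .ofNat 423013],
  [.ofNat 161474, .negSucc 772587, .negSucc 702448, .ofNat 122621, .ofNat 1011463],
  [.negSucc 56944, .negSucc 132622, .ofNat 10287, .negSucc 41479, .ofNat 244045, .ofNat 120576],
  [.ofNat 1586139, .ofNat 354848, .ofNat 651038, .negSucc 236391, .ofNat 373024, .ofNat 501999, .ofNat 1055803],
  [.ofNat 597819, .negSucc 103709, .negSucc 90011, .negSucc 11564, .negSucc 31199, .ofNat 548622, .ofNat 283144, .ofNat 176624],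
  [.negSucc 164023, .negSucc 160647, .negSucc 11367, .negSucc 68865, .negSucc 215428, .ofNat 252182, .ofNat 105516, .ofNat 179283, .ofNat 360057],
  [.negSucc 232194, .negSucc 21349, .ofNat 227702, .ofNat 15033, .negSucc 80174, .ofNat 511824, .ofNat 127188, .ofNat 30789, .ofNat 66468, .ofNat 136456],
  [.negSucc 31621, .ofNat 54724, .ofNat 38649, .ofNat 28462, .ofNat 46581, .negSucc 59037, .negSucc 65826, .ofNat 3596, .ofNat 16328, .negSucc 65827, .ofNat 37864],
  [.negSucc 1529713, .negSucc 322905, .negSucc 415118, .negSucc 455032, .ofNat 205677, .negSucc 394073, .negSucc 1344066, .negSucc 37385, .ofNat 470259, .ofNat 998788, .negSucc 446128, .ofNat 270177],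
  [.negSucc 495994, .ofNat 40468, .negSucc 99673, .negSucc 121215, .negSucc 164475, .negSucc 246028, .negSucc 24361, .ofNat 12952, .ofNat 296144, .ofNat 137370, .negSucc 86330, .ofNat 48795, .ofNat 25398],
  [.ofNat 297913, .ofNat 872578, .negSucc 141458, .ofNat 321681, .negSucc 127719, .ofNat 265000, .ofNat 129400, .negSucc 52487, .negSucc 499618, .negSucc 345866, .ofNat 186832, .negSucc 90443, .negSucc 20645, .ofNat 48033],
  [.ofNat 384832, .ofNat 104777, .negSucc 15936, .negSucc 89344, .ofNat 495061, .negSucc 151462, .negSucc 326544, .negSucc 235918, .ofNat 212145, .ofNat 27442, .ofNat 89692, .negSucc 29593, .negSucc 503, .ofNat 23131, .ofNat 58433],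
  [.ofNat 1145, .negSucc 146009, .negSucc 89650, .ofNat 21231, .ofNat 8911, .ofNat 102994, .ofNat 198929, .ofNat 13166, .negSucc 9719, .negSucc 113816, .ofNat 57340, .negSucc 38209, .ofNat 2535, .negSucc 2660, .ofNat 3317, .ofNat 18454],
  [.ofNat 1263880, .ofNat 461119, .negSucc 253514, .negSucc 909118, .negSucc 195429, .ofNat 336909, .ofNat 1413263, .ofNat 521921, .negSucc 297404, .negSucc 1006300, .ofNat 256051, .negSucc 151676, .negSucc 4816, .ofNat 616, .negSucc 52425, .negSucc 2991, .ofNat 73283],
  [.negSucc 434762, .ofNat 230205, .negSucc 74784, .ofNat 86537, .negSucc 30238, .ofNat 425257, .ofNat 277032, .negSucc 124298, .negSucc 344784, .negSucc 13489, .ofNat 70348, .negSucc 46877, .negSucc 11521, .ofNat 1967, .ofNat 4422, .ofNat 2124, .negSucc 8836, .ofNat 27391],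
  [.negSucc 244675, .negSucc 469331, .negSucc 134534, .ofNat 267110, .ofNat 793454, .ofNat 124250, .negSucc 197657, .negSucc 443484, .ofNat 315822, .ofNat 367611, .ofNat 38965, .negSucc 17374, .ofNat 6751, .negSucc 4645, .ofNat 73253, .ofNat 2710, .negSucc 34312, .ofNat 16143, .ofNat 30894],
  [.ofNat 428417, .negSucc 142133, .negSucc 31946, .negSucc 324537, .negSucc 38410, .ofNat 106661, .ofNat 68099, .ofNat 299137, .negSucc 182886, .negSucc 146023, .negSucc 44610, .ofNat 22192, .negSucc 10242, .negSucc 6549, .negSucc 44271, .negSucc 3629, .ofNat 26290, .negSucc 3987, .negSucc 7867, .ofNat 21127],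
  [.ofNat 32255, .ofNat 102845, .negSucc 95590, .ofNat 45002, .negSucc 50325, .negSucc 122787, .negSucc 199711, .negSucc 17292, .ofNat 8509, .ofNat 113226, .negSucc 57459, .ofNat 35908, .negSucc 1084, .ofNat 950, .negSucc 3853, .negSucc 2938, .negSucc 1409, .negSucc 351, .negSucc 221, .ofNat 543, .ofNat 17817],
  [.negSucc 1743099, .ofNat 115581, .ofNat 436124, .ofNat 388090, .ofNat 266339, .negSucc 183652, .negSucc 1058978, .negSucc 43945, .negSucc 21814, .ofNat 14971, .ofNat 51169, .ofNat 3885, .negSucc 21975, .ofNat 31214, .ofNat 18046, .negSucc 10332, .negSucc 3220, .negSucc 12370, .negSucc 2718, .ofNat 8877, .ofNat 4696, .ofNat 35085],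
  [.ofNat 152790, .ofNat 191156, .ofNat 246604, .negSucc 35033, .ofNat 296613, .negSucc 411946, .negSucc 119587, .ofNat 15863, .negSucc 52021, .negSucc 129997, .negSucc 2608, .ofNat 13654, .negSucc 2214, .ofNat 9587, .negSucc 9007, .negSucc 6466, .ofNat 11844, .negSucc 11893, .negSucc 4356, .ofNat 2483, .ofNat 2744, .ofNat 8272, .ofNat 20752],
  [.ofNat 130580, .ofNat 34811, .ofNat 2040, .negSucc 103233, .ofNat 23183, .negSucc 401235, .negSucc 45435, .ofNat 247313, .negSucc 205949, .negSucc 9024, .negSucc 172646, .ofNat 95518, .negSucc 2638, .negSucc 8093, .negSucc 61972, .negSucc 7624, .ofNat 20025, .negSucc 14002, .negSucc 13858, .ofNat 5821, .ofNat 3841, .ofNat 4249, .ofNat 8010, .ofNat 22685],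
  [.negSucc 563404, .ofNat 126993, .negSucc 175113, .ofNat 243947, .ofNat 120793, .negSucc 524509, .negSucc 261365, .negSucc 24045, .ofNat 51184, .ofNat 1688, .negSucc 50101, .ofNat 37114, .ofNat 4331, .ofNat 4001, .negSucc 8318, .negSucc 6569, .negSucc 344, .negSucc 10241, .negSucc 2125, .negSucc 561, .ofNat 4832, .ofNat 6773, .ofNat 6838, .ofNat 5929, .ofNat 20890],
  [.ofNat 20975, .negSucc 6604, .ofNat 44137, .ofNat 10794, .ofNat 24222, .ofNat 93956, .ofNat 65768, .negSucc 5966, .negSucc 17947, .ofNat 67593, .negSucc 25659, .ofNat 12595, .negSucc 46, .negSucc 1307, .negSucc 1741, .ofNat 507, .negSucc 2970, .ofNat 1302, .ofNat 14, .negSucc 131, .negSucc 390, .negSucc 1307, .negSucc 112, .ofNat 598, .negSucc 692, .ofNat 16841]]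

theorem okA1 : psdOK 26 4096 gA1 lA1 = true := by decide +kernel

end Pool.Agent.H2AF
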