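import Pool.Agent.Lib.H2AF.PSD

/-! # Certificate A of MP_afe93a, block 2 (P1_T1, sq, size 50): the Gram matrix is positive semidefinite -/

namespace Pool.Agent.H2AF

/-- Gram matrix (integers), block P1_T1, certificate A. -/
def gA2 : List (List Int) :=
 [[.ofNat 3265085034, .ofNat 238626990, .negSucc 39742955, .negSucc 241973279, .negSucc 580955183, .negSucc 28156319, .ofNat 126163440, .negSucc 316606319, .negSucc 320878799, .ofNat 28702080, .negSucc 1161434339, .negSucc 704458799, .ofNat 23038929, .ofNat 675357120, .ofNat 208803420, .negSucc 108306359, .negSucc 101661119, .ofNat 64358640, .ofNat 27430560, .ofNat 714845520, .ofNat 2393185680, .ofNat 959060880, .ofNat 437765940, .negSucc 1340914319, .negSucc 558708110, .negSucc 105264719, .ofNat 376679520, .negSucc 11543039, .negSucc 248204159, .negSucc 303675839, .negSucc 447244559, .ofNat 377488800, .negSucc 482164559, .negSucc 2269303919, .negSucc 521638559, .negSucc 178099919, .negSucc 46445759, .negSucc 78282719, .negSucc 372448799, .ofNat 276109920, .negSucc 694789199, .negSucc 442085759, .negSucc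 34035839, .negSucc 168531839, .negSucc 167390639, .ofNat 69104160, .negSucc 286252559, .ofNat 34587360, .negSucc 39337919, .negSucc 1048856399],
  [.ofNat 238626990, .ofNat 615884040, .negSucc 77901929, .negSucc 36934370, .negSucc 632571019, .ofNat 346731300, .negSucc 181016639, .ofNat 159760800, .negSucc 22593167, .ofNat 146776320, .negSucc 472723739, .negSucc 208401119, .negSucc 236306879, .ofNat 289490940, .negSucc 136361159, .negSucc 44125919, .negSucc 58699979, .negSucc 9923399, .ofNat 51628500, .ofNat 174973320, .ofNat 593568000, .ofNat 640242360, .ofNat 180809640, .ofNat 16203600, .ofNat 238661100, .ofNat 82232100, .ofNat 52282080, .negSucc 8449379, .negSucc 98999459, .negSucc 137475899, .ofNat 336253860, .ofNat 4856400, .ofNat 264685680, .negSucc 391716719, .ofNat 180984600, .negSucc 65728439, .ofNat 54584100, .negSucc 30981599, .ofNat 185984460, .ofNat 230843340, .negSucc 111784859, .negSucc 101049839, .negSucc 110265119, .ofNat 220051620, .negSucc 53176139, .ofNat 79465680, .ofNat 4799880, .ofNat 59667120, .negSucc 82128059, .negSucc 242063279],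
  [.negSucc 39742955, .negSucc 77901929, .ofNat 364713300, .ofNat 48528000, .ofNat 442169460, .negSucc 315096839, .ofNat 6480000, .negSucc 96577199, .ofNat 159784560, .ofNat 36925920, .ofNat 322537860, .ofNat 83610720, .ofNat 86704560, .negSucc 168697439, .negSucc 43739999, .negSucc 15313679, .negSucc 10994219, .ofNat 23974920, .negSucc 3621419, .negSucc 21379319, .ofNat 91121760, .negSucc 422776259, .negSucc 121145579, .ofNat 235924380, .ofNat 240047280, .ofNat 173375820, .ofNat 48805740, .ofNat 21654540, .ofNat 69968520, .ofNat 230650560, .ofNat 8594100, .ofNat 145610640, .negSucc 69621119, .negSucc 167441039, .ofNat 20360160, .negSucc 49564439, .negSucc 54457199, .negSucc 941939, .negSucc 67289219, .ofNat 39319560, .ofNat 35958240, .ofNat 131662800, .ofNat 26820720, .ofNat 72350640, .negSucc 112916159, .negSucc 107558639, .ofNat 40991040, .negSucc 5056559, .ofNat 8087040, .negSucc 59844959],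
  [.negSucc 241973279, .negSucc 36934370, .ofNat 48528000, .ofNat 193603680, .ofNat 265027680, .negSucc 47449439, .negSucc 89736479, .ofNat 36949680, .ofNat 146766960, .negSucc 17852399, .ofNat 166218660, .ofNat 4848480, .negSucc 26770319, .negSucc 92018159, .negSucc 117053999, .negSucc 56156579, .negSucc 133000559, .ofNat 32286960, .ofNat 17603280, .negSucc 57695759, .negSucc 143506799, .negSucc 304817759, .negSucc 96501599, .ofNat 67577040, .ofNat 188017920, .ofNat 55682640, .ofNat 152630640, .negSucc 33655679, .ofNat 40955040, .ofNat 7534800, .negSucc 168606719, .negSucc 112411439, .ofNat 55898640, .ofNat 177045840, .ofNat 138650400, .ofNat 82906560, .negSucc 106249679, .ofNat 29067120, .negSucc 11843999, .negSucc 15884639, .ofNat 176520960, .ofNat 246576240, .ofNat 46809360, .ofNat 238320, .ofNat 969120, .negSucc 20728079, .ofNat 92463840, .ofNat 42381360, .ofNat 34283520, .ofNat 74939040],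
  [.negSucc 580955183, .negSucc 632571019, .ofNat 442169460, .ofNat 265027680, .ofNat 1366555572, .negSucc 644445359, .negSucc 7991999, .negSucc 315042479, .ofNat 346740480, .negSucc 47477519, .ofNat 862089660, .ofNat 419169600, .ofNat 274694400, .negSucc 418196159, .ofNat 31006080, .negSucc 22559759, .negSucc 89281079, .ofNat 57213360, .negSucc 1673819, .negSucc 188567459, .negSucc 565790399, .negSucc 1403111519, .negSucc 300908699, .ofNat 282558240, .ofNat 315797760, .ofNat 246860640, .ofNat 189533520, .ofNat 12353040, .ofNat 171189360, .ofNat 217471680, .negSucc 340199099, .negSucc 118665359, .negSucc 194620319, .ofNat 458308800, .ofNat 73679040, .ofNat 157407840, .negSucc 205359839, .ofNat 54881280, .negSucc 104354639, .negSucc 294464159, .ofNat 344874960, .ofNat 540272160, .ofNat 127852020, .negSucc 145864799, .negSucc 24213599, .negSucc 227131199, .ofNat 154860480, .negSucc 20605679, .ofNat 74309040, .ofNat 284888160],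
  [.negSucc 28156319, .ofNat 346731300, .negSucc 315096839, .negSucc 47449439, .negSucc 644445359, .ofNat 1366650720, .negSucc 8009279, .ofNat 442170720, .negSucc 632586959, .ofNat 265065120, .negSucc 145888559, .ofNat 540321840, .negSucc 227139839, .ofNat 344954160, .negSucc 24235199, .ofNat 127832400, .ofNat 74280960, .negSucc 20570399, .ofNat 154871280, .ofNat 284879520, .ofNat 458187120, .negSucc 118714319, .ofNat 157453920, .negSucc 340495919, .ofNat 73627920, .negSucc 194708159, .negSucc 104343839, .ofNat 54874080, .negSucc 205430399, .negSucc 294489359, .ofNat 282331440, .negSucc 1403161199, .ofNat 246819600, .negSucc 565704719, .ofNat 315759600, .negSucc 300866399, .ofNat 171138960, .ofNat 12322800, .ofNat 189574560, .ofNat 217445760, .negSucc 418206959, .ofNat 419107680, .negSucc 22587839, .ofNat 862011360, .ofNat 30989520, .ofNat 274692240, .negSucc 1664639, .ofNat 57255120, .negSucc 89320319, .negSucc 188566559],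
  [.ofNat 126163440, .negSucc 181016639, .ofNat 6480000, .negSucc 89736479, .negSucc 7991999, .negSucc 8009279, .ofNat 196650720, .ofNat 6475680, .negSucc 181006559, .negSucc 89741519, .ofNat 43185600, .negSucc 10676159, .ofNat 61846560, .negSucc 138234239, .ofNat 56756160, .ofNat 32722560, .ofNat 69086880, .negSucc 34588799, .negSucc 69841439, .negSucc 45408239, .negSucc 84291119, .negSucc 15292079, .negSucc 58094639, .negSucc 83540879, .negSucc 233666639, .negSucc 137903039, .negSucc 119591999, .ofNat 16464960, .ofNat 19495440, .ofNat 68078160, .negSucc 83552399, .negSucc 15275519, .negSucc 137905199, .negSucc 84273839, .negSucc 233661599, .negSucc 58086719, .ofNat 19491840, .ofNat 16463520, .negSucc 119598479, .ofNat 68070960, .negSucc 138224879, .negSucc 10681199, .ofNat 32726160, .ofNat 43170480, .ofNat 56758320, .ofNat 61840080, .negSucc 69839279, .negSucc 34588079, .ofNat 69090480, .negSucc 45404639],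
  [.negSucc 316606319, .ofNat 159760800, .negSucc 96577199, .ofNat 36949680, .negSucc 315042479, .ofNat 442170720, .ofNat 6475680, .ofNat 364694400, .negSucc 77909039, .ofNat 48528720, .ofNat 72369360, .ofNat 131661360, .negSucc 107557199, .ofNat 35940240, .negSucc 112929839, .ofNat 26812800, .ofNat 8069760, .negSucc 5049359, .ofNat 40992480, .negSucc 59856479, .negSucc 167487839, .ofNat 145535040, .negSucc 49567679, .ofNat 8557200, .ofNat 20359440, .negSucc 69644879, .negSucc 67272479, .negSucc 945359, .negSucc 54465119, .ofNat 39340080, .ofNat 235831680, .negSucc 422780399, .ofNat 173361600, .ofNat 91144800, .ofNat 240034320, .negSucc 121120559, .ofNat 69942240, .ofNat 21646080, .ofNat 48800160, .ofNat 230619600, .negSucc 168657119, .ofNat 83643120, .negSucc 15309359, .ofNat 322540560, .negSucc 43736399, .ofNat 86699520, .negSucc 3609359, .ofNat 23991120, .negSucc 10990799, .negSucc 21361679],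
  [.negSucc 320878799, .negSucc 22593167, .ofNat 159784560, .ofNat 146766960, .ofNat 346740480, .negSucc 632586959, .negSucc 181006559, .negSucc 77909039, .ofNat 615885120, .negSucc 36959039, .ofNat 220063680, .negSucc 101093039, .ofNat 79465680, .negSucc 111829679, .negSucc 53167679, .negSucc 110262959, .negSucc 82117439, .ofNat 59648400, .ofNat 4795200, .negSucc 242061119, .negSucc 391638239, .ofNat 4858560, .negSucc 65749679, .ofNat 336413520, .ofNat 181023120, .ofNat 264724560, .ofNat 185978880, .negSucc 30980159, .ofNat 54619920, .ofNat 230870160, .ofNat 16298640, .ofNat 640249920, .ofNat 82248480, .ofNat 593496000, .ofNat 238667760, .ofNat 180784800, .negSucc 98976239, .negSucc 8431199, .ofNat 52254720, .negSucc 137468879, .ofNat 289511280, .negSucc 208330559, .negSucc 44108639, .negSucc 472649759, .negSucc 136350719, .negSucc 236299679, .ofNat 51626160, .negSucc 9941759, .negSucc 58677839, .ofNat 174982320],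
  [.ofNat 28702080, .ofNat 146776320, .ofNat 36925920, .negSucc 17852399, .negSucc 47477519, .ofNat 265065120, .negSucc 89741519, .ofNat 48528720, .negSucc 36959039, .ofNat 193623840, .ofNat 200880, .ofNat 246587040, .negSucc 20735279, .ofNat 176565600, .ofNat 968400, .ofNat 46808640, .ofNat 34278480, .ofNat 42397920, .ofNat 92470320, .ofNat 74946240, .ofNat 177046560, .negSucc 112382639, .ofNat 82936800, .negSucc 168746399, .ofNat 138617280, .ofNat 55867680, .negSucc 11845439, .ofNat 29058480, .negSucc 106282799, .negSucc 15911279, .ofNat 67496400, .negSucc 304854479, .ofNat 55660320, .negSucc 143515439, .ofNat 188003520, .negSucc 96493679, .ofNat 40939920, .negSucc 33662159, .ofNat 152653680, .ofNat 7542000, .negSucc 92036879, .ofNat 4811040, .negSucc 56172239, .ofNat 166209840, .negSucc 117066959, .negSucc 26765999, .ofNat 17599680, .ofNat 32299920, .negSucc 133022879, .negSucc 57711599],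
  [.negSucc 1161434339, .negSucc 472723739, .ofNat 322537860, .ofNat 166218660, .ofNat 862089660, .negSucc 145888559, .ofNat 43185600, .ofNat 72369360, .ofNat 220063680, .ofNat 200880, .ofNat 1347702300, .ofNat 1030753800, .ofNat 189784800, .negSucc 229487759, .ofNat 21585060, .ofNat 28792440, .ofNat 130591980, .ofNat 25659000, .ofNat 24558840, .negSucc 121175459, .negSucc 1187684099, .negSucc 1270662479, .negSucc 242215559, .ofNat 594257040, .ofNat 186216120, .ofNat 109714500, .negSucc 60218999, .ofNat 61717500, .ofNat 122114880, .ofNat 345996900, .ofNat 236020860, .negSucc 329849639, .ofNat 16846020, .ofNat 717112440, .ofNat 339879600, .ofNat 69932700, .negSucc 33911999, .negSucc 14896979, .negSucc 90002519, .negSucc 139885559, .ofNat 29180880, .ofNat 199408500, .ofNat 55166940, .ofNat 129166020, .negSucc 56108699, .negSucc 220535999, .ofNat 117417780, .negSucc 56363759, .ofNat 56391300, .ofNat 324132480],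
  [.negSucc 704458799, .negSucc 208401119, .ofNat 83610720, .ofNat 4848480, .ofNat 419169600, .ofNat 540321840, .negSucc 10676159, .ofNat 131661360, .negSucc 101093039, .ofNat 246587040, .ofNat 1030753800, .ofNat 1639553760, .ofNat 194527440, .ofNat 277172100, .ofNat 166607100, .ofNat 119602440, .ofNat 225367920, .ofNat 31452120, .ofNat 131782320, .ofNat 160425360, .negSucc 742901219, .negSucc 1004509619, .negSucc 47870279, .ofNat 58380480, .negSucc 53905859, .ofNat 118841400, .negSucc 100965239, .ofNat 150983100, .negSucc 114193619, .negSucc 34129979, .ofNat 432364320, .negSucc 1082367359, .ofNat 89336700, .ofNat 502542000, .ofNat 685066320, .negSucc 65775599, .ofNat 110090700, .negSucc 48214799, .ofNat 208159380, .negSucc 24663869, .negSucc 432226079, .negSucc 149955119, .negSucc 41268959, .ofNat 199376640, .negSucc 88252019, .negSucc 173535839, .ofNat 53065260, .negSucc 49279679, .negSucc 154692719, .ofNat 15891480],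
  [.ofNat 23038929, .negSucc 236306879, .ofNat 86704560, .negSucc 26770319, .ofNat 274694400, .negSucc 227139839, .ofNat 61846560, .negSucc 107557199, .ofNat 79465680, .negSucc 20735279, .ofNat 189784800, .ofNat 194527440, .ofNat 177666750, .negSucc 91646099, .ofNat 97586910, .ofNat 21178800, .ofNat 52316640, .ofNat 11452320, .negSucc 5413679, .negSucc 64965239, .negSucc 145354679, .negSucc 207619199, .negSucc 85056659, .ofNat 21000960, .negSucc 184342589, .ofNat 53156880, .negSucc 1972079, .ofNat 40863600, .ofNat 11931120, .ofNat 103830480, .negSucc 119927519, .ofNat 98245080, .negSucc 127418579, .ofNat 163551600, .ofNat 58737240, .negSucc 3322799, .ofNat 13883040, .negSucc 8764559, .negSucc 48046319, .negSucc 105846479, .negSucc 416159, .negSucc 173539439, .ofNat 35034480, .negSucc 220535279, .negSucc 45786239, .negSucc 108346319, .negSucc 27470159, .negSucc 37693439, .negSucc 29290319, .ofNat 26012160],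
  [.ofNat 675357120, .ofNat 289490940, .negSucc 168697439, .negSucc 92018159, .negSucc 418196159, .ofNat 344954160, .negSucc 138234239, .ofNat 35940240, .negSucc 111829679, .ofNat 176565600, .negSucc 229487759, .ofNat 277172100, .negSucc 91646099, .ofNat 834402960, .ofNat 57586860, .ofNat 79826940, .ofNat 26129160, .ofNat 23061420, .ofNat 127785240, .ofNat 438885000, .ofNat 321415200, .ofNat 428975460, .ofNat 233010540, .negSucc 632294999, .ofNat 18501840, .negSucc 31588019, .ofNat 8802540, .ofNat 39537900, .negSucc 139567499, .negSucc 351172799, .ofNat 554289840, .negSucc 213087959, .ofNat 91486260, .negSucc 247065659, .ofNat 125566560, .negSucc 59038919, .ofNat 115214400, .negSucc 106151039, .ofNat 88516800, .ofNat 121911390, .negSucc 518744879, .negSucc 432237599, .negSucc 110064959, .ofNat 29167200, .negSucc 91167119, .negSucc 414719, .negSucc 33954479, .ofNat 38330640, .negSucc 102152879, .negSucc 274921199],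
  [.ofNat 208803420, .negSucc 136361159, .negSucc 43739999, .negSucc 117053999, .ofNat 31006080, .negSucc 24235199, .ofNat 56756160, .negSucc 112929839, .negSucc 53167679, .ofNat 968400, .ofNat 21585060, .ofNat 166607100, .ofNat 97586910, .ofNat 57586860, .ofNat 202239900, .ofNat 28321380, .ofNat 119448000, .negSucc 8049599, .ofNat 20005200, .ofNat 59381640, .ofNat 130083840, .negSucc 23803019, .ofNat 98295840, .ofNat 3332880, .negSucc 192412079, .ofNat 38305260, .negSucc 35305199, .ofNat 21463920, .negSucc 27208799, .negSucc 35669699, .ofNat 118522080, .negSucc 35221679, .negSucc 98989919, .negSucc 156660479, .negSucc 11605679, .negSucc 25945919, .ofNat 73606320, .ofNat 2605680, .negSucc 20702879, .negSucc 123076439, .negSucc 91148399, .negSucc 88263359, .negSucc 10173599, .negSucc 56151359, .negSucc 3124799, .negSucc 45788399, .negSucc 76273919, .negSucc 70230959, .negSucc 26276399, .ofNat 13526100],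
  [.negSucc 108306359, .negSucc 44125919, .negSucc 15313679, .negSucc 56156579, .negSucc 22559759, .ofNat 127832400, .ofNat 32722560, .ofNat 26812800, .negSucc 110262959, .ofNat 46808640, .ofNat 28792440, .ofNat 119602440, .ofNat 21178800, .ofNat 79826940, .ofNat 28321380, .ofNat 100132560, .ofNat 51201540, .negSucc 14960249, .ofNat 25084890, .ofNat 7835760, .negSucc 104919119, .negSucc 69235199, .negSucc 38977379, .negSucc 94266719, .ofNat 13741920, .negSucc 46226879, .negSucc 106109459, .ofNat 36168480, .negSucc 1251359, .negSucc 13584959, .ofNat 148852080, .negSucc 144810719, .ofNat 17367480, .ofNat 126224640, .negSucc 5699159, .negSucc 108434159, .ofNat 82913040, .negSucc 6202079, .ofNat 30091680, .negSucc 15353279, .negSucc 110041199, .negSucc 41267519, .ofNat 8301600, .ofNat 55146240, .negSucc 10169279, .ofNat 35029440, .negSucc 3400559, .negSucc 6190559, .negSucc 24725519, .ofNat 26657280],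
  [.negSucc 101661119, .negSucc 58699979, .negSucc 10994219, .negSucc 133000559, .negSucc 89281079, .ofNat 74280960, .ofNat 69086880, .ofNat 8069760, .negSucc 82117439, .ofNat 34278480, .ofNat 130591980, .ofNat 225367920, .ofNat 52316640, .ofNat 26129160, .ofNat 119448000, .ofNat 51201540, .ofNat 184003200, .ofNat 2207520, .ofNat 1460160, .ofNat 26484300, .negSucc 60258419, .ofNat 33359940, .ofNat 58626000, .ofNat 126405360, .negSucc 93115439, .negSucc 12545999, .negSucc 169085519, .ofNat 24607440, .ofNat 929520, .ofNat 41629680, .ofNat 143696160, .negSucc 50980139, .negSucc 47426399, .negSucc 71723519, .negSucc 43585199, .negSucc 62727119, .ofNat 73081440, .negSucc 17516879, .ofNat 26036640, .negSucc 26378639, .negSucc 102115439, .negSucc 154691999, .negSucc 24726239, .ofNat 56343600, .negSucc 26271359, .negSucc 29296079, .negSucc 47837519, .negSucc 66141359, .negSucc 63045359, .ofNat 34760880],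
  [.ofNat 64358640, .negSucc 9923399, .ofNat 23974920, .ofNat 32286960, .ofNat 57213360, .negSucc 20570399, .negSucc 34588799, .negSucc 5049359, .ofNat 59648400, .ofNat 42397920, .ofNat 25659000, .ofNat 31452120, .ofNat 11452320, .ofNat 23061420, .negSucc 8049599, .negSucc 14960249, .ofNat 2207520, .ofNat 58309920, .ofNat 20355840, .negSucc 3897359, .ofNat 51997320, .negSucc 2645279, .ofNat 23582160, .negSucc 110918159, .ofNat 8038080, .ofNat 21665520, .ofNat 15740640, .negSucc 31949999, .negSucc 22425839, .negSucc 5340959, .negSucc 177352559, .negSucc 42649919, .negSucc 56902319, .negSucc 58131359, .ofNat 30368160, .ofNat 6966000, .negSucc 49237199, .ofNat 4316400, .ofNat 34018560, .ofNat 11653920, .ofNat 38293200, .negSucc 49322159, .negSucc 6201359, .negSucc 56366639, .negSucc 70244639, .negSucc 37689119, .ofNat 14440320, .ofNat 5551200, .negSucc 66160079, .negSucc 8074079],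
  [.ofNat 27430560, .ofNat 51628500, .negSucc 3621419, .ofNat 17603280, .negSucc 1673819, .ofNat 154871280, .negSucc 69841439, .ofNat 40992480, .ofNat 4795200, .ofNat 92470320, .ofNat 24558840, .ofNat 131782320, .negSucc 5413679, .ofNat 127785240, .ofNat 20005200, .ofNat 25084890, .ofNat 1460160, .ofNat 20355840, .ofNat 86231520, .ofNat 60611760, .ofNat 133354800, .negSucc 101060639, .ofNat 42397200, .negSucc 52707599, .ofNat 58518720, .ofNat 57877920, .ofNat 40050720, .ofNat 12316320, .negSucc 54084239, .negSucc 14978879, .ofNat 118740240, .negSucc 192968999, .ofNat 39863520, .negSucc 104157539, .ofNat 194857200, .negSucc 62477999, .ofNat 54738000, .negSucc 13695119, .ofNat 31350960, .negSucc 40919759, .negSucc 33959519, .ofNat 53046720, .negSucc 3407759, .ofNat 117396000, .negSucc 76276079, .negSucc 27468719, .ofNat 5092560, .ofNat 14448960, .negSucc 47845439, .ofNat 7560000],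
  [.ofNat 714845520, .ofNat 174973320, .negSucc 21379319, .negSucc 57695759, .negSucc 188567459, .ofNat 284879520, .negSucc 45408239, .negSucc 59856479, .negSucc 242061119, .ofNat 74946240, .negSucc 121175459, .ofNat 160425360, .negSucc 64965239, .ofNat 438885000, .ofNat 59381640, .ofNat 7835760, .ofNat 26484300, .negSucc 3897359, .ofNat 60611760, .ofNat 602055180, .ofNat 934216020, .ofNat 232041780, .ofNat 147504780, .negSucc 67848479, .negSucc 7212599, .ofNat 62205300, .ofNat 66049200, .negSucc 14417999, .ofNat 8740080, .negSucc 405109439, .ofNat 309016440, .negSucc 435713399, .negSucc 50564879, .negSucc 1026375299, .ofNat 90707400, .negSucc 53500319, .ofNat 51366240, .negSucc 13634639, .negSucc 115998479, .ofNat 210297600, .negSucc 274915439, .ofNat 15832800, .ofNat 26640720, .ofNat 324047520, .ofNat 13520880, .ofNat 26012160, .ofNat 7560720, .negSucc 8046719, .ofNat 34742160, .negSucc 375635519],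
  [.ofNat 2393185680, .ofNat 593568000, .ofNat 91121760, .negSucc 143506799, .negSucc 565790399, .ofNat 458187120, .negSucc 84291119, .negSucc 167487839, .negSucc 391638239, .ofNat 177046560, .negSucc 1187684099, .negSucc 742901219, .negSucc 145354679, .ofNat 321415200, .ofNat 130083840, .negSucc 104919119, .negSucc 60258419, .ofNat 51997320, .ofNat 133354800, .ofNat 934216020, .ofNat 3644735760, .ofNat 889117920, .ofNat 334893600, .ofNat 36205200, .ofNat 135132480, .ofNat 413424720, .ofNat 409549680, .negSucc 101532239, .negSucc 9938159, .negSucc 570859199, .ofNat 19357720, .negSucc 608402879, .negSucc 200148479, .negSucc 3272806079, .ofNat 64874160, .negSucc 423309599, .ofNat 43601580, .ofNat 148101300, .negSucc 217494719, .ofNat 475645760, .negSucc 247015439, .ofNat 502383600, .ofNat 126182880, .ofNat 716870160, .negSucc 156696479, .ofNat 163547280, .negSucc 104183999, .negSucc 58095359, .negSucc 71786159, .negSucc 1026461519],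
  [.ofNat 959060880, .ofNat 640242360, .negSucc 422776259, .negSucc 304817759, .negSucc 1403111519, .negSucc 118714319, .negSucc 15292079, .ofNat 145535040, .ofNat 4858560, .negSucc 112382639, .negSucc 1270662479, .negSucc 1004509619, .negSucc 207619199, .ofNat 428975460, .negSucc 23803019, .negSucc 69235199, .ofNat 33359940, .negSucc 2645279, .negSucc 101060639, .ofNat 232041780, .ofNat 889117920, .ofNat 2772181620, .ofNat 265844160, .negSucc 330979679, .negSucc 783608399, .negSucc 21210479, .negSucc 229123979, .negSucc 230435999, .negSucc 89638559, .negSucc 598130639, .ofNat 317511800, .ofNat 467634240, .negSucc 84059999, .negSucc 608642639, .ofNat 8930880, .ofNat 28924560, .ofNat 144428760, .ofNat 78482160, .ofNat 87354720, .ofNat 733049360, .negSucc 212969519, .negSucc 1082335679, .negSucc 144816479, .negSucc 329925599, .negSucc 35263439, .ofNat 98236800, .negSucc 192967199, .negSucc 42607439, .negSucc 51027839, .negSucc 435763439],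
  [.ofNat 437765940, .ofNat 180809640, .negSucc 121145579, .negSucc 96501599, .negSucc 300908699, .ofNat 157453920, .negSucc 58094639, .negSucc 49567679, .negSucc 65749679, .ofNat 82936800, .negSucc 242215559, .negSucc 47870279, .negSucc 85056659, .ofNat 233010540, .ofNat 98295840, .negSucc 38977379, .ofNat 58626000, .ofNat 23582160, .ofNat 42397200, .ofNat 147504780, .ofNat 334893600, .ofNat 265844160, .ofNat 302919210, .negSucc 226191599, .negSucc 67409999, .negSucc 36545759, .ofNat 8516160, .negSucc 28017359, .negSucc 133854479, .negSucc 100290239, .ofNat 30079620, .ofNat 28875600, .negSucc 21398399, .negSucc 423361439, .negSucc 76137119, .ofNat 45230400, .ofNat 13939920, .negSucc 48338639, .ofNat 64710720, .negSucc 59824079, .negSucc 59081039, .negSucc 65822399, .negSucc 108457199, .ofNat 69914160, .negSucc 25968239, .negSucc 3316319, .negSucc 62487359, .ofNat 6977520, .negSucc 62760239, .negSucc 53536319],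
  [.negSucc 1340914319, .ofNat 16203600, .ofNat 235924380, .ofNat 67577040, .ofNat 282558240, .negSucc 340495919, .negSucc 83540879, .ofNat 8557200, .ofNat 336413520, .negSucc 168746399, .ofNat 594257040, .ofNat 58380480, .ofNat 21000960, .negSucc 632294999, .ofNat 3332880, .negSucc 94266719, .ofNat 126405360, .negSucc 110918159, .negSucc 52707599, .negSucc 67848479, .ofNat 36205200, .negSucc 330979679, .negSucc 226191599, .ofNat 2060265060, .ofNat 481494240, .ofNat 480332160, .ofNat 36852480, .ofNat 14238720, .ofNat 397671840, .ofNat 257005440, .ofNat 678629520, .ofNat 317988000, .ofNat 313710480, .ofNat 19721520, .ofNat 382492080, .ofNat 30152880, .ofNat 80410320, .ofNat 106898400, .negSucc 112062239, .negSucc 153550079, .ofNat 554544720, .ofNat 432562320, .ofNat 148922640, .ofNat 235933200, .ofNat 118620000, .negSucc 119947679, .ofNat 118782720, .negSucc 177348959, .ofNat 143821440, .ofNat 309185280],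
  [.negSucc 558708110, .ofNat 238661100, .ofNat 240047280, .ofNat 188017920, .ofNat 315797760, .ofNat 73627920, .negSucc 233666639, .ofNat 20359440, .ofNat 181023120, .ofNat 138617280, .ofNat 186216120, .negSucc 53905859, .negSucc 184342589, .ofNat 18501840, .negSucc 192412079, .ofNat 13741920, .negSucc 93115439, .ofNat 8038080, .ofNat 58518720, .negSucc 7212599, .ofNat 135132480, .negSucc 783608399, .negSucc 67409999, .ofNat 481494240, .ofNat 1185641190, .ofNat 204889680, .ofNat 157903920, .ofNat 61783200, .ofNat 177776640, .ofNat 157715100, .ofNat 382578480, .ofNat 9023040, .ofNat 392060880, .ofNat 64974240, .negSucc 128748779, .negSucc 76114079, .negSucc 117945359, .negSucc 6914879, .ofNat 155473920, .negSucc 140189579, .ofNat 125622720, .ofNat 685139040, .negSucc 5687279, .ofNat 339895440, .negSucc 11570399, .ofNat 58734000, .ofNat 194868720, .ofNat 30362400, .negSucc 43547759, .ofNat 90766080],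
  [.negSucc 105264719, .ofNat 82232100, .ofNat 173375820, .ofNat 55682640, .ofNat 246860640, .negSucc 194708159, .negSucc 137903039, .negSucc 69644879, .ofNat 264724560, .ofNat 55867680, .ofNat 109714500, .ofNat 118841400, .ofNat 53156880, .negSucc 31588019, .ofNat 38305260, .negSucc 46226879, .negSucc 12545999, .ofNat 21665520, .ofNat 57877920, .ofNat 62205300, .ofNat 413424720, .negSucc 21210479, .negSucc 36545759, .ofNat 480332160, .ofNat 204889680, .ofNat 381894480, .ofNat 144519840, .negSucc 18061199, .ofNat 63815760, .negSucc 42358319, .ofNat 313603920, .negSucc 83916719, .ofNat 67692960, .negSucc 200088719, .ofNat 392004720, .negSucc 21368879, .ofNat 16507440, .ofNat 69467760, .ofNat 64277280, .ofNat 49244580, .ofNat 91567440, .ofNat 89371440, .ofNat 17377200, .ofNat 16792560, .negSucc 98973359, .negSucc 127419119, .ofNat 39869280, .negSucc 56891519, .negSucc 47408399, .negSucc 50536079],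
  [.ofNat 376679520, .ofNat 52282080, .ofNat 48805740, .ofNat 152630640, .ofNat 189533520, .negSucc 104343839, .negSucc 119591999, .negSucc 67272479, .ofNat 185978880, .negSucc 11845439, .negSucc 60218999, .negSucc 100965239, .negSucc 1972079, .ofNat 8802540, .negSucc 35305199, .negSucc 106109459, .negSucc 169085519, .ofNat 15740640, .ofNat 40050720, .ofNat 66049200, .ofNat 409549680, .negSucc 229123979, .ofNat 8516160, .ofNat 36852480, .ofNat 157903920, .ofNat 144519840, .ofNat 338261040, .ofNat 6479280, .negSucc 5669279, .ofNat 8708400, .negSucc 111942719, .ofNat 87341040, .ofNat 64298160, .negSucc 217550879, .ofNat 155494800, .ofNat 64677600, .negSucc 89626319, .ofNat 6314400, .negSucc 67988159, .negSucc 85749839, .ofNat 88484400, .ofNat 208164240, .ofNat 30092400, .negSucc 89960399, .negSucc 20705759, .negSucc 48037679, .ofNat 31340880, .ofNat 34000560, .ofNat 26040240, .negSucc 116017199],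
  [.negSucc 11543039, .negSucc 8449379, .ofNat 21654540, .negSucc 33655679, .ofNat 12353040, .ofNat 54874080, .ofNat 16464960, .negSucc 945359, .negSucc 30980159, .ofNat 29058480, .ofNat 61717500, .ofNat 150983100, .ofNat 40863600, .ofNat 39537900, .ofNat 21463920, .ofNat 36168480, .ofNat 24607440, .negSucc 31949999, .ofNat 12316320, .negSucc 14417999, .negSucc 101532239, .negSucc 230435999, .negSucc 28017359, .ofNat 14238720, .ofNat 61783200, .negSucc 18061199, .ofNat 6479280, .ofNat 92393280, .negSucc 12613679, .ofNat 115207920, .ofNat 106914960, .ofNat 78478560, .ofNat 69473520, .ofNat 148109040, .negSucc 6910559, .negSucc 48333599, .ofNat 44777520, .negSucc 54817919, .ofNat 6300720, .negSucc 103640399, .negSucc 106130879, .negSucc 48175199, .negSucc 6193439, .negSucc 14873039, .ofNat 2616480, .negSucc 8767439, .negSucc 13689359, .ofNat 4314240, .negSucc 17502479, .negSucc 13613759],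
  [.negSucc 248204159, .negSucc 98999459, .ofNat 69968520, .ofNat 40955040, .ofNat 171189360, .negSucc 205430399, .ofNat 19495440, .negSucc 54465119, .ofNat 54619920, .negSucc 106282799, .ofNat 122114880, .negSucc 114193619, .ofNat 11931120, .negSucc 139567499, .negSucc 27208799, .negSucc 1251359, .ofNat 929520, .negSucc 22425839, .negSucc 54084239, .ofNat 8740080, .negSucc 9938159, .negSucc 89638559, .negSucc 133854479, .ofNat 397671840, .ofNat 177776640, .ofNat 63815760, .negSucc 5669279, .negSucc 12613679, .ofNat 184692960, .negSucc 4300559, .ofNat 80439120, .ofNat 144530640, .ofNat 16536240, .ofNat 43688160, .negSucc 117951839, .ofNat 13955760, .negSucc 35745839, .ofNat 44776080, .negSucc 89654399, .negSucc 4121999, .ofNat 115267680, .ofNat 110131200, .ofNat 82929600, .negSucc 33927839, .ofNat 73630800, .ofNat 13875840, .ofNat 54747360, .negSucc 49240799, .ofNat 73111680, .ofNat 51405120],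
  [.negSucc 303675839, .negSucc 137475899, .ofNat 230650560, .ofNat 7534800, .ofNat 217471680, .negSucc 294489359, .ofNat 68078160, .ofNat 39340080, .ofNat 230870160, .negSucc 15911279, .ofNat 345996900, .negSucc 34129979, .ofNat 103830480, .negSucc 351172799, .negSucc 35669699, .negSucc 13584959, .ofNat 41629680, .negSucc 5340959, .negSucc 14978879, .negSucc 405109439, .negSucc 570859199, .negSucc 598130639, .negSucc 100290239, .ofNat 257005440, .ofNat 157715100, .negSucc 42358319, .ofNat 8708400, .ofNat 115207920, .negSucc 4300559, .ofNat 699695280, .negSucc 153362879, .ofNat 733058640, .ofNat 49291920, .ofNat 475627680, .negSucc 140136479, .negSucc 59847839, .negSucc 4083839, .negSucc 103623839, .negSucc 85783679, .negSucc 308184479, .ofNat 121923360, .negSucc 24594479, .negSucc 15330239, .negSucc 139816799, .negSucc 123056639, .negSucc 105849359, .negSucc 40915439, .ofNat 11626560, .negSucc 26341199, .ofNat 210320640],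
  [.negSucc 447244559, .ofNat 336253860, .ofNat 8594100, .negSucc 168606719, .negSucc 340199099, .ofNat 282331440, .negSucc 83552399, .ofNat 235831680, .ofNat 16298640, .ofNat 67496400, .ofNat 236020860, .ofNat 432364320, .negSucc 119927519, .ofNat 554289840, .ofNat 118522080, .ofNat 148852080, .ofNat 143696160, .negSucc 177352559, .ofNat 118740240, .ofNat 309016440, .ofNat 19357720, .ofNat 317511800, .ofNat 30079620, .ofNat 678629520, .ofNat 382578480, .ofNat 313603920, .negSucc 111942719, .ofNat 106914960, .ofNat 80439120, .negSucc 153362879, .ofNat 2059763760, .negSucc 330662159, .ofNat 480297600, .ofNat 36499680, .ofNat 481308480, .negSucc 226010879, .ofNat 397530720, .ofNat 14181840, .ofNat 36766080, .ofNat 256749120, .negSucc 631967759, .ofNat 58618080, .negSucc 94224239, .ofNat 594136800, .ofNat 3413520, .ofNat 20968560, .negSucc 52644239, .negSucc 110843999, .ofNat 126483120, .negSucc 67657679],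
  [.ofNat 377488800, .ofNat 4856400, .ofNat 145610640, .negSucc 112411439, .negSucc 118665359, .negSucc 1403161199, .negSucc 15275519, .negSucc 422780399, .ofNat 640249920, .negSucc 304854479, .negSucc 329849639, .negSucc 1082367359, .ofNat 98245080, .negSucc 213087959, .negSucc 35221679, .negSucc 144810719, .negSucc 50980139, .negSucc 42649919, .negSucc 192968999, .negSucc 435713399, .negSucc 608402879, .ofNat 467634240, .ofNat 28875600, .ofNat 317988000, .ofNat 9023040, .negSucc 83916719, .ofNat 87341040, .ofNat 78478560, .ofNat 144530640, .ofNat 733058640, .negSucc 330662159, .ofNat 2772134640, .negSucc 21170879, .ofNat 888878880, .negSucc 783527039, .ofNat 265780800, .negSucc 89571599, .negSucc 230383439, .negSucc 229191839, .negSucc 598097519, .ofNat 429018480, .negSucc 1004327999, .negSucc 69188399, .negSucc 1270472399, .negSucc 23782319, .negSucc 207620639, .negSucc 101060639, .negSucc 2707919, .ofNat 33420960, .ofNat 232058160],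
  [.negSucc 482164559, .ofNat 264685680, .negSucc 69621119, .ofNat 55898640, .negSucc 194620319, .ofNat 246819600, .negSucc 137905199, .ofNat 173361600, .ofNat 82248480, .ofNat 55660320, .ofNat 16846020, .ofNat 89336700, .negSucc 127418579, .ofNat 91486260, .negSucc 98989919, .ofNat 17367480, .negSucc 47426399, .negSucc 56902319, .ofNat 39863520, .negSucc 50564879, .negSucc 200148479, .negSucc 84059999, .negSucc 21398399, .ofNat 313710480, .ofNat 392060880, .ofNat 67692960, .ofNat 64298160, .ofNat 69473520, .ofNat 16536240, .ofNat 49291920, .ofNat 480297600, .negSucc 21170879, .ofNat 381903840, .ofNat 413457120, .ofNat 204868800, .negSucc 36519119, .ofNat 63800640, .negSucc 18065519, .ofNat 144486720, .negSucc 42416639, .negSucc 31501439, .ofNat 118956240, .negSucc 46205279, .ofNat 109749600, .ofNat 38330640, .ofNat 53153280, .ofNat 57897360, .ofNat 21672000, .negSucc 12512159, .ofNat 62267040],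
  [.negSucc 2269303919, .negSucc 391716719, .negSucc 167441039, .ofNat 177045840, .ofNat 458308800, .negSucc 565704719, .negSucc 84273839, .ofNat 91144800, .ofNat 593496000, .negSucc 143515439, .ofNat 717112440, .ofNat 502542000, .ofNat 163551600, .negSucc 247065659, .negSucc 156660479, .ofNat 126224640, .negSucc 71723519, .negSucc 58131359, .negSucc 104157539, .negSucc 1026375299, .negSucc 3272806079, .negSucc 608642639, .negSucc 423361439, .ofNat 19721520, .ofNat 64974240, .negSucc 200088719, .negSucc 217550879, .ofNat 148109040, .ofNat 43688160, .ofNat 475627680, .ofNat 36499680, .ofNat 888878880, .ofNat 413457120, .ofNat 3644609760, .ofNat 135225360, .ofNat 334844640, .negSucc 9866159, .negSucc 101508479, .ofNat 409476240, .negSucc 570880799, .ofNat 321442560, .negSucc 742659119, .negSucc 104861519, .negSucc 1187406719, .ofNat 130121280, .negSucc 145352159, .ofNat 133385040, .ofNat 51958080, .negSucc 60186239, .ofNat 934307280],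
  [.negSucc 521638559, .ofNat 180984600, .ofNat 20360160, .ofNat 138650400, .ofNat 73679040, .ofNat 315759600, .negSucc 233661599, .ofNat 240034320, .ofNat 238667760, .ofNat 188003520, .ofNat 339879600, .ofNat 685066320, .ofNat 58737240, .ofNat 125566560, .negSucc 11605679, .negSucc 5699159, .negSucc 43585199, .ofNat 30368160, .ofNat 194857200, .ofNat 90707400, .ofNat 64874160, .ofNat 8930880, .negSucc 76137119, .ofNat 382492080, .negSucc 128748779, .ofNat 392004720, .ofNat 155494800, .negSucc 6910559, .negSucc 117951839, .negSucc 140136479, .ofNat 481308480, .negSucc 783527039, .ofNat 204868800, .ofNat 135225360, .ofNat 1185572880, .negSucc 67378319, .ofNat 177737760, .ofNat 61765920, .ofNat 157888800, .ofNat 157660560, .ofNat 18569520, .negSucc 53879039, .ofNat 13752000, .ofNat 186162480, .negSucc 192403439, .negSucc 184338719, .ofNat 58530240, .ofNat 8066160, .negSucc 93108239, .negSucc 7176239],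
  [.negSucc 178099919, .negSucc 65728439, .negSucc 49564439, .ofNat 82906560, .ofNat 157407840, .negSucc 300866399, .negSucc 58086719, .negSucc 121120559, .ofNat 180784800, .negSucc 96493679, .ofNat 69932700, .negSucc 65775599, .negSucc 3322799, .negSucc 59038919, .negSucc 25945919, .negSucc 108434159, .negSucc 62727119, .ofNat 6966000, .negSucc 62477999, .negSucc 53500319, .negSucc 423309599, .ofNat 28924560, .ofNat 45230400, .ofNat 30152880, .negSucc 76114079, .negSucc 21368879, .ofNat 64677600, .negSucc 48333599, .ofNat 13955760, .negSucc 59847839, .negSucc 226010879, .ofNat 265780800, .negSucc 36519119, .ofNat 334844640, .negSucc 67378319, .ofNat 302873040, .negSucc 133811999, .negSucc 28005119, .ofNat 8518320, .negSucc 100249919, .ofNat 232941600, .negSucc 47872799, .negSucc 38977919, .negSucc 242150399, .ofNat 98290800, .negSucc 85044239, .ofNat 42387840, .ofNat 23559840, .ofNat 58628160, .ofNat 147488400],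
  [.negSucc 46445759, .ofNat 54584100, .negSucc 54457199, .negSucc 106249679, .negSucc 205359839, .ofNat 171138960, .ofNat 19491840, .ofNat 69942240, .negSucc 98976239, .ofNat 40939920, .negSucc 33911999, .ofNat 110090700, .ofNat 13883040, .ofNat 115214400, .ofNat 73606320, .ofNat 82913040, .ofNat 73081440, .negSucc 49237199, .ofNat 54738000, .ofNat 51366240, .ofNat 43601580, .ofNat 144428760, .ofNat 13939920, .ofNat 80410320, .negSucc 117945359, .ofNat 16507440, .negSucc 89626319, .ofNat 44777520, .negSucc 35745839, .negSucc 4083839, .ofNat 397530720, .negSucc 89571599, .ofNat 63800640, .negSucc 9866159, .ofNat 177737760, .negSucc 133811999, .ofNat 184656240, .negSucc 12627359, .negSucc 5683679, .negSucc 4354559, .negSucc 139494239, .negSucc 114157439, .negSucc 1243439, .ofNat 122073120, .negSucc 27195119, .ofNat 11922480, .negSucc 54069839, .negSucc 22406399, .ofNat 941040, .ofNat 8777520],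
  [.negSucc 78282719, .negSucc 30981599, .negSucc 941939, .ofNat 29067120, .ofNat 54881280, .ofNat 12322800, .ofNat 16463520, .ofNat 21646080, .negSucc 8431199, .negSucc 33662159, .negSucc 14896979, .negSucc 48214799, .negSucc 8764559, .negSucc 106151039, .ofNat 2605680, .negSucc 6202079, .negSucc 17516879, .ofNat 4316400, .negSucc 13695119, .negSucc 13634639, .ofNat 148101300, .ofNat 78482160, .negSucc 48338639, .ofNat 106898400, .negSucc 6914879, .ofNat 69467760, .ofNat 6314400, .negSucc 54817919, .ofNat 44776080, .negSucc 103623839, .ofNat 14181840, .negSucc 230383439, .negSucc 18065519, .negSucc 101508479, .ofNat 61765920, .negSucc 28005119, .negSucc 12627359, .ofNat 92389680, .ofNat 6477840, .ofNat 115196400, .ofNat 39560400, .ofNat 150973920, .ofNat 36168480, .ofNat 61682400, .ofNat 21464640, .ofNat 40861440, .ofNat 12317040, .negSucc 31943519, .ofNat 24606000, .negSucc 14416559],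
  [.negSucc 372448799, .ofNat 185984460, .negSucc 67289219, .negSucc 11843999, .negSucc 104354639, .ofNat 189574560, .negSucc 119598479, .ofNat 48800160, .ofNat 52254720, .ofNat 152653680, .negSucc 90002519, .ofNat 208159380, .negSucc 48046319, .ofNat 88516800, .negSucc 20702879, .ofNat 30091680, .ofNat 26036640, .ofNat 34018560, .ofNat 31350960, .negSucc 115998479, .negSucc 217494719, .ofNat 87354720, .ofNat 64710720, .negSucc 112062239, .ofNat 155473920, .ofNat 64277280, .negSucc 67988159, .ofNat 6300720, .negSucc 89654399, .negSucc 85783679, .ofNat 36766080, .negSucc 229191839, .ofNat 144486720, .ofNat 409476240, .ofNat 157888800, .ofNat 8518320, .negSucc 5683679, .ofNat 6477840, .ofNat 338276160, .ofNat 8713440, .ofNat 8802000, .negSucc 100958399, .negSucc 106115759, .negSucc 60206399, .negSucc 35318879, .negSucc 1967039, .ofNat 40050000, .ofNat 15752160, .negSucc 169105679, .ofNat 66037680],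
  [.ofNat 276109920, .ofNat 230843340, .ofNat 39319560, .negSucc 15884639, .negSucc 294464159, .ofNat 217445760, .ofNat 68070960, .ofNat 230619600, .negSucc 137468879, .ofNat 7542000, .negSucc 139885559, .negSucc 24663869, .negSucc 105846479, .ofNat 121911390, .negSucc 123076439, .negSucc 15353279, .negSucc 26378639, .ofNat 11653920, .negSucc 40919759, .ofNat 210297600, .ofNat 475645760, .ofNat 733049360, .negSucc 59824079, .negSucc 153550079, .negSucc 140189579, .ofNat 49244580, .negSucc 85749839, .negSucc 103640399, .negSucc 4121999, .negSucc 308184479, .ofNat 256749120, .negSucc 598097519, .negSucc 42416639, .negSucc 570880799, .ofNat 157660560, .negSucc 100249919, .negSucc 4354559, .ofNat 115196400, .ofNat 8713440, .ofNat 699669360, .negSucc 351121679, .negSucc 34150319, .negSucc 13585679, .ofNat 345922560, .negSucc 35681759, .ofNat 103824720, .negSucc 14975279, .negSucc 5311439, .ofNat 41608800, .negSucc 405118799],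
  [.negSucc 694789199, .negSucc 111784859, .ofNat 35958240, .ofNat 176520960, .ofNat 344874960, .negSucc 418206959, .negSucc 138224879, .negSucc 168657119, .ofNat 289511280, .negSucc 92036879, .ofNat 29180880, .negSucc 432226079, .negSucc 416159, .negSucc 518744879, .negSucc 91148399, .negSucc 110041199, .negSucc 102115439, .ofNat 38293200, .negSucc 33959519, .negSucc 274915439, .negSucc 247015439, .negSucc 212969519, .negSucc 59081039, .ofNat 554544720, .ofNat 125622720, .ofNat 91567440, .ofNat 88484400, .negSucc 106130879, .ofNat 115267680, .ofNat 121923360, .negSucc 631967759, .ofNat 429018480, .negSucc 31501439, .ofNat 321442560, .ofNat 18569520, .ofNat 232941600, .negSucc 139494239, .ofNat 39560400, .ofNat 8802000, .negSucc 351121679, .ofNat 834328080, .ofNat 277133040, .ofNat 79832160, .negSucc 229451039, .ofNat 57591360, .negSucc 91635119, .ofNat 127769760, .ofNat 23018400, .ofNat 26144640, .ofNat 438864480],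
  [.negSucc 442085759, .negSucc 101049839, .ofNat 131662800, .ofNat 246576240, .ofNat 540272160, .ofNat 419107680, .negSucc 10681199, .ofNat 83643120, .negSucc 208330559, .ofNat 4811040, .ofNat 199408500, .negSucc 149955119, .negSucc 173539439, .negSucc 432237599, .negSucc 88263359, .negSucc 41267519, .negSucc 154691999, .negSucc 49322159, .ofNat 53046720, .ofNat 15832800, .ofNat 502383600, .negSucc 1082335679, .negSucc 65822399, .ofNat 432562320, .ofNat 685139040, .ofNat 89371440, .ofNat 208164240, .negSucc 48175199, .ofNat 110131200, .negSucc 24594479, .ofNat 58618080, .negSucc 1004327999, .ofNat 118956240, .negSucc 742659119, .negSucc 53879039, .negSucc 47872799, .negSucc 114157439, .ofNat 150973920, .negSucc 100958399, .negSucc 34150319, .ofNat 277133040, .ofNat 1639488960, .ofNat 119592000, .ofNat 1030692960, .ofNat 166634640, .ofNat 194526000, .ofNat 131776560, .ofNat 31434480, .ofNat 225390960, .ofNat 160444800],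
  [.negSucc 34035839, .negSucc 110265119, .ofNat 26820720, .ofNat 46809360, .ofNat 127852020, .negSucc 22587839, .ofNat 32726160, .negSucc 15309359, .negSucc 44108639, .negSucc 56172239, .ofNat 55166940, .negSucc 41268959, .ofNat 35034480, .negSucc 110064959, .negSucc 10173599, .ofNat 8301600, .negSucc 24726239, .negSucc 6201359, .negSucc 3407759, .ofNat 26640720, .ofNat 126182880, .negSucc 144816479, .negSucc 108457199, .ofNat 148922640, .negSucc 5687279, .ofNat 17377200, .ofNat 30092400, .negSucc 6193439, .ofNat 82929600, .negSucc 15330239, .negSucc 94224239, .negSucc 69188399, .negSucc 46205279, .negSucc 104861519, .ofNat 13752000, .negSucc 38977919, .negSucc 1243439, .ofNat 36168480, .negSucc 106115759, .negSucc 13585679, .ofNat 79832160, .ofNat 119592000, .ofNat 100141920, .ofNat 28775520, .ofNat 28330560, .ofNat 21176640, .ofNat 25083360, .negSucc 14963759, .ofNat 51211440, .ofNat 7845840],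
  [.negSucc 168531839, .ofNat 220051620, .ofNat 72350640, .ofNat 238320, .negSucc 145864799, .ofNat 862011360, .ofNat 43170480, .ofNat 322540560, .negSucc 472649759, .ofNat 166209840, .ofNat 129166020, .ofNat 199376640, .negSucc 220535279, .ofNat 29167200, .negSucc 56151359, .ofNat 55146240, .ofNat 56343600, .negSucc 56366639, .ofNat 117396000, .ofNat 324047520, .ofNat 716870160, .negSucc 329925599, .ofNat 69914160, .ofNat 235933200, .ofNat 339895440, .ofNat 16792560, .negSucc 89960399, .negSucc 14873039, .negSucc 33927839, .negSucc 139816799, .ofNat 594136800, .negSucc 1270472399, .ofNat 109749600, .negSucc 1187406719, .ofNat 186162480, .negSucc 242150399, .ofNat 122073120, .ofNat 61682400, .negSucc 60206399, .ofNat 345922560, .negSucc 229451039, .ofNat 1030692960, .ofNat 28775520, .ofNat 1347557040, .ofNat 21606480, .ofNat 189774720, .ofNat 24570000, .ofNat 25690320, .ofNat 130594320, .negSucc 121135679],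
  [.negSucc 167390639, .negSucc 53176139, .negSucc 112916159, .ofNat 969120, .negSucc 24213599, .ofNat 30989520, .ofNat 56758320, .negSucc 43736399, .negSucc 136350719, .negSucc 117066959, .negSucc 56108699, .negSucc 88252019, .negSucc 45786239, .negSucc 91167119, .negSucc 3124799, .negSucc 10169279, .negSucc 26271359, .negSucc 70244639, .negSucc 76276079, .ofNat 13520880, .negSucc 156696479, .negSucc 35263439, .negSucc 25968239, .ofNat 118620000, .negSucc 11570399, .negSucc 98973359, .negSucc 20705759, .ofNat 2616480, .ofNat 73630800, .negSucc 123056639, .ofNat 3413520, .negSucc 23782319, .ofNat 38330640, .ofNat 130121280, .negSucc 192403439, .ofNat 98290800, .negSucc 27195119, .ofNat 21464640, .negSucc 35318879, .negSucc 35681759, .ofNat 57591360, .ofNat 166634640, .ofNat 28330560, .ofNat 21606480, .ofNat 202250880, .ofNat 97584480, .ofNat 20009520, .negSucc 8057519, .ofNat 119466000, .ofNat 59402160],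
  [.ofNat 69104160, .ofNat 79465680, .negSucc 107558639, .negSucc 20728079, .negSucc 227131199, .ofNat 274692240, .ofNat 61840080, .ofNat 86699520, .negSucc 236299679, .negSucc 26765999, .negSucc 220535999, .negSucc 173535839, .negSucc 108346319, .negSucc 414719, .negSucc 45788399, .ofNat 35029440, .negSucc 29296079, .negSucc 37689119, .negSucc 27468719, .ofNat 26012160, .ofNat 163547280, .ofNat 98236800, .negSucc 3316319, .negSucc 119947679, .ofNat 58734000, .negSucc 127419119, .negSucc 48037679, .negSucc 8767439, .ofNat 13875840, .negSucc 105849359, .ofNat 20968560, .negSucc 207620639, .ofNat 53153280, .negSucc 145352159, .negSucc 184338719, .negSucc 85044239, .ofNat 11922480, .ofNat 40861440, .negSucc 1967039, .ofNat 103824720, .negSucc 91635119, .ofNat 194526000, .ofNat 21176640, .ofNat 189774720, .ofNat 97584480, .ofNat 177661440, .negSucc 5410799, .ofNat 11456640, .ofNat 52312320, .negSucc 64964159],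
  [.negSucc 286252559, .ofNat 4799880, .ofNat 40991040, .ofNat 92463840, .ofNat 154860480, .negSucc 1664639, .negSucc 69839279, .negSucc 3609359, .ofNat 51626160, .ofNat 17599680, .ofNat 117417780, .ofNat 53065260, .negSucc 27470159, .negSucc 33954479, .negSucc 76273919, .negSucc 3400559, .negSucc 47837519, .ofNat 14440320, .ofNat 5092560, .ofNat 7560720, .negSucc 104183999, .negSucc 192967199, .negSucc 62487359, .ofNat 118782720, .ofNat 194868720, .ofNat 39869280, .ofNat 31340880, .negSucc 13689359, .ofNat 54747360, .negSucc 40915439, .negSucc 52644239, .negSucc 101060639, .ofNat 57897360, .ofNat 133385040, .ofNat 58530240, .ofNat 42387840, .negSucc 54069839, .ofNat 12317040, .ofNat 40050000, .negSucc 14975279, .ofNat 127769760, .ofNat 131776560, .ofNat 25083360, .ofNat 24570000, .ofNat 20009520, .negSucc 5410799, .ofNat 86231520, .ofNat 20350080, .ofNat 1465920, .ofNat 60617520],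
  [.ofNat 34587360, .ofNat 59667120, .negSucc 5056559, .ofNat 42381360, .negSucc 20605679, .ofNat 57255120, .negSucc 34588079, .ofNat 23991120, .negSucc 9941759, .ofNat 32299920, .negSucc 56363759, .negSucc 49279679, .negSucc 37693439, .ofNat 38330640, .negSucc 70230959, .negSucc 6190559, .negSucc 66141359, .ofNat 5551200, .ofNat 14448960, .negSucc 8046719, .negSucc 58095359, .negSucc 42607439, .ofNat 6977520, .negSucc 177348959, .ofNat 30362400, .negSucc 56891519, .ofNat 34000560, .ofNat 4314240, .negSucc 49240799, .ofNat 11626560, .negSucc 110843999, .negSucc 2707919, .ofNat 21672000, .ofNat 51958080, .ofNat 8066160, .ofNat 23559840, .negSucc 22406399, .negSucc 31943519, .ofNat 15752160, .negSucc 5311439, .ofNat 23018400, .ofNat 31434480, .negSucc 14963759, .ofNat 25690320, .negSucc 8057519, .ofNat 11456640, .ofNat 20350080, .ofNat 58300560, .ofNat 2199600, .negSucc 3914639],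
  [.negSucc 39337919, .negSucc 82128059, .ofNat 8087040, .ofNat 34283520, .ofNat 74309040, .negSucc 89320319, .ofNat 69090480, .negSucc 10990799, .negSucc 58677839, .negSucc 133022879, .ofNat 56391300, .negSucc 154692719, .negSucc 29290319, .negSucc 102152879, .negSucc 26276399, .negSucc 24725519, .negSucc 63045359, .negSucc 66160079, .negSucc 47845439, .ofNat 34742160, .negSucc 71786159, .negSucc 51027839, .negSucc 62760239, .ofNat 143821440, .negSucc 43547759, .negSucc 47408399, .ofNat 26040240, .negSucc 17502479, .ofNat 73111680, .negSucc 26341199, .ofNat 126483120, .ofNat 33420960, .negSucc 12512159, .negSucc 60186239, .negSucc 93108239, .ofNat 58628160, .ofNat 941040, .ofNat 24606000, .negSucc 169105679, .ofNat 41608800, .ofNat 26144640, .ofNat 225390960, .ofNat 51211440, .ofNat 130594320, .ofNat 119466000, .ofNat 52312320, .ofNat 1465920, .ofNat 2199600, .ofNat 184026960, .ofNat 26510400],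
  [.negSucc 1048856399, .negSucc 242063279, .negSucc 59844959, .ofNat 74939040, .ofNat 284888160, .negSucc 188566559, .negSucc 45404639, .negSucc 21361679, .ofNat 174982320, .negSucc 57711599, .ofNat 324132480, .ofNat 15891480, .ofNat 26012160, .negSucc 274921199, .ofNat 13526100, .ofNat 26657280, .ofNat 34760880, .negSucc 8074079, .ofNat 7560000, .negSucc 375635519, .negSucc 1026461519, .negSucc 435763439, .negSucc 53536319, .ofNat 309185280, .ofNat 90766080, .negSucc 50536079, .negSucc 116017199, .negSucc 13613759, .ofNat 51405120, .ofNat 210320640, .negSucc 67657679, .ofNat 232058160, .ofNat 62267040, .ofNat 934307280, .negSucc 7176239, .ofNat 147488400, .ofNat 8777520, .negSucc 14416559, .ofNat 66037680, .negSucc 405118799, .ofNat 438864480, .ofNat 160444800, .ofNat 7845840, .negSucc 121135679, .ofNat 59402160, .negSucc 64964159, .ofNat 60617520, .negSucc 3914639, .ofNat 26510400, .ofNat 602087040]]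

/-- Rounded Cholesky factor (lower triangular rows). -/
def lA2 : List (List Int) :=
 [[.ofNat 3656748],
  [.ofNat 267291, .ofNat 1565004],
  [.negSucc 44516, .negSucc 196284, .ofNat 1204731],
  [.negSucc 271038, .negSucc 50374, .ofNat 146769, .ofNat 832755],
  [.negSucc 650739, .negSucc 1544451, .ofNat 1227663, .ofNat 781975, .ofNat 817310],
  [.negSucc 31537, .ofNat 912868, .negSucc 923739, .negSucc 25624, .negSucc 117716, .ofNat 1973244],
  [.ofNat 141318, .negSucc 497900, .negSucc 53868, .negSucc 416008, .negSucc 389468, .ofNat 162119, .ofNat 426253],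
  [.negSucc 354636, .ofNat 478703, .negSucc 263465, .ofNat 141708, .negSucc 696457, .ofNat 527673, .ofNat 6926, .ofNat 532775],
  [.negSucc 359422, .ofNat 2255, .ofNat 530342, .ofNat 511574, .ofNat 169729, .negSucc 1054852, .negSucc 494970, .ofNat 559012, .ofNat 386668],
  [.ofNat 32150, .ofNat 378659, .ofNat 188428, .negSucc 87648, .ofNat 304030, .ofNat 480760, .negSucc 397491, .ofNat 97205, .ofNat 22418, .ofNat 334641],
  [.negSucc 1300946, .negSucc 1015041, .ofNat 883154, .ofNat 177089, .negSucc 129494, .ofNat 553965, .negSucc 383931, .ofNat 279121, .ofNat 355280, .negSucc 414017, .ofNat 1066546],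
  [.negSucc 789078, .negSucc 410667, .ofNat 188203, .negSucc 290987, .ofNat 692113, .ofNat 1424571, .negSucc 490315, .ofNat 526627, .ofNat 518390, .negSucc 68981, .ofNat 1328006, .ofNat 859646],
  [.ofNat 25806, .negSucc 622880, .ofNat 194258, .negSucc 195189, .ofNat 115112, .negSucc 87647, .negSucc 169266, .ofNat 137403, .ofNat 156249, .ofNat 57927, .negSucc 27865, .ofNat 369725, .ofNat 166000],
  [.ofNat 756482, .ofNat 628468, .negSucc 443210, .negSucc 90256, .ofNat 446184, .ofNat 255357, .negSucc 678571, .ofNat 359179, .negSucc 644926, .negSucc 36105, .ofNat 805600, .ofNat 133778, .negSucc 315104, .ofNat 454695],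
  [.ofNat 233885, .negSucc 396835, .negSucc 204726, .negSucc 487543, .ofNat 365695, .ofNat 56663, .negSucc 184806, .ofNat 96800, .ofNat 199885, .negSucc 248674, .ofNat 981, .ofNat 3700, .negSucc 52858, .negSucc 136825, .ofNat 175534],
  [.negSucc 121315, .negSucc 94767, .negSucc 71988, .negSucc 308742, .ofNat 14794, .ofNat 270427, .negSucc 155790, .ofNat 10584, .negSucc 256506, .ofNat 78606, .negSucc 98276, .ofNat 81913, .negSucc 112969, .ofNat 227369, .negSucc 75716, .ofNat 166414],
  [.negSucc 113872, .negSucc 134183, .negSucc 63449, .negSucc 688174, .negSucc 37936, .ofNat 173544, .negSucc 235430, .ofNat 40059, .ofNat 153365, .negSucc 78589, .ofNat 130157, .negSucc 29587, .negSucc 114294, .negSucc 121200, .negSucc 11682, .negSucc 257340, .ofNat 113569],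
  [.ofNat 72089, .negSucc 38283, .ofNat 77939, .ofNat 166218, .negSucc 4321, .ofNat 14551, .negSucc 238403, .ofNat 20934, .ofNat 78429, .ofNat 243501, .ofNat 26919, .negSucc 1831, .negSucc 167977, .negSucc 159553, .ofNat 4482, .negSucc 114477, .ofNat 65127, .ofNat 42124],
  [.ofNat 30726, .ofNat 129877, .ofNat 9983, .ofNat 102681, .ofNat 148263, .ofNat 276736, .negSucc 397916, .ofNat 121435, .negSucc 66001, .negSucc 32580, .negSucc 61333, .ofNat 3351, .ofNat 50809, .ofNat 6627, .ofNat 181954, .ofNat 49490, .negSucc 49558, .negSucc 1591, .ofNat 35914],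
  [.ofNat 800713, .ofNat 321192, .ofNat 9231, .negSucc 5369, .ofNat 290730, .ofNat 477147, .negSucc 246534, .negSucc 299113, .negSucc 536390, .negSucc 649277, .ofNat 513893, .ofNat 144296, .ofNat 3478, .negSucc 262370, .negSucc 331974, .negSucc 137317, .ofNat 174456, .ofNat 7385, .negSucc 72958, .ofNat 171069],
  [.ofNat 2680657, .ofNat 1095677, .ofNat 587380, .ofNat 129384, .ofNat 363234, .ofNat 785372, .negSucc 185177, .negSucc 532330, .negSucc 124421, .negSucc 1142442, .negSucc 1449719, .ofNat 208972, .negSucc 205667, .negSucc 1036678, .negSucc 269611, .negSucc 415182, .ofNat 457888, .ofNat 66263, .negSucc 88043, .ofNat 233789, .ofNat 87829],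
  [.ofNat 1074264, .ofNat 1492195, .negSucc 1154591, .negSucc 855879, .negSucc 803522, .negSucc 1519129, .ofNat 102283, .ofNat 602754, .negSucc 774751, .ofNat 169488, .negSucc 156801, .ofNat 452234, .negSucc 349025, .negSucc 1145159, .negSucc 281534, .ofNat 49065, .ofNat 234325, .ofNat 149904, .negSucc 141512, .ofNat 307068, .ofNat 2948, .ofNat 121412],
  [.ofNat 490351, .ofNat 389475, .negSucc 330309, .negSucc 233282, .ofNat 337724, .ofNat 16984, .negSucc 233176, .negSucc 78229, .ofNat 231422, .ofNat 51236, .ofNat 262337, .negSucc 524415, .negSucc 23214, .negSucc 244792, .ofNat 197069, .negSucc 72805, .negSucc 44452, .ofNat 107, .ofNat 9423, .negSucc 5555, .negSucc 23299, .ofNat 9348, .ofNat 30665],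
  [.negSucc 1501985, .ofNat 298937, .ofNat 795331, .negSucc 278559, .negSucc 143055, .negSucc 508923, .negSucc 64125, .negSucc 417320, .ofNat 639106, .negSucc 1916853, .negSucc 501592, .ofNat 187154, .ofNat 291960, .negSucc 439841, .negSucc 165693, .negSucc 385500, .ofNat 274663, .negSucc 47113, .negSucc 42126, .ofNat 103363, .ofNat 65460, .negSucc 51938, .negSucc 12960, .ofNat 47059],
  [.negSucc 625820, .ofNat 731520, .ofNat 912204, .ofNat 604579, .ofNat 518058, .ofNat 270204, .negSucc 107498, .negSucc 216030, .negSucc 34989, .negSucc 347681, .negSucc 390663, .negSucc 674024, .negSucc 620490, .ofNat 939278, .negSucc 310651, .negSucc 391710, .ofNat 202277, .negSucc 62726, .ofNat 11132, .negSucc 164025, .ofNat 43335, .negSucc 84778, .negSucc 12399, .ofNat 9639, .ofNat 54411],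
  [.negSucc 117908, .ofNat 235360, .ofNat 623455, .ofNat 139862, .ofNat 517739, .negSucc 190373, .negSucc 250384, .ofNat 314325, .ofNat 131564, .negSucc 479997, .negSucc 278757, .ofNat 357354, .negSucc 126110, .negSucc 351474, .ofNat 96777, .negSucc 23963, .ofNat 93512, .ofNat 31756, .negSucc 16536, .ofNat 64985, .ofNat 36039, .ofNat 15570, .negSucc 4394, .ofNat 7032, .negSucc 51, .ofNat 23758],
  [.ofNat 421927, .ofNat 64773, .ofNat 192080, .ofNat 858122, .ofNat 298654, .negSucc 120935, .negSucc 32768, .ofNat 82813, .ofNat 340444, .negSucc 325592, .negSucc 130690, .ofNat 46588, .ofNat 207587, .ofNat 124625, .ofNat 15018, .ofNat 97848, .negSucc 62078, .negSucc 34372, .ofNat 9561, .negSucc 22660, .ofNat 8667, .negSucc 20792, .negSucc 1625, .ofNat 3794, .negSucc 1369, .ofNat 1129, .ofNat 23358],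
  [.negSucc 12929, .negSucc 19905, .ofNat 69903, .negSucc 183271, .ofNat 84346, .ofNat 158284, .negSucc 13913, .ofNat 38999, .ofNat 127111, .negSucc 48320, .ofNat 26567, .ofNat 137071, .ofNat 213314, .ofNat 450601, .negSucc 18166, .negSucc 32672, .negSucc 56939, .negSucc 62785, .ofNat 31519, .negSucc 74313, .negSucc 1353, .negSucc 36589, .negSucc 6287, .ofNat 2620, .ofNat 371, .negSucc 1989, .ofNat 2536, .ofNat 22746],
  [.negSucc 278018, .negSucc 211621, .ofNat 193135, .ofNat 64114, .negSucc 114775, .negSucc 248569, .ofNat 108967, .negSucc 240456, .negSucc 168938, .negSucc 454706, .negSucc 145028, .ofNat 82240, .negSucc 238409, .ofNat 95370, .negSucc 223052, .negSucc 185433, .ofNat 173166, .ofNat 4662, .negSucc 26483, .ofNat 16580, .ofNat 31304, .negSucc 20956, .negSucc 12620, .ofNat 8041, .ofNat 12572, .negSucc 722, .negSucc 1988, .negSucc 2480, .ofNat 20342],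
  [.negSucc 340153, .negSucc 301712, .ofNat 722469, .negSucc 219232, .negSucc 626544, .negSucc 179162, .negSucc 212463, .ofNat 123876, .ofNat 765527, .ofNat 202092, .negSucc 203587, .negSucc 378000, .ofNat 416863, .ofNat 643357, .ofNat 294336, .negSucc 20063, .negSucc 208730, .negSucc 93292, .ofNat 107514, .negSucc 218219, .negSucc 11407, .negSucc 59603, .negSucc 1131, .ofNat 6040, .negSucc 5811, .negSucc 5842, .ofNat 1262, .ofNat 8629, .negSucc 4767, .ofNat 28408],
  [.negSucc 500967, .ofNat 965621, .ofNat 168035, .negSucc 963565, .ofNat 390419, .ofNat 220771, .negSucc 155273, .ofNat 1245117, .negSucc 822240, .negSucc 1728248, .ofNat 389196, .negSucc 77002, .negSucc 316890, .ofNat 552143, .ofNat 223463, .ofNat 464294, .negSucc 98043, .negSucc 66363, .negSucc 27060, .ofNat 74644, .ofNat 26341, .ofNat 10232, .negSucc 5051, .ofNat 37657, .ofNat 15704, .ofNat 27242, .ofNat 2270, .negSucc 1890, .negSucc 9486, .negSucc 8789, .ofNat 65499],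
  [.ofNat 422833, .negSucc 59505, .ofNat 500995, .negSucc 507184, .negSucc 637762, .negSucc 2688453, .negSucc 348374, .negSucc 699247, .ofNat 670117, .ofNat 66553, .ofNat 40878, .negSucc 342454, .ofNat 314432, .ofNat 1217010, .ofNat 252676, .negSucc 10518, .negSucc 236344, .negSucc 111317, .ofNat 136895, .negSucc 318958, .negSucc 706, .negSucc 94592, .negSucc 14424, .ofNat 11921, .negSucc 2795, .negSucc 4067, .ofNat 3515, .ofNat 5585, .ofNat 5711, .ofNat 22662, .negSucc 19145, .ofNat 43683],
  [.negSucc 540082, .ofNat 784990, .negSucc 128765, .ofNat 169341, .ofNat 109410, .ofNat 89001, .negSucc 14063, .ofNat 214331, .ofNat 184136, .negSucc 356780, .negSucc 62425, .negSucc 27694, .ofNat 17022, .ofNat 561529, .negSucc 156472, .ofNat 160365, .negSucc 42100, .negSucc 60265, .negSucc 2635, .negSucc 59575, .ofNat 11738, .negSucc 34046, .negSucc 8121, .ofNat 10652, .ofNat 15951, .ofNat 1055, .ofNat 11112, .ofNat 2464, .negSucc 2284, .negSucc 838, .ofNat 7086, .ofNat 2162, .ofNat 23784],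
  [.negSucc 2541894, .negSucc 591081, .negSucc 759518, .ofNat 141608, .ofNat 161410, .negSucc 1285539, .ofNat 21115, .ofNat 610520, .ofNat 348493, .ofNat 1145781, .ofNat 560173, .ofNat 647945, .negSucc 83315, .ofNat 1565343, .ofNat 71380, .ofNat 751974, .negSucc 406295, .negSucc 57283, .ofNat 92405, .negSucc 299934, .negSucc 21791, .negSucc 25386, .negSucc 24055, .negSucc 10637, .ofNat 13077, .ofNat 5996, .ofNat 13888, .ofNat 1791, .ofNat 7058, .negSucc 4911, .negSucc 5222, .ofNat 17254, .ofNat 17256, .ofNat 38858],
  [.negSucc 584297, .ofNat 573475, .ofNat 141068, .ofNat 501623, .ofNat 295883, .ofNat 471007, .negSucc 783138, .ofNat 807999, .ofNat 109035, .negSucc 357379, .ofNat 61116, .ofNat 991449, .ofNat 517036, .negSucc 729585, .ofNat 258724, .ofNat 526261, .negSucc 136662, .ofNat 46741, .negSucc 15028, .ofNat 197295, .ofNat 6858, .ofNat 62763, .ofNat 975, .negSucc 265, .negSucc 40653, .ofNat 12495, .ofNat 8972, .ofNat 1449, .negSucc 6748, .negSucc 1700, .ofNat 7756, .negSucc 650, .ofNat 4344, .ofNat 7972, .ofNat 29204],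
  [.negSucc 199492, .negSucc 137954, .negSucc 198363, .ofNat 369471, .ofNat 313792, .negSucc 633238, .ofNat 209901, .negSucc 101739, .ofNat 64206, .ofNat 101879, .ofNat 484200, .negSucc 193692, .ofNat 260941, .negSucc 208841, .negSucc 40501, .negSucc 212973, .negSucc 22479, .negSucc 24582, .negSucc 12249, .ofNat 32078, .negSucc 36454, .ofNat 2393, .ofNat 13306, .negSucc 4163, .negSucc 4805, .negSucc 5739, .ofNat 607, .ofNat 8627, .negSucc 2337, .negSucc 5367, .negSucc 5381, .negSucc 8058, .negSucc 4600, .negSucc 6540, .negSucc 2156, .ofNat 26793],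
  [.negSucc 52024, .ofNat 151745, .negSucc 162348, .negSucc 501740, .negSucc 59934, .ofNat 198120, .negSucc 258511, .ofNat 148703, .negSucc 190320, .negSucc 273289, .negSucc 116379, .ofNat 169016, .ofNat 158071, .ofNat 75502, .ofNat 186855, .ofNat 293043, .negSucc 111036, .negSucc 11703, .ofNat 18030, .ofNat 23102, .ofNat 2543, .ofNat 8620, .negSucc 1834, .ofNat 6003, .negSucc 13681, .ofNat 6029, .ofNat 555, .negSucc 506, .negSucc 2942, .ofNat 2451, .ofNat 11146, .ofNat 4928, .ofNat 1800, .ofNat 3219, .ofNat 6116, .negSucc 4458, .ofNat 18794],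
  [.negSucc 87685, .negSucc 66109, .negSucc 17213, .ofNat 113465, .negSucc 2404, .ofNat 48034, .ofNat 198148, .ofNat 75464, .negSucc 20299, .negSucc 141400, .negSucc 253460, .ofNat 81947, .negSucc 287136, .negSucc 315798, .negSucc 30388, .ofNat 119902, .ofNat 74040, .ofNat 55061, .negSucc 35650, .ofNat 57830, .ofNat 21181, .ofNat 28847, .negSucc 1303, .negSucc 807, .ofNat 6295, .ofNat 5949, .ofNat 1205, .negSucc 10090, .ofNat 2358, .negSucc 5940, .ofNat 3613, .ofNat 700, .ofNat 3297, .ofNat 5222, .negSucc 1081, .negSucc 6544, .negSucc 376, .ofNat 19517],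
  [.negSucc 417187, .ofNat 558020, .negSucc 153276, .negSucc 133269, .ofNat 557075, .ofNat 88441, .negSucc 33203, .ofNat 196806, .ofNat 218756, .ofNat 584102, .negSucc 62288, .ofNat 140516, .negSucc 273673, .negSucc 20989, .negSucc 70223, .negSucc 29817, .ofNat 43723, .ofNat 29488, .negSucc 14430, .negSucc 32933, .ofNat 1181, .ofNat 14166, .ofNat 885, .negSucc 5738, .ofNat 16167, .ofNat 2380, .ofNat 95, .negSucc 1118, .negSucc 832, .negSucc 4034, .negSucc 4827, .negSucc 1406, .ofNat 4592, .ofNat 4305, .negSucc 2868, .negSucc 924, .negSucc 1520, .ofNat 1006, .ofNat 20955],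
  [.ofNat 309276, .ofNat 551352, .ofNat 234943, .ofNat 14475, .negSucc 554355, .ofNat 278344, .ofNat 627044, .ofNat 587321, .negSucc 557089, .ofNat 25524, .ofNat 223424, .ofNat 358971, .negSucc 410825, .negSucc 661327, .negSucc 299488, .ofNat 9587, .ofNat 190445, .ofNat 99900, .negSucc 104753, .ofNat 190106, .ofNat 12785, .ofNat 73560, .negSucc 4736, .negSucc 3149, .ofNat 10101, .ofNat 5701, .negSucc 6541, .negSucc 5379, .negSucc 185, .negSucc 9197, .ofNat 11806, .negSucc 10139, .negSucc 3354, .negSucc 3264, .negSucc 3515, .negSucc 994, .negSucc 4142, .ofNat 2414, .ofNat 1813, .ofNat 25286],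
  [.negSucc 778247, .negSucc 159649, .ofNat 67486, .ofNat 593388, .ofNat 137934, .negSucc 759155, .negSucc 254293, .negSucc 860186, .ofNat 253196, .ofNat 142474, .negSucc 627975, .negSucc 306224, .ofNat 375228, .negSucc 549804, .ofNat 48203, .negSucc 67924, .ofNat 2389, .ofNat 21979, .ofNat 985, .ofNat 52079, .negSucc 7896, .ofNat 3376, .ofNat 11145, .negSucc 3251, .negSucc 18589, .negSucc 7235, .ofNat 1436, .negSucc 5776, .negSucc 1431, .ofNat 5169, .negSucc 20645, .ofNat 5677, .ofNat 2063, .negSucc 4353, .ofNat 5877, .negSucc 2751, .ofNat 3209, .ofNat 1962, .ofNat 1307, .negSucc 7325, .ofNat 25650],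
  [.negSucc 495188, .negSucc 179897, .ofNat 400036, .ofNat 970256, .ofNat 444198, .ofNat 1171650, .ofNat 809136, .negSucc 175453, .negSucc 207688, .negSucc 721926, .negSucc 930258, .negSucc 1239978, .ofNat 126553, .negSucc 237637, .ofNat 97945, .negSucc 143827, .negSucc 6282, .negSucc 59898, .negSucc 18908, .ofNat 37661, .negSucc 7401, .negSucc 12243, .ofNat 21571, .ofNat 8693, .ofNat 11320, .ofNat 2452, .ofNat 2937, .ofNat 511, .negSucc 11993, .negSucc 5666, .ofNat 23593, .negSucc 23173, .negSucc 986, .negSucc 16281, .negSucc 5502, .ofNat 5238, .ofNat 313, .ofNat 1599, .ofNat 77, .negSucc 4741, .ofNat 7966, .ofNat 28661],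
  [.negSucc 38123, .negSucc 282079, .ofNat 43821, .ofNat 193042, .negSucc 173173, .ofNat 95690, .negSucc 3061, .negSucc 240411, .negSucc 135831, .negSucc 243656, .negSucc 229683, .ofNat 232929, .ofNat 9669, .negSucc 22513, .ofNat 13445, .negSucc 35806, .ofNat 50007, .ofNat 9913, .ofNat 12978, .ofNat 11816, .ofNat 21813, .negSucc 10360, .negSucc 9318, .negSucc 111, .negSucc 7993, .ofNat 745, .negSucc 2393, .negSucc 100, .ofNat 5234, .ofNat 383, .negSucc 4954, .ofNat 4295, .negSucc 3555, .ofNat 3674, .ofNat 3181, .negSucc 828, .ofNat 1016, .negSucc 261, .negSucc 4049, .negSucc 224, .negSucc 2548, .negSucc 2571, .ofNat 19055],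
  [.negSucc 188775, .ofNat 608171, .ofNat 338100, .negSucc 83067, .negSucc 160441, .ofNat 1652592, .ofNat 374342, .ofNat 145528, .negSucc 692061, .negSucc 627440, .negSucc 215777, .negSucc 819654, .ofNat 281211, .negSucc 490761, .ofNat 214256, .negSucc 307275, .ofNat 11866, .negSucc 39847, .negSucc 9335, .ofNat 121458, .negSucc 21564, .ofNat 16071, .ofNat 21831, .ofNat 2445, .negSucc 10342, .ofNat 4318, .negSucc 9240, .ofNat 14577, .negSucc 15088, .ofNat 2081, .ofNat 23351, .negSucc 20065, .negSucc 14712, .negSucc 25248, .ofNat 1040, .ofNat 14607, .ofNat 1153, .negSucc 5786, .negSucc 1993, .ofNat 292, .ofNat 740, .ofNat 13816, .ofNat 2862, .ofNat 28665],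
  [.negSucc 187497, .negSucc 107151, .negSucc 408292, .ofNat 9219, .ofNat 131352, .negSucc 72278, .ofNat 587313, .negSucc 333477, .negSucc 91135, .negSucc 276228, .ofNat 65705, .negSucc 66695, .ofNat 73366, .ofNat 97103, .negSucc 152726, .negSucc 21438, .ofNat 7523, .negSucc 31411, .negSucc 23784, .ofNat 8642, .negSucc 4701, .negSucc 12321, .negSucc 757, .ofNat 4415, .ofNat 6536, .negSucc 1950, .ofNat 3335, .ofNat 1860, .ofNat 1129, .negSucc 7148, .ofNat 1794, .negSucc 2614, .ofNat 2678, .ofNat 277, .negSucc 4758, .ofNat 5251, .negSucc 734, .ofNat 265, .ofNat 24, .negSucc 48, .ofNat 331, .ofNat 2693, .ofNat 5, .ofNat 90, .ofNat 18862],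
  [.ofNat 77405, .ofNat 194761, .negSucc 331098, .negSucc 6623, .negSucc 204941, .ofNat 314024, .ofNat 441077, .negSucc 203547, .negSucc 163906, .negSucc 41652, .negSucc 229423, .negSucc 121711, .negSucc 247426, .ofNat 153061, .negSucc 57341, .ofNat 96077, .ofNat 13733, .ofNat 12823, .negSucc 10811, .negSucc 29037, .ofNat 14168, .negSucc 3, .negSucc 5709, .ofNat 3053, .ofNat 12114, .ofNat 2351, .ofNat 904, .negSucc 8611, .ofNat 3055, .negSucc 2729, .ofNat 3116, .ofNat 2987, .ofNat 3239, .ofNat 1984, .negSucc 4268, .negSucc 8120, .negSucc 112, .ofNat 3947, .ofNat 1124, .ofNat 1435, .ofNat 1534, .ofNat 1970, .ofNat 84, .negSucc 2779, .ofNat 1198, .ofNat 19184],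
  [.negSucc 320636, .ofNat 67325, .ofNat 138488, .ofNat 330100, .ofNat 124177, .ofNat 36799, .negSucc 47029, .negSucc 194494, .negSucc 111372, .ofNat 20933, .ofNat 29579, .ofNat 26620, .negSucc 59709, .ofNat 18047, .negSucc 183017, .negSucc 34923, .ofNat 65842, .ofNat 7412, .negSucc 20221, .ofNat 25309, .ofNat 3794, .negSucc 5464, .negSucc 2720, .negSucc 2021, .ofNat 4549, .negSucc 3487, .ofNat 213, .negSucc 1693, .ofNat 1836, .negSucc 2884, .negSucc 4584, .negSucc 1615, .ofNat 1758, .ofNat 1636, .ofNat 857, .negSucc 207, .negSucc 358, .negSucc 113, .negSucc 437, .ofNat 336, .ofNat 1530, .negSucc 2277, .negSucc 141, .negSucc 1683, .ofNat 257, .negSucc 620, .ofNat 17580],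
  [.ofNat 38742, .ofNat 149547, .ofNat 8605, .ofNat 228597, .negSucc 21464, .ofNat 56000, .ofNat 12751, .negSucc 64371, .negSucc 112836, .ofNat 257891, .ofNat 55479, .negSucc 78087, .ofNat 193956, .ofNat 106916, .ofNat 5106, .ofNat 79176, .negSucc 87393, .negSucc 17305, .ofNat 12173, .negSucc 9203, .negSucc 19249, .negSucc 1138, .ofNat 2776, .negSucc 3515, .negSucc 6515, .negSucc 3344, .ofNat 793, .ofNat 2766, .negSucc 2300, .ofNat 1575, .negSucc 730, .negSucc 1808, .negSucc 196, .negSucc 1668, .ofNat 2433, .ofNat 2078, .ofNat 408, .negSucc 2005, .negSucc 433, .ofNat 271, .ofNat 1044, .ofNat 36, .negSucc 800, .ofNat 815, .ofNat 254, .negSucc 492, .ofNat 1046, .ofNat 17427],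
  [.negSucc 44062, .negSucc 207423, .negSucc 7927, .ofNat 143136, .negSucc 179680, .negSucc 102725, .ofNat 449820, .negSucc 108437, .negSucc 308614, .negSucc 450000, .ofNat 98175, .negSucc 190200, .ofNat 189806, .negSucc 8470, .ofNat 73758, .ofNat 176660, .negSucc 99309, .negSucc 24249, .negSucc 4344, .ofNat 41475, .negSucc 10624, .ofNat 7638, .ofNat 3514, .ofNat 3799, .negSucc 8706, .ofNat 3492, .ofNat 2273, .ofNat 542, .negSucc 2335, .negSucc 3406, .ofNat 11283, .negSucc 486, .negSucc 1159, .negSucc 1834, .ofNat 734, .ofNat 3712, .ofNat 653, .ofNat 655, .negSucc 4163, .ofNat 817, .ofNat 627, .ofNat 3693, .ofNat 1219, .ofNat 2511, .ofNat 2423, .ofNat 737, .ofNat 119, .ofNat 422, .ofNat 18610],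
  [.negSucc 1174845, .negSucc 432883, .negSucc 317409, .ofNat 15972, .ofNat 135808, .negSucc 350216, .negSucc 319687, .negSucc 189966, .ofNat 28660, .ofNat 132498, .negSucc 165123, .negSucc 481086, .ofNat 113142, .ofNat 70214, .ofNat 429776, .ofNat 12601, .negSucc 153035, .negSucc 16085, .ofNat 69661, .negSucc 80894, .negSucc 17308, .negSucc 5247, .ofNat 11127, .negSucc 1957, .negSucc 12573, .ofNat 3050, .negSucc 3396, .negSucc 1397, .negSucc 1396, .ofNat 4459, .negSucc 2473, .ofNat 5073, .negSucc 5584, .negSucc 2410, .ofNat 2999, .ofNat 1056, .ofNat 3369, .ofNat 211, .negSucc 1487, .negSucc 9390, .ofNat 5481, .ofNat 4779, .ofNat 3246, .ofNat 4546, .negSucc 2168, .ofNat 135, .negSucc 1471, .negSucc 1217, .ofNat 83, .ofNat 20933]]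

theorem okA2 : psdOK 50 4096 gA2 lA2 = true := by decide +kernel

end Pool.Agent.H2AF
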