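import Pool.Agent.Lib.H2AF.PSD

/-! # Certificate A of MP_afe93a, block 3 (P1_B1, sq, size 27): the Gram matrix is positive semidefinite -/

namespace Pool.Agent.H2AF

/-- Gram matrix (integers), block P1_B1, certificate A. -/
def gA3 : List (List Int) :=
 [[.ofNat 44441100, .negSucc 2975399, .negSucc 41418359, .ofNat 11684880, .negSucc 1208879, .ofNat 21513780, .ofNat 21752640, .negSucc 19248479, .negSucc 2503439, .negSucc 32200559, .ofNat 26414640, .ofNat 81938160, .negSucc 20674979, .ofNat 35331300, .negSucc 14650559, .negSucc 79769519, .negSucc 22971599, .ofNat 32724000, .negSucc 9072359, .ofNat 27109260, .negSucc 18030959, .negSucc 32549759, .negSucc 5459759, .negSucc 8178479, .negSucc 3170519, .negSucc 10519919, .ofNat 13689360],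
  [.negSucc 2975399, .ofNat 17652906, .negSucc 2982959, .negSucc 30008159, .ofNat 30015360, .ofNat 36527760, .negSucc 5007419, .ofNat 17147520, .negSucc 12139919, .ofNat 32233680, .negSucc 28203119, .negSucc 29636639, .ofNat 5720940, .negSucc 16590059, .ofNat 10864800, .negSucc 29636639, .negSucc 28203119, .ofNat 32233680, .negSucc 10864799, .ofNat 16585200, .negSucc 5720399, .ofNat 36527760, .ofNat 30015360, .negSucc 30008159, .ofNat 12139920, .negSucc 17147519, .ofNat 5007600],
  [.negSucc 41418359, .negSucc 2982959, .ofNat 44442000, .negSucc 8178479, .negSucc 5459759, .negSucc 32549759, .negSucc 13689359, .ofNat 10519920, .ofNat 3169440, .ofNat 32724000, .negSucc 22971599, .negSucc 79769519, .ofNat 18030960, .negSucc 27108719, .ofNat 9077760, .ofNat 81938160, .ofNat 26414640, .negSucc 32200559, .ofNat 14650560, .negSucc 35330399, .ofNat 20679840, .ofNat 21512880, .negSucc 1208879, .ofNat 11684880, .ofNat 2503440, .ofNat 19249200, .negSucc 21752639],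
  [.ofNat 11684880, .negSucc 30008159, .negSucc 8178479, .ofNat 418635960, .ofNat 48819720, .ofNat 41477760, .negSucc 33520679, .ofNat 11360160, .ofNat 22159440, .negSucc 353179439, .ofNat 33668640, .ofNat 4906620, .ofNat 19992780, .negSucc 4029659, .negSucc 15964559, .ofNat 116873280, .ofNat 65440080, .ofNat 229117680, .ofNat 26446860, .negSucc 68850899, .ofNat 42405840, .negSucc 146101679, .negSucc 107737919, .negSucc 252679679, .negSucc 63083159, .ofNat 74370960, .negSucc 11286719],
  [.negSucc 1208879, .ofNat 30015360, .negSucc 5459759, .ofNat 48819720, .ofNat 160135080, .ofNat 144696780, .negSucc 19613519, .ofNat 17739180, .ofNat 1876320, .ofNat 66137760, .negSucc 112952159, .negSucc 139424399, .ofNat 11798100, .negSucc 16529399, .ofNat 4730400, .negSucc 40303439, .negSucc 79279019, .ofNat 192252960, .ofNat 3305700, .negSucc 10371959, .ofNat 7065360, .ofNat 66549600, .ofNat 115897680, .negSucc 107737919, .negSucc 8503199, .ofNat 4824000, .ofNat 3679920],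
  [.ofNat 21513780, .ofNat 36527760, .negSucc 32549759, .ofNat 41477760, .ofNat 144696780, .ofNat 225863280, .negSucc 20945159, .ofNat 34734960, .negSucc 13790159, .ofNat 42113880, .negSucc 113136479, .negSucc 234958319, .ofNat 13103640, .negSucc 42284519, .ofNat 29183040, .ofNat 72149760, .negSucc 52350479, .ofNat 165501360, .ofNat 585900, .ofNat 3289680, .negSucc 3876479, .negSucc 28738079, .ofNat 66549600, .negSucc 146101679, .ofNat 11661840, .negSucc 15625439, .ofNat 3963600],
  [.ofNat 21752640, .negSucc 5007419, .negSucc 13689359, .negSucc 33520679, .negSucc 19613519, .negSucc 20945159, .ofNat 30549600, .negSucc 17447129, .negSucc 7969679, .ofNat 14944500, .ofNat 23290740, .ofNat 60330780, .negSucc 16484759, .ofNat 25032780, .negSucc 13521059, .negSucc 71415359, .negSucc 24263819, .ofNat 2059200, .negSucc 462779, .ofNat 14284260, .negSucc 8844839, .negSucc 3963599, .negSucc 3679919, .ofNat 11286720, .ofNat 6374520, .negSucc 3949739, .negSucc 7009919],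
  [.negSucc 19248479, .ofNat 17147520, .ofNat 10519920, .ofNat 11360160, .ofNat 17739180, .ofNat 34734960, .negSucc 17447129, .ofNat 39300840, .negSucc 16718399, .negSucc 15930719, .negSucc 20023739, .negSucc 69294419, .ofNat 17873820, .negSucc 46556459, .ofNat 23719680, .ofNat 39052800, .negSucc 5201279, .ofNat 29492640, .negSucc 6163919, .ofNat 6065820, .ofNat 5058720, .ofNat 15625440, .negSucc 4823999, .negSucc 74370959, .ofNat 13314960, .negSucc 13947119, .negSucc 3949919],
  [.negSucc 2503439, .negSucc 12139919, .ofNat 3169440, .ofNat 22159440, .ofNat 1876320, .negSucc 13790159, .negSucc 7969679, .negSucc 16718399, .ofNat 29826000, .ofNat 985680, .negSucc 3269519, .ofNat 8969040, .negSucc 6356879, .ofNat 16557840, .negSucc 15168959, .ofNat 32361840, .ofNat 29465280, .negSucc 31553999, .ofNat 11597040, .negSucc 15386399, .ofNat 8756640, .negSucc 11661839, .ofNat 8503200, .ofNat 63084240, .negSucc 24272639, .ofNat 13314960, .ofNat 6374880],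
  [.negSucc 32200559, .ofNat 32233680, .ofNat 32724000, .negSucc 353179439, .ofNat 66137760, .ofNat 42113880, .ofNat 14944500, .negSucc 15930719, .ofNat 985680, .ofNat 464008140, .negSucc 30864239, .negSucc 190526399, .negSucc 20064059, .negSucc 15775919, .ofNat 35837280, .negSucc 26782559, .negSucc 182309039, .negSucc 164044799, .ofNat 32321340, .negSucc 5779799, .negSucc 26555759, .ofNat 165501360, .ofNat 192252960, .ofNat 229117680, .ofNat 31554000, .negSucc 29492639, .negSucc 2061359],
  [.ofNat 26414640, .negSucc 28203119, .negSucc 22971599, .ofNat 33668640, .negSucc 112952159, .negSucc 113136479, .ofNat 23290740, .negSucc 20023739, .negSucc 3269519, .negSucc 30864239, .ofNat 355603320, .ofNat 183454560, .negSucc 49460939, .ofNat 9125280, .ofNat 40332240, .negSucc 23502239, .negSucc 197147519, .negSucc 182309039, .ofNat 52957440, .negSucc 12961439, .negSucc 39997439, .negSucc 52350479, .negSucc 79278479, .ofNat 65440080, .negSucc 29465279, .ofNat 5201280, .ofNat 24263280],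
  [.ofNat 81938160, .negSucc 29636639, .negSucc 79769519, .ofNat 4906620, .negSucc 139424399, .negSucc 234958319, .ofNat 60330780, .negSucc 69294419, .ofNat 8969040, .negSucc 190526399, .ofNat 183454560, .ofNat 653617800, .negSucc 62511299, .ofNat 147358800, .negSucc 84846959, .negSucc 485537759, .negSucc 23502239, .negSucc 26782559, .negSucc 68168159, .ofNat 119178000, .negSucc 51010559, .ofNat 72149760, .negSucc 40303439, .ofNat 116873280, .negSucc 32361839, .negSucc 39052799, .ofNat 71414640],
  [.negSucc 20674979, .ofNat 5720940, .ofNat 18030960, .ofNat 19992780, .ofNat 11798100, .ofNat 13103640, .negSucc 16484759, .ofNat 17873820, .negSucc 6356879, .negSucc 20064059, .negSucc 49460939, .negSucc 62511299, .ofNat 21428460, .negSucc 23395679, .ofNat 7899840, .ofNat 51010560, .ofNat 39997440, .ofNat 26555760, .negSucc 6487919, .negSucc 10899539, .ofNat 12009420, .ofNat 3876480, .negSucc 7065359, .negSucc 42405839, .ofNat 8756640, .ofNat 5058720, .negSucc 8848799],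
  [.ofNat 35331300, .negSucc 16590059, .negSucc 27108719, .negSucc 4029659, .negSucc 16529399, .negSucc 42284519, .ofNat 25032780, .negSucc 46556459, .ofNat 16557840, .negSucc 15775919, .ofNat 9125280, .ofNat 147358800, .negSucc 23395679, .ofNat 69757200, .negSucc 40429439, .negSucc 119177999, .ofNat 12961440, .ofNat 5770800, .negSucc 10805039, .ofNat 16323120, .negSucc 10900799, .negSucc 3289679, .ofNat 10372320, .ofNat 68851440, .negSucc 15386399, .ofNat 6071040, .ofNat 14282640],
  [.negSucc 14650559, .ofNat 10864800, .ofNat 9077760, .negSucc 15964559, .ofNat 4730400, .ofNat 29183040, .negSucc 13521059, .ofNat 23719680, .negSucc 15168959, .ofNat 35837280, .ofNat 40332240, .negSucc 84846959, .ofNat 7899840, .negSucc 40429439, .ofNat 38462040, .ofNat 68167440, .negSucc 52958879, .negSucc 32326559, .ofNat 11911680, .negSucc 10805039, .negSucc 6488639, .negSucc 586799, .negSucc 3306239, .negSucc 26446319, .ofNat 11597040, .negSucc 6162479, .negSucc 467279],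
  [.negSucc 79769519, .negSucc 29636639, .ofNat 81938160, .ofNat 116873280, .negSucc 40303439, .ofNat 72149760, .negSucc 71415359, .ofNat 39052800, .ofNat 32361840, .negSucc 26782559, .negSucc 23502239, .negSucc 485537759, .ofNat 51010560, .negSucc 119177999, .ofNat 68167440, .ofNat 653619600, .ofNat 183454560, .negSucc 190526399, .ofNat 84846960, .negSucc 147358799, .ofNat 62511120, .negSucc 234958319, .negSucc 139425839, .ofNat 4903920, .negSucc 8969039, .ofNat 69300000, .negSucc 60330959],
  [.negSucc 22971599, .negSucc 28203119, .ofNat 26414640, .ofNat 65440080, .negSucc 79279019, .negSucc 52350479, .negSucc 24263819, .negSucc 5201279, .ofNat 29465280, .negSucc 182309039, .negSucc 197147519, .negSucc 23502239, .ofNat 39997440, .ofNat 12961440, .negSucc 52958879, .ofNat 183454560, .ofNat 355600800, .negSucc 30864239, .negSucc 40332239, .negSucc 9125279, .ofNat 49457520, .negSucc 113136479, .negSucc 112952159, .ofNat 33668640, .ofNat 3269520, .ofNat 20023200, .negSucc 23291999],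
  [.ofNat 32724000, .ofNat 32233680, .negSucc 32200559, .ofNat 229117680, .ofNat 192252960, .ofNat 165501360, .ofNat 2059200, .ofNat 29492640, .negSucc 31553999, .negSucc 164044799, .negSucc 182309039, .negSucc 26782559, .ofNat 26555760, .ofNat 5770800, .negSucc 32326559, .negSucc 190526399, .negSucc 30864239, .ofNat 464006880, .negSucc 35837279, .ofNat 15775920, .ofNat 20061360, .ofNat 42115680, .ofNat 66137760, .negSucc 353179439, .negSucc 985679, .ofNat 15930720, .negSucc 14944319],
  [.negSucc 9072359, .negSucc 10864799, .ofNat 14650560, .ofNat 26446860, .ofNat 3305700, .ofNat 585900, .negSucc 462779, .negSucc 6163919, .ofNat 11597040, .ofNat 32321340, .ofNat 52957440, .negSucc 68168159, .negSucc 6487919, .negSucc 10805039, .ofNat 11911680, .ofNat 84846960, .negSucc 40332239, .negSucc 35837279, .ofNat 38461680, .negSucc 40429439, .ofNat 7899840, .negSucc 29183039, .negSucc 4730399, .ofNat 15964560, .negSucc 15168959, .ofNat 23719680, .negSucc 13518719],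
  [.ofNat 27109260, .ofNat 16585200, .negSucc 35330399, .negSucc 68850899, .negSucc 10371959, .ofNat 3289680, .ofNat 14284260, .ofNat 6065820, .negSucc 15386399, .negSucc 5779799, .negSucc 12961439, .ofNat 119178000, .negSucc 10899539, .ofNat 16323120, .negSucc 10805039, .negSucc 147358799, .negSucc 9125279, .ofNat 15775920, .negSucc 40429439, .ofNat 69757200, .negSucc 23395679, .ofNat 42287040, .ofNat 16530480, .ofNat 4029120, .ofNat 16557840, .negSucc 46558799, .ofNat 25033680],
  [.negSucc 18030959, .negSucc 5720399, .ofNat 20679840, .ofNat 42405840, .ofNat 7065360, .negSucc 3876479, .negSucc 8844839, .ofNat 5058720, .ofNat 8756640, .negSucc 26555759, .negSucc 39997439, .negSucc 51010559, .ofNat 12009420, .negSucc 10900799, .negSucc 6488639, .ofNat 62511120, .ofNat 49457520, .ofNat 20061360, .ofNat 7899840, .negSucc 23395679, .ofNat 21427920, .negSucc 13103999, .negSucc 11800079, .negSucc 19992959, .negSucc 6356879, .ofNat 17871840, .negSucc 16482239],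
  [.negSucc 32549759, .ofNat 36527760, .ofNat 21512880, .negSucc 146101679, .ofNat 66549600, .negSucc 28738079, .negSucc 3963599, .ofNat 15625440, .negSucc 11661839, .ofNat 165501360, .negSucc 52350479, .ofNat 72149760, .ofNat 3876480, .negSucc 3289679, .negSucc 586799, .negSucc 234958319, .negSucc 113136479, .ofNat 42115680, .negSucc 29183039, .ofNat 42287040, .negSucc 13103999, .ofNat 225863280, .ofNat 144696960, .ofNat 41477040, .ofNat 13790160, .negSucc 34734959, .ofNat 20944800],
  [.negSucc 5459759, .ofNat 30015360, .negSucc 1208879, .negSucc 107737919, .ofNat 115897680, .ofNat 66549600, .negSucc 3679919, .negSucc 4823999, .ofNat 8503200, .ofNat 192252960, .negSucc 79278479, .negSucc 40303439, .negSucc 7065359, .ofNat 10372320, .negSucc 3306239, .negSucc 139425839, .negSucc 112952159, .ofNat 66137760, .negSucc 4730399, .ofNat 16530480, .negSucc 11800079, .ofNat 144696960, .ofNat 160135200, .ofNat 48819600, .negSucc 1876319, .negSucc 17737919, .ofNat 19614240],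
  [.negSucc 8178479, .negSucc 30008159, .ofNat 11684880, .negSucc 252679679, .negSucc 107737919, .negSucc 146101679, .ofNat 11286720, .negSucc 74370959, .ofNat 63084240, .ofNat 229117680, .ofNat 65440080, .ofNat 116873280, .negSucc 42405839, .ofNat 68851440, .negSucc 26446319, .ofNat 4903920, .ofNat 33668640, .negSucc 353179439, .ofNat 15964560, .ofNat 4029120, .negSucc 19992959, .ofNat 41477040, .ofNat 48819600, .ofNat 418636080, .negSucc 22159439, .negSucc 11360879, .ofNat 33520320],
  [.negSucc 3170519, .ofNat 12139920, .ofNat 2503440, .negSucc 63083159, .negSucc 8503199, .ofNat 11661840, .ofNat 6374520, .ofNat 13314960, .negSucc 24272639, .ofNat 31554000, .negSucc 29465279, .negSucc 32361839, .ofNat 8756640, .negSucc 15386399, .ofNat 11597040, .negSucc 8969039, .ofNat 3269520, .negSucc 985679, .negSucc 15168959, .ofNat 16557840, .negSucc 6356879, .ofNat 13790160, .negSucc 1876319, .negSucc 22159439, .ofNat 29824560, .negSucc 16718399, .negSucc 7969679],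
  [.negSucc 10519919, .negSucc 17147519, .ofNat 19249200, .ofNat 74370960, .ofNat 4824000, .negSucc 15625439, .negSucc 3949739, .negSucc 13947119, .ofNat 13314960, .negSucc 29492639, .ofNat 5201280, .negSucc 39052799, .ofNat 5058720, .ofNat 6071040, .negSucc 6162479, .ofNat 69300000, .ofNat 20023200, .ofNat 15930720, .ofNat 23719680, .negSucc 46558799, .ofNat 17871840, .negSucc 34734959, .negSucc 17737919, .negSucc 11360879, .negSucc 16718399, .ofNat 39301200, .negSucc 17446319],
  [.ofNat 13689360, .ofNat 5007600, .negSucc 21752639, .negSucc 11286719, .ofNat 3679920, .ofNat 3963600, .negSucc 7009919, .negSucc 3949919, .ofNat 6374880, .negSucc 2061359, .ofNat 24263280, .ofNat 71414640, .negSucc 8848799, .ofNat 14282640, .negSucc 467279, .negSucc 60330959, .negSucc 23291999, .negSucc 14944319, .negSucc 13518719, .ofNat 25033680, .negSucc 16482239, .ofNat 20944800, .ofNat 19614240, .ofNat 33520320, .negSucc 7969679, .negSucc 17446319, .ofNat 30552480]]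

/-- Rounded Cholesky factor (lower triangular rows). -/
def lA3 : List (List Int) :=
 [[.ofNat 424325],
  [.negSucc 28720, .ofNat 263633],
  [.negSucc 399810, .negSucc 89902, .ofNat 110110],
  [.ofNat 112794, .negSucc 453940, .negSucc 265310, .ofNat 1193138],
  [.negSucc 11668, .ofNat 465070, .ofNat 134252, .ofNat 375493, .ofNat 527721],
  [.ofNat 207672, .ofNat 590148, .ofNat 25081, .ofNat 352864, .ofNat 350140, .ofNat 532930],
  [.ofNat 209978, .negSucc 54922, .ofNat 208355, .negSucc 109490, .negSucc 74286, .negSucc 70486, .ofNat 100786],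
  [.negSucc 185804, .ofNat 246174, .negSucc 82330, .ofNat 131916, .negSucc 156289, .ofNat 85980, .ofNat 70647, .ofNat 53678],
  [.negSucc 24165, .negSucc 191247, .negSucc 125995, .negSucc 22421, .ofNat 230579, .negSucc 15506, .ofNat 17454, .ofNat 52786, .ofNat 100760],
  [.negSucc 310830, .ofNat 466943, .ofNat 469924, .negSucc 900919, .ofNat 616448, .ofNat 97117, .ofNat 81481, .ofNat 33859, .negSucc 188644, .ofNat 344453],
  [.ofNat 254980, .negSucc 410405, .negSucc 263777, .negSucc 123319, .negSucc 354525, .negSucc 187443, .ofNat 210607, .ofNat 126131, .negSucc 528125, .ofNat 792615, .ofNat 89969],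
  [.ofNat 790947, .negSucc 374287, .negSucc 401018, .negSucc 289501, .negSucc 426814, .negSucc 1208608, .negSucc 45297, .ofNat 15939, .ofNat 68210, .negSucc 103464, .ofNat 26240, .ofNat 60533],
  [.negSucc 199574, .ofNat 67142, .ofNat 897, .ofNat 113246, .negSucc 52817, .ofNat 63809, .negSucc 90697, .negSucc 48405, .ofNat 19243, .negSucc 101442, .negSucc 10401, .negSucc 3525, .ofNat 20390],
  [.ofNat 341052, .negSucc 220599, .ofNat 49827, .negSucc 118924, .ofNat 145600, .negSucc 232869, .negSucc 101168, .negSucc 61556, .ofNat 52766, .negSucc 95846, .negSucc 8513, .ofNat 10127, .ofNat 3632, .ofNat 22984],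
  [.negSucc 141421, .ofNat 153397, .negSucc 50571, .ofNat 5679, .negSucc 92771, .ofNat 169110, .negSucc 10661, .negSucc 1536, .negSucc 180391, .ofNat 196666, .ofNat 18606, .negSucc 6616, .ofNat 4712, .negSucc 1767, .ofNat 22044],
  [.negSucc 770013, .negSucc 544346, .negSucc 192345, .ofNat 224142, .ofNat 39320, .ofNat 1292188, .negSucc 20904, .ofNat 37399, .negSucc 48, .ofNat 139790, .negSucc 15713, .negSucc 63467, .negSucc 3226, .negSucc 3696, .ofNat 7182, .ofNat 41873],
  [.negSucc 221743, .negSucc 462342, .negSucc 200048, .ofNat 25229, .negSucc 179846, .ofNat 306907, .negSucc 253012, .negSucc 95171, .ofNat 575008, .negSucc 782882, .negSucc 79162, .negSucc 12651, .negSucc 2390, .negSucc 1015, .ofNat 2027, .ofNat 24603, .ofNat 27927],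
  [.ofNat 315884, .ofNat 535221, .ofNat 386143, .ofNat 1046185, .ofNat 184877, .negSucc 276105, .negSucc 1322, .negSucc 107165, .ofNat 115398, .negSucc 360671, .negSucc 26114, .ofNat 14052, .ofNat 4968, .ofNat 7152, .negSucc 12231, .negSucc 36039, .negSucc 10341, .ofNat 30449],
  [.negSucc 87574, .negSucc 178344, .ofNat 81386, .ofNat 49314, .ofNat 125099, .ofNat 117448, .ofNat 126131, .ofNat 58172, .negSucc 95861, .ofNat 219980, .ofNat 11974, .negSucc 11120, .negSucc 5939, .negSucc 2917, .negSucc 2358, .ofNat 2609, .negSucc 2393, .negSucc 890, .ofNat 19513],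
  [.ofNat 261685, .ofNat 286190, .negSucc 130410, .negSucc 181215, .negSucc 164811, .negSucc 159197, .ofNat 31195, .ofNat 35574, .ofNat 105707, .negSucc 129749, .ofNat 2591, .ofNat 15233, .negSucc 5210, .negSucc 7211, .negSucc 2097, .negSucc 2912, .ofNat 1439, .negSucc 2888, .negSucc 729, .ofNat 20492],
  [.negSucc 174052, .negSucc 107838, .ofNat 49238, .ofNat 131952, .ofNat 39611, .ofNat 41737, .ofNat 44342, .ofNat 19461, .ofNat 98372, .negSucc 89894, .negSucc 12990, .negSucc 5139, .negSucc 3208, .negSucc 2465, .negSucc 6657, .negSucc 124, .ofNat 65, .ofNat 2018, .ofNat 2557, .ofNat 932, .ofNat 18677],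
  [.negSucc 314201, .ofNat 533292, .ofNat 94813, .negSucc 247878, .ofNat 191863, .negSucc 655377, .ofNat 1907, .ofNat 19466, .negSucc 24259, .ofNat 9644, .ofNat 9520, .ofNat 31075, .ofNat 3564, .negSucc 3407, .negSucc 1233, .negSucc 19498, .negSucc 6422, .ofNat 645, .negSucc 288, .ofNat 2426, .ofNat 245, .ofNat 26330],
  [.negSucc 52702, .ofNat 460600, .ofNat 139737, .negSucc 158565, .ofNat 569754, .negSucc 253946, .negSucc 7544, .ofNat 16707, .negSucc 3637, .ofNat 58914, .ofNat 3423, .ofNat 17080, .ofNat 588, .ofNat 4912, .negSucc 5554, .negSucc 14356, .negSucc 9609, .ofNat 2655, .negSucc 375, .ofNat 2515, .ofNat 105, .ofNat 11864, .ofNat 24394],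
  [.negSucc 78946, .negSucc 474829, .negSucc 239678, .negSucc 1093926, .ofNat 419830, .negSucc 106574, .negSucc 93593, .ofNat 66379, .ofNat 105414, .ofNat 114813, .ofNat 518, .ofNat 6298, .negSucc 6163, .ofNat 5113, .ofNat 1004, .ofNat 24883, .ofNat 4885, .negSucc 15585, .ofNat 669, .ofNat 1426, .ofNat 420, .ofNat 6609, .ofNat 13225, .ofNat 25447],
  [.negSucc 30604, .ofNat 185281, .ofNat 133277, .negSucc 113540, .negSucc 183076, .ofNat 85572, .negSucc 50170, .negSucc 60271, .negSucc 28594, .negSucc 76710, .negSucc 7650, .negSucc 3912, .ofNat 6598, .ofNat 2112, .ofNat 3215, .negSucc 4149, .ofNat 764, .ofNat 2311, .negSucc 4095, .negSucc 1750, .negSucc 1836, .negSucc 3428, .negSucc 4124, .negSucc 3300, .ofNat 18764],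
  [.negSucc 101548, .negSucc 277479, .ofNat 120772, .ofNat 186198, .ofNat 116523, .ofNat 21222, .negSucc 46828, .negSucc 48647, .negSucc 47093, .ofNat 31598, .negSucc 5479, .negSucc 8230, .ofNat 5585, .ofNat 8186, .negSucc 668, .negSucc 730, .negSucc 1649, .ofNat 3858, .negSucc 179, .negSucc 6682, .ofNat 187, .negSucc 2062, .negSucc 326, .ofNat 510, .ofNat 1443, .ofNat 19122],
  [.ofNat 132143, .ofNat 92198, .negSucc 254087, .negSucc 72661, .ofNat 66573, .negSucc 106796, .negSucc 89233, .ofNat 4364, .negSucc 23669, .ofNat 45029, .ofNat 13101, .ofNat 12075, .ofNat 2208, .ofNat 702, .ofNat 8493, .ofNat 5227, .ofNat 1039, .negSucc 5991, .negSucc 2907, .ofNat 1101, .negSucc 4550, .ofNat 5580, .ofNat 4434, .ofNat 2880, .negSucc 543, .negSucc 1524, .ofNat 20058]]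

theorem okA3 : psdOK 27 4096 gA3 lA3 = true := by decide +kernel

end Pool.Agent.H2AF
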