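import Pool.Agent.Lib.H2AF.PSD

/-! # Certificate A of MP_afe93a, block 4 (P1_T2, sq, size 27): the Gram matrix is positive semidefinite -/

namespace Pool.Agent.H2AF

/-- Gram matrix (integers), block P1_T2, certificate A. -/
def gA4 : List (List Int) :=
 [[.ofNat 38070180, .negSucc 96241679, .ofNat 31400640, .negSucc 4657679, .negSucc 73224719, .negSucc 13177439, .negSucc 36828719, .ofNat 9198180, .ofNat 20012580, .negSucc 62763839, .ofNat 44873280, .negSucc 2742479, .ofNat 8803440, .ofNat 10933740, .negSucc 41636879, .negSucc 3991679, .ofNat 73297440, .negSucc 43132319, .ofNat 35840160, .negSucc 11587679, .negSucc 936719, .negSucc 30850559, .negSucc 72887759, .negSucc 1794959, .negSucc 15292799, .negSucc 14361839, .ofNat 32176080],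
  [.negSucc 96241679, .ofNat 276629220, .negSucc 96243839, .negSucc 15735599, .ofNat 198771120, .ofNat 40307760, .ofNat 104065200, .negSucc 33822719, .negSucc 43680239, .ofNat 154935360, .negSucc 157640399, .ofNat 26609760, .negSucc 27434879, .negSucc 22520879, .ofNat 100107360, .ofNat 26609760, .negSucc 157640399, .ofNat 154935360, .negSucc 100107359, .ofNat 22520880, .ofNat 27434880, .ofNat 40307760, .ofNat 198771120, .negSucc 15735599, .ofNat 43680240, .ofNat 33822720, .negSucc 104065199],
  [.ofNat 31400640, .negSucc 96243839, .ofNat 38075760, .negSucc 1794959, .negSucc 72887759, .negSucc 30850559, .negSucc 32176079, .ofNat 14361840, .ofNat 15292800, .negSucc 43132319, .ofNat 73297440, .negSucc 3991679, .ofNat 936720, .ofNat 11587680, .negSucc 35840159, .negSucc 2742479, .ofNat 44873280, .negSucc 62763839, .ofNat 41636880, .negSucc 10933919, .negSucc 8803439, .negSucc 13180319, .negSucc 73224719, .negSucc 4657679, .negSucc 20012399, .negSucc 9200879, .ofNat 36828720],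
  [.negSucc 4657679, .negSucc 15735599, .negSucc 1794959, .ofNat 205431030, .ofNat 62780130, .ofNat 77509440, .ofNat 9087480, .ofNat 6102360, .negSucc 23316479, .negSucc 147187439, .negSucc 106760249, .ofNat 56458800, .ofNat 66733560, .negSucc 38912579, .ofNat 13953780, .negSucc 88798319, .ofNat 95560560, .negSucc 13430879, .negSucc 69857279, .ofNat 9989640, .negSucc 59726339, .ofNat 63870480, .negSucc 55697039, .ofNat 9152640, .ofNat 50037840, .ofNat 36530280, .ofNat 45483480],
  [.negSucc 73224719, .ofNat 198771120, .negSucc 72887759, .ofNat 62780130, .ofNat 237167820, .ofNat 65061540, .ofNat 81981540, .ofNat 7886340, .negSucc 14718419, .ofNat 143071920, .negSucc 231567839, .ofNat 18464400, .negSucc 171179, .negSucc 36752399, .ofNat 53848440, .negSucc 109393199, .negSucc 82676879, .ofNat 190347840, .negSucc 115017659, .ofNat 18532080, .ofNat 20635920, .ofNat 57386160, .ofNat 130510800, .negSucc 55697039, .ofNat 55900800, .ofNat 32621040, .negSucc 39299759],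
  [.negSucc 13177439, .ofNat 40307760, .negSucc 30850559, .ofNat 77509440, .ofNat 65061540, .ofNat 132345540, .ofNat 9045180, .negSucc 1632689, .negSucc 19438649, .negSucc 53683019, .negSucc 149294159, .negSucc 52886159, .ofNat 32955120, .negSucc 51157799, .ofNat 38713680, .negSucc 52463519, .ofNat 28807920, .ofNat 93681360, .negSucc 45614879, .ofNat 29319120, .negSucc 28920239, .ofNat 25106400, .ofNat 57386160, .ofNat 63870480, .ofNat 19436400, .negSucc 2249999, .ofNat 7524720],
  [.negSucc 36828719, .ofNat 104065200, .negSucc 32176079, .ofNat 9087480, .ofNat 81981540, .ofNat 9045180, .ofNat 64691460, .negSucc 8773199, .negSucc 9919799, .ofNat 23760720, .negSucc 76232879, .ofNat 54848160, .negSucc 27466199, .negSucc 16174799, .ofNat 17685900, .ofNat 6971760, .negSucc 12833819, .ofNat 69138000, .negSucc 40974209, .negSucc 6636779, .ofNat 9870300, .negSucc 7524719, .ofNat 39299760, .negSucc 45483839, .ofNat 11839140, .ofNat 20028780, .negSucc 25675379],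
  [.ofNat 9198180, .negSucc 33822719, .ofNat 14361840, .ofNat 6102360, .ofNat 7886340, .negSucc 1632689, .negSucc 8773199, .ofNat 46807200, .ofNat 33066630, .ofNat 22070700, .negSucc 36429119, .negSucc 17330399, .negSucc 1241279, .negSucc 4789799, .negSucc 21548879, .negSucc 50533919, .ofNat 42498720, .ofNat 28507680, .ofNat 29313720, .ofNat 13826160, .ofNat 25599600, .ofNat 2250000, .negSucc 32621039, .negSucc 36530639, .negSucc 14809679, .ofNat 5812920, .ofNat 20024640],
  [.ofNat 20012580, .negSucc 43680239, .ofNat 15292800, .negSucc 23316479, .negSucc 14718419, .negSucc 19438649, .negSucc 9919799, .ofNat 33066630, .ofNat 54106740, .ofNat 21126600, .negSucc 4524479, .ofNat 10023840, .negSucc 14596559, .negSucc 5129639, .negSucc 58640759, .negSucc 41126579, .ofNat 52689600, .ofNat 12530160, .ofNat 30096720, .ofNat 8530200, .ofNat 43039620, .negSucc 19436399, .negSucc 55900799, .negSucc 50037839, .negSucc 23605199, .negSucc 14809679, .ofNat 11838960],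
  [.negSucc 62763839, .ofNat 154935360, .negSucc 43132319, .negSucc 147187439, .ofNat 143071920, .negSucc 53683019, .ofNat 23760720, .ofNat 22070700, .ofNat 21126600, .ofNat 406637190, .ofNat 10440000, .negSucc 115017119, .negSucc 59682959, .ofNat 82800, .ofNat 33569280, .negSucc 68008319, .negSucc 315362879, .ofNat 102886560, .negSucc 18039599, .ofNat 45089280, .ofNat 66617280, .ofNat 93681360, .ofNat 190347840, .negSucc 13430879, .negSucc 12530159, .negSucc 28507679, .negSucc 69137999],
  [.ofNat 44873280, .negSucc 157640399, .ofNat 73297440, .negSucc 106760249, .negSucc 231567839, .negSucc 149294159, .negSucc 76232879, .negSucc 36429119, .negSucc 4524479, .ofNat 10440000, .ofNat 404930430, .negSucc 18863279, .negSucc 21596399, .ofNat 49088160, .negSucc 37840319, .ofNat 135481680, .negSucc 127885679, .negSucc 315362879, .ofNat 96044400, .negSucc 10874879, .negSucc 39892319, .ofNat 28807920, .negSucc 82676879, .ofNat 95560560, .negSucc 52689599, .negSucc 42498719, .ofNat 12833280],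
  [.negSucc 2742479, .ofNat 26609760, .negSucc 3991679, .ofNat 56458800, .ofNat 18464400, .negSucc 52886159, .ofNat 54848160, .negSucc 17330399, .ofNat 10023840, .negSucc 115017119, .negSucc 18863279, .ofNat 200432880, .ofNat 7195680, .ofNat 18028080, .negSucc 40911119, .ofNat 36552240, .ofNat 135481680, .negSucc 68008319, .negSucc 46927439, .negSucc 42408719, .ofNat 14671440, .negSucc 52463519, .negSucc 109393199, .negSucc 88798319, .ofNat 41126400, .ofNat 50533920, .negSucc 6971759],
  [.ofNat 8803440, .negSucc 27434879, .ofNat 936720, .ofNat 66733560, .negSucc 171179, .ofNat 32955120, .negSucc 27466199, .negSucc 1241279, .negSucc 14596559, .negSucc 59682959, .negSucc 21596399, .ofNat 7195680, .ofNat 67125780, .ofNat 7702560, .ofNat 21790080, .negSucc 14671439, .ofNat 39892320, .negSucc 66617279, .negSucc 27480419, .ofNat 9627840, .negSucc 23258879, .ofNat 28920240, .negSucc 20636639, .ofNat 59726880, .ofNat 43040160, .ofNat 25599600, .ofNat 9870480],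
  [.ofNat 10933740, .negSucc 22520879, .ofNat 11587680, .negSucc 38912579, .negSucc 36752399, .negSucc 51157799, .negSucc 16174799, .negSucc 4789799, .negSucc 5129639, .ofNat 82800, .ofNat 49088160, .ofNat 18028080, .ofNat 7702560, .ofNat 42423480, .ofNat 1818720, .ofNat 42408720, .ofNat 10874880, .negSucc 45089279, .ofNat 18014580, .negSucc 22109759, .ofNat 9627840, .negSucc 29319119, .negSucc 18532079, .negSucc 9990719, .ofNat 8531280, .ofNat 13826160, .negSucc 6639119],
  [.negSucc 41636879, .ofNat 100107360, .negSucc 35840159, .ofNat 13953780, .ofNat 53848440, .ofNat 38713680, .ofNat 17685900, .negSucc 21548879, .negSucc 58640759, .ofNat 33569280, .negSucc 37840319, .negSucc 40911119, .ofNat 21790080, .ofNat 1818720, .ofNat 99334980, .ofNat 46927440, .negSucc 96044399, .ofNat 18039600, .negSucc 32852159, .ofNat 18015120, .negSucc 27480239, .ofNat 45614880, .ofNat 115017840, .ofNat 69857280, .ofNat 30096720, .ofNat 29313360, .negSucc 40973759],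
  [.negSucc 3991679, .ofNat 26609760, .negSucc 2742479, .negSucc 88798319, .negSucc 109393199, .negSucc 52463519, .ofNat 6971760, .negSucc 50533919, .negSucc 41126579, .negSucc 68008319, .ofNat 135481680, .ofNat 36552240, .negSucc 14671439, .ofNat 42408720, .ofNat 46927440, .ofNat 200433600, .negSucc 18863279, .negSucc 115017119, .ofNat 40911120, .negSucc 18028079, .negSucc 7195679, .negSucc 52886159, .ofNat 18464400, .ofNat 56458800, .negSucc 10023839, .ofNat 17330400, .negSucc 54848159],
  [.ofNat 73297440, .negSucc 157640399, .ofNat 44873280, .ofNat 95560560, .negSucc 82676879, .ofNat 28807920, .negSucc 12833819, .ofNat 42498720, .ofNat 52689600, .negSucc 315362879, .negSucc 127885679, .ofNat 135481680, .ofNat 39892320, .ofNat 10874880, .negSucc 96044399, .negSucc 18863279, .ofNat 404930880, .ofNat 10440000, .ofNat 37840320, .negSucc 49088159, .ofNat 21596400, .negSucc 149294159, .negSucc 231567839, .negSucc 106760159, .ofNat 4524480, .ofNat 36429120, .ofNat 76232880],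
  [.negSucc 43132319, .ofNat 154935360, .negSucc 62763839, .negSucc 13430879, .ofNat 190347840, .ofNat 93681360, .ofNat 69138000, .ofNat 28507680, .ofNat 12530160, .ofNat 102886560, .negSucc 315362879, .negSucc 68008319, .negSucc 66617279, .negSucc 45089279, .ofNat 18039600, .negSucc 115017119, .ofNat 10440000, .ofNat 406636560, .negSucc 33569279, .negSucc 82799, .ofNat 59682960, .negSucc 53683919, .ofNat 143071920, .negSucc 147187439, .negSucc 21125519, .negSucc 22071599, .negSucc 23760719],
  [.ofNat 35840160, .negSucc 100107359, .ofNat 41636880, .negSucc 69857279, .negSucc 115017659, .negSucc 45614879, .negSucc 40974209, .ofNat 29313720, .ofNat 30096720, .negSucc 18039599, .ofNat 96044400, .negSucc 46927439, .negSucc 27480419, .ofNat 18014580, .negSucc 32852159, .ofNat 40911120, .ofNat 37840320, .negSucc 33569279, .ofNat 99335520, .ofNat 1818720, .ofNat 21790080, .negSucc 38713679, .negSucc 53849519, .negSucc 13955039, .negSucc 58640399, .negSucc 21548159, .ofNat 17686080],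
  [.negSucc 11587679, .ofNat 22520880, .negSucc 10933919, .ofNat 9989640, .ofNat 18532080, .ofNat 29319120, .negSucc 6636779, .ofNat 13826160, .ofNat 8530200, .ofNat 45089280, .negSucc 10874879, .negSucc 42408719, .ofNat 9627840, .negSucc 22109759, .ofNat 18015120, .negSucc 18028079, .negSucc 49088159, .negSucc 82799, .ofNat 1818720, .ofNat 42421680, .ofNat 7702560, .ofNat 51157440, .ofNat 36751680, .ofNat 38912400, .negSucc 5128559, .negSucc 4789439, .negSucc 16174079],
  [.negSucc 936719, .ofNat 27434880, .negSucc 8803439, .negSucc 59726339, .ofNat 20635920, .negSucc 28920239, .ofNat 9870300, .ofNat 25599600, .ofNat 43039620, .ofNat 66617280, .negSucc 39892319, .ofNat 14671440, .negSucc 23258879, .ofNat 9627840, .negSucc 27480239, .negSucc 7195679, .ofNat 21596400, .ofNat 59682960, .ofNat 21790080, .ofNat 7702560, .ofNat 67126320, .negSucc 32955119, .ofNat 172800, .negSucc 66733199, .negSucc 14596559, .negSucc 1242719, .negSucc 27467999],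
  [.negSucc 30850559, .ofNat 40307760, .negSucc 13180319, .ofNat 63870480, .ofNat 57386160, .ofNat 25106400, .negSucc 7524719, .ofNat 2250000, .negSucc 19436399, .ofNat 93681360, .ofNat 28807920, .negSucc 52463519, .ofNat 28920240, .negSucc 29319119, .ofNat 45614880, .negSucc 52886159, .negSucc 149294159, .negSucc 53683919, .negSucc 38713679, .ofNat 51157440, .negSucc 32955119, .ofNat 132342480, .ofNat 65060640, .ofNat 77508720, .ofNat 19439280, .ofNat 1633680, .negSucc 9044639],
  [.negSucc 72887759, .ofNat 198771120, .negSucc 73224719, .negSucc 55697039, .ofNat 130510800, .ofNat 57386160, .ofNat 39299760, .negSucc 32621039, .negSucc 55900799, .ofNat 190347840, .negSucc 82676879, .negSucc 109393199, .negSucc 20636639, .negSucc 18532079, .ofNat 115017840, .ofNat 18464400, .negSucc 231567839, .ofNat 143071920, .negSucc 53849519, .ofNat 36751680, .ofNat 172800, .ofNat 65060640, .ofNat 237168000, .ofNat 62780400, .ofNat 14718240, .negSucc 7886159, .negSucc 81981359],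
  [.negSucc 1794959, .negSucc 15735599, .negSucc 4657679, .ofNat 9152640, .negSucc 55697039, .ofNat 63870480, .negSucc 45483839, .negSucc 36530639, .negSucc 50037839, .negSucc 13430879, .ofNat 95560560, .negSucc 88798319, .ofNat 59726880, .negSucc 9990719, .ofNat 69857280, .ofNat 56458800, .negSucc 106760159, .negSucc 147187439, .negSucc 13955039, .ofNat 38912400, .negSucc 66733199, .ofNat 77508720, .ofNat 62780400, .ofNat 205430400, .ofNat 23316480, .negSucc 6102719, .negSucc 9087119],
  [.negSucc 15292799, .ofNat 43680240, .negSucc 20012399, .ofNat 50037840, .ofNat 55900800, .ofNat 19436400, .ofNat 11839140, .negSucc 14809679, .negSucc 23605199, .negSucc 12530159, .negSucc 52689599, .ofNat 41126400, .ofNat 43040160, .ofNat 8531280, .ofNat 30096720, .negSucc 10023839, .ofNat 4524480, .negSucc 21125519, .negSucc 58640399, .negSucc 5128559, .negSucc 14596559, .ofNat 19439280, .ofNat 14718240, .ofNat 23316480, .ofNat 54108000, .ofNat 33065280, .negSucc 9919439],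
  [.negSucc 14361839, .ofNat 33822720, .negSucc 9200879, .ofNat 36530280, .ofNat 32621040, .negSucc 2249999, .ofNat 20028780, .ofNat 5812920, .negSucc 14809679, .negSucc 28507679, .negSucc 42498719, .ofNat 50533920, .ofNat 25599600, .ofNat 13826160, .ofNat 29313360, .ofNat 17330400, .ofNat 36429120, .negSucc 22071599, .negSucc 21548159, .negSucc 4789439, .negSucc 1242719, .ofNat 1633680, .negSucc 7886159, .negSucc 6102719, .ofNat 33065280, .ofNat 46807920, .negSucc 8772479],
  [.ofNat 32176080, .negSucc 104065199, .ofNat 36828720, .ofNat 45483480, .negSucc 39299759, .ofNat 7524720, .negSucc 25675379, .ofNat 20024640, .ofNat 11838960, .negSucc 69137999, .ofNat 12833280, .negSucc 6971759, .ofNat 9870480, .negSucc 6639119, .negSucc 40973759, .negSucc 54848159, .ofNat 76232880, .negSucc 23760719, .ofNat 17686080, .negSucc 16174079, .negSucc 27467999, .negSucc 9044639, .negSucc 81981359, .negSucc 9087119, .negSucc 9919439, .negSucc 8772479, .ofNat 64692000]]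

/-- Rounded Cholesky factor (lower triangular rows). -/
def lA4 : List (List Int) :=
 [[.ofNat 392373],
  [.negSucc 1004671, .ofNat 348895],
  [.ofNat 327793, .negSucc 185987, .ofNat 109268],
  [.negSucc 48621, .negSucc 324744, .negSucc 474180, .ofNat 711896],
  [.negSucc 764396, .ofNat 132413, .negSucc 213759, .ofNat 227028, .ofNat 519990],
  [.negSucc 137559, .ofNat 77094, .negSucc 612567, .ofNat 63715, .ofNat 11011, .ofNat 368540],
  [.negSucc 384456, .ofNat 114641, .ofNat 142319, .ofNat 173120, .ofNat 34342, .ofNat 138646, .ofNat 177256],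
  [.ofNat 96020, .negSucc 120576, .ofNat 45076, .ofNat 16690, .ofNat 245221, .ofNat 107629, .negSucc 100670, .ofNat 286045],
  [.ofNat 208912, .ofNat 88778, .ofNat 97658, .negSucc 14339, .ofNat 214968, .ofNat 1741, .ofNat 59060, .ofNat 262079, .ofNat 199964],
  [.negSucc 655194, .negSucc 67759, .ofNat 233334, .negSucc 767104, .ofNat 611931, .negSucc 324848, .negSucc 130798, .ofNat 67001, .ofNat 274184, .ofNat 100398],
  [.ofNat 468435, .negSucc 501788, .ofNat 488250, .negSucc 485952, .negSucc 594809, .negSucc 466129, .ofNat 141400, .negSucc 203923, .ofNat 236409, .ofNat 88389, .ofNat 120406],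
  [.negSucc 28628, .ofNat 229957, .ofNat 327668, .ofNat 646041, .negSucc 102560, .negSucc 210567, .ofNat 347121, .ofNat 58373, .negSucc 47492, .negSucc 62640, .ofNat 215339, .ofNat 96178],
  [.ofNat 91900, .negSucc 57450, .negSucc 338363, .ofNat 138653, .negSucc 51256, .negSucc 172262, .negSucc 117275, .ofNat 39874, .negSucc 155322, .negSucc 28356, .ofNat 210992, .ofNat 92275, .ofNat 43591],
  [.ofNat 114138, .ofNat 64276, .ofNat 201377, .negSucc 52638, .negSucc 32317, .negSucc 194631, .negSucc 119552, .negSucc 49605, .negSucc 218215, .negSucc 38080, .ofNat 64326, .ofNat 40015, .ofNat 16631, .ofNat 23258],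
  [.negSucc 434649, .negSucc 76356, .negSucc 169561, .negSucc 97174, .negSucc 222609, .ofNat 25621, .negSucc 230521, .negSucc 62390, .negSucc 248389, .negSucc 7526, .ofNat 38649, .ofNat 15763, .ofNat 22078, .ofNat 6979, .ofNat 25976],
  [.negSucc 41668, .ofNat 192406, .ofNat 349698, .negSucc 193062, .negSucc 743901, .negSucc 2034, .negSucc 212, .negSucc 33941, .negSucc 224658, .negSucc 41065, .ofNat 106812, .ofNat 36503, .ofNat 17596, .ofNat 6550, .ofNat 14043, .ofNat 26142],
  [.ofNat 765156, .ofNat 352644, .negSucc 13035, .ofNat 754264, .ofNat 49074, .ofNat 378471, .ofNat 103200, .ofNat 310249, .negSucc 309378, .negSucc 143522, .ofNat 64083, .ofNat 62824, .ofNat 8068, .ofNat 4399, .negSucc 1538, .ofNat 3465, .ofNat 26330],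
  [.negSucc 450260, .ofNat 522365, .negSucc 112885, .ofNat 55066, .ofNat 634026, .ofNat 547754, .negSucc 231225, .negSucc 36887, .negSucc 15486, .negSucc 31644, .negSucc 604083, .negSucc 208079, .negSucc 62932, .ofNat 1537, .negSucc 11393, .negSucc 7935, .negSucc 3308, .ofNat 41914],
  [.ofNat 374137, .negSucc 97892, .ofNat 271792, .negSucc 240000, .negSucc 114569, .ofNat 149832, .negSucc 150850, .ofNat 212824, .ofNat 6607, .ofNat 647, .negSucc 128811, .negSucc 53720, .negSucc 8827, .ofNat 1767, .ofNat 6125, .ofNat 6593, .ofNat 3054, .ofNat 5667, .ofNat 22670],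
  [.negSucc 120963, .negSucc 83933, .negSucc 189850, .negSucc 115528, .negSucc 38072, .ofNat 3814, .negSucc 91781, .ofNat 238768, .ofNat 177873, .ofNat 31707, .ofNat 20789, .negSucc 2558, .ofNat 7054, .negSucc 6727, .ofNat 3867, .ofNat 4705, .negSucc 2055, .negSucc 1947, .ofNat 6626, .ofNat 23389],
  [.negSucc 9777, .ofNat 293925, .ofNat 199627, .negSucc 77264, .ofNat 189127, .negSucc 47041, .negSucc 67890, .ofNat 298474, .ofNat 84252, .negSucc 24592, .negSucc 25383, .ofNat 3030, .negSucc 723, .ofNat 422, .negSucc 2234, .ofNat 4307, .ofNat 2148, .ofNat 6504, .ofNat 5422, .ofNat 8528, .ofNat 21304],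
  [.negSucc 322050, .negSucc 454160, .negSucc 300993, .negSucc 62167, .negSucc 2327, .negSucc 235644, .negSucc 91500, .ofNat 58398, .ofNat 237549, .ofNat 83108, .ofNat 65031, .ofNat 990, .ofNat 9298, .negSucc 6787, .ofNat 4454, .negSucc 1359, .negSucc 6984, .negSucc 6030, .ofNat 4190, .ofNat 8236, .ofNat 751, .ofNat 21108],
  [.negSucc 760878, .ofNat 142542, .negSucc 219702, .negSucc 453744, .negSucc 18973, .ofNat 37810, .negSucc 240695, .negSucc 173188, .negSucc 20504, .ofNat 36150, .negSucc 142999, .negSucc 59769, .negSucc 2173, .ofNat 1761, .ofNat 5201, .ofNat 1788, .negSucc 8728, .ofNat 8122, .negSucc 890, .ofNat 1940, .ofNat 614, .ofNat 644, .ofNat 19954],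
  [.negSucc 18737, .negSucc 238690, .negSucc 524667, .negSucc 406973, .negSucc 443490, .negSucc 35661, .negSucc 4744, .negSucc 119053, .negSucc 37846, .ofNat 42845, .ofNat 331853, .ofNat 109182, .ofNat 48372, .negSucc 4390, .ofNat 9945, .ofNat 5321, .negSucc 971, .negSucc 25323, .negSucc 5084, .ofNat 82, .negSucc 4503, .negSucc 696, .ofNat 2871, .ofNat 24185],
  [.negSucc 159641, .ofNat 53099, .negSucc 180888, .ofNat 180732, .ofNat 38867, .negSucc 187747, .ofNat 1023, .negSucc 80450, .negSucc 174015, .negSucc 29995, .ofNat 204307, .ofNat 91896, .ofNat 28925, .ofNat 5290, .ofNat 1617, .negSucc 1747, .ofNat 1085, .negSucc 8056, .negSucc 6703, .negSucc 2911, .negSucc 457, .negSucc 1074, .ofNat 551, .ofNat 1839, .ofNat 19015],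
  [.negSucc 149923, .negSucc 34642, .ofNat 45889, .ofNat 214705, .negSucc 29487, .negSucc 33684, .negSucc 54427, .ofNat 118002, .negSucc 244943, .negSucc 40970, .ofNat 172332, .ofNat 77925, .ofNat 28453, .ofNat 7800, .ofNat 11367, .ofNat 4679, .ofNat 5298, .negSucc 8382, .ofNat 1734, .negSucc 2357, .negSucc 1139, .ofNat 383, .negSucc 1165, .ofNat 22, .ofNat 2250, .ofNat 19760],
  [.ofNat 335888, .negSucc 254499, .negSucc 60265, .ofNat 128400, .ofNat 168169, .ofNat 134848, .ofNat 84743, .negSucc 96367, .negSucc 37469, .ofNat 9049, .negSucc 11221, .negSucc 5879, .negSucc 6369, .negSucc 661, .negSucc 2812, .negSucc 7080, .ofNat 3459, .negSucc 5689, .negSucc 3419, .negSucc 9052, .negSucc 7354, .negSucc 1852, .negSucc 3451, .ofNat 1265, .negSucc 45, .ofNat 1761, .ofNat 19988]]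

theorem okA4 : psdOK 27 4096 gA4 lA4 = true := by decide +kernel

end Pool.Agent.H2AF
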