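import Pool.Agent.Lib.H2AF.PSD

/-! # Certificate A of MP_afe93a, block 5 (P4_T1, xx, size 13): the Gram matrix is positive semidefinite -/

namespace Pool.Agent.H2AF

/-- Gram matrix (integers), block P4_T1, certificate A. -/
def gA5 : List (List Int) :=
 [[.ofNat 2560165632, .ofNat 2399426640, .ofNat 2148292800, .ofNat 22887360, .negSucc 1713142799, .negSucc 1216904399, .ofNat 326420640, .negSucc 612158399, .negSucc 1064805119, .negSucc 826112159, .negSucc 263836799, .negSucc 807404399, .ofNat 578838240],
  [.ofNat 2399426640, .ofNat 2560163760, .ofNat 2148292800, .ofNat 326420640, .negSucc 1713142799, .negSucc 1064805119, .ofNat 22887360, .negSucc 612158399, .negSucc 1216904399, .negSucc 807404399, .negSucc 263836799, .negSucc 826112159, .ofNat 578838240],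
  [.ofNat 2148292800, .ofNat 2148292800, .ofNat 1949177520, .negSucc 81165599, .negSucc 1966952879, .negSucc 1041191279, .negSucc 81165599, .negSucc 552115439, .negSucc 1041191279, .negSucc 703709279, .negSucc 284090399, .negSucc 703709279, .ofNat 114343200],
  [.ofNat 22887360, .ofNat 326420640, .negSucc 81165599, .ofNat 949233600, .ofNat 1133690400, .ofNat 199640160, .ofNat 373521600, .ofNat 7382880, .negSucc 88566479, .negSucc 56152079, .ofNat 82167840, .negSucc 91601279, .ofNat 1041396480],
  [.negSucc 1713142799, .negSucc 1713142799, .negSucc 1966952879, .ofNat 1133690400, .ofNat 3884209920, .ofNat 1084433760, .ofNat 1133690400, .ofNat 550656000, .ofNat 1084433760, .ofNat 548546400, .ofNat 537721920, .ofNat 548546400, .ofNat 1771681680],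
  [.negSucc 1216904399, .negSucc 1064805119, .negSucc 1041191279, .ofNat 199640160, .ofNat 1084433760, .ofNat 630229320, .negSucc 88566479, .ofNat 295930080, .ofNat 485258400, .ofNat 383200560, .ofNat 162088560, .ofNat 365438160, .negSucc 27874079],
  [.ofNat 326420640, .ofNat 22887360, .negSucc 81165599, .ofNat 373521600, .ofNat 1133690400, .negSucc 88566479, .ofNat 949234320, .ofNat 7382880, .ofNat 199640160, .negSucc 91601279, .ofNat 82167840, .negSucc 56152079, .ofNat 1041396480],
  [.negSucc 612158399, .negSucc 612158399, .negSucc 552115439, .ofNat 7382880, .ofNat 550656000, .ofNat 295930080, .ofNat 7382880, .ofNat 158989320, .ofNat 295929360, .ofNat 202152240, .ofNat 90658800, .ofNat 202152240, .negSucc 39057119],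
  [.negSucc 1064805119, .negSucc 1216904399, .negSucc 1041191279, .negSucc 88566479, .ofNat 1084433760, .ofNat 485258400, .ofNat 199640160, .ofNat 295929360, .ofNat 630228240, .ofNat 365438160, .ofNat 162088560, .ofNat 383200560, .negSucc 27874079],
  [.negSucc 826112159, .negSucc 807404399, .negSucc 703709279, .negSucc 56152079, .ofNat 548546400, .ofNat 383200560, .negSucc 91601279, .ofNat 202152240, .ofNat 365438160, .ofNat 272035440, .ofNat 93685680, .ofNat 269299440, .negSucc 202206239],
  [.negSucc 263836799, .negSucc 263836799, .negSucc 284090399, .ofNat 82167840, .ofNat 537721920, .ofNat 162088560, .ofNat 82167840, .ofNat 90658800, .ofNat 162088560, .ofNat 93685680, .ofNat 138288960, .ofNat 93685680, .ofNat 232367760],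
  [.negSucc 807404399, .negSucc 826112159, .negSucc 703709279, .negSucc 91601279, .ofNat 548546400, .ofNat 365438160, .negSucc 56152079, .ofNat 202152240, .ofNat 383200560, .ofNat 269299440, .ofNat 93685680, .ofNat 272035440, .negSucc 202206239],
  [.ofNat 578838240, .ofNat 578838240, .ofNat 114343200, .ofNat 1041396480, .ofNat 1771681680, .negSucc 27874079, .ofNat 1041396480, .negSucc 39057119, .negSucc 27874079, .negSucc 202206239, .ofNat 232367760, .negSucc 202206239, .ofNat 1883344320]]

/-- Rounded Cholesky factor (lower triangular rows). -/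
def lA5 : List (List Int) :=
 [[.ofNat 3237971],
  [.ofNat 3035250, .ofNat 1127702],
  [.ofNat 2717568, .ofNat 488525, .ofNat 598348],
  [.ofNat 28952, .ofNat 1107688, .negSucc 1591493, .ofNat 354143],
  [.negSucc 2167107, .negSucc 389570, .negSucc 3304200, .negSucc 340976, .ofNat 160045],
  [.negSucc 1539370, .ofNat 275724, .negSucc 361112, .negSucc 50350, .ofNat 18193, .ofNat 21987],
  [.ofNat 412919, .negSucc 1028254, .negSucc 1591483, .ofNat 350528, .negSucc 7516, .negSucc 24503, .ofNat 43910],
  [.negSucc 774373, .negSucc 139205, .negSucc 148818, .negSucc 84677, .ofNat 15642, .ofNat 7921, .ofNat 121, .ofNat 24146],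
  [.negSucc 1346966, .negSucc 794587, .negSucc 361107, .negSucc 51720, .ofNat 15366, .negSucc 2834, .ofNat 8049, .ofNat 5001, .ofNat 18346],
  [.negSucc 1045022, .negSucc 119908, .ofNat 26919, .negSucc 67991, .ofNat 7610, .ofNat 5987, .negSucc 2458, .ofNat 6926, .ofNat 1814, .ofNat 18099],
  [.negSucc 333750, .negSucc 59996, .negSucc 379935, .negSucc 542112, .ofNat 97653, .ofNat 19035, .negSucc 17221, .ofNat 17221, .ofNat 3255, .ofNat 5999, .ofNat 26209],
  [.negSucc 1021357, .negSucc 251554, .ofNat 26920, .negSucc 68167, .ofNat 7247, .ofNat 4637, .negSucc 401, .ofNat 6977, .ofNat 1996, .ofNat 2673, .ofNat 3529, .ofNat 17548],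
  [.ofNat 732224, .ofNat 131629, .negSucc 2650336, .negSucc 337261, .ofNat 141532, .ofNat 3240, .negSucc 1058, .ofNat 5895, .ofNat 662, .ofNat 617, .ofNat 9737, .negSucc 1412, .ofNat 22665]]

theorem okA5 : psdOK 13 4096 gA5 lA5 = true := by decide +kernel

end Pool.Agent.H2AF
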