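import Pool.Agent.Lib.H2AF.PSD

/-! # Certificate A of MP_afe93a, block 6 (T2_m3, loc, size 17): the Gram matrix is positive semidefinite -/

namespace Pool.Agent.H2AF

/-- Gram matrix (integers), block T2_m3, certificate A. -/
def gA6 : List (List Int) :=
 [[.ofNat 21428640, .negSucc 50291999, .ofNat 24130800, .ofNat 217208160, .negSucc 22189679, .negSucc 89595359, .ofNat 209149920, .negSucc 11923199, .ofNat 13622400, .ofNat 13424400, .negSucc 87024239, .negSucc 50597279, .negSucc 55862639, .negSucc 32158799, .negSucc 27397439, .negSucc 52413839, .ofNat 10123200],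
  [.negSucc 50291999, .ofNat 180414720, .negSucc 26447039, .negSucc 504819359, .negSucc 34255439, .ofNat 218710800, .negSucc 557819279, .ofNat 47971440, .negSucc 52927919, .negSucc 103210559, .ofNat 242075520, .ofNat 142382160, .ofNat 157382640, .ofNat 111893040, .ofNat 70622640, .ofNat 138286800, .negSucc 73553759],
  [.ofNat 24130800, .negSucc 26447039, .ofNat 108996480, .ofNat 319078800, .negSucc 95168159, .negSucc 125171279, .ofNat 161146080, .negSucc 14147999, .negSucc 16253279, .negSucc 78210719, .negSucc 28051199, .negSucc 15788159, .negSucc 34934399, .ofNat 28844640, .negSucc 33668639, .negSucc 63059759, .negSucc 23058719],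
  [.ofNat 217208160, .negSucc 504819359, .ofNat 319078800, .ofNat 2466488160, .negSucc 254270879, .negSucc 888035759, .ofNat 2199393360, .negSucc 240035759, .ofNat 74216880, .negSucc 37234079, .negSucc 890872559, .negSucc 446842079, .negSucc 481235759, .negSucc 185885279, .negSucc 289723679, .negSucc 557679599, .ofNat 71701920],
  [.negSucc 22189679, .negSucc 34255439, .negSucc 95168159, .negSucc 254270879, .ofNat 167191200, .ofNat 110088720, .negSucc 109346399, .negSucc 31270319, .ofNat 15855840, .ofNat 93476880, .ofNat 17260560, .ofNat 19716480, .ofNat 32346720, .negSucc 17806319, .ofNat 23489280, .ofNat 39614400, .ofNat 63809280],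
  [.negSucc 89595359, .ofNat 218710800, .negSucc 125171279, .negSucc 888035759, .ofNat 110088720, .ofNat 422493840, .negSucc 843526079, .ofNat 6367680, .negSucc 70319519, .negSucc 86818319, .ofNat 335012400, .ofNat 226429920, .ofNat 268803360, .ofNat 164340720, .ofNat 118630800, .ofNat 225412560, .negSucc 47498399],
  [.ofNat 209149920, .negSucc 557819279, .ofNat 161146080, .ofNat 2199393360, .negSucc 109346399, .negSucc 843526079, .ofNat 2239421760, .negSucc 194750639, .ofNat 147410640, .ofNat 183265920, .negSucc 973785599, .negSucc 525445199, .negSucc 549285839, .negSucc 336549599, .negSucc 276308639, .negSucc 533626559, .ofNat 146948400],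
  [.negSucc 11923199, .ofNat 47971440, .negSucc 14147999, .negSucc 240035759, .negSucc 31270319, .ofNat 6367680, .negSucc 194750639, .ofNat 101548800, .ofNat 21347280, .ofNat 58137120, .ofNat 85921920, .negSucc 3894479, .negSucc 22727519, .negSucc 50945039, .ofNat 19400400, .ofNat 41364000, .negSucc 12399839],
  [.ofNat 13622400, .negSucc 52927919, .negSucc 16253279, .ofNat 74216880, .ofNat 15855840, .negSucc 70319519, .ofNat 147410640, .ofNat 21347280, .ofNat 35398080, .ofNat 81289440, .negSucc 73237679, .negSucc 63355679, .negSucc 72174959, .negSucc 75712319, .negSucc 17417519, .negSucc 33112079, .ofNat 29214000],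
  [.ofNat 13424400, .negSucc 103210559, .negSucc 78210719, .negSucc 37234079, .ofNat 93476880, .negSucc 86818319, .ofNat 183265920, .ofNat 58137120, .ofNat 81289440, .ofNat 217026000, .negSucc 110957039, .negSucc 116547119, .negSucc 133400879, .negSucc 170922239, .negSucc 17896319, .negSucc 34844399, .ofNat 80562960],
  [.negSucc 87024239, .ofNat 242075520, .negSucc 28051199, .negSucc 890872559, .ofNat 17260560, .ofNat 335012400, .negSucc 973785599, .ofNat 85921920, .negSucc 73237679, .negSucc 110957039, .ofNat 443486160, .ofNat 236038320, .ofNat 236606400, .ofNat 164903760, .ofNat 113505120, .ofNat 219847680, .negSucc 73155599],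
  [.negSucc 50597279, .ofNat 142382160, .negSucc 15788159, .negSucc 446842079, .ofNat 19716480, .ofNat 226429920, .negSucc 525445199, .negSucc 3894479, .negSucc 63355679, .negSucc 116547119, .ofNat 236038320, .ofNat 159798240, .ofNat 175548240, .ofNat 142469280, .ofNat 65217600, .ofNat 124439760, .negSucc 48985199],
  [.negSucc 55862639, .ofNat 157382640, .negSucc 34934399, .negSucc 481235759, .ofNat 32346720, .ofNat 268803360, .negSucc 549285839, .negSucc 22727519, .negSucc 72174959, .negSucc 133400879, .ofNat 236606400, .ofNat 175548240, .ofNat 204397200, .ofNat 162353520, .ofNat 72885600, .ofNat 138402720, .negSucc 53995679],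
  [.negSucc 32158799, .ofNat 111893040, .ofNat 28844640, .negSucc 185885279, .negSucc 17806319, .ofNat 164340720, .negSucc 336549599, .negSucc 50945039, .negSucc 75712319, .negSucc 170922239, .ofNat 164903760, .ofNat 142469280, .ofNat 162353520, .ofNat 166993200, .ofNat 40320720, .ofNat 76070880, .negSucc 57396239],
  [.negSucc 27397439, .ofNat 70622640, .negSucc 33668639, .negSucc 289723679, .ofNat 23489280, .ofNat 118630800, .negSucc 276308639, .ofNat 19400400, .negSucc 17417519, .negSucc 17896319, .ofNat 113505120, .ofNat 65217600, .ofNat 72885600, .ofNat 40320720, .ofNat 37221840, .ofNat 70482960, .negSucc 16424639],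
  [.negSucc 52413839, .ofNat 138286800, .negSucc 63059759, .negSucc 557679599, .ofNat 39614400, .ofNat 225412560, .negSucc 533626559, .ofNat 41364000, .negSucc 33112079, .negSucc 34844399, .ofNat 219847680, .ofNat 124439760, .ofNat 138402720, .ofNat 76070880, .ofNat 70482960, .ofNat 136307520, .negSucc 33745679],
  [.ofNat 10123200, .negSucc 73553759, .negSucc 23058719, .ofNat 71701920, .ofNat 63809280, .negSucc 47498399, .ofNat 146948400, .negSucc 12399839, .ofNat 29214000, .ofNat 80562960, .negSucc 73155599, .negSucc 48985199, .negSucc 53995679, .negSucc 57396239, .negSucc 16424639, .negSucc 33745679, .ofNat 48474000]]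

/-- Rounded Cholesky factor (lower triangular rows). -/
def lA6 : List (List Int) :=
 [[.ofNat 292904],
  [.negSucc 703288, .ofNat 492325],
  [.ofNat 337448, .ofNat 262015, .ofNat 511808],
  [.ofNat 3037464, .ofNat 139087, .ofNat 479707, .ofNat 790634],
  [.negSucc 310302, .negSucc 728264, .negSucc 184211, .ofNat 114719, .ofNat 95305],
  [.negSucc 1252911, .ofNat 29817, .negSucc 190933, .ofNat 323445, .ofNat 121485, .ofNat 45245],
  [.ofNat 2924777, .negSucc 462831, .negSucc 401784, .ofNat 483058, .negSucc 71449, .negSucc 23664, .ofNat 41444],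
  [.negSucc 166734, .ofNat 160926, .negSucc 85677, .negSucc 579301, .negSucc 125394, .negSucc 30373, .ofNat 4360, .ofNat 25883],
  [.ofNat 190497, .negSucc 168217, .negSucc 169556, .negSucc 214892, .negSucc 52801, .negSucc 17465, .ofNat 6500, .ofNat 2963, .ofNat 18766],
  [.ofNat 187728, .negSucc 590510, .negSucc 447388, .negSucc 538783, .negSucc 99886, .negSucc 40071, .ofNat 17159, .ofNat 7396, .ofNat 6325, .ofNat 24432],
  [.negSucc 1216956, .ofNat 275567, .ofNat 436803, .negSucc 253485, .ofNat 34665, .ofNat 9545, .negSucc 26642, .ofNat 488, .negSucc 2116, .negSucc 5698, .ofNat 22940],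
  [.negSucc 707557, .ofNat 173827, .ofNat 251170, .ofNat 220397, .ofNat 92102, .ofNat 27565, .negSucc 15344, .negSucc 9685, .negSucc 2867, .negSucc 5215, .ofNat 4540, .ofNat 20277],
  [.negSucc 781189, .ofNat 193443, .ofNat 136447, .ofNat 391248, .ofNat 117685, .ofNat 37500, .negSucc 10004, .negSucc 7443, .negSucc 5615, .negSucc 6738, .negSucc 700, .ofNat 1731, .ofNat 19211],
  [.negSucc 449711, .ofNat 288500, .ofNat 379655, .ofNat 483598, .ofNat 126773, .ofNat 38854, .negSucc 18337, .negSucc 9529, .negSucc 5468, .negSucc 10745, .ofNat 4036, .ofNat 2716, .ofNat 7038, .ofNat 17857],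
  [.negSucc 383128, .ofNat 40258, .negSucc 37452, .negSucc 13406, .ofNat 13462, .ofNat 5183, .negSucc 1152, .negSucc 807, .negSucc 287, .negSucc 259, .negSucc 689, .ofNat 99, .ofNat 581, .ofNat 95, .ofNat 16718],
  [.negSucc 732960, .ofNat 103466, .negSucc 74375, .negSucc 46321, .ofNat 18722, .ofNat 8312, .negSucc 1713, .negSucc 1289, .negSucc 619, .negSucc 562, .negSucc 1333, .ofNat 323, .ofNat 1156, .negSucc 6, .ofNat 445, .ofNat 17121],
  [.ofNat 141564, .negSucc 409720, .negSucc 68122, .negSucc 58988, .ofNat 11785, .negSucc 7259, .ofNat 482, .negSucc 200, .ofNat 1933, .ofNat 2995, .ofNat 1569, .negSucc 617, .negSucc 1239, .ofNat 273, .negSucc 203, .negSucc 1248, .ofNat 18105]]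

theorem okA6 : psdOK 17 4096 gA6 lA6 = true := by decide +kernel

end Pool.Agent.H2AF
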