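import Pool.Agent.Lib.H2AF.PSD

/-! # Certificate A of MP_afe93a, block 7 (T2_m1, loc, size 37): the Gram matrix is positive semidefinite -/

namespace Pool.Agent.H2AF

/-- Gram matrix (integers), block T2_m1, certificate A. -/
def gA7 : List (List Int) :=
 [[.ofNat 17176929696, .negSucc 611498303, .negSucc 1699198199, .ofNat 8051240880, .ofNat 2268849600, .negSucc 4087215503, .ofNat 9674109360, .ofNat 9162368640, .ofNat 370674720, .negSucc 2898848879, .negSucc 5481334079, .negSucc 5658207679, .ofNat 2256947280, .ofNat 2534401440, .negSucc 520209359, .negSucc 344641679, .ofNat 754407360, .ofNat 2527511040, .ofNat 5638260240, .ofNat 5902973280, .ofNat 1052902800, .ofNat 85882320, .ofNat 2168446320, .ofNat 1619751636, .negSucc 846256319, .negSucc 1564706159, .negSucc 46491839, .negSucc 1129333499, .negSucc 530341199, .ofNat 946738080, .ofNat 4199922720, .negSucc 889546319, .ofNat 515170800, .ofNat 1006907760, .ofNat 344056320, .ofNat 1213163280, .ofNat 179228160],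
  [.negSucc 611498303, .ofNat 4206902400, .negSucc 2853007919, .negSucc 1696723199, .ofNat 472770000, .negSucc 464534639, .negSucc 4904988119, .negSucc 127684799, .ofNat 710451360, .negSucc 307383119, .ofNat 554196960, .ofNat 2318749920, .ofNat 940317120, .ofNat 1207845360, .ofNat 824945040, .negSucc 118267199, .negSucc 2629539359, .ofNat 684243360, .ofNat 548760960, .ofNat 2126481840, .negSucc 142734959, .ofNat 205596000, .ofNat 931445280, .ofNat 1492677360, .negSucc 544743359, .negSucc 1307653919, .negSucc 57671279, .ofNat 359775360, .ofNat 323604000, .negSucc 1164773519, .negSucc 947419199, .negSucc 906421679, .ofNat 248997600, .ofNat 305927280, .ofNat 453377520, .ofNat 80488080, .negSucc 57301919],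
  [.negSucc 1699198199, .negSucc 2853007919, .ofNat 4925764080, .negSucc 737681759, .negSucc 577549439, .ofNat 392527440, .ofNat 1073696400, .negSucc 4850336159, .negSucc 1438892639, .ofNat 327242160, .ofNat 674877960, .negSucc 4756821119, .ofNat 765551520, .negSucc 2926524239, .negSucc 1451863439, .ofNat 108981360, .ofNat 4208634000, .ofNat 2613731040, .negSucc 2174481359, .negSucc 1233509039, .ofNat 472251600, .ofNat 126509760, .negSucc 1296647999, .negSucc 863102879, .ofNat 417372480, .ofNat 822320640, .ofNat 71436240, .negSucc 112641839, .negSucc 12432239, .ofNat 247746960, .negSucc 520276319, .ofNat 768363120, .negSucc 363306239, .negSucc 173157119, .negSucc 18990719, .negSucc 450848879, .negSucc 48286799],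
  [.ofNat 8051240880, .negSucc 1696723199, .negSucc 737681759, .ofNat 6713457840, .ofNat 1566971280, .negSucc 4590397439, .ofNat 5546440800, .ofNat 7425884880, .negSucc 462756959, .negSucc 1206217439, .negSucc 2253329279, .ofNat 2631530160, .ofNat 1595071080, .ofNat 1476526320, .ofNat 438972480, .negSucc 225372239, .ofNat 643253040, .ofNat 166443120, .ofNat 2681521920, .ofNat 1847989440, .ofNat 274028400, .negSucc 200081519, .ofNat 1847743920, .negSucc 1207917359, .negSucc 23222159, .ofNat 633368160, .negSucc 112005359, .negSucc 139379759, .negSucc 525220559, .ofNat 1921509360, .ofNat 2752864560, .negSucc 152530559, .negSucc 93440879, .negSucc 21064319, .negSucc 196223039, .ofNat 1132153920, .ofNat 448606800],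
  [.ofNat 2268849600, .ofNat 472770000, .negSucc 577549439, .ofNat 1566971280, .ofNat 2491295760, .negSucc 1663559279, .negSucc 118057679, .ofNat 1393386480, .negSucc 607631759, .negSucc 451210319, .ofNat 99226800, .ofNat 2393385120, .ofNat 575365680, .negSucc 259109999, .negSucc 186150239, .negSucc 457503839, .negSucc 622696679, .negSucc 637984079, .ofNat 1255703040, .ofNat 691366320, .ofNat 309572640, .ofNat 384706080, .ofNat 2393097120, .ofNat 347482080, .negSucc 419156639, .negSucc 45922319, .negSucc 24307199, .ofNat 66443760, .ofNat 84900240, .negSucc 296881919, .ofNat 789816240, .negSucc 259385039, .negSucc 75897359, .ofNat 429486480, .negSucc 215998559, .ofNat 271797120, .ofNat 27007200],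
  [.negSucc 4087215503, .negSucc 464534639, .ofNat 392527440, .negSucc 4590397439, .negSucc 1663559279, .ofNat 7611341040, .negSucc 1027797119, .negSucc 4948787519, .ofNat 1481933520, .ofNat 1315288800, .ofNat 1333053360, .negSucc 6550999359, .negSucc 1125416879, .negSucc 582688799, .negSucc 1401305759, .negSucc 248250239, .negSucc 307571039, .negSucc 2220718319, .negSucc 2282877359, .negSucc 1615307039, .ofNat 431704080, .ofNat 87714000, .negSucc 3360678479, .ofNat 2381272560, .negSucc 267031439, .negSucc 1903302719, .ofNat 153599760, .negSucc 334945439, .ofNat 385600320, .negSucc 1475080559, .negSucc 1686676319, .ofNat 206546400, .ofNat 754955280, .ofNat 224734320, .ofNat 296942400, .negSucc 1075903199, .negSucc 438621119],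
  [.ofNat 9674109360, .negSucc 4904988119, .ofNat 1073696400, .ofNat 5546440800, .negSucc 118057679, .negSucc 1027797119, .ofNat 14614265520, .ofNat 6247102320, .ofNat 183077280, .negSucc 628750079, .negSucc 5844815999, .negSucc 4815568799, .negSucc 3293205839, .ofNat 2629032480, .negSucc 711041039, .ofNat 52758000, .ofNat 2947757040, .negSucc 1265724719, .ofNat 3029508720, .negSucc 530989199, .ofNat 546523920, .negSucc 501936479, .negSucc 348817679, .negSucc 1089260639, .ofNat 150129360, .ofNat 812149200, .negSucc 483032879, .negSucc 797670719, .negSucc 491291999, .ofNat 1761809040, .ofNat 3574520640, .ofNat 1168601040, .ofNat 186184080, .ofNat 178508160, .negSucc 336936959, .ofNat 470214000, .ofNat 325195200],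
  [.ofNat 9162368640, .negSucc 127684799, .negSucc 4850336159, .ofNat 7425884880, .ofNat 1393386480, .negSucc 4948787519, .ofNat 6247102320, .ofNat 12407576400, .ofNat 821581200, .negSucc 1316502719, .negSucc 3271686479, .ofNat 6964018560, .ofNat 15063840, .ofNat 4776549120, .ofNat 1953642240, .negSucc 122906159, .negSucc 2836311999, .negSucc 2752416719, .ofNat 4526899920, .ofNat 1344990960, .negSucc 421504559, .negSucc 491969519, .ofNat 2429515440, .negSucc 1199476079, .negSucc 79602479, .ofNat 564071040, .negSucc 176418719, .negSucc 191887919, .negSucc 711287999, .ofNat 2170232640, .ofNat 3454336080, .negSucc 487894319, .ofNat 168384240, .negSucc 58495679, .negSucc 308728799, .ofNat 1484613360, .ofNat 472091040],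
  [.ofNat 370674720, .ofNat 710451360, .negSucc 1438892639, .negSucc 462756959, .negSucc 607631759, .ofNat 1481933520, .ofNat 183077280, .ofNat 821581200, .ofNat 1073908080, .ofNat 269971920, .negSucc 590025599, .negSucc 952566479, .negSucc 675087119, .ofNat 1211429520, .ofNat 75429360, .negSucc 40370399, .negSucc 1610465759, .negSucc 668543039, .ofNat 413468640, .ofNat 725844960, .ofNat 64948320, .negSucc 173275199, .negSucc 471756959, .ofNat 854714160, .negSucc 204129359, .negSucc 808585919, .negSucc 55392479, .negSucc 50087519, .ofNat 69933600, .negSucc 375022799, .negSucc 374533199, .negSucc 127675439, .ofNat 388048320, .ofNat 37419840, .ofNat 249852240, .negSucc 112385519, .negSucc 63583919],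
  [.negSucc 2898848879, .negSucc 307383119, .ofNat 327242160, .negSucc 1206217439, .negSucc 451210319, .ofNat 1315288800, .negSucc 628750079, .negSucc 1316502719, .ofNat 269971920, .ofNat 1002571200, .ofNat 487727280, .ofNat 798422400, .negSucc 974023199, .ofNat 559598400, .negSucc 178092719, .negSucc 101236319, .negSucc 624561119, .negSucc 1083569759, .negSucc 936483119, .negSucc 1411850159, .ofNat 77937120, .negSucc 135105119, .negSucc 424429199, .negSucc 165296879, .ofNat 59749200, .ofNat 115816320, .negSucc 118472399, .ofNat 278151840, .ofNat 133945200, .negSucc 222487199, .negSucc 1021826879, .ofNat 407562480, .ofNat 105313680, .negSucc 214121519, .ofNat 72648720, .negSucc 332730719, .negSucc 9140399],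
  [.negSucc 5481334079, .ofNat 554196960, .ofNat 674877960, .negSucc 2253329279, .ofNat 99226800, .ofNat 1333053360, .negSucc 5844815999, .negSucc 3271686479, .negSucc 590025599, .ofNat 487727280, .ofNat 3864157920, .ofNat 1922371920, .ofNat 2512291680, .negSucc 2541225199, .ofNat 12962880, .negSucc 241303679, .ofNat 613938240, .negSucc 157371839, .negSucc 2848926239, .negSucc 1395818279, .negSucc 202113359, .ofNat 357513840, .negSucc 1079993519, .ofNat 28728000, .ofNat 139088880, .negSucc 70796159, .ofNat 281306880, .ofNat 311258160, .ofNat 113779440, .negSucc 203243759, .negSucc 1120800959, .negSucc 270481679, .negSucc 98408879, .negSucc 149331599, .negSucc 84938399, .negSucc 189439919, .negSucc 107738639],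
  [.negSucc 5658207679, .ofNat 2318749920, .negSucc 4756821119, .ofNat 2631530160, .ofNat 2393385120, .negSucc 6550999359, .negSucc 4815568799, .ofNat 6964018560, .negSucc 952566479, .ofNat 798422400, .ofNat 1922371920, .ofNat 24046933680, .negSucc 1883809439, .ofNat 6651758880, .ofNat 3763002240, .ofNat 45217440, .negSucc 5374102319, .negSucc 8288585279, .ofNat 1707762960, .negSucc 6643229039, .negSucc 1733243759, .negSucc 356952959, .ofNat 4881325680, .negSucc 4270425839, .ofNat 602608320, .ofNat 3352549680, .negSucc 187204319, .ofNat 1568905200, .negSucc 266019839, .ofNat 1962703440, .ofNat 360417600, .negSucc 34128719, .negSucc 1077219359, .negSucc 997247519, .negSucc 1090219679, .ofNat 1097467200, .ofNat 708857280],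
  [.ofNat 2256947280, .ofNat 940317120, .ofNat 765551520, .ofNat 1595071080, .ofNat 575365680, .negSucc 1125416879, .negSucc 3293205839, .ofNat 15063840, .negSucc 675087119, .negSucc 974023199, .ofNat 2512291680, .negSucc 1883809439, .ofNat 7186716000, .negSucc 2052992159, .negSucc 278213759, .negSucc 654875279, .ofNat 3025229760, .ofNat 3778925760, .negSucc 2136508559, .ofNat 2415205440, .ofNat 604622880, .ofNat 509577120, .negSucc 1779154559, .ofNat 1032860160, .negSucc 292689359, .negSucc 1545676559, .ofNat 204563520, .ofNat 66282480, .negSucc 134407439, .ofNat 618697440, .ofNat 415887120, .negSucc 962490959, .ofNat 357592320, .ofNat 239366160, .ofNat 620091360, .ofNat 568905840, .ofNat 125799840],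
  [.ofNat 2534401440, .ofNat 1207845360, .negSucc 2926524239, .ofNat 1476526320, .negSucc 259109999, .negSucc 582688799, .ofNat 2629032480, .ofNat 4776549120, .ofNat 1211429520, .ofNat 559598400, .negSucc 2541225199, .ofNat 6651758880, .negSucc 2052992159, .ofNat 10656213120, .ofNat 1129731120, .ofNat 7554240, .negSucc 3943449359, .negSucc 5747513039, .ofNat 2760303600, .negSucc 5200575839, .negSucc 144213119, .negSucc 533931839, .ofNat 926076960, .negSucc 314537039, .negSucc 81291599, .negSucc 127468079, .negSucc 139751999, .ofNat 130072320, .negSucc 291926159, .ofNat 706631760, .negSucc 49438079, .ofNat 91908720, .ofNat 298932480, .negSucc 198424079, .ofNat 353934720, .ofNat 120782880, .ofNat 177899760],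
  [.negSucc 520209359, .ofNat 824945040, .negSucc 1451863439, .ofNat 438972480, .negSucc 186150239, .negSucc 1401305759, .negSucc 711041039, .ofNat 1953642240, .ofNat 75429360, .negSucc 178092719, .ofNat 12962880, .ofNat 3763002240, .negSucc 278213759, .ofNat 1129731120, .ofNat 1071532080, .ofNat 209918880, .negSucc 944966159, .negSucc 852462719, .ofNat 472785840, .negSucc 517220639, .negSucc 559927439, .negSucc 149860079, .ofNat 395636400, .negSucc 777751199, .ofNat 191247840, .ofNat 544200480, .negSucc 15400079, .ofNat 172268640, .negSucc 126498959, .ofNat 497414880, .ofNat 308142000, .negSucc 164492639, .negSucc 175651919, .negSucc 214038719, .negSucc 158480639, .ofNat 311821200, .ofNat 127015920],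
  [.negSucc 344641679, .negSucc 118267199, .ofNat 108981360, .negSucc 225372239, .negSucc 457503839, .negSucc 248250239, .ofNat 52758000, .negSucc 122906159, .negSucc 40370399, .negSucc 101236319, .negSucc 241303679, .ofNat 45217440, .negSucc 654875279, .ofNat 7554240, .ofNat 209918880, .ofNat 280388880, .negSucc 86612399, .ofNat 85556160, .ofNat 228126960, .negSucc 218850479, .negSucc 255287519, .negSucc 105542639, .ofNat 24775920, .negSucc 393906239, .ofNat 187292880, .ofNat 398508480, .ofNat 64948320, .negSucc 82501919, .negSucc 68344559, .ofNat 112071600, .negSucc 11746799, .ofNat 43007760, .negSucc 171866159, .negSucc 123422399, .negSucc 101473919, .negSucc 25701839, .negSucc 23101919],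
  [.ofNat 754407360, .negSucc 2629539359, .ofNat 4208634000, .ofNat 643253040, .negSucc 622696679, .negSucc 307571039, .ofNat 2947757040, .negSucc 2836311999, .negSucc 1610465759, .negSucc 624561119, .ofNat 613938240, .negSucc 5374102319, .ofNat 3025229760, .negSucc 3943449359, .negSucc 944966159, .negSucc 86612399, .ofNat 7047001440, .ofNat 3566827440, .negSucc 2815254719, .negSucc 21911759, .ofNat 408947760, .ofNat 313252560, .negSucc 2959981919, .negSucc 725821199, .ofNat 352589760, .ofNat 255760560, .negSucc 96625439, .negSucc 114417359, .negSucc 89652239, .ofNat 1088560080, .ofNat 1230674400, .ofNat 424472760, .negSucc 205153199, .ofNat 45717840, .negSucc 31311359, .ofNat 185325120, .ofNat 229965120],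
  [.ofNat 2527511040, .ofNat 684243360, .ofNat 2613731040, .ofNat 166443120, .negSucc 637984079, .negSucc 2220718319, .negSucc 1265724719, .negSucc 2752416719, .negSucc 668543039, .negSucc 1083569759, .negSucc 157371839, .negSucc 8288585279, .ofNat 3778925760, .negSucc 5747513039, .negSucc 852462719, .ofNat 85556160, .ofNat 3566827440, .ofNat 9041645520, .negSucc 1302927839, .ofNat 6838241760, .ofNat 623601360, .ofNat 228209040, .negSucc 941154479, .ofNat 798374880, .negSucc 164013839, .negSucc 814143599, .negSucc 91160639, .negSucc 92222639, .ofNat 117690480, .negSucc 449143199, .negSucc 351155519, .negSucc 381645359, .ofNat 72489600, .ofNat 210132720, .ofNat 735885360, .ofNat 123639120, .negSucc 32140079],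
  [.ofNat 5638260240, .ofNat 548760960, .negSucc 2174481359, .ofNat 2681521920, .ofNat 1255703040, .negSucc 2282877359, .ofNat 3029508720, .ofNat 4526899920, .ofNat 413468640, .negSucc 936483119, .negSucc 2848926239, .ofNat 1707762960, .negSucc 2136508559, .ofNat 2760303600, .ofNat 472785840, .ofNat 228126960, .negSucc 2815254719, .negSucc 1302927839, .ofNat 4037328000, .ofNat 1316882160, .negSucc 121736159, .negSucc 163481759, .ofNat 3014968320, .ofNat 86461920, .negSucc 247908959, .ofNat 235301040, .ofNat 32952240, .negSucc 387017279, .negSucc 187039439, .negSucc 2870639, .ofNat 1310441760, .negSucc 304269839, .negSucc 118207439, .ofNat 265710960, .negSucc 214860959, .ofNat 369287280, .negSucc 9172079],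
  [.ofNat 5902973280, .ofNat 2126481840, .negSucc 1233509039, .ofNat 1847989440, .ofNat 691366320, .negSucc 1615307039, .negSucc 530989199, .ofNat 1344990960, .ofNat 725844960, .negSucc 1411850159, .negSucc 1395818279, .negSucc 6643229039, .ofNat 2415205440, .negSucc 5200575839, .negSucc 517220639, .negSucc 218850479, .negSucc 21911759, .ofNat 6838241760, .ofNat 1316882160, .ofNat 10318307040, .ofNat 766856880, .ofNat 165439440, .ofNat 991666080, .ofNat 2243437920, .negSucc 842780879, .negSucc 1974044159, .negSucc 202154399, .negSucc 74408399, .ofNat 328168080, .negSucc 1056897359, .ofNat 448020000, .negSucc 1001469599, .ofNat 462858480, .ofNat 574392240, .ofNat 616371840, .ofNat 488409120, .ofNat 30938400],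
  [.ofNat 1052902800, .negSucc 142734959, .ofNat 472251600, .ofNat 274028400, .ofNat 309572640, .ofNat 431704080, .ofNat 546523920, .negSucc 421504559, .ofNat 64948320, .ofNat 77937120, .negSucc 202113359, .negSucc 1733243759, .ofNat 604622880, .negSucc 144213119, .negSucc 559927439, .negSucc 255287519, .ofNat 408947760, .ofNat 623601360, .negSucc 121736159, .ofNat 766856880, .ofNat 458570160, .ofNat 82436400, .negSucc 104261039, .ofNat 603190800, .negSucc 232798319, .negSucc 565081199, .negSucc 74990879, .ofNat 5772960, .ofNat 93849120, .negSucc 235133279, .negSucc 108161279, .ofNat 16943040, .ofNat 208549440, .ofNat 160772400, .ofNat 215671680, .negSucc 62844479, .negSucc 79199],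
  [.ofNat 85882320, .ofNat 205596000, .ofNat 126509760, .negSucc 200081519, .ofNat 384706080, .ofNat 87714000, .negSucc 501936479, .negSucc 491969519, .negSucc 173275199, .negSucc 135105119, .ofNat 357513840, .negSucc 356952959, .ofNat 509577120, .negSucc 533931839, .negSucc 149860079, .negSucc 105542639, .ofNat 313252560, .ofNat 228209040, .negSucc 163481759, .ofNat 165439440, .ofNat 82436400, .ofNat 158684400, .ofNat 64775520, .ofNat 292004640, .negSucc 97307999, .negSucc 193217759, .ofNat 30672720, .negSucc 26027279, .ofNat 48024000, .negSucc 184590719, .ofNat 63329040, .negSucc 105956639, .ofNat 13279680, .ofNat 141302160, .negSucc 2408399, .negSucc 8876879, .negSucc 37326239],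
  [.ofNat 2168446320, .ofNat 931445280, .negSucc 1296647999, .ofNat 1847743920, .ofNat 2393097120, .negSucc 3360678479, .negSucc 348817679, .ofNat 2429515440, .negSucc 471756959, .negSucc 424429199, .negSucc 1079993519, .ofNat 4881325680, .negSucc 1779154559, .ofNat 926076960, .ofNat 395636400, .ofNat 24775920, .negSucc 2959981919, .negSucc 941154479, .ofNat 3014968320, .ofNat 991666080, .negSucc 104261039, .ofNat 64775520, .ofNat 4359057840, .negSucc 495217439, .negSucc 239345999, .ofNat 917577360, .negSucc 10897199, .ofNat 122117760, .ofNat 27300960, .negSucc 383679359, .ofNat 417147120, .negSucc 173100239, .negSucc 433766879, .ofNat 169683840, .negSucc 382672079, .ofNat 261851040, .ofNat 13823280],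
  [.ofNat 1619751636, .ofNat 1492677360, .negSucc 863102879, .negSucc 1207917359, .ofNat 347482080, .ofNat 2381272560, .negSucc 1089260639, .negSucc 1199476079, .ofNat 854714160, .negSucc 165296879, .ofNat 28728000, .negSucc 4270425839, .ofNat 1032860160, .negSucc 314537039, .negSucc 777751199, .negSucc 393906239, .negSucc 725821199, .ofNat 798374880, .ofNat 86461920, .ofNat 2243437920, .ofNat 603190800, .ofNat 292004640, .negSucc 495217439, .ofNat 2403530640, .negSucc 666500399, .negSucc 1980476639, .ofNat 33040080, .negSucc 223576559, .ofNat 283790880, .negSucc 1255716719, .negSucc 454233599, .negSucc 522007919, .ofNat 604692720, .ofNat 570799440, .ofNat 484391520, .negSucc 256505759, .negSucc 230793119],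
  [.negSucc 846256319, .negSucc 544743359, .ofNat 417372480, .negSucc 23222159, .negSucc 419156639, .negSucc 267031439, .ofNat 150129360, .negSucc 79602479, .negSucc 204129359, .ofNat 59749200, .ofNat 139088880, .ofNat 602608320, .negSucc 292689359, .negSucc 81291599, .ofNat 191247840, .ofNat 187292880, .ofNat 352589760, .negSucc 164013839, .negSucc 247908959, .negSucc 842780879, .negSucc 232798319, .negSucc 97307999, .negSucc 239345999, .negSucc 666500399, .ofNat 257867280, .ofNat 557928720, .ofNat 47963520, .negSucc 11236319, .negSucc 104210639, .ofNat 354003840, .ofNat 33999120, .ofNat 153483120, .negSucc 175380479, .negSucc 194607359, .negSucc 137361599, .ofNat 3630240, .ofNat 21565440],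
  [.negSucc 1564706159, .negSucc 1307653919, .ofNat 822320640, .ofNat 633368160, .negSucc 45922319, .negSucc 1903302719, .ofNat 812149200, .ofNat 564071040, .negSucc 808585919, .ofNat 115816320, .negSucc 70796159, .ofNat 3352549680, .negSucc 1545676559, .negSucc 127468079, .ofNat 544200480, .ofNat 398508480, .ofNat 255760560, .negSucc 814143599, .ofNat 235301040, .negSucc 1974044159, .negSucc 565081199, .negSucc 193217759, .ofNat 917577360, .negSucc 1980476639, .ofNat 557928720, .ofNat 1844827200, .ofNat 26303760, .ofNat 84462480, .negSucc 214932239, .ofNat 780731280, .ofNat 337474080, .ofNat 476097120, .negSucc 594480239, .negSucc 409993199, .negSucc 526719599, .ofNat 100191600, .ofNat 97466400],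
  [.negSucc 46491839, .negSucc 57671279, .ofNat 71436240, .negSucc 112005359, .negSucc 24307199, .ofNat 153599760, .negSucc 483032879, .negSucc 176418719, .negSucc 55392479, .negSucc 118472399, .ofNat 281306880, .negSucc 187204319, .ofNat 204563520, .negSucc 139751999, .negSucc 15400079, .ofNat 64948320, .negSucc 96625439, .negSucc 91160639, .ofNat 32952240, .negSucc 202154399, .negSucc 74990879, .ofNat 30672720, .negSucc 10897199, .ofNat 33040080, .ofNat 47963520, .ofNat 26303760, .ofNat 129022560, .negSucc 120049199, .negSucc 56085119, .ofNat 2672640, .ofNat 1821600, .negSucc 96838559, .negSucc 49763519, .ofNat 247680, .negSucc 47765519, .negSucc 26999999, .negSucc 65235599],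
  [.negSucc 1129333499, .ofNat 359775360, .negSucc 112641839, .negSucc 139379759, .ofNat 66443760, .negSucc 334945439, .negSucc 797670719, .negSucc 191887919, .negSucc 50087519, .ofNat 278151840, .ofNat 311258160, .ofNat 1568905200, .ofNat 66282480, .ofNat 130072320, .ofNat 172268640, .negSucc 82501919, .negSucc 114417359, .negSucc 92222639, .negSucc 387017279, .negSucc 74408399, .ofNat 5772960, .negSucc 26027279, .ofNat 122117760, .negSucc 223576559, .negSucc 11236319, .ofNat 84462480, .negSucc 120049199, .ofNat 302497920, .ofNat 92548080, .ofNat 20786400, .negSucc 320302079, .ofNat 59509440, .negSucc 20532239, .negSucc 101748959, .ofNat 40132080, .ofNat 37259280, .ofNat 103943520],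
  [.negSucc 530341199, .ofNat 323604000, .negSucc 12432239, .negSucc 525220559, .ofNat 84900240, .ofNat 385600320, .negSucc 491291999, .negSucc 711287999, .ofNat 69933600, .ofNat 133945200, .ofNat 113779440, .negSucc 266019839, .negSucc 134407439, .negSucc 291926159, .negSucc 126498959, .negSucc 68344559, .negSucc 89652239, .ofNat 117690480, .negSucc 187039439, .ofNat 328168080, .ofNat 93849120, .ofNat 48024000, .ofNat 27300960, .ofNat 283790880, .negSucc 104210639, .negSucc 214932239, .negSucc 56085119, .ofNat 92548080, .ofNat 124815600, .negSucc 304325999, .negSucc 273630959, .ofNat 519840, .ofNat 50614560, .ofNat 59965200, .ofNat 54445680, .negSucc 86453279, .negSucc 9977759],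
  [.ofNat 946738080, .negSucc 1164773519, .ofNat 247746960, .ofNat 1921509360, .negSucc 296881919, .negSucc 1475080559, .ofNat 1761809040, .ofNat 2170232640, .negSucc 375022799, .negSucc 222487199, .negSucc 203243759, .ofNat 1962703440, .ofNat 618697440, .ofNat 706631760, .ofNat 497414880, .ofNat 112071600, .ofNat 1088560080, .negSucc 449143199, .negSucc 2870639, .negSucc 1056897359, .negSucc 235133279, .negSucc 184590719, .negSucc 383679359, .negSucc 1255716719, .ofNat 354003840, .ofNat 780731280, .ofNat 2672640, .ofNat 20786400, .negSucc 304325999, .ofNat 1243267920, .ofNat 909940320, .ofNat 138319920, .negSucc 193672079, .negSucc 299704319, .negSucc 187015679, .ofNat 398474640, .ofNat 223404480],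
  [.ofNat 4199922720, .negSucc 947419199, .negSucc 520276319, .ofNat 2752864560, .ofNat 789816240, .negSucc 1686676319, .ofNat 3574520640, .ofNat 3454336080, .negSucc 374533199, .negSucc 1021826879, .negSucc 1120800959, .ofNat 360417600, .ofNat 415887120, .negSucc 49438079, .ofNat 308142000, .negSucc 11746799, .ofNat 1230674400, .negSucc 351155519, .ofNat 1310441760, .ofNat 448020000, .negSucc 108161279, .ofNat 63329040, .ofNat 417147120, .negSucc 454233599, .ofNat 33999120, .ofNat 337474080, .ofNat 1821600, .negSucc 320302079, .negSucc 273630959, .ofNat 909940320, .ofNat 2098378080, .negSucc 131256719, .negSucc 114020639, .ofNat 190334880, .negSucc 348044399, .ofNat 576099360, .ofNat 156035520],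
  [.negSucc 889546319, .negSucc 906421679, .ofNat 768363120, .negSucc 152530559, .negSucc 259385039, .ofNat 206546400, .ofNat 1168601040, .negSucc 487894319, .negSucc 127675439, .ofNat 407562480, .negSucc 270481679, .negSucc 34128719, .negSucc 962490959, .ofNat 91908720, .negSucc 164492639, .ofNat 43007760, .ofNat 424472760, .negSucc 381645359, .negSucc 304269839, .negSucc 1001469599, .ofNat 16943040, .negSucc 105956639, .negSucc 173100239, .negSucc 522007919, .ofNat 153483120, .ofNat 476097120, .negSucc 96838559, .ofNat 59509440, .ofNat 519840, .ofNat 138319920, .negSucc 131256719, .ofNat 418330080, .negSucc 68480639, .negSucc 135547919, .negSucc 84364559, .negSucc 136875599, .ofNat 29563200],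
  [.ofNat 515170800, .ofNat 248997600, .negSucc 363306239, .negSucc 93440879, .negSucc 75897359, .ofNat 754955280, .ofNat 186184080, .ofNat 168384240, .ofNat 388048320, .ofNat 105313680, .negSucc 98408879, .negSucc 1077219359, .ofNat 357592320, .ofNat 298932480, .negSucc 175651919, .negSucc 171866159, .negSucc 205153199, .ofNat 72489600, .negSucc 118207439, .ofNat 462858480, .ofNat 208549440, .ofNat 13279680, .negSucc 433766879, .ofNat 604692720, .negSucc 175380479, .negSucc 594480239, .negSucc 49763519, .negSucc 20532239, .ofNat 50614560, .negSucc 193672079, .negSucc 114020639, .negSucc 68480639, .ofNat 266606640, .ofNat 104846400, .ofNat 196870320, .negSucc 43360559, .negSucc 25320239],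
  [.ofNat 1006907760, .ofNat 305927280, .negSucc 173157119, .negSucc 21064319, .ofNat 429486480, .ofNat 224734320, .ofNat 178508160, .negSucc 58495679, .ofNat 37419840, .negSucc 214121519, .negSucc 149331599, .negSucc 997247519, .ofNat 239366160, .negSucc 198424079, .negSucc 214038719, .negSucc 123422399, .ofNat 45717840, .ofNat 210132720, .ofNat 265710960, .ofNat 574392240, .ofNat 160772400, .ofNat 141302160, .ofNat 169683840, .ofNat 570799440, .negSucc 194607359, .negSucc 409993199, .ofNat 247680, .negSucc 101748959, .ofNat 59965200, .negSucc 299704319, .ofNat 190334880, .negSucc 135547919, .ofNat 104846400, .ofNat 230034960, .ofNat 49318560, .negSucc 7830719, .negSucc 53813519],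
  [.ofNat 344056320, .ofNat 453377520, .negSucc 18990719, .negSucc 196223039, .negSucc 215998559, .ofNat 296942400, .negSucc 336936959, .negSucc 308728799, .ofNat 249852240, .ofNat 72648720, .negSucc 84938399, .negSucc 1090219679, .ofNat 620091360, .ofNat 353934720, .negSucc 158480639, .negSucc 101473919, .negSucc 31311359, .ofNat 735885360, .negSucc 214860959, .ofNat 616371840, .ofNat 215671680, .negSucc 2408399, .negSucc 382672079, .ofNat 484391520, .negSucc 137361599, .negSucc 526719599, .negSucc 47765519, .ofNat 40132080, .ofNat 54445680, .negSucc 187015679, .negSucc 348044399, .negSucc 84364559, .ofNat 196870320, .ofNat 49318560, .ofNat 283065840, .negSucc 51345359, .negSucc 9000719],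
  [.ofNat 1213163280, .ofNat 80488080, .negSucc 450848879, .ofNat 1132153920, .ofNat 271797120, .negSucc 1075903199, .ofNat 470214000, .ofNat 1484613360, .negSucc 112385519, .negSucc 332730719, .negSucc 189439919, .ofNat 1097467200, .ofNat 568905840, .ofNat 120782880, .ofNat 311821200, .negSucc 25701839, .ofNat 185325120, .ofNat 123639120, .ofNat 369287280, .ofNat 488409120, .negSucc 62844479, .negSucc 8876879, .ofNat 261851040, .negSucc 256505759, .ofNat 3630240, .ofNat 100191600, .negSucc 26999999, .ofNat 37259280, .negSucc 86453279, .ofNat 398474640, .ofNat 576099360, .negSucc 136875599, .negSucc 43360559, .negSucc 7830719, .negSucc 51345359, .ofNat 293093280, .ofNat 114615720],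
  [.ofNat 179228160, .negSucc 57301919, .negSucc 48286799, .ofNat 448606800, .ofNat 27007200, .negSucc 438621119, .ofNat 325195200, .ofNat 472091040, .negSucc 63583919, .negSucc 9140399, .negSucc 107738639, .ofNat 708857280, .ofNat 125799840, .ofNat 177899760, .ofNat 127015920, .negSucc 23101919, .ofNat 229965120, .negSucc 32140079, .negSucc 9172079, .ofNat 30938400, .negSucc 79199, .negSucc 37326239, .ofNat 13823280, .negSucc 230793119, .ofNat 21565440, .ofNat 97466400, .negSucc 65235599, .ofNat 103943520, .negSucc 9977759, .ofNat 223404480, .ofNat 156035520, .ofNat 29563200, .negSucc 25320239, .negSucc 53813519, .negSucc 9000719, .ofNat 114615720, .ofNat 93554640]]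

/-- Rounded Cholesky factor (lower triangular rows). -/
def lA7 : List (List Int) :=
 [[.ofNat 8387831],
  [.negSucc 298610, .ofNat 4140207],
  [.negSucc 829762, .negSucc 2882390, .ofNat 3343389],
  [.ofNat 3931634, .negSucc 1395038, .negSucc 1130668, .ofNat 2969014],
  [.ofNat 1107939, .ofNat 547632, .ofNat 39533, .ofNat 966977, .ofNat 2781963],
  [.negSucc 1995894, .negSucc 603527, .negSucc 534765, .negSucc 4177051, .negSucc 76147, .ofNat 3014578],
  [.ofNat 4724124, .negSucc 4511889, .negSucc 1401949, .negSucc 1257894, .negSucc 709920, .negSucc 1181630, .ofNat 3425865],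
  [.ofNat 4474227, .ofNat 196380, .negSucc 4662448, .ofNat 2636456, .negSucc 619158, .negSucc 912059, .ofNat 175129, .ofNat 909923],
  [.ofNat 181010, .ofNat 715921, .negSucc 1100662, .negSucc 960879, .negSucc 758027, .ofNat 730911, .ofNat 203946, .negSucc 24358, .ofNat 752765],
  [.negSucc 1415584, .negSucc 406199, .negSucc 300605, .negSucc 94864, .ofNat 16639, .ofNat 584217, .ofNat 712429, .ofNat 316451, .ofNat 901796, .ofNat 273464],
  [.negSucc 2676679, .ofNat 355225, .ofNat 468742, .ofNat 781281, .ofNat 863954, .ofNat 1297731, .negSucc 1723932, .ofNat 716106, .negSucc 1121860, .negSucc 699530, .ofNat 206126],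
  [.negSucc 2763052, .ofNat 2094707, .negSucc 4707453, .ofNat 6480834, .ofNat 2026178, .negSucc 2114975, .ofNat 954917, .ofNat 658732, .negSucc 1264904, .ofNat 3157280, .negSucc 797752, .ofNat 427242],
  [.ofNat 1102127, .ofNat 1009767, .ofNat 2081944, .ofNat 2008379, .negSucc 518243, .ofNat 2541795, .negSucc 1768585, .ofNat 1814783, .negSucc 1742912, .negSucc 1542406, .ofNat 500156, .negSucc 41789, .ofNat 118788],
  [.ofNat 1237615, .ofNat 1284211, .negSucc 2171004, .ofNat 174751, .negSucc 1157076, .ofNat 112576, .ofNat 2102784, .ofNat 2429060, .ofNat 355896, .ofNat 4737181, .negSucc 1062438, .ofNat 569175, .ofNat 52169, .ofNat 160096],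
  [.negSucc 254031, .ofNat 797815, .negSucc 1153919, .ofNat 877420, .negSucc 618539, .negSucc 917014, .negSucc 43614, .ofNat 84575, .negSucc 572384, .ofNat 138492, .negSucc 55660, .ofNat 36962, .ofNat 646, .negSucc 228, .ofNat 41636],
  [.negSucc 168297, .negSucc 129142, .negSucc 19590, .negSucc 156196, .negSucc 526583, .negSucc 707791, .negSucc 293545, .negSucc 356926, .negSucc 59441, .ofNat 262861, .negSucc 104603, .ofNat 17862, .negSucc 19704, .ofNat 908, .ofNat 6435, .ofNat 39409],
  [.ofNat 368397, .negSucc 2574891, .ofNat 3027587, .ofNat 342701, .negSucc 718811, .ofNat 304271, .ofNat 946002, .ofNat 130851, .negSucc 2809782, .negSucc 1782034, .ofNat 451477, .negSucc 62457, .ofNat 78121, .negSucc 54249, .ofNat 16485, .ofNat 706, .ofNat 71605],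
  [.ofNat 1234251, .ofNat 765957, .ofNat 4168754, .ofNat 542655, .negSucc 1829519, .negSucc 601629, .negSucc 887943, .negSucc 512903, .ofNat 1090908, .negSucc 3226392, .ofNat 843041, .negSucc 415463, .ofNat 26878, .negSucc 44137, .negSucc 3569, .negSucc 7648, .negSucc 2461, .ofNat 64504],
  [.ofNat 2753312, .ofNat 741483, .negSucc 1341402, .negSucc 109054, .ofNat 663302, .negSucc 1502761, .negSucc 167900, .negSucc 900728, .ofNat 925407, .ofNat 1412804, .negSucc 435269, .ofNat 83363, .negSucc 69526, .ofNat 16420, .ofNat 1286, .ofNat 7887, .negSucc 16213, .negSucc 8978, .ofNat 45245],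
  [.ofNat 2882578, .ofNat 2311681, .ofNat 1197161, .ofNat 274367, .negSucc 697517, .ofNat 751456, .negSucc 860013, .negSucc 2835117, .ofNat 1867724, .negSucc 3581239, .ofNat 810163, .negSucc 523325, .negSucc 41635, .negSucc 138686, .negSucc 11592, .negSucc 9700, .ofNat 1498, .ofNat 31930, .ofNat 2899, .ofNat 79584],
  [.ofNat 514160, .negSucc 104126, .ofNat 616392, .negSucc 117006, .ofNat 303437, .ofNat 861020, .ofNat 376427, .ofNat 91361, .ofNat 451211, .negSucc 121030, .ofNat 64890, .negSucc 22097, .ofNat 14604, .negSucc 2789, .negSucc 10792, .negSucc 7110, .negSucc 2101, .ofNat 5821, .negSucc 4165, .ofNat 9507, .ofNat 39169],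
  [.ofNat 41939, .ofNat 206426, .ofNat 343359, .negSucc 103813, .ofNat 540286, .ofNat 118985, .negSucc 130694, .ofNat 106864, .negSucc 312311, .negSucc 198827, .ofNat 53271, .negSucc 6803, .ofNat 6371, .negSucc 1443, .negSucc 452, .negSucc 1299, .ofNat 1501, .negSucc 2134, .ofNat 268, .negSucc 4255, .ofNat 931, .ofNat 36669],
  [.ofNat 1058910, .ofNat 997873, .negSucc 465444, .ofNat 1438498, .ofNat 2411914, .negSucc 1693828, .negSucc 309745, .negSucc 1035682, .ofNat 1508863, .ofNat 1095427, .negSucc 331879, .ofNat 22551, .negSucc 73323, .ofNat 118, .negSucc 11631, .negSucc 122, .negSucc 29269, .ofNat 1119, .ofNat 10470, .ofNat 1273, .ofNat 2491, .ofNat 1794, .ofNat 44880],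
  [.ofNat 790968, .ofNat 1533788, .ofNat 461215, .negSucc 1817522, .ofNat 519871, .ofNat 1642819, .negSucc 177279, .ofNat 44248, .ofNat 334024, .negSucc 458795, .ofNat 141676, .negSucc 54798, .ofNat 11596, .negSucc 3322, .negSucc 6456, .negSucc 7343, .negSucc 2641, .ofNat 590, .negSucc 4690, .ofNat 7275, .ofNat 3495, .ofNat 2550, .negSucc 1764, .ofNat 40452],
  [.negSucc 413248, .negSucc 568731, .negSucc 81548, .ofNat 216913, .negSucc 414843, .negSucc 474676, .negSucc 203089, .ofNat 31085, .negSucc 213631, .ofNat 133501, .negSucc 47970, .ofNat 19180, .negSucc 5613, .ofNat 5588, .ofNat 4253, .ofNat 5078, .ofNat 607, .negSucc 2534, .ofNat 3226, .negSucc 5521, .negSucc 2455, .negSucc 1078, .negSucc 199, .negSucc 4449, .ofNat 36937],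
  [.negSucc 764086, .negSucc 1348800, .negSucc 345026, .ofNat 1120455, .ofNat 117649, .negSucc 1867708, .negSucc 101331, .negSucc 199532, .negSucc 54523, .ofNat 442983, .negSucc 148859, .ofNat 32330, .negSucc 31415, .ofNat 6050, .ofNat 6816, .ofNat 7533, .negSucc 5396, .negSucc 2213, .ofNat 4601, .negSucc 15824, .negSucc 5329, .negSucc 1558, .ofNat 3826, .negSucc 8513, .ofNat 3285, .ofNat 40396],
  [.negSucc 22702, .negSucc 58692, .ofNat 31282, .negSucc 140120, .ofNat 33067, .negSucc 5850, .negSucc 657324, .ofNat 39589, .negSucc 154897, .ofNat 194514, .negSucc 63508, .ofNat 24098, .negSucc 9134, .ofNat 8632, .ofNat 1807, .ofNat 4814, .negSucc 4232, .negSucc 6250, .ofNat 4166, .negSucc 5823, .negSucc 1467, .negSucc 47, .ofNat 1222, .negSucc 2630, .ofNat 2190, .ofNat 1735, .ofNat 37261],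
  [.negSucc 551482, .ofNat 316158, .negSucc 2299, .ofNat 685677, .ofNat 16924, .ofNat 193174, .ofNat 544110, .negSucc 118364, .ofNat 109499, .negSucc 38938, .ofNat 23761, .negSucc 3101, .ofNat 11685, .negSucc 15181, .negSucc 3619, .negSucc 4845, .ofNat 5506, .ofNat 6929, .negSucc 4452, .ofNat 11680, .ofNat 3157, .negSucc 498, .negSucc 405, .ofNat 787, .negSucc 1388, .negSucc 1888, .negSucc 1827, .ofNat 37235],
  [.negSucc 258979, .ofNat 301470, .ofNat 180398, .negSucc 171287, .ofNat 225773, .ofNat 213181, .ofNat 298011, .negSucc 262859, .ofNat 132327, .negSucc 125405, .ofNat 29186, .negSucc 20538, .negSucc 817, .negSucc 12382, .negSucc 3116, .negSucc 2885, .ofNat 2706, .ofNat 2500, .negSucc 925, .ofNat 7830, .ofNat 2411, .ofNat 504, .ofNat 990, .ofNat 1915, .negSucc 1022, .negSucc 1649, .negSucc 781, .ofNat 1688, .ofNat 36272],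
  [.ofNat 462317, .negSucc 1118991, .negSucc 546447, .ofNat 1304794, .negSucc 846723, .negSucc 232550, .negSucc 5002, .ofNat 348613, .negSucc 835222, .ofNat 162786, .negSucc 43009, .ofNat 61396, .ofNat 16395, .negSucc 2225, .ofNat 5238, .ofNat 4877, .ofNat 9781, .negSucc 3518, .ofNat 575, .negSucc 938, .negSucc 793, .negSucc 1774, .negSucc 3018, .negSucc 7954, .ofNat 4065, .ofNat 679, .ofNat 2891, .ofNat 591, .negSucc 407, .ofNat 40409],
  [.ofNat 2050933, .negSucc 789379, .negSucc 808928, .ofNat 402951, .ofNat 372903, .negSucc 667633, .ofNat 69881, .negSucc 106151, .negSucc 1447396, .negSucc 493007, .ofNat 76327, .negSucc 1395, .ofNat 1513, .negSucc 23118, .ofNat 11713, .ofNat 4708, .ofNat 16127, .negSucc 13386, .ofNat 4637, .negSucc 8271, .negSucc 4303, .ofNat 2725, .negSucc 2022, .ofNat 182, .ofNat 357, .ofNat 274, .ofNat 568, .negSucc 2932, .negSucc 614, .ofNat 80, .ofNat 41602],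
  [.negSucc 434388, .negSucc 928073, .ofNat 33410, .negSucc 58547, .negSucc 6336, .negSucc 268120, .ofNat 672299, .ofNat 78384, .ofNat 340849, .ofNat 100807, .negSucc 8065, .negSucc 1627, .ofNat 598, .ofNat 5624, .negSucc 2533, .negSucc 2620, .negSucc 1945, .ofNat 4289, .negSucc 3868, .negSucc 2439, .ofNat 1077, .negSucc 594, .ofNat 406, .negSucc 163, .negSucc 884, .ofNat 1189, .negSucc 1767, .ofNat 1048, .ofNat 69, .negSucc 1349, .negSucc 2099, .ofNat 36901],
  [.ofNat 251572, .ofNat 264483, .negSucc 154636, .negSucc 396663, .negSucc 123927, .ofNat 665106, .ofNat 218821, .ofNat 361059, .ofNat 248820, .negSucc 256840, .ofNat 101018, .negSucc 26239, .ofNat 15437, .ofNat 7450, .negSucc 3103, .negSucc 4947, .negSucc 1684, .ofNat 5015, .negSucc 4464, .ofNat 2272, .ofNat 1426, .ofNat 202, .negSucc 1858, .ofNat 4482, .negSucc 2375, .negSucc 1854, .negSucc 1952, .ofNat 397, .negSucc 359, .negSucc 3197, .negSucc 1165, .ofNat 1346, .ofNat 36899],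
  [.ofNat 491700, .ofNat 338124, .ofNat 201397, .negSucc 444609, .ofNat 521646, .ofNat 131436, .ofNat 53304, .ofNat 42584, .negSucc 124642, .negSucc 182128, .ofNat 49612, .negSucc 13719, .ofNat 3788, .ofNat 931, .ofNat 193, .negSucc 2061, .ofNat 930, .negSucc 1633, .negSucc 431, .negSucc 3100, .negSucc 164, .ofNat 1798, .ofNat 221, .ofNat 4903, .negSucc 2634, .negSucc 1407, .negSucc 1843, .negSucc 967, .negSucc 165, .negSucc 4591, .ofNat 2987, .ofNat 269, .ofNat 1467, .ofNat 37294],
  [.ofNat 168012, .ofNat 460654, .ofNat 415569, .negSucc 118486, .negSucc 440336, .ofNat 505346, .ofNat 181768, .ofNat 329314, .ofNat 364711, .negSucc 52305, .ofNat 51768, .negSucc 8950, .ofNat 18603, .ofNat 10553, .negSucc 3722, .negSucc 3769, .negSucc 1467, .ofNat 8240, .negSucc 4260, .ofNat 4205, .ofNat 2073, .negSucc 976, .negSucc 1460, .ofNat 1118, .negSucc 1066, .negSucc 1781, .negSucc 1684, .ofNat 1457, .ofNat 182, .negSucc 694, .negSucc 4188, .ofNat 767, .ofNat 1192, .ofNat 210, .ofNat 37194],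
  [.ofNat 592420, .ofNat 122357, .negSucc 299823, .ofNat 720716, .negSucc 106094, .negSucc 102366, .negSucc 8943, .negSucc 54082, .negSucc 395530, .negSucc 199503, .ofNat 40231, .negSucc 4989, .ofNat 5312, .negSucc 14728, .ofNat 2152, .ofNat 252, .ofNat 6601, .negSucc 200, .ofNat 491, .ofNat 4275, .negSucc 156, .negSucc 49, .negSucc 1063, .negSucc 1532, .ofNat 683, .negSucc 374, .ofNat 228, .ofNat 526, .ofNat 414, .ofNat 1786, .ofNat 1260, .negSucc 990, .negSucc 756, .negSucc 603, .negSucc 141, .ofNat 36176],
  [.ofNat 87522, .negSucc 50377, .negSucc 80866, .ofNat 448525, .negSucc 139927, .ofNat 55497, .ofNat 323511, .negSucc 110167, .negSucc 150829, .negSucc 19964, .ofNat 3127, .ofNat 6147, .ofNat 6392, .negSucc 12262, .negSucc 860, .negSucc 1153, .ofNat 6267, .ofNat 1713, .negSucc 948, .ofNat 7461, .ofNat 1880, .negSucc 383, .negSucc 774, .negSucc 1251, .ofNat 468, .negSucc 1330, .negSucc 100, .ofNat 1817, .ofNat 1201, .ofNat 2609, .negSucc 598, .negSucc 340, .negSucc 1179, .negSucc 1291, .ofNat 347, .ofNat 398, .ofNat 36482]]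

theorem okA7 : psdOK 37 4096 gA7 lA7 = true := by decide +kernel

end Pool.Agent.H2AF
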