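import Pool.Agent.Lib.H2AF.PSD

/-! # Certificate A of MP_afe93a, block 8 (T2_1, loc, size 36): the Gram matrix is positive semidefinite -/

namespace Pool.Agent.H2AF

/-- Gram matrix (integers), block T2_1, certificate A. -/
def gA8 : List (List Int) :=
 [[.ofNat 1690955280, .ofNat 507132000, .ofNat 1321920, .negSucc 822521519, .ofNat 679418640, .ofNat 143085600, .ofNat 345462480, .negSucc 1640844719, .ofNat 829333440, .ofNat 473569920, .ofNat 357922800, .ofNat 513916560, .ofNat 235549440, .ofNat 508934160, .ofNat 869234400, .negSucc 46095839, .negSucc 759940559, .negSucc 482182559, .negSucc 337638239, .ofNat 969658560, .ofNat 584019360, .negSucc 53009279, .negSucc 225785519, .negSucc 316957679, .negSucc 1099252079, .negSucc 468478799, .ofNat 364291920, .ofNat 39160080, .negSucc 87307199, .ofNat 383829120, .ofNat 670169520, .ofNat 937656000, .ofNat 326054880, .ofNat 28193040, .ofNat 116314560, .negSucc 482759999],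
  [.ofNat 507132000, .ofNat 534141360, .negSucc 3347999, .negSucc 848785679, .ofNat 754863840, .negSucc 28333439, .negSucc 153471599, .negSucc 1004241599, .ofNat 398998080, .ofNat 409797360, .negSucc 313480799, .ofNat 219700800, .ofNat 207121680, .ofNat 51549840, .ofNat 875160720, .negSucc 22273199, .negSucc 762208559, .negSucc 96364079, .ofNat 352000080, .negSucc 194095439, .ofNat 274034880, .ofNat 117291600, .ofNat 68830560, .negSucc 217634399, .negSucc 844464959, .ofNat 194139360, .negSucc 153098639, .ofNat 91627920, .ofNat 70237440, .ofNat 129364560, .ofNat 472672800, .ofNat 681120, .negSucc 357336719, .negSucc 91955519, .negSucc 58206239, .negSucc 241261919],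
  [.ofNat 1321920, .negSucc 3347999, .ofNat 2495508480, .ofNat 975314160, .negSucc 494621279, .negSucc 173471759, .negSucc 2036704319, .ofNat 578146320, .negSucc 116716319, .negSucc 326686319, .negSucc 10686239, .negSucc 767397599, .ofNat 271758240, .ofNat 1856880, .negSucc 206307359, .ofNat 395717760, .ofNat 112762080, .negSucc 730041839, .ofNat 1133912880, .negSucc 1187014319, .negSucc 680117759, .ofNat 150701040, .negSucc 176869439, .ofNat 472818960, .negSucc 553528079, .ofNat 352462320, .ofNat 563286240, .negSucc 85123439, .ofNat 35187840, .ofNat 348613920, .negSucc 134348399, .ofNat 1062082080, .ofNat 704001600, .ofNat 27666000, .ofNat 85196880, .negSucc 549748079],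
  [.negSucc 822521519, .negSucc 848785679, .ofNat 975314160, .ofNat 2154774960, .negSucc 1747015919, .negSucc 220790159, .ofNat 59823360, .ofNat 1920462480, .negSucc 539106479, .negSucc 481478399, .ofNat 124338240, .negSucc 995140799, .negSucc 399853439, .negSucc 471331439, .negSucc 1609419599, .ofNat 407774880, .ofNat 1388836800, .negSucc 439719119, .ofNat 440638560, .negSucc 218504159, .negSucc 981300239, .negSucc 15844319, .negSucc 88981199, .ofNat 698189040, .ofNat 857728080, .negSucc 661604399, .ofNat 638525520, .negSucc 154075679, .negSucc 120666959, .ofNat 135995760, .negSucc 808747199, .ofNat 825740640, .ofNat 860437440, .ofNat 87354720, .ofNat 73829520, .negSucc 78981839],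
  [.ofNat 679418640, .ofNat 754863840, .negSucc 494621279, .negSucc 1747015919, .ofNat 1821407040, .ofNat 148513680, .ofNat 70009920, .negSucc 1920973679, .ofNat 116049600, .ofNat 796647600, .negSucc 260081279, .ofNat 1115861760, .ofNat 505336320, .ofNat 335670480, .ofNat 1651803120, .negSucc 352774079, .negSucc 1440043199, .ofNat 473668560, .negSucc 864781199, .ofNat 119064960, .ofNat 985597200, .ofNat 27009360, .ofNat 19791360, .negSucc 722915279, .negSucc 525246479, .ofNat 716333040, .negSucc 931705919, .ofNat 69631920, .ofNat 195795360, .negSucc 262666079, .ofNat 1051241760, .negSucc 866136239, .negSucc 522056159, .negSucc 28524959, .negSucc 52425359, .ofNat 380760480],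
  [.ofNat 143085600, .negSucc 28333439, .negSucc 173471759, .negSucc 220790159, .ofNat 148513680, .ofNat 340392240, .ofNat 8471520, .ofNat 186363360, .negSucc 130655519, .negSucc 156075839, .ofNat 291846960, .ofNat 54195120, .ofNat 241768080, .ofNat 193927680, .ofNat 77256720, .negSucc 136231199, .negSucc 68286959, .ofNat 66564000, .negSucc 154743119, .ofNat 481590000, .ofNat 230039280, .negSucc 42101999, .negSucc 75602159, .ofNat 29532960, .ofNat 115649280, .negSucc 102781439, .ofNat 194940000, .negSucc 44686799, .ofNat 58668480, .negSucc 80344799, .negSucc 28927439, .negSucc 54025199, .negSucc 148728959, .ofNat 61919280, .negSucc 31472639, .ofNat 117328320],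
  [.ofNat 345462480, .negSucc 153471599, .negSucc 2036704319, .ofNat 59823360, .ofNat 70009920, .ofNat 8471520, .ofNat 3327797520, .negSucc 598505759, .negSucc 50621759, .ofNat 1090259280, .negSucc 266168159, .ofNat 560670480, .negSucc 333872639, .negSucc 466667999, .ofNat 55681920, .negSucc 112083839, .ofNat 14455440, .ofNat 233137440, .negSucc 1245579839, .ofNat 1710060480, .ofNat 521778240, .negSucc 75480479, .ofNat 67002480, .negSucc 300933359, .ofNat 542557440, .negSucc 1310402159, .negSucc 360231839, .negSucc 23837759, .negSucc 24266879, .negSucc 152737919, .ofNat 487324800, .negSucc 197036639, .negSucc 76286159, .ofNat 22559760, .negSucc 74162879, .ofNat 536933520],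
  [.negSucc 1640844719, .negSucc 1004241599, .ofNat 578146320, .ofNat 1920462480, .negSucc 1920973679, .ofNat 186363360, .negSucc 598505759, .ofNat 3192310080, .negSucc 858206879, .negSucc 1238937839, .ofNat 249914160, .negSucc 1457056079, .negSucc 235413359, .negSucc 472713839, .negSucc 1918170719, .ofNat 231127920, .ofNat 1661816880, .negSucc 110575439, .ofNat 1154204640, .negSucc 411284879, .negSucc 1093671359, .ofNat 22150800, .ofNat 53231760, .ofNat 991189440, .ofNat 1200775680, .negSucc 379547279, .ofNat 913299840, .negSucc 148521599, .negSucc 1053359, .negSucc 81257759, .negSucc 1432461599, .ofNat 155909520, .ofNat 3062160, .ofNat 67311360, .negSucc 100988639, .ofNat 47263680],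
  [.ofNat 829333440, .ofNat 398998080, .negSucc 116716319, .negSucc 539106479, .ofNat 116049600, .negSucc 130655519, .negSucc 50621759, .negSucc 858206879, .ofNat 901426320, .ofNat 98121600, .negSucc 30556079, .negSucc 56619359, .negSucc 125016479, .ofNat 137124720, .ofNat 366468480, .ofNat 85145760, .negSucc 311166719, .negSucc 420801839, .ofNat 643349520, .ofNat 72822960, .ofNat 25368480, .ofNat 52161120, .ofNat 29819520, .negSucc 74377439, .negSucc 1085127119, .negSucc 239293439, .ofNat 391746240, .ofNat 131878080, .negSucc 127784159, .ofNat 421444800, .ofNat 133138800, .ofNat 645136560, .negSucc 100009439, .negSucc 106693919, .ofNat 29270880, .negSucc 691827119],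
  [.ofNat 473569920, .ofNat 409797360, .negSucc 326686319, .negSucc 481478399, .ofNat 796647600, .negSucc 156075839, .ofNat 1090259280, .negSucc 1238937839, .ofNat 98121600, .ofNat 1051603920, .negSucc 565292159, .ofNat 495416880, .ofNat 95001840, .negSucc 258968879, .ofNat 902636640, .negSucc 12751919, .negSucc 778304159, .ofNat 27696960, .negSucc 388743839, .ofNat 228221280, .ofNat 420296400, .ofNat 104282640, .ofNat 58050000, .negSucc 356435999, .negSucc 416428559, .negSucc 171353519, .negSucc 544992479, .ofNat 29031840, .ofNat 105968160, .negSucc 18781919, .ofNat 831979440, .negSucc 134228879, .negSucc 128604959, .negSucc 52300079, .negSucc 62724239, .ofNat 169593120],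
  [.ofNat 357922800, .negSucc 313480799, .negSucc 10686239, .ofNat 124338240, .negSucc 260081279, .ofNat 291846960, .negSucc 266168159, .ofNat 249914160, .negSucc 30556079, .negSucc 565292159, .ofNat 875311920, .ofNat 214130880, .ofNat 33018480, .ofNat 558206640, .negSucc 448212239, .negSucc 161663759, .ofNat 381062880, .ofNat 46537920, .negSucc 820084319, .ofNat 751433040, .ofNat 179773920, .negSucc 241940879, .negSucc 255268079, .negSucc 10940399, .ofNat 475397280, .negSucc 87871679, .ofNat 344955600, .negSucc 84174479, .negSucc 122345279, .negSucc 53219519, .negSucc 266413679, .ofNat 236823840, .ofNat 496356480, .ofNat 159096240, .ofNat 162074160, .ofNat 99987120],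
  [.ofNat 513916560, .ofNat 219700800, .negSucc 767397599, .negSucc 995140799, .ofNat 1115861760, .ofNat 54195120, .ofNat 560670480, .negSucc 1457056079, .negSucc 56619359, .ofNat 495416880, .ofNat 214130880, .ofNat 1239133680, .ofNat 122052960, .ofNat 444334320, .ofNat 776239200, .negSucc 366059519, .negSucc 669905999, .ofNat 601359840, .negSucc 1797299279, .ofNat 596216160, .ofNat 854209440, .negSucc 194018399, .negSucc 108297359, .negSucc 713874239, .ofNat 350493840, .ofNat 460357920, .negSucc 917712719, .negSucc 3101039, .ofNat 13323600, .negSucc 364139279, .ofNat 703772640, .negSucc 780482159, .ofNat 139493520, .ofNat 83442240, .ofNat 111450240, .ofNat 626861520],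
  [.ofNat 235549440, .ofNat 207121680, .ofNat 271758240, .negSucc 399853439, .ofNat 505336320, .ofNat 241768080, .negSucc 333872639, .negSucc 235413359, .negSucc 125016479, .ofNat 95001840, .ofNat 33018480, .ofNat 122052960, .ofNat 409016880, .ofNat 159237360, .ofNat 490872960, .negSucc 57923999, .negSucc 435481919, .negSucc 29735999, .ofNat 43777440, .ofNat 57134880, .ofNat 241747200, .ofNat 45180000, .negSucc 57494159, .negSucc 35758079, .negSucc 219173039, .ofNat 134362800, .negSucc 2310479, .negSucc 26132399, .ofNat 122699520, .negSucc 30606479, .ofNat 237767040, .negSucc 8866799, .negSucc 128773439, .ofNat 25812000, .negSucc 43773839, .ofNat 37733040],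
  [.ofNat 508934160, .ofNat 51549840, .ofNat 1856880, .negSucc 471331439, .ofNat 335670480, .ofNat 193927680, .negSucc 466667999, .negSucc 472713839, .ofNat 137124720, .negSucc 258968879, .ofNat 558206640, .ofNat 444334320, .ofNat 159237360, .ofNat 560206800, .ofNat 172108800, .negSucc 173256479, .negSucc 156918239, .ofNat 90786240, .negSucc 672604559, .ofNat 374965200, .ofNat 342662400, .negSucc 158073119, .negSucc 173069279, .negSucc 212345279, .ofNat 22451760, .ofNat 243463680, .ofNat 12833280, .negSucc 14137919, .negSucc 61666559, .negSucc 37865519, .ofNat 72646560, .ofNat 30343680, .ofNat 257745600, .ofNat 85217760, .ofNat 125182800, .ofNat 32303520],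
  [.ofNat 869234400, .ofNat 875160720, .negSucc 206307359, .negSucc 1609419599, .ofNat 1651803120, .ofNat 77256720, .ofNat 55681920, .negSucc 1918170719, .ofNat 366468480, .ofNat 902636640, .negSucc 448212239, .ofNat 776239200, .ofNat 490872960, .ofNat 172108800, .ofNat 1701602640, .negSucc 200304719, .negSucc 1486022399, .ofNat 128676240, .negSucc 174176639, .negSucc 1344959, .ofNat 797541840, .ofNat 133328880, .ofNat 52728480, .negSucc 563120639, .negSucc 1036844639, .ofNat 448846560, .negSucc 605569679, .ofNat 97794720, .ofNat 191433600, .negSucc 24162479, .ofNat 1060593840, .negSucc 397786319, .negSucc 574729919, .negSucc 84854159, .negSucc 92198159, .ofNat 23147280],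
  [.negSucc 46095839, .negSucc 22273199, .ofNat 395717760, .ofNat 407774880, .negSucc 352774079, .negSucc 136231199, .negSucc 112083839, .ofNat 231127920, .ofNat 85145760, .negSucc 12751919, .negSucc 161663759, .negSucc 366059519, .negSucc 57923999, .negSucc 173256479, .negSucc 200304719, .ofNat 219463200, .ofNat 178245360, .negSucc 329283359, .ofNat 595576080, .negSucc 297354959, .negSucc 336788639, .ofNat 79645680, .ofNat 28127520, .ofNat 209505600, .negSucc 240177599, .negSucc 212778719, .ofNat 241148160, .ofNat 11651760, .negSucc 31571279, .ofNat 206838360, .negSucc 139007519, .ofNat 464770800, .ofNat 158551200, .negSucc 40996079, .negSucc 4033439, .negSucc 305704799],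
  [.negSucc 759940559, .negSucc 762208559, .ofNat 112762080, .ofNat 1388836800, .negSucc 1440043199, .negSucc 68286959, .ofNat 14455440, .ofNat 1661816880, .negSucc 311166719, .negSucc 778304159, .ofNat 381062880, .negSucc 669905999, .negSucc 435481919, .negSucc 156918239, .negSucc 1486022399, .ofNat 178245360, .ofNat 1302492240, .negSucc 110910239, .ofNat 152699040, .ofNat 20508480, .negSucc 693809279, .negSucc 116346239, .negSucc 37298159, .ofNat 487774800, .ofNat 907007760, .negSucc 418499279, .ofNat 520840080, .negSucc 80538479, .negSucc 170577359, .ofNat 24293520, .negSucc 931434479, .ofNat 343594080, .ofNat 490564800, .ofNat 69811920, .ofNat 77580720, .negSucc 24629759],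
  [.negSucc 482182559, .negSucc 96364079, .negSucc 730041839, .negSucc 439719119, .ofNat 473668560, .ofNat 66564000, .ofNat 233137440, .negSucc 110575439, .negSucc 420801839, .ofNat 27696960, .ofNat 46537920, .ofNat 601359840, .negSucc 29735999, .ofNat 90786240, .ofNat 128676240, .negSucc 329283359, .negSucc 110910239, .ofNat 755888400, .negSucc 1085834879, .ofNat 91443600, .ofNat 397010880, .negSucc 121302719, .ofNat 44615520, .negSucc 347777999, .ofNat 801970560, .ofNat 567472320, .negSucc 748475279, .negSucc 19687679, .ofNat 68482800, .negSucc 494040239, .ofNat 125179920, .negSucc 1159187039, .negSucc 273234239, .ofNat 48304800, .negSucc 9073439, .ofNat 726234480],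
  [.negSucc 337638239, .ofNat 352000080, .ofNat 1133912880, .ofNat 440638560, .negSucc 864781199, .negSucc 154743119, .negSucc 1245579839, .ofNat 1154204640, .ofNat 643349520, .negSucc 388743839, .negSucc 820084319, .negSucc 1797299279, .ofNat 43777440, .negSucc 672604559, .negSucc 174176639, .ofNat 595576080, .ofNat 152699040, .negSucc 1085834879, .ofNat 3600281520, .negSucc 1431948239, .negSucc 1124915039, .ofNat 486718560, .ofNat 329132160, .ofNat 908113680, .negSucc 1693882799, .negSucc 414650159, .ofNat 1268948160, .ofNat 158349600, .ofNat 58875120, .ofNat 775390320, .negSucc 659805119, .ofNat 1192188960, .negSucc 800183519, .negSucc 291015359, .negSucc 274338719, .negSucc 1407259439],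
  [.ofNat 969658560, .negSucc 194095439, .negSucc 1187014319, .negSucc 218504159, .ofNat 119064960, .ofNat 481590000, .ofNat 1710060480, .negSucc 411284879, .ofNat 72822960, .ofNat 228221280, .ofNat 751433040, .ofNat 596216160, .ofNat 57134880, .ofNat 374965200, .negSucc 1344959, .negSucc 297354959, .ofNat 20508480, .ofNat 91443600, .negSucc 1431948239, .ofNat 2050928640, .ofNat 725361120, .negSucc 247041359, .negSucc 255983759, .negSucc 225735839, .ofNat 414221040, .negSucc 959627519, .ofNat 296814240, .negSucc 99356399, .negSucc 70619039, .negSucc 87499439, .ofNat 252409680, .ofNat 244082880, .ofNat 251681040, .ofNat 176290560, .ofNat 73418400, .ofNat 338448960],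
  [.ofNat 584019360, .ofNat 274034880, .negSucc 680117759, .negSucc 981300239, .ofNat 985597200, .ofNat 230039280, .ofNat 521778240, .negSucc 1093671359, .ofNat 25368480, .ofNat 420296400, .ofNat 179773920, .ofNat 854209440, .ofNat 241747200, .ofNat 342662400, .ofNat 797541840, .negSucc 336788639, .negSucc 693809279, .ofNat 397010880, .negSucc 1124915039, .ofNat 725361120, .ofNat 783073440, .negSucc 104543999, .negSucc 85158719, .negSucc 495059039, .ofNat 28460160, .ofNat 186589440, .negSucc 475698239, .negSucc 5262479, .ofNat 70984800, .negSucc 243203039, .ofNat 605298960, .negSucc 532706399, .negSucc 171135359, .ofNat 60456240, .ofNat 15942240, .ofNat 419115600],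
  [.negSucc 53009279, .ofNat 117291600, .ofNat 150701040, .negSucc 15844319, .ofNat 27009360, .negSucc 42101999, .negSucc 75480479, .ofNat 22150800, .ofNat 52161120, .ofNat 104282640, .negSucc 241940879, .negSucc 194018399, .ofNat 45180000, .negSucc 158073119, .ofNat 133328880, .ofNat 79645680, .negSucc 116346239, .negSucc 121302719, .ofNat 486718560, .negSucc 247041359, .negSucc 104543999, .ofNat 98405280, .ofNat 67962240, .ofNat 82080000, .negSucc 280663919, .negSucc 25246799, .ofNat 59052960, .ofNat 24682320, .ofNat 44758080, .ofNat 81286560, .ofNat 34058160, .ofNat 80300880, .negSucc 176621039, .negSucc 52315919, .negSucc 61709039, .negSucc 142608239],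
  [.negSucc 225785519, .ofNat 68830560, .negSucc 176869439, .negSucc 88981199, .ofNat 19791360, .negSucc 75602159, .ofNat 67002480, .ofNat 53231760, .ofNat 29819520, .ofNat 58050000, .negSucc 255268079, .negSucc 108297359, .negSucc 57494159, .negSucc 173069279, .ofNat 52728480, .ofNat 28127520, .negSucc 37298159, .ofNat 44615520, .ofNat 329132160, .negSucc 255983759, .negSucc 85158719, .ofNat 67962240, .ofNat 115994160, .ofNat 21674160, .negSucc 96721199, .ofNat 52011360, .negSucc 89647199, .ofNat 42930720, .ofNat 25881120, .negSucc 1558079, .negSucc 33810479, .negSucc 177759359, .negSucc 267870959, .negSucc 62944559, .negSucc 64254239, .negSucc 37426319],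
  [.negSucc 316957679, .negSucc 217634399, .ofNat 472818960, .ofNat 698189040, .negSucc 722915279, .ofNat 29532960, .negSucc 300933359, .ofNat 991189440, .negSucc 74377439, .negSucc 356435999, .negSucc 10940399, .negSucc 713874239, .negSucc 35758079, .negSucc 212345279, .negSucc 563120639, .ofNat 209505600, .ofNat 487774800, .negSucc 347777999, .ofNat 908113680, .negSucc 225735839, .negSucc 495059039, .ofNat 82080000, .ofNat 21674160, .ofNat 447963840, .negSucc 40540319, .negSucc 326301839, .ofNat 574369200, .negSucc 26960399, .negSucc 10295279, .ofNat 184734000, .negSucc 464225759, .ofNat 494563320, .ofNat 27941040, .negSucc 15209279, .negSucc 48318479, .negSucc 304991279],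
  [.negSucc 1099252079, .negSucc 844464959, .negSucc 553528079, .ofNat 857728080, .negSucc 525246479, .ofNat 115649280, .ofNat 542557440, .ofNat 1200775680, .negSucc 1085127119, .negSucc 416428559, .ofNat 475397280, .ofNat 350493840, .negSucc 219173039, .ofNat 22451760, .negSucc 1036844639, .negSucc 240177599, .ofNat 907007760, .ofNat 801970560, .negSucc 1693882799, .ofNat 414221040, .ofNat 28460160, .negSucc 280663919, .negSucc 96721199, .negSucc 40540319, .ofNat 2010972240, .ofNat 205169040, .negSucc 571615919, .negSucc 175453199, .negSucc 12722399, .negSucc 656908559, .negSucc 436644719, .negSucc 1004000399, .ofNat 423101520, .ofNat 200251440, .ofNat 89580960, .ofNat 1086145920],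
  [.negSucc 468478799, .ofNat 194139360, .ofNat 352462320, .negSucc 661604399, .ofNat 716333040, .negSucc 102781439, .negSucc 1310402159, .negSucc 379547279, .negSucc 239293439, .negSucc 171353519, .negSucc 87871679, .ofNat 460357920, .ofNat 134362800, .ofNat 243463680, .ofNat 448846560, .negSucc 212778719, .negSucc 418499279, .ofNat 567472320, .negSucc 414650159, .negSucc 959627519, .ofNat 186589440, .negSucc 25246799, .ofNat 52011360, .negSucc 326301839, .ofNat 205169040, .ofNat 1277428320, .negSucc 778972319, .ofNat 33027840, .ofNat 89661600, .negSucc 346384079, .ofNat 163282320, .negSucc 1011303359, .negSucc 220955759, .negSucc 12391919, .ofNat 27207360, .ofNat 371180880],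
  [.ofNat 364291920, .negSucc 153098639, .ofNat 563286240, .ofNat 638525520, .negSucc 931705919, .ofNat 194940000, .negSucc 360231839, .ofNat 913299840, .ofNat 391746240, .negSucc 544992479, .ofNat 344955600, .negSucc 917712719, .negSucc 2310479, .ofNat 12833280, .negSucc 605569679, .ofNat 241148160, .ofNat 520840080, .negSucc 748475279, .ofNat 1268948160, .ofNat 296814240, .negSucc 475698239, .ofNat 59052960, .negSucc 89647199, .ofNat 574369200, .negSucc 571615919, .negSucc 778972319, .ofNat 1253389680, .negSucc 16851599, .negSucc 97166879, .ofNat 482795280, .negSucc 552999599, .ofNat 1229214960, .ofNat 123825600, .ofNat 200880, .negSucc 10720799, .negSucc 755342639],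
  [.ofNat 39160080, .ofNat 91627920, .negSucc 85123439, .negSucc 154075679, .ofNat 69631920, .negSucc 44686799, .negSucc 23837759, .negSucc 148521599, .ofNat 131878080, .ofNat 29031840, .negSucc 84174479, .negSucc 3101039, .negSucc 26132399, .negSucc 14137919, .ofNat 97794720, .ofNat 11651760, .negSucc 80538479, .negSucc 19687679, .ofNat 158349600, .negSucc 99356399, .negSucc 5262479, .ofNat 24682320, .ofNat 42930720, .negSucc 26960399, .negSucc 175453199, .ofNat 33027840, .negSucc 16851599, .ofNat 36358560, .negSucc 8619119, .ofNat 45322560, .ofNat 19127520, .negSucc 7961759, .negSucc 102188159, .negSucc 35773199, .negSucc 12759839, .negSucc 95067359],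
  [.negSucc 87307199, .ofNat 70237440, .ofNat 35187840, .negSucc 120666959, .ofNat 195795360, .ofNat 58668480, .negSucc 24266879, .negSucc 1053359, .negSucc 127784159, .ofNat 105968160, .negSucc 122345279, .ofNat 13323600, .ofNat 122699520, .negSucc 61666559, .ofNat 191433600, .negSucc 31571279, .negSucc 170577359, .ofNat 68482800, .ofNat 58875120, .negSucc 70619039, .ofNat 70984800, .ofNat 44758080, .ofNat 25881120, .negSucc 10295279, .negSucc 12722399, .ofNat 89661600, .negSucc 97166879, .negSucc 8619119, .ofNat 77939280, .negSucc 68586479, .ofNat 104517360, .negSucc 173746799, .negSucc 173010239, .negSucc 5824079, .negSucc 52362719, .ofNat 99826560],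
  [.ofNat 383829120, .ofNat 129364560, .ofNat 348613920, .ofNat 135995760, .negSucc 262666079, .negSucc 80344799, .negSucc 152737919, .negSucc 81257759, .ofNat 421444800, .negSucc 18781919, .negSucc 53219519, .negSucc 364139279, .negSucc 30606479, .negSucc 37865519, .negSucc 24162479, .ofNat 206838360, .ofNat 24293520, .negSucc 494040239, .ofNat 775390320, .negSucc 87499439, .negSucc 243203039, .ofNat 81286560, .negSucc 1558079, .ofNat 184734000, .negSucc 656908559, .negSucc 346384079, .ofNat 482795280, .ofNat 45322560, .negSucc 68586479, .ofNat 360010800, .negSucc 75761279, .ofNat 747060480, .ofNat 107955360, .negSucc 57155759, .ofNat 7378560, .negSucc 553235039],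
  [.ofNat 670169520, .ofNat 472672800, .negSucc 134348399, .negSucc 808747199, .ofNat 1051241760, .negSucc 28927439, .ofNat 487324800, .negSucc 1432461599, .ofNat 133138800, .ofNat 831979440, .negSucc 266413679, .ofNat 703772640, .ofNat 237767040, .ofNat 72646560, .ofNat 1060593840, .negSucc 139007519, .negSucc 931434479, .ofNat 125179920, .negSucc 659805119, .ofNat 252409680, .ofNat 605298960, .ofNat 34058160, .negSucc 33810479, .negSucc 464225759, .negSucc 436644719, .ofNat 163282320, .negSucc 552999599, .ofNat 19127520, .ofNat 104517360, .negSucc 75761279, .ofNat 869695920, .negSucc 229047119, .negSucc 78580079, .negSucc 7137359, .negSucc 6907679, .ofNat 206979840],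
  [.ofNat 937656000, .ofNat 681120, .ofNat 1062082080, .ofNat 825740640, .negSucc 866136239, .negSucc 54025199, .negSucc 197036639, .ofNat 155909520, .ofNat 645136560, .negSucc 134228879, .ofNat 236823840, .negSucc 780482159, .negSucc 8866799, .ofNat 30343680, .negSucc 397786319, .ofNat 464770800, .ofNat 343594080, .negSucc 1159187039, .ofNat 1192188960, .ofNat 244082880, .negSucc 532706399, .ofNat 80300880, .negSucc 177759359, .ofNat 494563320, .negSucc 1004000399, .negSucc 1011303359, .ofNat 1229214960, .negSucc 7961759, .negSucc 173746799, .ofNat 747060480, .negSucc 229047119, .ofNat 1930705920, .ofNat 728439120, .negSucc 7219439, .ofNat 96094080, .negSucc 1048035599],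
  [.ofNat 326054880, .negSucc 357336719, .ofNat 704001600, .ofNat 860437440, .negSucc 522056159, .negSucc 148728959, .negSucc 76286159, .ofNat 3062160, .negSucc 100009439, .negSucc 128604959, .ofNat 496356480, .ofNat 139493520, .negSucc 128773439, .ofNat 257745600, .negSucc 574729919, .ofNat 158551200, .ofNat 490564800, .negSucc 273234239, .negSucc 800183519, .ofNat 251681040, .negSucc 171135359, .negSucc 176621039, .negSucc 267870959, .ofNat 27941040, .ofNat 423101520, .negSucc 220955759, .ofNat 123825600, .negSucc 102188159, .negSucc 173010239, .ofNat 107955360, .negSucc 78580079, .ofNat 728439120, .ofNat 1156548960, .ofNat 137952720, .ofNat 242970480, .negSucc 18659519],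
  [.ofNat 28193040, .negSucc 91955519, .ofNat 27666000, .ofNat 87354720, .negSucc 28524959, .ofNat 61919280, .ofNat 22559760, .ofNat 67311360, .negSucc 106693919, .negSucc 52300079, .ofNat 159096240, .ofNat 83442240, .ofNat 25812000, .ofNat 85217760, .negSucc 84854159, .negSucc 40996079, .ofNat 69811920, .ofNat 48304800, .negSucc 291015359, .ofNat 176290560, .ofNat 60456240, .negSucc 52315919, .negSucc 62944559, .negSucc 15209279, .ofNat 200251440, .negSucc 12391919, .ofNat 200880, .negSucc 35773199, .negSucc 5824079, .negSucc 57155759, .negSucc 7137359, .negSucc 7219439, .ofNat 137952720, .ofNat 47453040, .ofNat 31893840, .ofNat 113009760],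
  [.ofNat 116314560, .negSucc 58206239, .ofNat 85196880, .ofNat 73829520, .negSucc 52425359, .negSucc 31472639, .negSucc 74162879, .negSucc 100988639, .ofNat 29270880, .negSucc 62724239, .ofNat 162074160, .ofNat 111450240, .negSucc 43773839, .ofNat 125182800, .negSucc 92198159, .negSucc 4033439, .ofNat 77580720, .negSucc 9073439, .negSucc 274338719, .ofNat 73418400, .ofNat 15942240, .negSucc 61709039, .negSucc 64254239, .negSucc 48318479, .ofNat 89580960, .ofNat 27207360, .negSucc 10720799, .negSucc 12759839, .negSucc 52362719, .ofNat 7378560, .negSucc 6907679, .ofNat 96094080, .ofNat 242970480, .ofNat 31893840, .ofNat 69040800, .ofNat 6647040],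
  [.negSucc 482759999, .negSucc 241261919, .negSucc 549748079, .negSucc 78981839, .ofNat 380760480, .ofNat 117328320, .ofNat 536933520, .ofNat 47263680, .negSucc 691827119, .ofNat 169593120, .ofNat 99987120, .ofNat 626861520, .ofNat 37733040, .ofNat 32303520, .ofNat 23147280, .negSucc 305704799, .negSucc 24629759, .ofNat 726234480, .negSucc 1407259439, .ofNat 338448960, .ofNat 419115600, .negSucc 142608239, .negSucc 37426319, .negSucc 304991279, .ofNat 1086145920, .ofNat 371180880, .negSucc 755342639, .negSucc 95067359, .ofNat 99826560, .negSucc 553235039, .ofNat 206979840, .negSucc 1048035599, .negSucc 18659519, .ofNat 113009760, .ofNat 6647040, .ofNat 911917440]]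

/-- Rounded Cholesky factor (lower triangular rows). -/
def lA8 : List (List Int) :=
 [[.ofNat 2631382],
  [.ofNat 789400, .ofNat 1250085],
  [.ofNat 2058, .negSucc 12268, .ofNat 3196790],
  [.negSucc 1280333, .negSucc 1972610, .ofNat 1242909, .ofNat 1322387],
  [.ofNat 1057580, .ofNat 1805532, .negSucc 627501, .negSucc 1104199, .ofNat 1211224],
  [.ofNat 222727, .negSucc 233482, .negSucc 223305, .negSucc 606640, .negSucc 12925, .ofNat 932791],
  [.ofNat 537746, .negSucc 842435, .negSucc 2613177, .ofNat 1905399, .ofNat 1406233, .ofNat 331012, .ofNat 288973],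
  [.negSucc 2554132, .negSucc 1677599, .ofNat 735976, .ofNat 281362, .negSucc 1127487, .ofNat 1351841, .ofNat 117270, .ofNat 50067],
  [.ofNat 1290937, .ofNat 492151, .negSucc 148488, .ofNat 453749, .negSucc 1131642, .negSucc 514911, .ofNat 77029, .ofNat 7797, .ofNat 43010],
  [.ofNat 737157, .ofNat 877235, .negSucc 415685, .ofNat 921648, .ofNat 1367566, .negSucc 122953, .ofNat 289050, .ofNat 12121, .ofNat 12928, .ofNat 31628],
  [.ofNat 557141, .negSucc 1378965, .negSucc 19342, .negSucc 1114276, .negSucc 336245, .ofNat 69380, .negSucc 100515, .negSucc 1155, .negSucc 871, .negSucc 2563, .ofNat 37019],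
  [.ofNat 799961, .ofNat 214710, .negSucc 982945, .negSucc 1063703, .ofNat 1276014, .negSucc 808700, .negSucc 73728, .negSucc 28291, .negSucc 2358, .ofNat 5115, .ofNat 24935, .ofNat 26982],
  [.ofNat 366655, .ofNat 447116, .ofNat 349680, .negSucc 545220, .ofNat 406366, .ofNat 820759, .negSucc 271759, .negSucc 22600, .negSucc 59037, .negSucc 23703, .negSucc 27025, .negSucc 15471, .ofNat 36099],
  [.ofNat 792205, .negSucc 331351, .ofNat 598, .negSucc 1187743, .negSucc 145125, .negSucc 194855, .negSucc 288437, .negSucc 27114, .negSucc 24586, .negSucc 18379, .ofNat 7696, .negSucc 91, .ofNat 9852, .ofNat 21138],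
  [.ofNat 1353047, .ofNat 2013114, .negSucc 257482, .negSucc 430063, .ofNat 878152, .ofNat 190901, .ofNat 155431, .ofNat 10960, .ofNat 11650, .ofNat 15287, .negSucc 4731, .negSucc 435, .negSucc 4339, .negSucc 5639, .ofNat 29197],
  [.negSucc 71752, .negSucc 27669, .ofNat 506967, .ofNat 675810, .negSucc 210337, .negSucc 30035, .negSucc 349462, .negSucc 36261, .negSucc 61814, .negSucc 30866, .negSucc 39198, .negSucc 20526, .ofNat 33024, .ofNat 6154, .negSucc 5148, .ofNat 28678],
  [.negSucc 1182920, .negSucc 1750448, .ofNat 138524, .ofNat 415170, .negSucc 777342, .negSucc 163156, .negSucc 212013, .negSucc 17361, .negSucc 23506, .negSucc 20069, .negSucc 2403, .negSucc 3221, .ofNat 10378, .ofNat 6528, .negSucc 19347, .ofNat 4734, .ofNat 21220],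
  [.negSucc 750563, .ofNat 158219, .negSucc 934300, .negSucc 974528, .ofNat 648853, .negSucc 337352, .ofNat 368313, .ofNat 34375, .ofNat 66044, .ofNat 37045, .ofNat 48462, .ofNat 28321, .negSucc 37703, .negSucc 6767, .ofNat 3603, .negSucc 22603, .negSucc 1518, .ofNat 24549],
  [.negSucc 525565, .ofNat 1485239, .ofNat 1458904, .ofNat 1700310, .negSucc 2373642, .ofNat 1239921, .negSucc 235246, .negSucc 1453, .negSucc 40596, .negSucc 41297, .negSucc 88182, .negSucc 40581, .ofNat 38072, .negSucc 2617, .negSucc 9055, .ofNat 17822, .ofNat 3630, .negSucc 14728, .ofNat 37019],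
  [.ofNat 1509367, .negSucc 1589098, .negSucc 1527973, .negSucc 149760, .ofNat 525428, .ofNat 900655, .ofNat 378999, .ofNat 34806, .ofNat 42250, .ofNat 22139, .ofNat 43470, .ofNat 14222, .negSucc 21370, .negSucc 2389, .ofNat 3241, .negSucc 16940, .negSucc 1171, .ofNat 4419, .negSucc 2533, .ofNat 28403],
  [.ofNat 909082, .ofNat 323832, .negSucc 870766, .negSucc 857840, .ofNat 823343, .ofNat 119176, .ofNat 287068, .ofNat 25256, .ofNat 39471, .ofNat 27380, .ofNat 34316, .ofNat 16086, .negSucc 21878, .negSucc 3981, .ofNat 5528, .negSucc 13142, .negSucc 2264, .ofNat 6462, .negSucc 3526, .ofNat 6608, .ofNat 19434],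
  [.negSucc 82513, .ofNat 436421, .ofNat 194819, .ofNat 338934, .negSucc 77256, .ofNat 210060, .ofNat 18207, .ofNat 3235, .negSucc 3899, .negSucc 1266, .negSucc 13446, .negSucc 5536, .ofNat 4097, .negSucc 1770, .ofNat 190, .ofNat 1980, .negSucc 102, .negSucc 1709, .ofNat 3692, .negSucc 238, .ofNat 263, .ofNat 16781],
  [.negSucc 351456, .ofNat 447466, .negSucc 224676, .ofNat 262766, .negSucc 170069, .negSucc 21308, .negSucc 4102, .negSucc 38, .negSucc 1795, .negSucc 2602, .negSucc 10970, .negSucc 3385, .ofNat 2676, .negSucc 766, .negSucc 2123, .ofNat 2233, .ofNat 978, .negSucc 538, .ofNat 3435, .negSucc 1196, .negSucc 8, .ofNat 354, .ofNat 17073],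
  [.negSucc 493374, .negSucc 401540, .ofNat 604592, .ofNat 517670, .negSucc 630178, .ofNat 619651, .negSucc 107202, .negSucc 1877, .negSucc 23970, .negSucc 15499, .negSucc 22868, .negSucc 12566, .ofNat 14591, .ofNat 306, .negSucc 2729, .ofNat 6465, .ofNat 976, .negSucc 4308, .ofNat 5748, .ofNat 745, .negSucc 1156, .ofNat 375, .negSucc 215, .ofNat 17631],
  [.negSucc 1711091, .negSucc 1686439, .negSucc 714598, .negSucc 843945, .ofNat 1092145, .negSucc 210530, .negSucc 12842, .negSucc 5542, .negSucc 9523, .ofNat 8409, .ofNat 36272, .ofNat 17852, .negSucc 8617, .ofNat 3550, .negSucc 12221, .negSucc 7467, .ofNat 5619, .ofNat 8465, .negSucc 12059, .ofNat 339, .ofNat 1434, .negSucc 77, .ofNat 499, .ofNat 29, .ofNat 22660],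
  [.negSucc 729231, .ofNat 1096606, .ofNat 456283, .negSucc 1548360, .ofNat 249319, .negSucc 897006, .ofNat 129657, .ofNat 16628, .ofNat 46853, .ofNat 28185, .ofNat 35146, .ofNat 22563, .negSucc 29847, .negSucc 4652, .ofNat 5694, .negSucc 13341, .negSucc 2220, .ofNat 9810, .negSucc 4910, .negSucc 9237, .ofNat 2434, .negSucc 282, .negSucc 259, .negSucc 9273, .ofNat 1018, .ofNat 19892],
  [.ofNat 567055, .negSucc 859721, .ofNat 718066, .ofNat 569450, .negSucc 1473173, .ofNat 1027244, .ofNat 63322, .ofNat 23144, .ofNat 15917, .negSucc 9024, .negSucc 9232, .negSucc 10216, .negSucc 619, .negSucc 1672, .ofNat 7087, .negSucc 2630, .negSucc 3418, .negSucc 3625, .ofNat 7338, .ofNat 7396, .negSucc 2453, .negSucc 566, .negSucc 1139, .ofNat 4009, .negSucc 5800, .negSucc 1105, .ofNat 23377],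
  [.ofNat 60956, .ofNat 261733, .negSucc 108101, .ofNat 73813, .negSucc 196620, .negSucc 125865, .negSucc 51565, .negSucc 5338, .negSucc 4088, .negSucc 4721, .negSucc 6656, .negSucc 2737, .ofNat 3538, .ofNat 615, .negSucc 986, .ofNat 2408, .ofNat 542, .negSucc 1333, .ofNat 1540, .negSucc 1194, .negSucc 577, .negSucc 137, .ofNat 466, .negSucc 343, .negSucc 466, .negSucc 19, .negSucc 493, .ofNat 16853],
  [.negSucc 135901, .ofNat 315957, .ofNat 46386, .negSucc 77619, .ofNat 263067, .ofNat 333426, .ofNat 99207, .ofNat 11099, .ofNat 6982, .ofNat 6723, .ofNat 589, .ofNat 1535, .negSucc 4009, .negSucc 2714, .ofNat 2693, .negSucc 3771, .negSucc 1151, .ofNat 1164, .ofNat 1433, .ofNat 1456, .ofNat 823, .ofNat 336, .negSucc 105, .ofNat 412, .ofNat 436, .ofNat 409, .ofNat 355, .negSucc 449, .ofNat 17115],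
  [.ofNat 597467, .ofNat 46586, .ofNat 446468, .ofNat 649563, .negSucc 655911, .ofNat 36434, .negSucc 236438, .negSucc 21555, .negSucc 35836, .negSucc 23805, .negSucc 31047, .negSucc 17964, .ofNat 24187, .ofNat 3704, .negSucc 2366, .ofNat 13801, .ofNat 857, .negSucc 5784, .ofNat 2762, .negSucc 2339, .negSucc 3120, .negSucc 15, .negSucc 193, .negSucc 58, .negSucc 2070, .negSucc 3560, .negSucc 699, .ofNat 140, .negSucc 770, .ofNat 17294],
  [.ofNat 1043183, .ofNat 890003, .negSucc 169393, .negSucc 8192, .ofNat 1222206, .negSucc 182279, .ofNat 344219, .ofNat 23564, .ofNat 40563, .ofNat 32459, .ofNat 21634, .ofNat 11433, .negSucc 22537, .negSucc 7084, .ofNat 22440, .negSucc 8363, .negSucc 10031, .ofNat 3901, .negSucc 9639, .negSucc 706, .negSucc 346, .negSucc 54, .negSucc 1017, .negSucc 757, .negSucc 5091, .ofNat 376, .ofNat 1646, .negSucc 309, .ofNat 279, .negSucc 663, .ofNat 21744],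
  [.ofNat 1459552, .negSucc 919441, .ofNat 1356362, .ofNat 1324433, .negSucc 922741, .ofNat 357390, .negSucc 575716, .negSucc 57029, .negSucc 96723, .negSucc 56522, .negSucc 60297, .negSucc 38328, .ofNat 57141, .ofNat 11479, .negSucc 7202, .ofNat 28207, .ofNat 2945, .negSucc 17787, .ofNat 2850, .negSucc 413, .negSucc 5253, .negSucc 338, .negSucc 1437, .ofNat 436, .negSucc 2730, .negSucc 6885, .ofNat 1565, .ofNat 457, .negSucc 1616, .negSucc 5202, .negSucc 1111, .ofNat 21319],
  [.ofNat 507536, .negSucc 1491338, .ofNat 895976, .ofNat 89776, .ofNat 560521, .negSucc 866917, .negSucc 597723, .negSucc 73444, .negSucc 93623, .negSucc 38249, .negSucc 15050, .negSucc 13113, .ofNat 41871, .ofNat 14786, .negSucc 14490, .ofNat 21415, .ofNat 6722, .negSucc 9060, .negSucc 10895, .negSucc 7251, .negSucc 3647, .negSucc 604, .negSucc 1468, .negSucc 4456, .ofNat 4008, .negSucc 3133, .negSucc 7642, .ofNat 482, .negSucc 2074, .negSucc 1066, .negSucc 1827, .ofNat 9225, .ofNat 23411],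
  [.ofNat 43885, .negSucc 329011, .ofNat 34157, .negSucc 209827, .ofNat 182074, .ofNat 53301, .ofNat 24281, .ofNat 2577, .ofNat 3054, .ofNat 3201, .ofNat 9296, .ofNat 3422, .negSucc 3426, .ofNat 204, .ofNat 1142, .negSucc 2448, .negSucc 592, .ofNat 1413, .negSucc 2793, .ofNat 1134, .ofNat 94, .negSucc 134, .negSucc 457, .ofNat 106, .ofNat 457, .negSucc 178, .ofNat 713, .negSucc 435, .ofNat 250, .negSucc 117, .ofNat 520, .ofNat 42, .ofNat 89, .ofNat 16771],
  [.ofNat 181055, .negSucc 305048, .ofNat 107874, .negSucc 152454, .ofNat 36254, .negSucc 330608, .negSucc 94405, .negSucc 11599, .negSucc 8309, .negSucc 4000, .ofNat 3982, .ofNat 579, .ofNat 2729, .ofNat 2623, .negSucc 986, .ofNat 2604, .ofNat 284, .negSucc 298, .negSucc 3991, .negSucc 1815, .negSucc 617, .negSucc 447, .negSucc 301, .negSucc 383, .ofNat 45, .negSucc 122, .negSucc 446, .ofNat 53, .negSucc 798, .ofNat 510, .ofNat 482, .ofNat 1579, .ofNat 1416, .ofNat 164, .ofNat 16832],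
  [.negSucc 751461, .negSucc 315981, .negSucc 705112, .negSucc 780823, .ofNat 1337653, .negSucc 42533, .ofNat 399349, .ofNat 33169, .ofNat 53452, .ofNat 39355, .ofNat 50108, .ofNat 27914, .negSucc 36269, .negSucc 6261, .ofNat 6141, .negSucc 17598, .negSucc 3271, .ofNat 14273, .negSucc 7778, .ofNat 4287, .ofNat 20, .ofNat 3, .negSucc 229, .negSucc 888, .ofNat 2936, .ofNat 3987, .negSucc 371, .negSucc 863, .ofNat 1785, .negSucc 4460, .ofNat 2580, .negSucc 7254, .negSucc 2445, .ofNat 462, .negSucc 296, .ofNat 17684]]

theorem okA8 : psdOK 36 4096 gA8 lA8 = true := by decide +kernel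

end Pool.Agent.H2AF
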