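import Pool.Agent.Lib.H2AF.PSD

/-! # Certificate A of MP_afe93a, block 9 (T2_3, loc, size 17): the Gram matrix is positive semidefinite -/

namespace Pool.Agent.H2AF

/-- Gram matrix (integers), block T2_3, certificate A. -/
def gA9 : List (List Int) :=
 [[.ofNat 26377920, .ofNat 23770800, .negSucc 28025999, .ofNat 5465520, .negSucc 7351919, .ofNat 25185600, .ofNat 37027440, .ofNat 12563280, .ofNat 7920000, .negSucc 32158799, .negSucc 8047439, .negSucc 19126079, .ofNat 17856720, .ofNat 15660000, .negSucc 26872559, .ofNat 3603600, .negSucc 26956799],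
  [.ofNat 23770800, .ofNat 48391920, .negSucc 56320559, .negSucc 23165999, .ofNat 26506800, .ofNat 56648880, .ofNat 56245680, .ofNat 18735840, .negSucc 7750799, .negSucc 35429039, .ofNat 37297440, .negSucc 37627919, .ofNat 2733840, .negSucc 11422079, .negSucc 96366239, .ofNat 1137600, .negSucc 14543279],
  [.negSucc 28025999, .negSucc 56320559, .ofNat 66854160, .ofNat 27220320, .negSucc 31143599, .negSucc 66680639, .negSucc 66242879, .negSucc 22066559, .ofNat 9088560, .ofNat 41752800, .negSucc 43829279, .ofNat 44298720, .negSucc 3267359, .ofNat 13382640, .ofNat 113384160, .negSucc 1348559, .ofNat 17179920],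
  [.ofNat 5465520, .negSucc 23165999, .ofNat 27220320, .ofNat 32335920, .negSucc 37700639, .negSucc 31019039, .negSucc 16235999, .negSucc 5130719, .ofNat 18013680, .negSucc 479519, .negSucc 50261039, .ofNat 17701200, .ofNat 18664560, .ofNat 31381200, .ofNat 72117360, .ofNat 3129120, .negSucc 16861679],
  [.negSucc 7351919, .ofNat 26506800, .negSucc 31143599, .negSucc 37700639, .ofNat 45296640, .ofNat 35724960, .ofNat 17866800, .ofNat 5616000, .negSucc 21534479, .ofNat 1689120, .ofNat 59596560, .negSucc 20220479, .negSucc 22649759, .negSucc 37578959, .negSucc 84167999, .negSucc 3818879, .ofNat 20840400],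
  [.ofNat 25185600, .ofNat 56648880, .negSucc 66680639, .negSucc 31019039, .ofNat 35724960, .ofNat 68268240, .ofNat 64686240, .ofNat 21497040, .negSucc 11666879, .negSucc 38887919, .ofNat 49795920, .negSucc 44464319, .negSucc 254879, .negSucc 18033839, .negSucc 118565279, .ofNat 702000, .negSucc 13047839],
  [.ofNat 37027440, .ofNat 56245680, .negSucc 66242879, .negSucc 16235999, .ofNat 17866800, .ofNat 64686240, .ofNat 72565200, .ofNat 24135120, .negSucc 1486079, .negSucc 51086159, .ofNat 26632080, .negSucc 44516879, .ofNat 13901760, .ofNat 393120, .negSucc 99690479, .ofNat 3304800, .negSucc 29881439],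
  [.ofNat 12563280, .ofNat 18735840, .negSucc 22066559, .negSucc 5130719, .ofNat 5616000, .ofNat 21497040, .ofNat 24135120, .ofNat 8644320, .negSucc 301679, .negSucc 17253359, .ofNat 8436240, .negSucc 14837039, .ofNat 4901040, .ofNat 480240, .negSucc 32862239, .ofNat 1152000, .negSucc 10275839],
  [.ofNat 7920000, .negSucc 7750799, .ofNat 9088560, .ofNat 18013680, .negSucc 21534479, .negSucc 11666879, .negSucc 1486079, .negSucc 301679, .ofNat 11694960, .negSucc 6485759, .negSucc 28374479, .ofNat 5736240, .ofNat 13415760, .ofNat 19772640, .ofNat 33265440, .ofNat 2368080, .negSucc 14217119],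
  [.negSucc 32158799, .negSucc 35429039, .ofNat 41752800, .negSucc 479519, .ofNat 1689120, .negSucc 38887919, .negSucc 51086159, .negSucc 17253359, .negSucc 6485759, .ofNat 41921280, .negSucc 26639, .ofNat 28310400, .negSucc 19157039, .negSucc 13707359, .ofNat 49556160, .negSucc 3994559, .ofNat 31262400],
  [.negSucc 8047439, .ofNat 37297440, .negSucc 43829279, .negSucc 50261039, .ofNat 59596560, .ofNat 49795920, .ofNat 26632080, .ofNat 8436240, .negSucc 28374479, .negSucc 26639, .ofNat 80085600, .negSucc 28523519, .negSucc 29169359, .negSucc 49373279, .negSucc 115022879, .negSucc 4879439, .ofNat 26091360],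
  [.negSucc 19126079, .negSucc 37627919, .ofNat 44298720, .ofNat 17701200, .negSucc 20220479, .negSucc 44464319, .negSucc 44516879, .negSucc 14837039, .ofNat 5736240, .ofNat 28310400, .negSucc 28523519, .ofNat 30161520, .negSucc 2654639, .ofNat 8330400, .ofNat 75151440, .negSucc 989999, .ofNat 12042000],
  [.ofNat 17856720, .ofNat 2733840, .negSucc 3267359, .ofNat 18664560, .negSucc 22649759, .negSucc 254879, .ofNat 13901760, .ofNat 4901040, .ofNat 13415760, .negSucc 19157039, .negSucc 29169359, .negSucc 2654639, .ofNat 20134800, .ofNat 24467760, .ofNat 19239120, .ofNat 3642480, .negSucc 24063119],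
  [.ofNat 15660000, .negSucc 11422079, .ofNat 13382640, .ofNat 31381200, .negSucc 37578959, .negSucc 18033839, .ofNat 393120, .ofNat 480240, .ofNat 19772640, .negSucc 13707359, .negSucc 49373279, .ofNat 8330400, .ofNat 24467760, .ofNat 35767440, .ofNat 55000800, .ofNat 4353120, .negSucc 26569439],
  [.negSucc 26872559, .negSucc 96366239, .ofNat 113384160, .ofNat 72117360, .negSucc 84167999, .negSucc 118565279, .negSucc 99690479, .negSucc 32862239, .ofNat 33265440, .ofNat 49556160, .negSucc 115022879, .ofNat 75151440, .ofNat 19239120, .ofNat 55000800, .ofNat 226211760, .ofNat 2268000, .negSucc 293759],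
  [.ofNat 3603600, .ofNat 1137600, .negSucc 1348559, .ofNat 3129120, .negSucc 3818879, .ofNat 702000, .ofNat 3304800, .ofNat 1152000, .ofNat 2368080, .negSucc 3994559, .negSucc 4879439, .negSucc 989999, .ofNat 3642480, .ofNat 4353120, .ofNat 2268000, .ofNat 1237680, .negSucc 4623119],
  [.negSucc 26956799, .negSucc 14543279, .ofNat 17179920, .negSucc 16861679, .ofNat 20840400, .negSucc 13047839, .negSucc 29881439, .negSucc 10275839, .negSucc 14217119, .ofNat 31262400, .ofNat 26091360, .ofNat 12042000, .negSucc 24063119, .negSucc 26569439, .negSucc 293759, .negSucc 4623119, .ofNat 32753520]]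

/-- Rounded Cholesky factor (lower triangular rows). -/
def lA9 : List (List Int) :=
 [[.ofNat 325676],
  [.ofNat 298963, .ofNat 326887],
  [.negSucc 352480, .negSucc 383343, .ofNat 25694],
  [.ofNat 68739, .negSucc 353144, .ofNat 13531, .ofNat 29141],
  [.negSucc 92463, .ofNat 416705, .negSucc 16143, .negSucc 23683, .ofNat 23276],
  [.ofNat 316757, .ofNat 420130, .negSucc 16297, .negSucc 8247, .ofNat 3850, .ofNat 21326],
  [.ofNat 465691, .ofNat 278866, .negSucc 10975, .ofNat 3938, .negSucc 1997, .ofNat 6803, .ofNat 20668],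
  [.ofNat 158007, .ofNat 90256, .negSucc 3536, .ofNat 1532, .negSucc 765, .ofNat 1899, .ofNat 2232, .ofNat 17073],
  [.ofNat 99609, .negSucc 188219, .ofNat 7157, .ofNat 12732, .negSucc 6250, .negSucc 784, .ofNat 1716, .ofNat 708, .ofNat 17835],
  [.negSucc 404458, .negSucc 74028, .ofNat 3002, .negSucc 11851, .ofNat 5863, .negSucc 6538, .negSucc 5622, .negSucc 1320, .negSucc 2246, .ofNat 19960],
  [.negSucc 101211, .ofNat 559915, .negSucc 21785, .negSucc 30398, .ofNat 15376, .ofNat 5699, .negSucc 2437, .negSucc 753, .negSucc 5858, .ofNat 1453, .ofNat 24328],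
  [.negSucc 240546, .negSucc 251490, .ofNat 9795, .ofNat 3218, .negSucc 1426, .negSucc 3758, .negSucc 3412, .negSucc 1304, .ofNat 248, .ofNat 1134, .negSucc 811, .ofNat 17717],
  [.ofNat 224583, .negSucc 171141, .ofNat 6677, .ofNat 16610, .negSucc 8186, .negSucc 132, .ofNat 3567, .ofNat 1161, .ofNat 2834, .negSucc 2526, .negSucc 4737, .negSucc 592, .ofNat 18091],
  [.ofNat 196955, .negSucc 323252, .ofNat 12493, .ofNat 23155, .negSucc 11217, .negSucc 351, .ofNat 2922, .ofNat 974, .ofNat 3768, .negSucc 4447, .negSucc 4839, .ofNat 11, .ofNat 2706, .ofNat 18670],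
  [.negSucc 337973, .negSucc 898396, .ofNat 34911, .ofNat 30472, .negSucc 15081, .negSucc 12463, .negSucc 4370, .negSucc 980, .ofNat 5060, .ofNat 1359, .negSucc 12674, .ofNat 2541, .ofNat 1978, .ofNat 3122, .ofNat 21958],
  [.ofNat 45322, .negSucc 27195, .ofNat 1012, .ofNat 2868, .negSucc 1477, .negSucc 420, .ofNat 684, .ofNat 545, .ofNat 639, .negSucc 59, .negSucc 1282, .negSucc 757, .ofNat 470, .ofNat 229, .ofNat 393, .ofNat 16770],
  [.negSucc 339032, .ofNat 127840, .negSucc 4941, .negSucc 18785, .ofNat 9337, .negSucc 1576, .negSucc 5357, .negSucc 1466, .negSucc 3274, .ofNat 3875, .ofNat 5093, .ofNat 1006, .negSucc 3139, .negSucc 2614, .negSucc 337, .negSucc 326, .ofNat 18027]]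

theorem okA9 : psdOK 17 4096 gA9 lA9 = true := by decide +kernel

end Pool.Agent.H2AF
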