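import Mathlib

/-! # A kernel checkable certificate of positive semidefiniteness

`psdOK m q G L = true` says: `0 < q`, `G` (an integer matrix, list of rows) is symmetric of size `m`
and `q G - L L^T` is diagonally dominant.  Then `∑ i j, G i j * M i j ≥ 0` for every positive
semidefinite real Gram matrix `M`. -/

namespace Pool.Agent.H2AF

open Finset

/-- Scalar product of two integer lists (the shorter one is continued by zeros). -/
def dot : List Int → List Int → Int
  | a :: as, b :: bs => a * b + dot as bs
  | _, _ => 0

/-- Absolute value of an integer (as a natural number, cheap for the kernel). -/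
def rowAbs (q : Int) (li : List Int) : List Int → List (List Int) → Nat
  | g :: gs, l :: ls => (q * g - dot li l).natAbs + rowAbs q li gs ls
  | _, _ => 0

/-- Entry of a list of rows. -/
def ent (G : List (List Int)) (i j : ℕ) : Int := (G.getD i []).getD j 0

/-- Row `i` of `q G - L L^T` is diagonally dominant (the row has length `m`). -/
def rowOK (m : ℕ) (q : Int) (L : List (List Int)) (i : ℕ) (g l : List Int) : Bool :=
  decide (g.length = m) &&
    decide ((rowAbs q l g L : Int) ≤ 2 * (q * g.getD i 0 - dot l l))

/-- All rows. -/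
def rowsOK (m : ℕ) (q : Int) (L : List (List Int)) : ℕ → List (List Int) → List (List Int) → Bool
  | i, g :: gs, l :: ls => rowOK m q L i g l && rowsOK m q L (i + 1) gs ls
  | _, _, _ => true

/-- Symmetry of `G`. -/
def symOK (m : ℕ) (G : List (List Int)) : Bool :=
  (List.range m).all fun i => (List.range i).all fun j => decide (ent G i j = ent G j i)

/-- The test. -/
def psdOK (m : ℕ) (q : Int) (G L : List (List Int)) : Bool :=
  decide (0 < q) && decide (G.length = m) && decide (L.length = m) && symOK m G && rowsOK m q L 0 G L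

theorem dot_eq (a b : List Int) (K : ℕ) (h : a.length ≤ K) :
    dot a b = ∑ k ∈ range K, a.getD k 0 * b.getD k 0 := by
  induction a generalizing b K with
  | nil => simp [dot]
  | cons x xs ih =>
    cases b with
    | nil => simp [dot]
    | cons y ys =>
      obtain ⟨K, rfl⟩ : ∃ K', K = K' + 1 := ⟨K - 1, by simp at h; omega⟩
      rw [sum_range_succ', dot, ih ys K (by simpa using h)]
      simp [add_comm]

theorem dot_comm (a b : List Int) : dot a b = dot b a := by
  induction a generalizing b with
  | nil => cases b <;> simp [dot]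
  | cons x xs ih =>
    cases b with
    | nil => simp [dot]
    | cons y ys => simp [dot, ih ys, mul_comm]

theorem rowAbs_eq (q : Int) (li g : List Int) (L : List (List Int)) (h : g.length = L.length) :
    (rowAbs q li g L : Int) =
      ∑ j ∈ range g.length, |q * g.getD j 0 - dot li (L.getD j [])| := by
  induction g generalizing L with
  | nil => simp [rowAbs]
  | cons x xs ih =>
    cases L with
    | nil => simp at h
    | cons l ls =>
      rw [List.length_cons, sum_range_succ', rowAbs]
      push_cast
      rw [ih ls (by simpa using h)]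
      simp [add_comm]

theorem rowsOK_spec (m : ℕ) (q : Int) (L : List (List Int)) (i : ℕ) (g l : List (List Int))
    (hgl : g.length = l.length) (h : rowsOK m q L i g l = true) (j : ℕ) (hj : j < g.length) :
    (g.getD j []).length = m ∧
      (rowAbs q (l.getD j []) (g.getD j []) L : Int) ≤
        2 * (q * (g.getD j []).getD (i + j) 0 - dot (l.getD j []) (l.getD j [])) := by
  induction g generalizing l i j with
  | nil => simp at hj
  | cons a as ih =>
    cases l with
    | nil => simp at hgl
    | cons b bs =>
      rw [rowsOK, Bool.and_eq_true, rowOK, Bool.and_eq_true, decide_eq_true_eq,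
        decide_eq_true_eq] at h
      obtain ⟨⟨h1, h2⟩, h3⟩ := h
      cases j with
      | zero => exact ⟨by simpa using h1, by simpa using h2⟩
      | succ j =>
        have := ih (i + 1) bs (by simpa using hgl) h3 j (by simpa using hj)
        simpa [add_assoc, add_comm 1 j] using this

/-- `L i` as a row. -/
theorem psdOK_spec {m : ℕ} {q : Int} {G L : List (List Int)} (h : psdOK m q G L = true) :
    0 < q ∧ (∀ i < m, ∀ j < m, ent G i j = ent G j i) ∧
      ∀ i < m, ∑ j ∈ range m, |q * ent G i j - dot (L.getD i []) (L.getD j [])| ≤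
        2 * (q * ent G i i - dot (L.getD i []) (L.getD i [])) := by
  simp only [psdOK, Bool.and_eq_true, decide_eq_true_eq] at h
  obtain ⟨⟨⟨⟨hq, hG⟩, hL⟩, hs⟩, hr⟩ := h
  refine ⟨hq, ?_, ?_⟩
  · have key : ∀ i < m, ∀ j < i, ent G i j = ent G j i := by
      intro i hi j hj
      have h1 := List.all_eq_true.mp hs i (List.mem_range.mpr hi)
      exact of_decide_eq_true (List.all_eq_true.mp h1 j (List.mem_range.mpr hj))
    intro i hi j hj
    rcases lt_trichotomy i j with h | h | h
    · exact (key j hj i h).symm
    · rw [h]
    · exact key i hi j h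
  · intro i hi
    obtain ⟨h1, h2⟩ := rowsOK_spec m q L 0 G L (hG.trans hL.symm) hr i (by omega)
    rw [rowAbs_eq q _ _ L (by omega), h1, Nat.zero_add] at h2
    exact h2

/-- `∑ i j, G i j * M i j ≥ 0` if `G` passes the test and `M` is positive semidefinite. -/
theorem psd_sum {m : ℕ} {q : Int} {G L : List (List Int)} (h : psdOK m q G L = true)
    (M : ℕ → ℕ → ℝ) (hs : ∀ i j, M i j = M j i)
    (hp : ∀ c : ℕ → ℝ, 0 ≤ ∑ i ∈ range m, ∑ j ∈ range m, c i * c j * M i j) :
    0 ≤ ∑ i ∈ range m, ∑ j ∈ range m, (ent G i j : ℝ) * M i j := by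
  obtain ⟨hq, hG, hr⟩ := psdOK_spec h
  set D : ℕ → ℕ → ℤ := fun i j => q * ent G i j - dot (L.getD i []) (L.getD j []) with hD
  obtain ⟨K, hK⟩ : ∃ K : ℕ, ∀ i < m, (L.getD i []).length ≤ K :=
    ⟨∑ i ∈ range m, (L.getD i []).length, fun i hi =>
      single_le_sum (f := fun i => (L.getD i []).length) (fun _ _ => Nat.zero_le _)
        (mem_range.mpr hi)⟩
  have hM : ∀ i < m, 0 ≤ M i i := by
    intro i hi
    have h1 := hp (fun k => if k = i then 1 else 0)
    rw [sum_eq_single_of_mem i (mem_range.mpr hi)
      (fun b _ hb => sum_eq_zero fun j _ => by simp [hb]),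
      sum_eq_single_of_mem i (mem_range.mpr hi) (fun b _ hb => by simp [hb])] at h1
    simpa using h1
  have h2 : ∀ i < m, ∀ j < m, -(M i i + M j j) ≤ 2 * M i j ∧ 2 * M i j ≤ M i i + M j j := by
    intro i hi j hj
    rcases eq_or_ne i j with rfl | hij
    · have := hM i hi
      constructor <;> linarith
    · have key : ∀ s : ℝ, s ^ 2 = 1 → 0 ≤ M i i + M j j + 2 * s * M i j := by
        intro s hs2
        have h1 := hp (fun k => if k = i then 1 else if k = j then s else 0)
        have e : ∀ k ∈ range m, (∑ l ∈ range m, (if k = i then (1:ℝ) else if k = j then s else 0) *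
            (if l = i then 1 else if l = j then s else 0) * M k l) =
            (if k = i then (1:ℝ) else if k = j then s else 0) * (M k i + s * M k j) := by
          intro k _
          have e1 : ∀ l ∈ range m, (if k = i then (1:ℝ) else if k = j then s else 0) *
              (if l = i then 1 else if l = j then s else 0) * M k l =
              (if k = i then (1:ℝ) else if k = j then s else 0) *
                ((if l = i then M k l else 0) + (if l = j then s * M k l else 0)) := by
            intro l _
            rcases eq_or_ne l i with rfl | hl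
            · simp [hij]
            · simp [hl, mul_assoc]
          rw [sum_congr rfl e1, ← mul_sum, sum_add_distrib, sum_ite_eq', sum_ite_eq',
            if_pos (mem_range.mpr hi), if_pos (mem_range.mpr hj)]
        rw [sum_congr rfl e] at h1
        have e2 : ∀ k ∈ range m, (if k = i then (1:ℝ) else if k = j then s else 0) *
            (M k i + s * M k j) = (if k = i then (M k i + s * M k j) else 0) +
            (if k = j then s * (M k i + s * M k j) else 0) := by
          intro k _
          rcases eq_or_ne k i with rfl | hk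
          · simp [hij]
          · simp [hk]
        rw [sum_congr rfl e2, sum_add_distrib, sum_ite_eq', sum_ite_eq',
          if_pos (mem_range.mpr hi), if_pos (mem_range.mpr hj), hs j i] at h1
        have : s * (M i j + s * M j j) = s * M i j + s ^ 2 * M j j := by ring
        rw [this, hs2] at h1
        linarith
      have k1 := key 1 (by norm_num)
      have k2 := key (-1) (by norm_num)
      constructor <;> linarith
  -- the diagonally dominant part
  have hdom : 0 ≤ ∑ i ∈ range m, ∑ j ∈ range m, (D i j : ℝ) * M i j := by
    have hDs : ∀ i < m, ∀ j < m, D i j = D j i := by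
      intro i hi j hj
      simp only [hD, hG i hi j hj, dot_comm (L.getD i [])]
    have h3 : ∀ i ∈ range m, ∀ j ∈ range m,
        (if i = j then 2 * (D i j : ℝ) * M i j else 0) -
          |(D i j : ℝ)| * (M i i + M j j) / 2 ≤ (D i j : ℝ) * M i j := by
      intro i hi j hj
      rw [mem_range] at hi hj
      obtain ⟨a1, a2⟩ := h2 i hi j hj
      rcases eq_or_ne i j with rfl | hij
      · simp only [if_true]
        have := hM i hi
        nlinarith [le_abs_self (D i i : ℝ), mul_le_mul_of_nonneg_right (le_abs_self (D i i : ℝ)) this]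
      · simp only [if_neg hij]
        rcases abs_cases (D i j : ℝ) with ⟨e, e'⟩ | ⟨e, e'⟩
        · rw [e]; nlinarith
        · rw [e]; nlinarith
    have h4 : ∑ i ∈ range m, ∑ j ∈ range m, ((if i = j then 2 * (D i j : ℝ) * M i j else 0) -
          |(D i j : ℝ)| * (M i i + M j j) / 2) =
        ∑ i ∈ range m, (2 * (D i i : ℝ) - ∑ j ∈ range m, |(D i j : ℝ)|) * M i i := by
      have e1 : ∀ i ∈ range m, ∑ j ∈ range m, ((if i = j then 2 * (D i j : ℝ) * M i j else 0) -
          |(D i j : ℝ)| * (M i i + M j j) / 2) = 2 * (D i i : ℝ) * M i i -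
          (∑ j ∈ range m, |(D i j : ℝ)|) * M i i / 2 -
          ∑ j ∈ range m, |(D i j : ℝ)| * M j j / 2 := by
        intro i hi
        rw [sum_sub_distrib, sum_ite_eq, if_pos hi]
        have : ∑ j ∈ range m, |(D i j : ℝ)| * (M i i + M j j) / 2 =
            (∑ j ∈ range m, |(D i j : ℝ)|) * M i i / 2 +
            ∑ j ∈ range m, |(D i j : ℝ)| * M j j / 2 := by
          rw [sum_mul, sum_div, ← sum_add_distrib]
          exact sum_congr rfl fun j _ => by ring
        rw [this]
        ring
      rw [sum_congr rfl e1, sum_sub_distrib, sum_comm' (s := range m) (t := fun _ => range m)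
        (t' := range m) (s' := fun _ => range m) (by simp [and_comm])]
      rw [← sum_sub_distrib]
      refine sum_congr rfl fun i hi => ?_
      have : ∑ j ∈ range m, |(D j i : ℝ)| * M i i / 2 =
          (∑ j ∈ range m, |(D i j : ℝ)|) * M i i / 2 := by
        rw [sum_mul, sum_div]
        refine sum_congr rfl fun j hj => ?_
        rw [hDs j (mem_range.mp hj) i (mem_range.mp hi)]
      rw [this]
      ring
    have h5 : 0 ≤ ∑ i ∈ range m, (2 * (D i i : ℝ) - ∑ j ∈ range m, |(D i j : ℝ)|) * M i i := by
      refine sum_nonneg fun i hi => mul_nonneg ?_ (hM i (mem_range.mp hi))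
      have h6 := hr i (mem_range.mp hi)
      have h7 : ((∑ j ∈ range m, |D i j| : ℤ) : ℝ) ≤ ((2 * D i i : ℤ) : ℝ) := by exact_mod_cast h6
      push_cast at h7
      linarith
    calc (0 : ℝ) ≤ _ := h5
      _ = _ := h4.symm
      _ ≤ _ := sum_le_sum fun i hi => sum_le_sum fun j hj => h3 i hi j hj
  -- the sum of squares part
  have hsq : 0 ≤ ∑ i ∈ range m, ∑ j ∈ range m, (dot (L.getD i []) (L.getD j []) : ℝ) * M i j := by
    have e1 : ∑ i ∈ range m, ∑ j ∈ range m, (dot (L.getD i []) (L.getD j []) : ℝ) * M i j =
        ∑ k ∈ range K, ∑ i ∈ range m, ∑ j ∈ range m,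
          ((L.getD i []).getD k 0 : ℝ) * ((L.getD j []).getD k 0 : ℝ) * M i j := by
      rw [sum_comm]
      have : ∀ i ∈ range m, ∀ j ∈ range m, (dot (L.getD i []) (L.getD j []) : ℝ) * M i j =
          ∑ k ∈ range K, ((L.getD i []).getD k 0 : ℝ) * ((L.getD j []).getD k 0 : ℝ) * M i j := by
        intro i hi j _
        rw [dot_eq _ _ K (hK i (mem_range.mp hi))]
        push_cast
        rw [sum_mul]
      rw [sum_comm (s := range m)]
      rw [sum_congr rfl fun i hi => sum_congr rfl fun j hj => this i hi j hj]
      rw [sum_comm (s := range K)]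
      refine sum_congr rfl fun i _ => ?_
      rw [sum_comm]
    rw [e1]
    exact sum_nonneg fun k _ => hp _
  have hfin : (q : ℝ) * ∑ i ∈ range m, ∑ j ∈ range m, (ent G i j : ℝ) * M i j =
      ∑ i ∈ range m, ∑ j ∈ range m, (D i j : ℝ) * M i j +
        ∑ i ∈ range m, ∑ j ∈ range m, (dot (L.getD i []) (L.getD j []) : ℝ) * M i j := by
    rw [mul_sum, ← sum_add_distrib]
    refine sum_congr rfl fun i _ => ?_
    rw [mul_sum, ← sum_add_distrib]
    refine sum_congr rfl fun j _ => ?_
    simp only [hD]
    push_cast
    ring
  have hq' : (0 : ℝ) < q := by exact_mod_cast hq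
  by_contra hneg
  rw [not_le] at hneg
  have := mul_neg_of_pos_of_neg hq' hneg
  linarith

end Pool.Agent.H2AF
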