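import Pool.Agent.Lib.H2AF.PSD

/-! # Certificate B of MP_afe93a, block 1 (P1_A1, sq, size 26): the Gram matrix is positive semidefinite -/

namespace Pool.Agent.H2AF

/-- Gram matrix (integers), block P1_A1, certificate B. -/
def gB1 : List (List Int) :=
 [[.ofNat 15548497920, .ofNat 10936800, .negSucc 409976243, .ofNat 733230000, .ofNat 486594000, .negSucc 285789599, .ofNat 7217740800, .ofNat 3219426000, .negSucc 878810399, .negSucc 1324396799, .negSucc 64339199, .negSucc 13142494799, .negSucc 3581924399, .ofNat 1522666800, .ofNat 99673200, .ofNat 669186000, .ofNat 9120459600, .negSucc 1003661999, .negSucc 1238032799, .ofNat 2653470000, .negSucc 325479599, .negSucc 7958123999, .ofNat 517618800, .ofNat 325029600, .negSucc 3056921999, .negSucc 58193999],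
  [.ofNat 10936800, .ofNat 119214000, .ofNat 130867200, .ofNat 6516000, .negSucc 146627999, .negSucc 12002399, .ofNat 297237600, .ofNat 107668800, .ofNat 56725200, .ofNat 100328400, .ofNat 34016400, .ofNat 6973200, .ofNat 763200, .ofNat 136382400, .negSucc 108007199, .negSucc 48452399, .ofNat 185421600, .ofNat 67989600, .negSucc 221903999, .negSucc 49715999, .ofNat 7412400, .negSucc 214721999, .negSucc 53675999, .ofNat 77713200, .ofNat 72086400, .ofNat 25506000],
  [.negSucc 409976243, .ofNat 130867200, .ofNat 3149222400, .negSucc 819334799, .negSucc 2116262249, .ofNat 130773600, .ofNat 299818800, .negSucc 109605599, .ofNat 386344800, .ofNat 128941200, .ofNat 253116000, .ofNat 110325600, .ofNat 31161600, .negSucc 1216886399, .negSucc 491115599, .negSucc 301805999, .ofNat 110019600, .negSucc 491079599, .negSucc 1217113199, .ofNat 31003200, .negSucc 301730399, .ofNat 299728800, .ofNat 128844000, .ofNat 386312400, .negSucc 109522799, .ofNat 253098000],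
  [.ofNat 733230000, .ofNat 6516000, .negSucc 819334799, .ofNat 577040400, .ofNat 818492400, .ofNat 6512400, .negSucc 39182399, .ofNat 269701200, .negSucc 90025199, .negSucc 143953199, .negSucc 43955999, .negSucc 694119599, .negSucc 256870799, .ofNat 349304400, .negSucc 49503599, .ofNat 121734000, .negSucc 694022399, .negSucc 49492799, .ofNat 349261200, .negSucc 256834799, .ofNat 121726800, .negSucc 39128399, .negSucc 143906399, .negSucc 89985599, .ofNat 269719200, .negSucc 43963199],
  [.ofNat 486594000, .negSucc 146627999, .negSucc 2116262249, .ofNat 818492400, .ofNat 2774728800, .ofNat 226638000, .negSucc 201646799, .ofNat 660175200, .negSucc 153590399, .negSucc 228081599, .negSucc 146512799, .negSucc 572147999, .negSucc 578915999, .ofNat 105004800, .ofNat 346089600, .ofNat 323247600, .ofNat 226105200, .ofNat 184950000, .ofNat 1630040400, .ofNat 176058000, .ofNat 85402800, .ofNat 89348400, .ofNat 58222800, .negSucc 109828799, .ofNat 188355600, .negSucc 84088799],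
  [.negSucc 285789599, .negSucc 12002399, .ofNat 130773600, .ofNat 6512400, .ofNat 226638000, .ofNat 119181600, .negSucc 214822799, .ofNat 72021600, .ofNat 77641200, .negSucc 53726399, .ofNat 25506000, .ofNat 185349600, .negSucc 49733999, .negSucc 221781599, .ofNat 67982400, .ofNat 7416000, .ofNat 7052400, .negSucc 107978399, .ofNat 136310400, .ofNat 810000, .negSucc 48437999, .ofNat 297248400, .ofNat 100364400, .ofNat 56750400, .ofNat 107668800, .ofNat 33991200],
  [.ofNat 7217740800, .ofNat 297237600, .ofNat 299818800, .negSucc 39182399, .negSucc 201646799, .negSucc 214822799, .ofNat 7745679000, .ofNat 2490724800, .ofNat 130374000, .ofNat 523478400, .negSucc 69458399, .negSucc 8212499999, .negSucc 1483801199, .ofNat 1162166400, .negSucc 193280399, .ofNat 498992400, .ofNat 7209169200, .ofNat 402379200, .negSucc 1073915999, .ofNat 1271199600, .negSucc 545961599, .negSucc 5995717199, .negSucc 375818399, .negSucc 84077999, .negSucc 2193335999, .ofNat 106779600],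
  [.ofNat 3219426000, .ofNat 107668800, .negSucc 109605599, .ofNat 269701200, .ofNat 660175200, .ofNat 72021600, .ofNat 2490724800, .ofNat 1386209800, .ofNat 88704900, .ofNat 35478000, .ofNat 1778400, .negSucc 3591356399, .negSucc 1036015199, .ofNat 291553200, .negSucc 159947999, .ofNat 262472400, .ofNat 3131377200, .ofNat 49683600, .negSucc 123620399, .ofNat 644569200, .negSucc 232106399, .negSucc 2193303599, .negSucc 78872399, .ofNat 68450400, .negSucc 740062799, .ofNat 69372000],
  [.negSucc 878810399, .ofNat 56725200, .ofNat 386344800, .negSucc 90025199, .negSucc 153590399, .ofNat 77641200, .ofNat 130374000, .ofNat 88704900, .ofNat 533322000, .ofNat 376495200, .ofNat 19180800, .ofNat 997804800, .ofNat 484322400, .negSucc 354142799, .ofNat 95752800, .negSucc 46702799, .negSucc 490435199, .negSucc 213778799, .ofNat 15814800, .negSucc 459590399, .negSucc 57391199, .negSucc 84153599, .negSucc 266475599, .negSucc 265705199, .ofNat 68382000, .ofNat 86601600],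
  [.negSucc 1324396799, .ofNat 100328400, .ofNat 128941200, .negSucc 143953199, .negSucc 228081599, .negSucc 53726399, .ofNat 523478400, .ofNat 35478000, .ofNat 376495200, .ofNat 801363200, .negSucc 29991599, .ofNat 1341727200, .ofNat 502959600, .negSucc 62895599, .negSucc 328723199, .negSucc 113669999, .negSucc 682714799, .ofNat 454179600, .negSucc 28313999, .negSucc 360226799, .ofNat 43542000, .negSucc 375904799, .negSucc 619397999, .negSucc 266475599, .negSucc 78958799, .ofNat 58287600],
  [.negSucc 64339199, .ofNat 34016400, .ofNat 253116000, .negSucc 43955999, .negSucc 146512799, .ofNat 25506000, .negSucc 69458399, .ofNat 1778400, .ofNat 19180800, .negSucc 29991599, .ofNat 45914400, .ofNat 59256000, .negSucc 28976399, .negSucc 32781599, .negSucc 36179999, .negSucc 38343599, .ofNat 25952400, .negSucc 57128399, .negSucc 160268399, .ofNat 1220400, .negSucc 19195199, .ofNat 106826400, .ofNat 58305600, .ofNat 86630400, .ofNat 69411600, .ofNat 22071600],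
  [.negSucc 13142494799, .ofNat 6973200, .ofNat 110325600, .negSucc 694119599, .negSucc 572147999, .ofNat 185349600, .negSucc 8212499999, .negSucc 3591356399, .ofNat 997804800, .ofNat 1341727200, .ofNat 59256000, .ofNat 18359852400, .ofNat 4163976000, .negSucc 1651838399, .ofNat 729633600, .negSucc 1531529999, .negSucc 13328539199, .negSucc 34966799, .ofNat 1278705600, .negSucc 3022894799, .ofNat 1234796400, .ofNat 7209234000, .negSucc 682649999, .negSucc 490352399, .ofNat 3131236800, .ofNat 25927200],
  [.negSucc 3581924399, .ofNat 763200, .ofNat 31161600, .negSucc 256870799, .negSucc 578915999, .negSucc 49733999, .negSucc 1483801199, .negSucc 1036015199, .ofNat 484322400, .ofNat 502959600, .negSucc 28976399, .ofNat 4163976000, .ofNat 1587988800, .negSucc 207334799, .ofNat 350222400, .negSucc 240422399, .negSucc 3023067599, .negSucc 133703999, .ofNat 92484000, .negSucc 1136800799, .ofNat 177246000, .ofNat 1271124000, .negSucc 360273599, .negSucc 459626399, .ofNat 644475600, .ofNat 1227600],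
  [.ofNat 1522666800, .ofNat 136382400, .negSucc 1216886399, .ofNat 349304400, .ofNat 105004800, .negSucc 221781599, .ofNat 1162166400, .ofNat 291553200, .negSucc 354142799, .negSucc 62895599, .negSucc 32781599, .negSucc 1651838399, .negSucc 207334799, .ofNat 2417904000, .ofNat 139442400, .ofNat 155091600, .ofNat 1278972000, .ofNat 306878400, .negSucc 1354622399, .ofNat 92502000, .ofNat 83498400, .negSucc 1073584799, .negSucc 28187999, .ofNat 15969600, .negSucc 123425999, .negSucc 160217999],
  [.ofNat 99673200, .negSucc 108007199, .negSucc 491115599, .negSucc 49503599, .ofNat 346089600, .ofNat 67982400, .negSucc 193280399, .negSucc 159947999, .ofNat 95752800, .negSucc 328723199, .negSucc 36179999, .ofNat 729633600, .ofNat 350222400, .ofNat 139442400, .ofNat 1059706800, .ofNat 24199200, .negSucc 34891199, .negSucc 581727599, .ofNat 306856800, .negSucc 133617599, .ofNat 17715600, .ofNat 402451200, .ofNat 454237200, .negSucc 213746399, .ofNat 49651200, .negSucc 57146399],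
  [.ofNat 669186000, .negSucc 48452399, .negSucc 301805999, .ofNat 121734000, .ofNat 323247600, .ofNat 7416000, .ofNat 498992400, .ofNat 262472400, .negSucc 46702799, .negSucc 113669999, .negSucc 38343599, .negSucc 1531529999, .negSucc 240422399, .ofNat 155091600, .ofNat 24199200, .ofNat 257238000, .ofNat 1234843200, .ofNat 17722800, .ofNat 83556000, .ofNat 177260400, .negSucc 170719199, .negSucc 545997599, .ofNat 43538400, .negSucc 57412799, .negSucc 232131599, .negSucc 19198799],
  [.ofNat 9120459600, .ofNat 185421600, .ofNat 110019600, .negSucc 694022399, .ofNat 226105200, .ofNat 7052400, .ofNat 7209169200, .ofNat 3131377200, .negSucc 490435199, .negSucc 682714799, .ofNat 25952400, .negSucc 13328539199, .negSucc 3023067599, .ofNat 1278972000, .negSucc 34891199, .ofNat 1234843200, .ofNat 18360669600, .ofNat 729860400, .negSucc 1651773599, .ofNat 4164148800, .negSucc 1531562399, .negSucc 8212319999, .ofNat 1341900000, .ofNat 997941600, .negSucc 3591212399, .ofNat 59241600],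
  [.negSucc 1003661999, .ofNat 67989600, .negSucc 491079599, .negSucc 49492799, .ofNat 184950000, .negSucc 107978399, .ofNat 402379200, .ofNat 49683600, .negSucc 213778799, .ofNat 454179600, .negSucc 57128399, .negSucc 34966799, .negSucc 133703999, .ofNat 306878400, .negSucc 581727599, .ofNat 17722800, .ofNat 729860400, .ofNat 1059735600, .ofNat 139428000, .ofNat 350294400, .ofNat 24174000, .negSucc 193179599, .negSucc 328647599, .ofNat 95821200, .negSucc 159904799, .negSucc 36172799],
  [.negSucc 1238032799, .negSucc 221903999, .negSucc 1217113199, .ofNat 349261200, .ofNat 1630040400, .ofNat 136310400, .negSucc 1073915999, .negSucc 123620399, .ofNat 15814800, .negSucc 28313999, .negSucc 160268399, .ofNat 1278705600, .ofNat 92484000, .negSucc 1354622399, .ofNat 306856800, .ofNat 83556000, .negSucc 1651773599, .ofNat 139428000, .ofNat 2417950800, .negSucc 207176399, .ofNat 155098800, .ofNat 1162022400, .negSucc 62870399, .negSucc 354200399, .ofNat 291351600, .negSucc 32839199],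
  [.ofNat 2653470000, .negSucc 49715999, .ofNat 31003200, .negSucc 256834799, .ofNat 176058000, .ofNat 810000, .ofNat 1271199600, .ofNat 644569200, .negSucc 459590399, .negSucc 360226799, .ofNat 1220400, .negSucc 3022894799, .negSucc 1136800799, .ofNat 92502000, .negSucc 133617599, .ofNat 177260400, .ofNat 4164148800, .ofNat 350294400, .negSucc 207176399, .ofNat 1587988800, .negSucc 240429599, .negSucc 1483790399, .ofNat 502966800, .ofNat 484304400, .negSucc 1035979199, .negSucc 28965599],
  [.negSucc 325479599, .ofNat 7412400, .negSucc 301730399, .ofNat 121726800, .ofNat 85402800, .negSucc 48437999, .negSucc 545961599, .negSucc 232106399, .negSucc 57391199, .ofNat 43542000, .negSucc 19195199, .ofNat 1234796400, .ofNat 177246000, .ofNat 83498400, .ofNat 17715600, .negSucc 170719199, .negSucc 1531562399, .ofNat 24174000, .ofNat 155098800, .negSucc 240429599, .ofNat 257227200, .ofNat 499014000, .negSucc 113669999, .negSucc 46695599, .ofNat 262472400, .negSucc 38332799],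
  [.negSucc 7958123999, .negSucc 214721999, .ofNat 299728800, .negSucc 39128399, .ofNat 89348400, .ofNat 297248400, .negSucc 5995717199, .negSucc 2193303599, .negSucc 84153599, .negSucc 375904799, .ofNat 106826400, .ofNat 7209234000, .ofNat 1271124000, .negSucc 1073584799, .ofNat 402451200, .negSucc 545997599, .negSucc 8212319999, .negSucc 193179599, .ofNat 1162022400, .negSucc 1483790399, .ofNat 499014000, .ofNat 7745936400, .ofNat 523605600, .ofNat 130503600, .ofNat 2490933600, .negSucc 69465599],
  [.ofNat 517618800, .negSucc 53675999, .ofNat 128844000, .negSucc 143906399, .ofNat 58222800, .ofNat 100364400, .negSucc 375818399, .negSucc 78872399, .negSucc 266475599, .negSucc 619397999, .ofNat 58305600, .negSucc 682649999, .negSucc 360273599, .negSucc 28187999, .ofNat 454237200, .ofNat 43538400, .ofNat 1341900000, .negSucc 328647599, .negSucc 62870399, .ofNat 502966800, .negSucc 113669999, .ofNat 523605600, .ofNat 801414000, .ofNat 376549200, .ofNat 35582400, .negSucc 29987999],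
  [.ofNat 325029600, .ofNat 77713200, .ofNat 386312400, .negSucc 89985599, .negSucc 109828799, .ofNat 56750400, .negSucc 84077999, .ofNat 68450400, .negSucc 265705199, .negSucc 266475599, .ofNat 86630400, .negSucc 490352399, .negSucc 459626399, .ofNat 15969600, .negSucc 213746399, .negSucc 57412799, .ofNat 997941600, .ofNat 95821200, .negSucc 354200399, .ofNat 484304400, .negSucc 46695599, .ofNat 130503600, .ofNat 376549200, .ofNat 533394000, .ofNat 88833600, .ofNat 19188000],
  [.negSucc 3056921999, .ofNat 72086400, .negSucc 109522799, .ofNat 269719200, .ofNat 188355600, .ofNat 107668800, .negSucc 2193335999, .negSucc 740062799, .ofNat 68382000, .negSucc 78958799, .ofNat 69411600, .ofNat 3131236800, .ofNat 644475600, .negSucc 123425999, .ofNat 49651200, .negSucc 232131599, .negSucc 3591212399, .negSucc 159904799, .ofNat 291351600, .negSucc 1035979199, .ofNat 262472400, .ofNat 2490933600, .ofNat 35582400, .ofNat 88833600, .ofNat 1386349200, .ofNat 1774800],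
  [.negSucc 58193999, .ofNat 25506000, .ofNat 253098000, .negSucc 43963199, .negSucc 84088799, .ofNat 33991200, .ofNat 106779600, .ofNat 69372000, .ofNat 86601600, .ofNat 58287600, .ofNat 22071600, .ofNat 25927200, .ofNat 1227600, .negSucc 160217999, .negSucc 57146399, .negSucc 19198799, .ofNat 59241600, .negSucc 36172799, .negSucc 32839199, .negSucc 28965599, .negSucc 38332799, .negSucc 69465599, .negSucc 29987999, .ofNat 19188000, .ofNat 1774800, .ofNat 45903600]]

/-- Rounded Cholesky factor (lower triangular rows). -/
def lB1 : List (List Int) :=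
 [[.ofNat 7979151],
  [.ofNat 5614, .ofNat 684454],
  [.negSucc 210455, .ofNat 784879, .ofNat 3495583],
  [.ofNat 376395, .ofNat 35906, .negSucc 945467, .ofNat 1143194],
  [.ofNat 249787, .negSucc 879518, .negSucc 2267239, .ofNat 1002894, .ofNat 2088870],
  [.negSucc 146706, .negSucc 70622, .ofNat 160260, .ofNat 206397, .ofNat 507066, .ofNat 341272],
  [.ofNat 3705139, .ofNat 1748376, .ofNat 181819, .negSucc 1264840, .ofNat 702303, .negSucc 987667, .ofNat 3438028],
  [.ofNat 1652653, .ofNat 630770, .negSucc 170560, .ofNat 261318, .ofNat 1051891, .ofNat 64532, .ofNat 774399, .ofNat 849283],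
  [.negSucc 451126, .ofNat 343163, .ofNat 348493, .ofNat 103417, .ofNat 225863, .ofNat 247158, .ofNat 511471, .ofNat 324078, .ofNat 1110202],
  [.negSucc 679862, .ofNat 605975, .negSucc 25905, .negSucc 332389, .ofNat 20673, .negSucc 629217, .ofNat 742284, .ofNat 486459, .ofNat 616478, .ofNat 870634],
  [.negSucc 33027, .ofNat 203836, .ofNat 248836, .ofNat 52777, .ofNat 47227, .ofNat 115168, .negSucc 121121, .negSucc 1611, .negSucc 67661, .negSucc 47020, .ofNat 154833],
  [.negSucc 6746538, .ofNat 97069, .negSucc 298703, .negSucc 515793, .negSucc 350855, .ofNat 317991, .negSucc 2573816, .negSucc 1408473, .ofNat 2649188, .ofNat 2114356, .ofNat 298733, .ofNat 2981810],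
  [.negSucc 1838736, .ofNat 19650, .negSucc 78601, .negSucc 380575, .negSucc 809622, .ofNat 86738, .ofNat 258277, .negSucc 571122, .ofNat 1286885, .ofNat 38686, .ofNat 24051, .ofNat 160765, .ofNat 460825],
  [.ofNat 781642, .ofNat 809746, .negSucc 1560659, .negSucc 321979, .negSucc 1085963, .ofNat 382876, .ofNat 426330, .negSucc 3455, .negSucc 779078, .ofNat 74109, .ofNat 913389, .ofNat 6920, .ofNat 605421, .ofNat 1660409],
  [.ofNat 51166, .negSucc 646769, .negSucc 427168, .negSucc 527186, .ofNat 189659, .ofNat 941722, .ofNat 103930, .negSucc 715419, .ofNat 669898, .negSucc 757504, .ofNat 149708, .ofNat 605737, .ofNat 21188, .ofNat 265821, .ofNat 714832],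
  [.ofNat 343518, .negSucc 292772, .negSucc 267225, .ofNat 111252, .ofNat 126038, .ofNat 47030, .ofNat 415995, .ofNat 187962, .negSucc 151331, .negSucc 349767, .negSucc 82500, .negSucc 476159, .ofNat 127254, .ofNat 44798, .negSucc 24717, .ofNat 349692],
  [.ofNat 4681877, .ofNat 1071220, .ofNat 170270, .negSucc 3920966, .ofNat 2401859, .ofNat 1041649, .ofNat 1355565, .ofNat 2146646, .negSucc 1897949, .negSucc 2108845, .negSucc 556588, .negSucc 2818983, .ofNat 970228, .negSucc 16804, .negSucc 387250, .ofNat 1088155, .ofNat 2198606],
  [.negSucc 515217, .ofNat 411098, .negSucc 698754, .negSucc 598505, .ofNat 126294, .negSucc 929929, .ofNat 349391, .ofNat 576353, .negSucc 997931, .ofNat 610626, .negSucc 153561, .negSucc 243785, .negSucc 131187, .negSucc 127398, .negSucc 193536, .negSucc 70454, .ofNat 198260, .ofNat 371588],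
  [.negSucc 635528, .negSucc 1322732, .negSucc 1167433, .ofNat 536660, .ofNat 1190576, .negSucc 456222, .negSucc 36965, .negSucc 182913, .ofNat 455203, .negSucc 85277, .negSucc 822305, .ofNat 146388, .negSucc 713869, .negSucc 1568241, .ofNat 548147, .negSucc 176285, .negSucc 137544, .ofNat 214859, .ofNat 376244],
  [.ofNat 1362126, .negSucc 308689, .ofNat 187649, .negSucc 1203812, .ofNat 834008, .negSucc 67855, .negSucc 439153, .ofNat 468045, .negSucc 1082351, .negSucc 59777, .negSucc 195726, .negSucc 278925, .negSucc 179015, .ofNat 24216, .negSucc 293088, .ofNat 72666, .ofNat 373748, .ofNat 273443, .negSucc 98025, .ofNat 546267],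
  [.negSucc 167080, .ofNat 45729, .negSucc 373883, .ofNat 180498, .negSucc 285771, .negSucc 152704, .negSucc 392955, .negSucc 235023, .ofNat 148556, .ofNat 357913, .ofNat 232, .ofNat 457098, .negSucc 156636, .ofNat 3435, .ofNat 19486, .negSucc 320373, .negSucc 23820, .ofNat 39634, .negSucc 52944, .ofNat 24210, .ofNat 156834],
  [.negSucc 4085205, .negSucc 1251457, .ofNat 386252, .ofNat 1563605, .negSucc 194689, .ofNat 714733, .negSucc 1304249, .negSucc 726495, .negSucc 1157126, .negSucc 620668, .ofNat 254145, .ofNat 884521, .negSucc 1275899, .ofNat 399024, .ofNat 936080, .negSucc 1094071, .negSucc 967634, .ofNat 124100, .negSucc 268162, .ofNat 572524, .ofNat 93938, .ofNat 537669],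
  [.ofNat 265713, .negSucc 323393, .ofNat 239586, .negSucc 394788, .ofNat 395816, .ofNat 790036, .negSucc 581448, .negSucc 507769, .negSucc 653948, .negSucc 820984, .ofNat 70771, .ofNat 6342, .negSucc 280925, .ofNat 129945, .ofNat 256374, .ofNat 27460, .ofNat 247221, .negSucc 326430, .ofNat 17523, .ofNat 111693, .ofNat 30847, .ofNat 79732, .ofNat 202101],
  [.ofNat 166850, .ofNat 463693, .ofNat 358598, .negSucc 95336, .ofNat 394918, .ofNat 151298, .negSucc 607033, .negSucc 184703, .negSucc 939956, .negSucc 85561, .ofNat 26546, .ofNat 20494, .negSucc 56737, .ofNat 947, .negSucc 305283, .ofNat 55673, .ofNat 214873, .negSucc 245093, .negSucc 157464, .ofNat 136006, .negSucc 1995, .ofNat 142393, .ofNat 92570, .ofNat 182032],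
  [.negSucc 1569233, .ofNat 444260, .negSucc 322564, .ofNat 1202328, .negSucc 183316, .ofNat 406306, .negSucc 534308, .negSucc 596919, .negSucc 166184, .negSucc 251911, .ofNat 205581, .ofNat 409591, .negSucc 121309, .negSucc 67379, .ofNat 13686, .negSucc 130550, .negSucc 163863, .negSucc 267343, .ofNat 31796, .negSucc 265803, .negSucc 26143, .ofNat 236668, .ofNat 12591, .ofNat 83782, .ofNat 193004],
  [.negSucc 29872, .ofNat 152881, .ofNat 260446, .ofNat 62915, .ofNat 155535, .ofNat 35313, .ofNat 69408, .ofNat 53494, .ofNat 85405, .ofNat 48544, .negSucc 30553, .negSucc 7501, .ofNat 37225, .negSucc 81685, .negSucc 15855, .ofNat 3232, .negSucc 8651, .negSucc 16770, .ofNat 36367, .negSucc 42761, .negSucc 57619, .negSucc 8565, .ofNat 6294, .ofNat 16019, .ofNat 630, .ofNat 113577]]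

theorem okB1 : psdOK 26 4096 gB1 lB1 = true := by decide +kernel

end Pool.Agent.H2AF
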