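import Pool.Agent.Lib.H2AF.PSD

/-! # Certificate B of MP_afe93a, block 2 (P1_T1, sq, size 50): the Gram matrix is positive semidefinite -/

namespace Pool.Agent.H2AF

/-- Gram matrix (integers), block P1_T1, certificate B. -/
def gB2 : List (List Int) :=
 [[.ofNat 22545298728, .ofNat 222403860, .ofNat 893023344, .negSucc 1515578399, .negSucc 2402792243, .negSucc 1284692399, .ofNat 539244000, .negSucc 1389261599, .negSucc 550018799, .ofNat 680547600, .negSucc 5241554099, .negSucc 4476394799, .negSucc 362767760, .ofNat 7131967200, .ofNat 2109465000, .negSucc 309395924, .ofNat 544809600, .ofNat 902257200, .ofNat 394171200, .ofNat 3743208000, .ofNat 15742310400, .ofNat 7159820400, .ofNat 2908385100, .negSucc 11348737199, .negSucc 2129041385, .negSucc 398941199, .ofNat 936698400, .negSucc 1263211199, .negSucc 3550777199, .negSucc 2147547599, .negSucc 4269970799, .negSucc 1087523999, .negSucc 2950354799, .negSucc 15118232399, .negSucc 4898444399, .negSucc 317710799, .ofNat 466876800, .ofNat 1225062000, .ofNat 742705200, .ofNat 2394126000, .negSucc 4718401199, .ofNat 283276800, .negSucc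 477597599, .ofNat 745311600, .negSucc 195458399, .negSucc 138214799, .negSucc 2116868399, .negSucc 29905199, .negSucc 2269166399, .negSucc 5543632799],
  [.ofNat 222403860, .ofNat 4904107200, .ofNat 25782750, .negSucc 679635260, .negSucc 5395072899, .ofNat 2863851300, .negSucc 337953599, .ofNat 410212800, .negSucc 2900386115, .ofNat 705625200, .negSucc 4115888099, .negSucc 1685168999, .negSucc 2517703199, .ofNat 212865300, .negSucc 782602199, .ofNat 421265700, .negSucc 46379699, .negSucc 169255799, .ofNat 473353200, .ofNat 133422300, .ofNat 3049410600, .ofNat 339577200, .ofNat 1586079000, .negSucc 589395599, .ofNat 1536260400, .negSucc 1465503299, .negSucc 354096899, .ofNat 91833300, .negSucc 604378799, .ofNat 785970000, .ofNat 923882400, .ofNat 3274995600, .ofNat 1353977100, .negSucc 940694399, .negSucc 1437909299, .negSucc 618787799, .ofNat 603995400, .negSucc 290488499, .ofNat 314377200, .negSucc 982241999, .ofNat 584161200, .negSucc 738028799, .negSucc 107902799, .ofNat 2358511200, .ofNat 566593200, .ofNat 1535018400, .negSucc 34959599, .ofNat 588032100, .negSucc 92800799,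 .ofNat 935690400],
  [.ofNat 893023344, .ofNat 25782750, .ofNat 2118145500, .ofNat 140886000, .ofNat 1694028600, .negSucc 1495078199, .ofNat 250120800, .negSucc 606149999, .ofNat 410090400, .ofNat 188658000, .ofNat 1227920400, .negSucc 699227999, .negSucc 278855999, .negSucc 398789099, .negSucc 372888899, .ofNat 46904400, .ofNat 189370800, .ofNat 293375700, .ofNat 19664100, .ofNat 401164200, .ofNat 1173639600, .negSucc 1626851699, .negSucc 58709699, .negSucc 439957799, .ofNat 1271743200, .ofNat 594021600, .negSucc 172758599, .negSucc 188832599, .negSucc 55654199, .ofNat 164271600, .negSucc 1309435199, .ofNat 1902142800, .negSucc 881819999, .ofNat 74383200, .negSucc 576777599, .ofNat 8884800, .negSucc 441150299, .ofNat 377942400, .negSucc 15621299, .ofNat 786774600, .ofNat 261399600, .negSucc 299717999, .ofNat 339994800, .negSucc 833979599, .negSucc 279802799, .negSucc 386686799, .ofNat 184874400, .ofNat 33062400, .ofNat 25592400, .negSucc 453423599],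
  [.negSucc 1515578399, .negSucc 679635260, .ofNat 140886000, .ofNat 859266000, .ofNat 1493244000, .negSucc 426535199, .negSucc 272098799, .ofNat 188582400, .ofNat 705589200, .negSucc 332639999, .ofNat 626344200, .ofNat 338443200, .ofNat 315244800, .negSucc 267339599, .negSucc 489326399, .negSucc 301124699, .negSucc 504089999, .ofNat 372524400, .negSucc 29120399, .negSucc 306392399, .negSucc 828658799, .negSucc 1064141999, .negSucc 905443199, .ofNat 884203200, .ofNat 679032000, .ofNat 267058800, .ofNat 602607600, .negSucc 175460399, .ofNat 707835600, .ofNat 180172800, .negSucc 452555999, .negSucc 299901599, .negSucc 51217199, .ofNat 682862400, .ofNat 375832800, .ofNat 420206400, .negSucc 748483199, .ofNat 7941600, .negSucc 357281999, .negSucc 102661199, .ofNat 466570800, .ofNat 707068800, .ofNat 384526800, .negSucc 435787199, .negSucc 159361199, .negSucc 288147599, .ofNat 322398000, .negSucc 75707999, .ofNat 152316000, .ofNat 533887200],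
  [.negSucc 2402792243, .negSucc 5395072899, .ofNat 1694028600, .ofNat 1493244000, .ofNat 9642962484, .negSucc 2530544399, .ofNat 53424000, .negSucc 1495209599, .ofNat 2863990800, .negSucc 426567599, .ofNat 6231093300, .ofNat 3187872000, .ofNat 2870690400, .negSucc 1096498799, .negSucc 146404799, .negSucc 682862399, .negSucc 381988799, .ofNat 239724900, .negSucc 324037799, .ofNat 121844700, .negSucc 3869643599, .negSucc 5537555999, .negSucc 2756619899, .ofNat 2736374400, .ofNat 1625018400, .ofNat 2753510400, .ofNat 912351600, .negSucc 229777199, .ofNat 1228777200, .negSucc 920365199, .negSucc 506532599, .negSucc 3808004399, .negSucc 1381618799, .ofNat 970009200, .ofNat 2052640800, .ofNat 234234000, .negSucc 1248757199, .ofNat 736801200, .negSucc 54575999, .ofNat 957877200, .ofNat 383961600, .ofNat 3393774000, .ofNat 419495400, .negSucc 2338297199, .negSucc 919072799, .negSucc 1190008799, .ofNat 580363200, .negSucc 841931999, .ofNat 72864000, .negSucc 472463999],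
  [.negSucc 1284692399, .ofNat 2863851300, .negSucc 1495078199, .negSucc 426535199, .negSucc 2530544399, .ofNat 9642528000, .ofNat 53506800, .ofNat 1694264400, .negSucc 5394707999, .ofNat 1493301600, .negSucc 2338437599, .ofNat 3393486000, .negSucc 1190019599, .ofNat 383850000, .negSucc 919101599, .ofNat 419688000, .ofNat 72867600, .negSucc 841877999, .ofNat 580269600, .negSucc 472539599, .ofNat 969793200, .negSucc 3807565199, .ofNat 234223200, .negSucc 507020399, .ofNat 2052320400, .negSucc 1381816799, .negSucc 54676799, .ofNat 736876800, .negSucc 1248818399, .ofNat 958006800, .ofNat 2735586000, .negSucc 5537649599, .ofNat 2753377200, .negSucc 3869049599, .ofNat 1625169600, .negSucc 2756415599, .ofNat 1228708800, .negSucc 229892399, .ofNat 912232800, .negSucc 920285999, .negSucc 1096207199, .ofNat 3187558800, .negSucc 682837199, .ofNat 6230714400, .negSucc 146537999, .ofNat 2870290800, .negSucc 323971199, .ofNat 239882400, .negSucc 382013999, .ofNat 121831200],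
  [.ofNat 539244000, .negSucc 337953599, .ofNat 250120800, .negSucc 272098799, .ofNat 53424000, .ofNat 53506800, .ofNat 1422586800, .ofNat 250189200, .negSucc 337953599, .negSucc 272069999, .ofNat 141750000, .negSucc 17917199, .negSucc 154335599, .negSucc 1081587599, .ofNat 770090400, .ofNat 111225600, .ofNat 503769600, .negSucc 343288799, .negSucc 240929999, .negSucc 1132225199, .negSucc 95493599, .negSucc 1433491199, .ofNat 429310800, .negSucc 905551199, .negSucc 910173599, .negSucc 718415999, .negSucc 384789599, .ofNat 462326400, .negSucc 259567199, .ofNat 721890000, .negSucc 905561999, .negSucc 1433555999, .negSucc 718372799, .negSucc 95259599, .negSucc 910076399, .ofNat 429296400, .negSucc 259545599, .ofNat 462301200, .negSucc 384735599, .ofNat 721900800, .negSucc 1081490399, .negSucc 18032399, .ofNat 111182400, .ofNat 141721200, .ofNat 770079600, .negSucc 154357199, .negSucc 240901199, .negSucc 343274399, .ofNat 503740800, .negSucc 1132192799],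
  [.negSucc 1389261599, .ofNat 410212800, .negSucc 606149999, .ofNat 188582400, .negSucc 1495209599, .ofNat 1694264400, .ofNat 250189200, .ofNat 2118265200, .ofNat 25740000, .ofNat 141015600, .negSucc 833903999, .negSucc 299455199, .negSucc 386783999, .ofNat 261172800, .negSucc 279766799, .ofNat 340131600, .ofNat 25750800, .ofNat 32994000, .ofNat 184975200, .negSucc 453527999, .ofNat 74041200, .ofNat 1901818800, .ofNat 9018000, .negSucc 1309096799, .negSucc 576741599, .negSucc 881884799, .negSucc 15890399, .ofNat 378010800, .negSucc 441190799, .ofNat 786898800, .negSucc 439268399, .negSucc 1627232399, .ofNat 594097200, .ofNat 1173924000, .ofNat 1271984400, .negSucc 58859999, .negSucc 55418399, .negSucc 188884799, .negSucc 172774799, .ofNat 164311200, .negSucc 398966399, .negSucc 699238799, .ofNat 46875600, .ofNat 1228096800, .negSucc 372941999, .negSucc 278834399, .ofNat 19699200, .ofNat 293414400, .ofNat 189450000, .ofNat 401184000],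
  [.negSucc 550018799, .negSucc 2900386115, .ofNat 410090400, .ofNat 705589200, .ofNat 2863990800, .negSucc 5394707999, .negSucc 337953599, .ofNat 25740000, .ofNat 4903920000, .negSucc 679676399, .ofNat 2358896400, .negSucc 737589599, .ofNat 1535101200, .ofNat 583884000, .ofNat 566654400, .negSucc 107917199, .negSucc 92710799, .ofNat 587883600, .negSucc 34829999, .ofNat 935614800, .negSucc 941097599, .ofNat 3274347600, .negSucc 618847199, .ofNat 924847200, .negSucc 1437713999, .ofNat 1354111200, .ofNat 314301600, .negSucc 290429999, .ofNat 604094400, .negSucc 982220399, .negSucc 588218399, .ofNat 339120000, .negSucc 1465343999, .ofNat 3049405200, .ofNat 1536505200, .ofNat 1585886400, .negSucc 604166399, .ofNat 91846800, .negSucc 354085199, .ofNat 785898000, .ofNat 212511600, .negSucc 1684771199, .ofNat 421239600, .negSucc 4115548799, .negSucc 782542799, .negSucc 2517469199, .ofNat 473342400, .negSucc 169343999, .negSucc 46241999, .ofNat 133495200],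
  [.ofNat 680547600, .ofNat 705625200, .ofNat 188658000, .negSucc 332639999, .negSucc 426567599, .ofNat 1493301600, .negSucc 272069999, .ofNat 141015600, .negSucc 679676399, .ofNat 859334400, .negSucc 435884399, .ofNat 707004000, .negSucc 288219599, .ofNat 466534800, .negSucc 159389999, .ofNat 384613200, .ofNat 152323200, .negSucc 75704399, .ofNat 322416000, .ofNat 533844000, .ofNat 682815600, .negSucc 299876399, .ofNat 420242400, .negSucc 452757599, .ofNat 375811200, .negSucc 51285599, .negSucc 357346799, .ofNat 7974000, .negSucc 748544399, .negSucc 102581999, .ofNat 884062800, .negSucc 1064253599, .ofNat 267033600, .negSucc 828467999, .ofNat 679122000, .negSucc 905471999, .ofNat 707868000, .negSucc 175492799, .ofNat 602596800, .ofNat 180194400, .negSucc 267303599, .ofNat 338407200, .negSucc 301103999, .ofNat 626328000, .negSucc 489394799, .ofNat 315169200, .negSucc 29120399, .ofNat 372585600, .negSucc 504100799, .negSucc 306377999],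
  [.negSucc 5241554099, .negSucc 4115888099, .ofNat 1227920400, .ofNat 626344200, .ofNat 6231093300, .negSucc 2338437599, .ofNat 141750000, .negSucc 833903999, .ofNat 2358896400, .negSucc 435884399, .ofNat 10931304600, .ofNat 5712001200, .ofNat 2052976500, .negSucc 721621799, .ofNat 220875300, .negSucc 444441599, .ofNat 467426700, .ofNat 7648200, .negSucc 340100999, .ofNat 414385200, .negSucc 8482107599, .negSucc 4934819699, .negSucc 1237938299, .ofNat 3149304300, .negSucc 458766899, .ofNat 1389186000, .negSucc 24958799, .ofNat 563359500, .ofNat 568464300, .ofNat 11869200, .negSucc 1146683699, .ofNat 1447086600, .negSucc 331176599, .ofNat 6123658500, .ofNat 2457068400, .ofNat 590328900, .negSucc 1128518099, .negSucc 340264799, .ofNat 191932200, .ofNat 270183600, .ofNat 6926400, .negSucc 2622460499, .negSucc 315961199, .negSucc 4242409199, .negSucc 465253199, .negSucc 1084965299, .ofNat 818113500, .negSucc 354968099, .ofNat 838763100, .ofNat 105346800],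
  [.negSucc 4476394799, .negSucc 1685168999, .negSucc 699227999, .ofNat 338443200, .ofNat 3187872000, .ofNat 3393486000, .negSucc 17917199, .negSucc 299455199, .negSucc 737589599, .ofNat 707004000, .ofNat 5712001200, .ofNat 9954095400, .ofNat 1423324800, .negSucc 598308299, .ofNat 293080500, .ofNat 259677000, .negSucc 68141699, .negSucc 396353699, .negSucc 103421699, .negSucc 491601599, .negSucc 7486248599, .negSucc 9202598999, .negSucc 975687299, .ofNat 3539520900, .negSucc 109840499, .ofNat 59186700, .negSucc 245373299, .ofNat 870369300, .ofNat 285579000, .ofNat 336163500, .ofNat 2369169900, .negSucc 3863789999, .ofNat 732258000, .ofNat 2689711200, .ofNat 2879350200, .negSucc 1233953999, .ofNat 515820600, .negSucc 520304399, .ofNat 825268500, .negSucc 554381549, .negSucc 1013702399, .negSucc 481597199, .negSucc 332754299, .negSucc 2622211199, .negSucc 372425399, .ofNat 476496000, .ofNat 525884400, .negSucc 345907799, .negSucc 521027999, .negSucc 365354099],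
  [.negSucc 362767760, .negSucc 2517703199, .negSucc 278855999, .ofNat 315244800, .ofNat 2870690400, .negSucc 1190019599, .negSucc 154335599, .negSucc 386783999, .ofNat 1535101200, .negSucc 288219599, .ofNat 2052976500, .ofNat 1423324800, .ofNat 1771096050, .ofNat 168381900, .ofNat 473740200, .negSucc 208857599, .negSucc 62812799, .ofNat 44283600, .negSucc 220255199, .ofNat 180517500, .negSucc 1710332099, .negSucc 194833799, .negSucc 1071638099, .ofNat 763570800, .negSucc 482768999, .ofNat 1050673500, .ofNat 395427600, .ofNat 43257600, .ofNat 363056400, .negSucc 529631999, .ofNat 385568100, .negSucc 1567220399, .negSucc 355105799, .ofNat 428706000, .ofNat 1118376000, .ofNat 101476800, .negSucc 87872399, .ofNat 32594400, .ofNat 43869600, .ofNat 24156000, .negSucc 60523199, .ofNat 476737200, .negSucc 93160799, .negSucc 1084827599, .negSucc 560515499, .negSucc 732939299, .ofNat 60361200, .negSucc 409903199, .negSucc 203176799, .negSucc 75535199],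
  [.ofNat 7131967200, .ofNat 212865300, .negSucc 398789099, .negSucc 267339599, .negSucc 1096498799, .ofNat 383850000, .negSucc 1081587599, .ofNat 261172800, .ofNat 583884000, .ofNat 466534800, .negSucc 721621799, .negSucc 598308299, .ofNat 168381900, .ofNat 5476968000, .ofNat 231836400, .negSucc 68915699, .negSucc 325062899, .ofNat 446517900, .ofNat 805066200, .ofNat 2861155800, .ofNat 5076957600, .ofNat 4960269000, .ofNat 752931900, .negSucc 4182837299, .negSucc 210243599, .ofNat 347608800, .ofNat 976898700, .negSucc 296241299, .negSucc 1530615599, .negSucc 1248420599, .negSucc 63539999, .ofNat 476978400, .ofNat 391713300, .negSucc 3886693199, .ofNat 585975600, .negSucc 624878099, .ofNat 591030000, .negSucc 174751199, .ofNat 667947600, .negSucc 404765549, .negSucc 1780423199, .negSucc 1013270399, .negSucc 476639999, .ofNat 7516800, .negSucc 1278212399, .negSucc 60307199, .negSucc 739540799, .ofNat 217882800, .negSucc 1034578799, .negSucc 291779999],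
  [.ofNat 2109465000, .negSucc 782602199, .negSucc 372888899, .negSucc 489326399, .negSucc 146404799, .negSucc 919101599, .ofNat 770090400, .negSucc 279766799, .ofNat 566654400, .negSucc 159389999, .ofNat 220875300, .ofNat 293080500, .ofNat 473740200, .ofNat 231836400, .ofNat 1720003500, .ofNat 81063900, .ofNat 470390400, .negSucc 151045199, .ofNat 67064400, .negSucc 399526199, .negSucc 127965599, .ofNat 268831800, .ofNat 1124023500, .negSucc 1356343199, .negSucc 2076617699, .negSucc 487738799, .negSucc 137303999, .ofNat 321627600, .negSucc 808203599, .ofNat 174095100, .negSucc 14809499, .negSucc 1214297999, .negSucc 1105753499, .negSucc 509187599, .negSucc 715088699, .ofNat 636728400, .ofNat 142804800, .ofNat 139723200, .ofNat 61430400, .ofNat 89889300, .negSucc 1278291599, .negSucc 372437999, .negSucc 286973999, .negSucc 465314399, .ofNat 430722000, .negSucc 560566799, .negSucc 376556399, .negSucc 260020799, .negSucc 2120399, .negSucc 755576999],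
  [.negSucc 309395924, .ofNat 421265700, .ofNat 46904400, .negSucc 301124699, .negSucc 682862399, .ofNat 419688000, .ofNat 111225600, .ofNat 340131600, .negSucc 107917199, .ofNat 384613200, .negSucc 444441599, .ofNat 259677000, .negSucc 208857599, .negSucc 68915699, .ofNat 81063900, .ofNat 771265800, .ofNat 123219900, .negSucc 227569499, .ofNat 64296900, .ofNat 31755600, .negSucc 197528399, .negSucc 105170399, .ofNat 62991900, .ofNat 84752100, .ofNat 114728400, .negSucc 502088399, .negSucc 460346399, .ofNat 285130800, .negSucc 55958399, .ofNat 248008500, .ofNat 1069257600, .negSucc 616712399, .ofNat 392841000, .ofNat 776192400, .ofNat 350926200, .negSucc 462409199, .ofNat 743889600, .negSucc 114044399, .negSucc 42299999, .negSucc 107333999, .negSucc 476708399, .negSucc 332949599, .negSucc 64371599, .negSucc 315928799, .negSucc 286999199, .negSucc 93175199, .negSucc 38357999, .ofNat 111963600, .negSucc 159235199, .negSucc 14284799],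
  [.ofNat 544809600, .negSucc 46379699, .ofNat 189370800, .negSucc 504089999, .negSucc 381988799, .ofNat 72867600, .ofNat 503769600, .ofNat 25750800, .negSucc 92710799, .ofNat 152323200, .ofNat 467426700, .negSucc 68141699, .negSucc 62812799, .negSucc 325062899, .ofNat 470390400, .ofNat 123219900, .ofNat 1046570400, .negSucc 142502399, .ofNat 72018000, .ofNat 282320100, .ofNat 1377575100, .ofNat 542024100, .ofNat 567601200, .ofNat 596145600, .negSucc 295214399, .ofNat 195228000, .negSucc 762274799, .negSucc 47843999, .negSucc 294425999, .negSucc 74321999, .ofNat 1188054000, .negSucc 825365699, .negSucc 229661999, .negSucc 1447846199, .ofNat 139492800, .negSucc 161387999, .ofNat 487087200, .ofNat 199785600, .negSucc 187801199, .ofNat 762357600, .negSucc 1034434799, .negSucc 521251199, .negSucc 159278399, .ofNat 838497600, .negSucc 2170799, .negSucc 203299199, .ofNat 6109200, .negSucc 156164399, .ofNat 216471600, .negSucc 998812799],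
  [.ofNat 902257200, .negSucc 169255799, .ofNat 293375700, .ofNat 372524400, .ofNat 239724900, .negSucc 841877999, .negSucc 343288799, .ofNat 32994000, .ofNat 587883600, .negSucc 75704399, .ofNat 7648200, .negSucc 396353699, .ofNat 44283600, .ofNat 446517900, .negSucc 151045199, .negSucc 227569499, .negSucc 142502399, .ofNat 584427600, .ofNat 67186800, .ofNat 191230200, .ofNat 775429200, .ofNat 589443300, .negSucc 75358799, .negSucc 604007999, .ofNat 67892400, .ofNat 89823600, .ofNat 328762800, .negSucc 412160399, .negSucc 903599, .ofNat 37918800, .negSucc 896705999, .ofNat 862603200, .negSucc 402325199, .negSucc 477752399, .negSucc 341042399, .ofNat 396579600, .negSucc 521038799, .negSucc 73364399, .negSucc 92354399, .ofNat 171036000, .ofNat 217886400, .negSucc 345830399, .ofNat 111913200, .negSucc 354823199, .negSucc 260013599, .negSucc 409809599, .ofNat 156218400, .ofNat 153565200, .negSucc 156211199, .ofNat 34120800],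
  [.ofNat 394171200, .ofNat 473353200, .ofNat 19664100, .negSucc 29120399, .negSucc 324037799, .ofNat 580269600, .negSucc 240929999, .ofNat 184975200, .negSucc 34829999, .ofNat 322416000, .negSucc 340100999, .negSucc 103421699, .negSucc 220255199, .ofNat 805066200, .ofNat 67064400, .ofNat 64296900, .ofNat 72018000, .ofNat 67186800, .ofNat 644878800, .ofNat 269593200, .ofNat 872110800, .ofNat 114721200, .ofNat 413704800, .ofNat 11091600, .ofNat 329886000, .ofNat 121536000, .negSucc 51451199, .negSucc 27730799, .negSucc 486601199, .ofNat 191113200, .ofNat 1585332000, .negSucc 535922099, .ofNat 91396800, .negSucc 758766599, .ofNat 555260400, .negSucc 333457199, .ofNat 486273600, .negSucc 137894399, .ofNat 74163600, .negSucc 194561999, .negSucc 739360799, .ofNat 525675600, .negSucc 38397599, .ofNat 817830000, .negSucc 376585199, .ofNat 60271200, .negSucc 124264799, .ofNat 156301200, .ofNat 6066000, .ofNat 237650400],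
  [.ofNat 3743208000, .ofNat 133422300, .ofNat 401164200, .negSucc 306392399, .ofNat 121844700, .negSucc 472539599, .negSucc 1132225199, .negSucc 453527999, .ofNat 935614800, .ofNat 533844000, .ofNat 414385200, .negSucc 491601599, .ofNat 180517500, .ofNat 2861155800, .negSucc 399526199, .ofNat 31755600, .ofNat 282320100, .ofNat 191230200, .ofNat 269593200, .ofNat 4106532600, .ofNat 5390588700, .ofNat 4169352600, .ofNat 260478000, .ofNat 167770800, .ofNat 828724500, .ofNat 1347647400, .ofNat 195822000, .negSucc 698857199, .negSucc 324043199, .negSucc 2789103599, .ofNat 788021100, .negSucc 55344599, .ofNat 44398350, .negSucc 4063507199, .ofNat 1168675200, .negSucc 583091999, .ofNat 615470400, .ofNat 406173600, .ofNat 721371600, .ofNat 792817200, .negSucc 291855599, .negSucc 365367599, .negSucc 14241599, .ofNat 105188400, .negSucc 755571599, .negSucc 75427199, .ofNat 237502800, .ofNat 34102800, .negSucc 998895599, .negSucc 627141599],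
  [.ofNat 15742310400, .ofNat 3049410600, .ofNat 1173639600, .negSucc 828658799, .negSucc 3869643599, .ofNat 969793200, .negSucc 95493599, .ofNat 74041200, .negSucc 941097599, .ofNat 682815600, .negSucc 8482107599, .negSucc 7486248599, .negSucc 1710332099, .ofNat 5076957600, .negSucc 127965599, .negSucc 197528399, .ofNat 1377575100, .ofNat 775429200, .ofNat 872110800, .ofNat 5390588700, .ofNat 22465802700, .ofNat 9334911600, .ofNat 1727211600, .negSucc 3791433599, .ofNat 2659816800, .ofNat 1154368800, .ofNat 431398800, .negSucc 2010322799, .negSucc 1289095199, .negSucc 3101266799, .ofNat 1329886700, .negSucc 3059243999, .negSucc 1135565999, .negSucc 18337111199, .negSucc 2386339199, .negSucc 989420399, .ofNat 1079568000, .ofNat 2156418900, .negSucc 502351199, .ofNat 2994995200, .negSucc 3885620399, .ofNat 2689012800, .ofNat 775911600, .ofNat 6122538000, .negSucc 509201999, .ofNat 428997600, .negSucc 759401999, .negSucc 477543599, .negSucc 1448578799, .negSucc 4063543199],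
  [.ofNat 7159820400, .ofNat 339577200, .negSucc 1626851699, .negSucc 1064141999, .negSucc 5537555999, .negSucc 3807565199, .negSucc 1433491199, .ofNat 1901818800, .ofNat 3274347600, .negSucc 299876399, .negSucc 4934819699, .negSucc 9202598999, .negSucc 194833799, .ofNat 4960269000, .ofNat 268831800, .negSucc 105170399, .ofNat 542024100, .ofNat 589443300, .ofNat 114721200, .ofNat 4169352600, .ofNat 9334911600, .ofNat 20519084700, .ofNat 1757548800, .negSucc 5646985199, .negSucc 3969572399, .ofNat 751068000, .ofNat 155146500, .negSucc 1243490399, .negSucc 1675130399, .negSucc 3296852099, .negSucc 2537477599, .ofNat 2086923600, .negSucc 190688399, .negSucc 3061076399, .ofNat 1119916800, .ofNat 755632800, .ofNat 555070500, .negSucc 18684899, .ofNat 496375200, .ofNat 1433645500, .ofNat 476182800, .negSucc 3862943999, .negSucc 616460399, .ofNat 1447567200, .negSucc 1214333999, .negSucc 1566849599, .negSucc 536119199, .ofNat 862434000, .negSucc 825260399, .negSucc 55583999],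
  [.ofNat 2908385100, .ofNat 1586079000, .negSucc 58709699, .negSucc 905443199, .negSucc 2756619899, .ofNat 234223200, .ofNat 429310800, .ofNat 9018000, .negSucc 618847199, .ofNat 420242400, .negSucc 1237938299, .negSucc 975687299, .negSucc 1071638099, .ofNat 752931900, .ofNat 1124023500, .ofNat 62991900, .ofNat 567601200, .negSucc 75358799, .ofNat 413704800, .ofNat 260478000, .ofNat 1727211600, .ofNat 1757548800, .ofNat 2496996450, .negSucc 2644070399, .negSucc 1858370399, .negSucc 984916799, .negSucc 441377999, .ofNat 117039600, .negSucc 1739804399, .ofNat 98067600, .negSucc 899289899, .ofNat 756000000, .negSucc 860403599, .negSucc 989323199, .negSucc 1100753999, .ofNat 386982000, .ofNat 194868000, .negSucc 38818799, .ofNat 674859600, .ofNat 194634000, .negSucc 624848399, .negSucc 1233964799, .negSucc 462351599, .ofNat 590230800, .ofNat 636645600, .ofNat 101412000, .negSucc 333525599, .ofNat 396640800, .negSucc 161420399, .negSucc 582976799],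
  [.negSucc 11348737199, .negSucc 589395599, .negSucc 439957799, .ofNat 884203200, .ofNat 2736374400, .negSucc 507020399, .negSucc 905551199, .negSucc 1309096799, .ofNat 924847200, .negSucc 452757599, .ofNat 3149304300, .ofNat 3539520900, .ofNat 763570800, .negSucc 4182837299, .negSucc 1356343199, .ofNat 84752100, .ofNat 596145600, .negSucc 604007999, .ofNat 11091600, .ofNat 167770800, .negSucc 3791433599, .negSucc 5646985199, .negSucc 2644070399, .ofNat 15103261800, .ofNat 3555043200, .ofNat 2449900800, .negSucc 1300946399, .negSucc 406173599, .ofNat 4333176000, .negSucc 734572799, .ofNat 9747126000, .negSucc 2538428399, .ofNat 1688522400, .ofNat 1333461600, .ofNat 3374445600, .negSucc 898948799, .ofNat 1618711200, .negSucc 76179599, .negSucc 1732942799, .negSucc 221803199, .negSucc 63082799, .ofNat 2368105200, .ofNat 1069120800, .negSucc 1148227199, .negSucc 14759999, .ofNat 385120800, .ofNat 1585684800, .negSucc 896659199, .ofNat 1188302400, .ofNat 788328000],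
  [.negSucc 2129041385, .ofNat 1536260400, .ofNat 1271743200, .ofNat 679032000, .ofNat 1625018400, .ofNat 2052320400, .negSucc 910173599, .negSucc 576741599, .negSucc 1437713999, .ofNat 375811200, .negSucc 458766899, .negSucc 109840499, .negSucc 482768999, .negSucc 210243599, .negSucc 2076617699, .ofNat 114728400, .negSucc 295214399, .ofNat 67892400, .ofNat 329886000, .ofNat 828724500, .ofNat 2659816800, .negSucc 3969572399, .negSucc 1858370399, .ofNat 3555043200, .ofNat 6246887400, .ofNat 1025042400, .ofNat 550940400, .negSucc 381045599, .ofNat 1532862000, .ofNat 180922500, .ofNat 3372825600, .ofNat 1120561200, .ofNat 2063498400, .negSucc 2385230399, .negSucc 211395599, .negSucc 1100527199, .ofNat 161186400, .ofNat 296928000, .negSucc 587372399, .negSucc 930058199, .ofNat 586738800, .ofNat 2878650000, .ofNat 350668800, .ofNat 2456384400, .negSucc 715067999, .ofNat 1118242800, .ofNat 555188400, .negSucc 340844399, .ofNat 139298400, .ofNat 1168797600],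
  [.negSucc 398941199, .negSucc 1465503299, .ofNat 594021600, .ofNat 267058800, .ofNat 2753510400, .negSucc 1381816799, .negSucc 718415999, .negSucc 881884799, .ofNat 1354111200, .negSucc 51285599, .ofNat 1389186000, .ofNat 59186700, .ofNat 1050673500, .ofNat 347608800, .negSucc 487738799, .negSucc 502088399, .ofNat 195228000, .ofNat 89823600, .ofNat 121536000, .ofNat 1347647400, .ofNat 1154368800, .ofNat 751068000, .negSucc 984916799, .ofNat 2449900800, .ofNat 1025042400, .ofNat 2747889450, .negSucc 134704799, .negSucc 557254799, .ofNat 677984400, .negSucc 1438594199, .ofNat 1688342400, .negSucc 190731599, .negSucc 367511399, .negSucc 1135360799, .ofNat 2063595600, .negSucc 860443199, .ofNat 567597600, .ofNat 322311600, .ofNat 129416400, .ofNat 468300600, .ofNat 391838400, .ofNat 732283200, .ofNat 392882400, .negSucc 331495199, .negSucc 1105761599, .negSucc 355118399, .ofNat 91375200, .negSucc 402368399, .negSucc 229748399, .ofNat 44409600],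
  [.ofNat 936698400, .negSucc 354096899, .negSucc 172758599, .ofNat 602607600, .ofNat 912351600, .negSucc 54676799, .negSucc 384789599, .negSucc 15890399, .ofNat 314301600, .negSucc 357346799, .negSucc 24958799, .negSucc 245373299, .ofNat 395427600, .ofNat 976898700, .negSucc 137303999, .negSucc 460346399, .negSucc 762274799, .ofNat 328762800, .negSucc 51451199, .ofNat 195822000, .ofNat 431398800, .ofNat 155146500, .negSucc 441377999, .negSucc 1300946399, .ofNat 550940400, .negSucc 134704799, .ofNat 1394290800, .negSucc 54392399, .ofNat 22500000, .negSucc 266399, .negSucc 1733122799, .ofNat 496767600, .ofNat 129373200, .negSucc 503078399, .negSucc 587750399, .ofNat 674971200, .negSucc 1132606799, .ofNat 75114000, .ofNat 97779600, .negSucc 698759999, .ofNat 667893600, .ofNat 825444000, .negSucc 42375599, .ofNat 192052800, .ofNat 61502400, .ofNat 43959600, .ofNat 74098800, .negSucc 92390399, .negSucc 187801199, .ofNat 721281600],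
  [.negSucc 1263211199, .ofNat 91833300, .negSucc 188832599, .negSucc 175460399, .negSucc 229777199, .ofNat 736876800, .ofNat 462326400, .ofNat 378010800, .negSucc 290429999, .ofNat 7974000, .ofNat 563359500, .ofNat 870369300, .ofNat 43257600, .negSucc 296241299, .ofNat 321627600, .ofNat 285130800, .negSucc 47843999, .negSucc 412160399, .negSucc 27730799, .negSucc 698857199, .negSucc 2010322799, .negSucc 1243490399, .ofNat 117039600, .negSucc 406173599, .negSucc 381045599, .negSucc 557254799, .negSucc 54392399, .ofNat 795632400, .negSucc 220255199, .ofNat 745981200, .negSucc 75841199, .negSucc 18856799, .ofNat 322293600, .ofNat 2156529600, .ofNat 297118800, .negSucc 38757599, .ofNat 107805600, .negSucc 208652399, .ofNat 75092400, .negSucc 603921599, .negSucc 174866399, .negSucc 520347599, .negSucc 114051599, .negSucc 340163999, .ofNat 139737600, .ofNat 32551200, .negSucc 137793599, .negSucc 73357199, .ofNat 199890000, .ofNat 406170000],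
  [.negSucc 3550777199, .negSucc 604378799, .negSucc 55654199, .ofNat 707835600, .ofNat 1228777200, .negSucc 1248818399, .negSucc 259567199, .negSucc 441190799, .ofNat 604094400, .negSucc 748544399, .ofNat 568464300, .ofNat 285579000, .ofNat 363056400, .negSucc 1530615599, .negSucc 808203599, .negSucc 55958399, .negSucc 294425999, .negSucc 903599, .negSucc 486601199, .negSucc 324043199, .negSucc 1289095199, .negSucc 1675130399, .negSucc 1739804399, .ofNat 4333176000, .ofNat 1532862000, .ofNat 677984400, .ofNat 22500000, .negSucc 220255199, .ofNat 2340212400, .negSucc 164941199, .ofNat 1618844400, .ofNat 554860800, .ofNat 567597600, .ofNat 1079982000, .ofNat 161467200, .ofNat 194871600, .negSucc 99734399, .ofNat 107816400, .negSucc 1132455599, .negSucc 344332799, .ofNat 591130800, .ofNat 515646000, .ofNat 743835600, .negSucc 1128632399, .ofNat 142891200, .negSucc 87818399, .ofNat 486316800, .negSucc 521071199, .ofNat 487112400, .ofNat 615459600],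
  [.negSucc 2147547599, .ofNat 785970000, .ofNat 164271600, .ofNat 180172800, .negSucc 920365199, .ofNat 958006800, .ofNat 721890000, .ofNat 786898800, .negSucc 982220399, .negSucc 102581999, .ofNat 11869200, .ofNat 336163500, .negSucc 529631999, .negSucc 1248420599, .ofNat 174095100, .ofNat 248008500, .negSucc 74321999, .ofNat 37918800, .ofNat 191113200, .negSucc 2789103599, .negSucc 3101266799, .negSucc 3296852099, .ofNat 98067600, .negSucc 734572799, .ofNat 180922500, .negSucc 1438594199, .negSucc 266399, .ofNat 745981200, .negSucc 164941199, .ofNat 3083270400, .negSucc 221997599, .ofNat 1433764800, .ofNat 468327600, .ofNat 2995448400, .negSucc 929955599, .ofNat 194846400, .negSucc 344491199, .negSucc 604018799, .negSucc 698651999, .negSucc 1177163999, .negSucc 404553599, .negSucc 554738399, .negSucc 107535599, .ofNat 270198000, .ofNat 89892000, .ofNat 24055200, .negSucc 194439599, .ofNat 171144000, .ofNat 762408000, .ofNat 792903600],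
  [.negSucc 4269970799, .ofNat 923882400, .negSucc 1309435199, .negSucc 452555999, .negSucc 506532599, .ofNat 2735586000, .negSucc 905561999, .negSucc 439268399, .negSucc 588218399, .ofNat 884062800, .negSucc 1146683699, .ofNat 2369169900, .ofNat 385568100, .negSucc 63539999, .negSucc 14809499, .ofNat 1069257600, .ofNat 1188054000, .negSucc 896705999, .ofNat 1585332000, .ofNat 788021100, .ofNat 1329886700, .negSucc 2537477599, .negSucc 899289899, .ofNat 9747126000, .ofNat 3372825600, .ofNat 1688342400, .negSucc 1733122799, .negSucc 75841199, .ofNat 1618844400, .negSucc 221997599, .ofNat 15101820000, .negSucc 5647222799, .ofNat 2449792800, .negSucc 3787415999, .ofNat 3556425600, .negSucc 2643548399, .ofNat 4332783600, .negSucc 406540799, .negSucc 1300665599, .negSucc 734295599, .negSucc 4182116399, .ofNat 3537856800, .ofNat 84729600, .ofNat 3147246000, .negSucc 1356379199, .ofNat 762876000, .ofNat 11412000, .negSucc 603763199, .ofNat 596192400, .ofNat 168127200],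
  [.negSucc 1087523999, .ofNat 3274995600, .ofNat 1902142800, .negSucc 299901599, .negSucc 3808004399, .negSucc 5537649599, .negSucc 1433555999, .negSucc 1627232399, .ofNat 339120000, .negSucc 1064253599, .ofNat 1447086600, .negSucc 3863789999, .negSucc 1567220399, .ofNat 476978400, .negSucc 1214297999, .negSucc 616712399, .negSucc 825365699, .ofNat 862603200, .negSucc 535922099, .negSucc 55344599, .negSucc 3059243999, .ofNat 2086923600, .ofNat 756000000, .negSucc 2538428399, .ofNat 1120561200, .negSucc 190731599, .ofNat 496767600, .negSucc 18856799, .ofNat 554860800, .ofNat 1433764800, .negSucc 5647222799, .ofNat 20520702000, .ofNat 750981600, .ofNat 9333446400, .negSucc 3970717199, .ofNat 1757624400, .negSucc 1675367999, .negSucc 1243303199, .ofNat 155138400, .negSucc 3297157199, .ofNat 4959882000, .negSucc 9202582799, .negSucc 105134399, .negSucc 4934357999, .ofNat 269002800, .negSucc 194464799, .ofNat 114483600, .ofNat 589345200, .ofNat 542030400, .ofNat 4169365200],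
  [.negSucc 2950354799, .ofNat 1353977100, .negSucc 881819999, .negSucc 51217199, .negSucc 1381618799, .ofNat 2753377200, .negSucc 718372799, .ofNat 594097200, .negSucc 1465343999, .ofNat 267033600, .negSucc 331176599, .ofNat 732258000, .negSucc 355105799, .ofNat 391713300, .negSucc 1105753499, .ofNat 392841000, .negSucc 229661999, .negSucc 402325199, .ofNat 91396800, .ofNat 44398350, .negSucc 1135565999, .negSucc 190688399, .negSucc 860403599, .ofNat 1688522400, .ofNat 2063498400, .negSucc 367511399, .ofNat 129373200, .ofNat 322293600, .ofNat 567597600, .ofNat 468327600, .ofNat 2449792800, .ofNat 750981600, .ofNat 2747800800, .ofNat 1154610000, .ofNat 1025161200, .negSucc 984722399, .ofNat 677840400, .negSucc 557279999, .negSucc 134773199, .negSucc 1438459199, .ofNat 347662800, .ofNat 59086800, .negSucc 502102799, .ofNat 1389160800, .negSucc 487709999, .ofNat 1050523200, .ofNat 121654800, .ofNat 89863200, .ofNat 195357600, .ofNat 1347638400],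
  [.negSucc 15118232399, .negSucc 940694399, .ofNat 74383200, .ofNat 682862400, .ofNat 970009200, .negSucc 3869049599, .negSucc 95259599, .ofNat 1173924000, .ofNat 3049405200, .negSucc 828467999, .ofNat 6123658500, .ofNat 2689711200, .ofNat 428706000, .negSucc 3886693199, .negSucc 509187599, .ofNat 776192400, .negSucc 1447846199, .negSucc 477752399, .negSucc 758766599, .negSucc 4063507199, .negSucc 18337111199, .negSucc 3061076399, .negSucc 989323199, .ofNat 1333461600, .negSucc 2385230399, .negSucc 1135360799, .negSucc 503078399, .ofNat 2156529600, .ofNat 1079982000, .ofNat 2995448400, .negSucc 3787415999, .ofNat 9333446400, .ofNat 1154610000, .ofNat 22465998000, .ofNat 2660864400, .ofNat 1726981200, .negSucc 1288418399, .negSucc 2010229199, .ofNat 430848000, .negSucc 3100957199, .ofNat 5075539200, .negSucc 7485688799, .negSucc 197272799, .negSucc 8480923199, .negSucc 127965599, .negSucc 1710316799, .ofNat 872514000, .ofNat 775274400, .ofNat 1378332000, .ofNat 5390715600],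
  [.negSucc 4898444399, .negSucc 1437909299, .negSucc 576777599, .ofNat 375832800, .ofNat 2052640800, .ofNat 1625169600, .negSucc 910076399, .ofNat 1271984400, .ofNat 1536505200, .ofNat 679122000, .ofNat 2457068400, .ofNat 2879350200, .ofNat 1118376000, .ofNat 585975600, .negSucc 715088699, .ofNat 350926200, .ofNat 139492800, .negSucc 341042399, .ofNat 555260400, .ofNat 1168675200, .negSucc 2386339199, .ofNat 1119916800, .negSucc 1100753999, .ofNat 3374445600, .negSucc 211395599, .ofNat 2063595600, .negSucc 587750399, .ofNat 297118800, .ofNat 161467200, .negSucc 929955599, .ofNat 3556425600, .negSucc 3970717199, .ofNat 1025161200, .ofNat 2660864400, .ofNat 6247807200, .negSucc 1858564799, .ofNat 1533222000, .negSucc 381099599, .ofNat 550825200, .ofNat 181083600, .negSucc 210560399, .negSucc 109695599, .ofNat 114840000, .negSucc 458751599, .negSucc 2076703199, .negSucc 482885999, .ofNat 330080400, .ofNat 67870800, .negSucc 295009199, .ofNat 828828000],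
  [.negSucc 317710799, .negSucc 618787799, .ofNat 8884800, .ofNat 420206400, .ofNat 234234000, .negSucc 2756415599, .ofNat 429296400, .negSucc 58859999, .ofNat 1585886400, .negSucc 905471999, .ofNat 590328900, .negSucc 1233953999, .ofNat 101476800, .negSucc 624878099, .ofNat 636728400, .negSucc 462409199, .negSucc 161387999, .ofNat 396579600, .negSucc 333457199, .negSucc 583091999, .negSucc 989420399, .ofNat 755632800, .ofNat 386982000, .negSucc 898948799, .negSucc 1100527199, .negSucc 860443199, .ofNat 674971200, .negSucc 38757599, .ofNat 194871600, .ofNat 194846400, .negSucc 2643548399, .ofNat 1757624400, .negSucc 984722399, .ofNat 1726981200, .negSucc 1858564799, .ofNat 2496996000, .negSucc 1739771999, .ofNat 116971200, .negSucc 441446399, .ofNat 97808400, .ofNat 752785200, .negSucc 975344399, .ofNat 62874000, .negSucc 1237557599, .ofNat 1124089200, .negSucc 1071500399, .ofNat 413686800, .negSucc 75401999, .ofNat 567712800, .ofNat 260568000],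
  [.ofNat 466876800, .ofNat 603995400, .negSucc 441150299, .negSucc 748483199, .negSucc 1248757199, .ofNat 1228708800, .negSucc 259545599, .negSucc 55418399, .negSucc 604166399, .ofNat 707868000, .negSucc 1128518099, .ofNat 515820600, .negSucc 87872399, .ofNat 591030000, .ofNat 142804800, .ofNat 743889600, .ofNat 487087200, .negSucc 521038799, .ofNat 486273600, .ofNat 615470400, .ofNat 1079568000, .ofNat 555070500, .ofNat 194868000, .ofNat 1618711200, .ofNat 161186400, .ofNat 567597600, .negSucc 1132606799, .ofNat 107805600, .negSucc 99734399, .negSucc 344491199, .ofNat 4332783600, .negSucc 1675367999, .ofNat 677840400, .negSucc 1288418399, .ofNat 1533222000, .negSucc 1739771999, .ofNat 2340154800, .negSucc 220233599, .ofNat 22593600, .negSucc 164696399, .negSucc 1530428399, .ofNat 285228000, .negSucc 55871999, .ofNat 568087200, .negSucc 808235999, .ofNat 362919600, .negSucc 486521999, .negSucc 838799, .negSucc 294465599, .negSucc 324028799],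
  [.ofNat 1225062000, .negSucc 290488499, .ofNat 377942400, .ofNat 7941600, .ofNat 736801200, .negSucc 229892399, .ofNat 462301200, .negSucc 188884799, .ofNat 91846800, .negSucc 175492799, .negSucc 340264799, .negSucc 520304399, .ofNat 32594400, .negSucc 174751199, .ofNat 139723200, .negSucc 114044399, .ofNat 199785600, .negSucc 73364399, .negSucc 137894399, .ofNat 406173600, .ofNat 2156418900, .negSucc 18684899, .negSucc 38818799, .negSucc 76179599, .ofNat 296928000, .ofNat 322311600, .ofNat 75114000, .negSucc 208652399, .ofNat 107816400, .negSucc 604018799, .negSucc 406540799, .negSucc 1243303199, .negSucc 557279999, .negSucc 2010229199, .negSucc 381099599, .ofNat 116971200, .negSucc 220233599, .ofNat 795632400, .negSucc 54316799, .ofNat 745963200, .negSucc 296146799, .ofNat 870206400, .ofNat 285152400, .ofNat 563040000, .ofNat 321613200, .ofNat 43279200, .negSucc 27827999, .negSucc 412167599, .negSucc 47959199, .negSucc 698896799],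
  [.ofNat 742705200, .ofNat 314377200, .negSucc 15621299, .negSucc 357281999, .negSucc 54575999, .ofNat 912232800, .negSucc 384735599, .negSucc 172774799, .negSucc 354085199, .ofNat 602596800, .ofNat 191932200, .ofNat 825268500, .ofNat 43869600, .ofNat 667947600, .ofNat 61430400, .negSucc 42299999, .negSucc 187801199, .negSucc 92354399, .ofNat 74163600, .ofNat 721371600, .negSucc 502351199, .ofNat 496375200, .ofNat 674859600, .negSucc 1732942799, .negSucc 587372399, .ofNat 129416400, .ofNat 97779600, .ofNat 75092400, .negSucc 1132455599, .negSucc 698651999, .negSucc 1300665599, .ofNat 155138400, .negSucc 134773199, .ofNat 430848000, .ofNat 550825200, .negSucc 441446399, .ofNat 22593600, .negSucc 54316799, .ofNat 1394056800, .negSucc 241199, .ofNat 976546800, .negSucc 245156399, .negSucc 460151999, .negSucc 24933599, .negSucc 137365199, .ofNat 395377200, .negSucc 51497999, .ofNat 328705200, .negSucc 762231599, .ofNat 195714000],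
  [.ofNat 2394126000, .negSucc 982241999, .ofNat 786774600, .negSucc 102661199, .ofNat 957877200, .negSucc 920285999, .ofNat 721900800, .ofNat 164311200, .ofNat 785898000, .ofNat 180194400, .ofNat 270183600, .negSucc 554381549, .ofNat 24156000, .negSucc 404765549, .ofNat 89889300, .negSucc 107333999, .ofNat 762357600, .ofNat 171036000, .negSucc 194561999, .ofNat 792817200, .ofNat 2994995200, .ofNat 1433645500, .ofNat 194634000, .negSucc 221803199, .negSucc 930058199, .ofNat 468300600, .negSucc 698759999, .negSucc 603921599, .negSucc 344332799, .negSucc 1177163999, .negSucc 734295599, .negSucc 3297157199, .negSucc 1438459199, .negSucc 3100957199, .ofNat 181083600, .ofNat 97808400, .negSucc 164696399, .ofNat 745963200, .negSucc 241199, .ofNat 3083227200, .negSucc 1248526799, .ofNat 336096000, .ofNat 248040000, .ofNat 11696400, .ofNat 174020400, .negSucc 529585199, .ofNat 191037600, .ofNat 37872000, .negSucc 74429999, .negSucc 2789096399],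
  [.negSucc 4718401199, .ofNat 584161200, .ofNat 261399600, .ofNat 466570800, .ofNat 383961600, .negSucc 1096207199, .negSucc 1081490399, .negSucc 398966399, .ofNat 212511600, .negSucc 267303599, .ofNat 6926400, .negSucc 1013702399, .negSucc 60523199, .negSucc 1780423199, .negSucc 1278291599, .negSucc 476708399, .negSucc 1034434799, .ofNat 217886400, .negSucc 739360799, .negSucc 291855599, .negSucc 3885620399, .ofNat 476182800, .negSucc 624848399, .negSucc 63082799, .ofNat 586738800, .ofNat 391838400, .ofNat 667893600, .negSucc 174866399, .ofNat 591130800, .negSucc 404553599, .negSucc 4182116399, .ofNat 4959882000, .ofNat 347662800, .ofNat 5075539200, .negSucc 210560399, .ofNat 752785200, .negSucc 1530428399, .negSucc 296146799, .ofNat 976546800, .negSucc 1248526799, .ofNat 5476784400, .negSucc 597301199, .negSucc 68842799, .negSucc 720813599, .ofNat 231807600, .ofNat 168516000, .ofNat 805003200, .ofNat 446443200, .negSucc 324896399, .ofNat 2861031600],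
  [.ofNat 283276800, .negSucc 738028799, .negSucc 299717999, .ofNat 707068800, .ofNat 3393774000, .ofNat 3187558800, .negSucc 18032399, .negSucc 699238799, .negSucc 1684771199, .ofNat 338407200, .negSucc 2622460499, .negSucc 481597199, .ofNat 476737200, .negSucc 1013270399, .negSucc 372437999, .negSucc 332949599, .negSucc 521251199, .negSucc 345830399, .ofNat 525675600, .negSucc 365367599, .ofNat 2689012800, .negSucc 3862943999, .negSucc 1233964799, .ofNat 2368105200, .ofNat 2878650000, .ofNat 732283200, .ofNat 825444000, .negSucc 520347599, .ofNat 515646000, .negSucc 554738399, .ofNat 3537856800, .negSucc 9202582799, .ofNat 59086800, .negSucc 7485688799, .negSucc 109695599, .negSucc 975344399, .ofNat 285228000, .ofNat 870206400, .negSucc 245156399, .ofNat 336096000, .negSucc 597301199, .ofNat 9953805600, .ofNat 259448400, .ofNat 5711104800, .ofNat 293036400, .ofNat 1423040400, .negSucc 103341599, .negSucc 396201599, .negSucc 68367599, .negSucc 491619599],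
  [.negSucc 477597599, .negSucc 107902799, .ofNat 339994800, .ofNat 384526800, .ofNat 419495400, .negSucc 682837199, .ofNat 111182400, .ofNat 46875600, .ofNat 421239600, .negSucc 301103999, .negSucc 315961199, .negSucc 332754299, .negSucc 93160799, .negSucc 476639999, .negSucc 286973999, .negSucc 64371599, .negSucc 159278399, .ofNat 111913200, .negSucc 38397599, .negSucc 14241599, .ofNat 775911600, .negSucc 616460399, .negSucc 462351599, .ofNat 1069120800, .ofNat 350668800, .ofNat 392882400, .negSucc 42375599, .negSucc 114051599, .ofNat 743835600, .negSucc 107535599, .ofNat 84729600, .negSucc 105134399, .negSucc 502102799, .negSucc 197272799, .ofNat 114840000, .ofNat 62874000, .negSucc 55871999, .ofNat 285152400, .negSucc 460151999, .ofNat 248040000, .negSucc 68842799, .ofNat 259448400, .ofNat 771260400, .negSucc 444635999, .ofNat 81086400, .negSucc 208753199, .ofNat 64227600, .negSucc 227559599, .ofNat 123112800, .ofNat 31766400],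
  [.ofNat 745311600, .ofNat 2358511200, .negSucc 833979599, .negSucc 435787199, .negSucc 2338297199, .ofNat 6230714400, .ofNat 141721200, .ofNat 1228096800, .negSucc 4115548799, .ofNat 626328000, .negSucc 4242409199, .negSucc 2622211199, .negSucc 1084827599, .ofNat 7516800, .negSucc 465314399, .negSucc 315928799, .ofNat 838497600, .negSucc 354823199, .ofNat 817830000, .ofNat 105188400, .ofNat 6122538000, .ofNat 1447567200, .ofNat 590230800, .negSucc 1148227199, .ofNat 2456384400, .negSucc 331495199, .ofNat 192052800, .negSucc 340163999, .negSucc 1128632399, .ofNat 270198000, .ofNat 3147246000, .negSucc 4934357999, .ofNat 1389160800, .negSucc 8480923199, .negSucc 458751599, .negSucc 1237557599, .ofNat 568087200, .ofNat 563040000, .negSucc 24933599, .ofNat 11696400, .negSucc 720813599, .ofNat 5711104800, .negSucc 444635999, .ofNat 10929790800, .ofNat 220694400, .ofNat 2052486000, .negSucc 340059599, .ofNat 7869600, .ofNat 467208000, .ofNat 414338400],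
  [.negSucc 195458399, .ofNat 566593200, .negSucc 279802799, .negSucc 159361199, .negSucc 919072799, .negSucc 146537999, .ofNat 770079600, .negSucc 372941999, .negSucc 782542799, .negSucc 489394799, .negSucc 465253199, .negSucc 372425399, .negSucc 560515499, .negSucc 1278212399, .ofNat 430722000, .negSucc 286999199, .negSucc 2170799, .negSucc 260013599, .negSucc 376585199, .negSucc 755571599, .negSucc 509201999, .negSucc 1214333999, .ofNat 636645600, .negSucc 14759999, .negSucc 715067999, .negSucc 1105761599, .ofNat 61502400, .ofNat 139737600, .ofNat 142891200, .ofNat 89892000, .negSucc 1356379199, .ofNat 269002800, .negSucc 487709999, .negSucc 127965599, .negSucc 2076703199, .ofNat 1124089200, .negSucc 808235999, .ofNat 321613200, .negSucc 137365199, .ofNat 174020400, .ofNat 231807600, .ofNat 293036400, .ofNat 81086400, .ofNat 220694400, .ofNat 1720029600, .ofNat 473716800, .ofNat 67053600, .negSucc 151081199, .ofNat 470401200, .negSucc 399513599],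
  [.negSucc 138214799, .ofNat 1535018400, .negSucc 386686799, .negSucc 288147599, .negSucc 1190008799, .ofNat 2870290800, .negSucc 154357199, .negSucc 278834399, .negSucc 2517469199, .ofNat 315169200, .negSucc 1084965299, .ofNat 476496000, .negSucc 732939299, .negSucc 60307199, .negSucc 560566799, .negSucc 93175199, .negSucc 203299199, .negSucc 409809599, .ofNat 60271200, .negSucc 75427199, .ofNat 428997600, .negSucc 1566849599, .ofNat 101412000, .ofNat 385120800, .ofNat 1118242800, .negSucc 355118399, .ofNat 43959600, .ofNat 32551200, .negSucc 87818399, .ofNat 24055200, .ofNat 762876000, .negSucc 194464799, .ofNat 1050523200, .negSucc 1710316799, .negSucc 482885999, .negSucc 1071500399, .ofNat 362919600, .ofNat 43279200, .ofNat 395377200, .negSucc 529585199, .ofNat 168516000, .ofNat 1423040400, .negSucc 208753199, .ofNat 2052486000, .ofNat 473716800, .ofNat 1770933600, .negSucc 220273199, .ofNat 44298000, .negSucc 62899199, .ofNat 180464400],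
  [.negSucc 2116868399, .negSucc 34959599, .ofNat 184874400, .ofNat 322398000, .ofNat 580363200, .negSucc 323971199, .negSucc 240901199, .ofNat 19699200, .ofNat 473342400, .negSucc 29120399, .ofNat 818113500, .ofNat 525884400, .ofNat 60361200, .negSucc 739540799, .negSucc 376556399, .negSucc 38357999, .ofNat 6109200, .ofNat 156218400, .negSucc 124264799, .ofNat 237502800, .negSucc 759401999, .negSucc 536119199, .negSucc 333525599, .ofNat 1585684800, .ofNat 555188400, .ofNat 91375200, .ofNat 74098800, .negSucc 137793599, .ofNat 486316800, .negSucc 194439599, .ofNat 11412000, .ofNat 114483600, .ofNat 121654800, .ofNat 872514000, .ofNat 330080400, .ofNat 413686800, .negSucc 486521999, .negSucc 27827999, .negSucc 51497999, .ofNat 191037600, .ofNat 805003200, .negSucc 103341599, .ofNat 64227600, .negSucc 340059599, .ofNat 67053600, .negSucc 220273199, .ofNat 644900400, .ofNat 67194000, .ofNat 72118800, .ofNat 269654400],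
  [.negSucc 29905199, .ofNat 588032100, .ofNat 33062400, .negSucc 75707999, .negSucc 841931999, .ofNat 239882400, .negSucc 343274399, .ofNat 293414400, .negSucc 169343999, .ofNat 372585600, .negSucc 354968099, .negSucc 345907799, .negSucc 409903199, .ofNat 217882800, .negSucc 260020799, .ofNat 111963600, .negSucc 156164399, .ofNat 153565200, .ofNat 156301200, .ofNat 34102800, .negSucc 477543599, .ofNat 862434000, .ofNat 396640800, .negSucc 896659199, .negSucc 340844399, .negSucc 402368399, .negSucc 92390399, .negSucc 73357199, .negSucc 521071199, .ofNat 171144000, .negSucc 603763199, .ofNat 589345200, .ofNat 89863200, .ofNat 775274400, .ofNat 67870800, .negSucc 75401999, .negSucc 838799, .negSucc 412167599, .ofNat 328705200, .ofNat 37872000, .ofNat 446443200, .negSucc 396201599, .negSucc 227559599, .ofNat 7869600, .negSucc 151081199, .ofNat 44298000, .ofNat 67194000, .ofNat 584445600, .negSucc 142469999, .ofNat 191271600],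
  [.negSucc 2269166399, .negSucc 92800799, .ofNat 25592400, .ofNat 152316000, .ofNat 72864000, .negSucc 382013999, .ofNat 503740800, .ofNat 189450000, .negSucc 46241999, .negSucc 504100799, .ofNat 838763100, .negSucc 521027999, .negSucc 203176799, .negSucc 1034578799, .negSucc 2120399, .negSucc 159235199, .ofNat 216471600, .negSucc 156211199, .ofNat 6066000, .negSucc 998895599, .negSucc 1448578799, .negSucc 825260399, .negSucc 161420399, .ofNat 1188302400, .ofNat 139298400, .negSucc 229748399, .negSucc 187801199, .ofNat 199890000, .ofNat 487112400, .ofNat 762408000, .ofNat 596192400, .ofNat 542030400, .ofNat 195357600, .ofNat 1378332000, .negSucc 295009199, .ofNat 567712800, .negSucc 294465599, .negSucc 47959199, .negSucc 762231599, .negSucc 74429999, .negSucc 324896399, .negSucc 68367599, .ofNat 123112800, .ofNat 467208000, .ofNat 470401200, .negSucc 62899199, .ofNat 72118800, .negSucc 142469999, .ofNat 1046599200, .ofNat 282484800],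
  [.negSucc 5543632799, .ofNat 935690400, .negSucc 453423599, .ofNat 533887200, .negSucc 472463999, .ofNat 121831200, .negSucc 1132192799, .ofNat 401184000, .ofNat 133495200, .negSucc 306377999, .ofNat 105346800, .negSucc 365354099, .negSucc 75535199, .negSucc 291779999, .negSucc 755576999, .negSucc 14284799, .negSucc 998812799, .ofNat 34120800, .ofNat 237650400, .negSucc 627141599, .negSucc 4063543199, .negSucc 55583999, .negSucc 582976799, .ofNat 788328000, .ofNat 1168797600, .ofNat 44409600, .ofNat 721281600, .ofNat 406170000, .ofNat 615459600, .ofNat 792903600, .ofNat 168127200, .ofNat 4169365200, .ofNat 1347638400, .ofNat 5390715600, .ofNat 828828000, .ofNat 260568000, .negSucc 324028799, .negSucc 698896799, .ofNat 195714000, .negSucc 2789096399, .ofNat 2861031600, .negSucc 491619599, .ofNat 31766400, .ofNat 414338400, .negSucc 399513599, .ofNat 180464400, .ofNat 269654400, .ofNat 191271600, .ofNat 282484800, .ofNat 4106552400]]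

/-- Rounded Cholesky factor (lower triangular rows). -/
def lB2 : List (List Int) :=
 [[.ofNat 9608629],
  [.ofNat 94807, .ofNat 4478665],
  [.ofNat 380681, .ofNat 15521, .ofNat 2917357],
  [.negSucc 646065, .negSucc 607889, .ofNat 285344, .ofNat 1622162],
  [.negSucc 1024270, .negSucc 4912425, .ofNat 2538225, .ofNat 1075171, .ofNat 2588078],
  [.negSucc 547642, .ofNat 2630751, .negSucc 2041640, .ofNat 49856, .ofNat 2753343, .ofNat 4528086],
  [.ofNat 229871, .negSucc 313943, .ofNat 322847, .negSucc 769941, .negSucc 417140, .ofNat 666289, .ofNat 2083443],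
  [.negSucc 592218, .ofNat 387700, .negSucc 775825, .ofNat 522066, .negSucc 1320869, .ofNat 1683330, .ofNat 125987, .ofNat 1639195],
  [.negSucc 234463, .negSucc 2647608, .ofNat 620452, .ofNat 586944, .negSucc 1437877, .negSucc 2222457, .negSucc 493873, .ofNat 1874149, .ofNat 1228512],
  [.ofNat 290106, .ofNat 639194, .ofNat 223622, .negSucc 524185, .ofNat 651413, .ofNat 725031, .negSucc 800382, .ofNat 420661, .ofNat 414856, .ofNat 861888],
  [.negSucc 2234387, .negSucc 3716919, .ofNat 2035350, .negSucc 1059269, .ofNat 366128, .ofNat 480688, .negSucc 822153, .negSucc 846604, .ofNat 1165214, .negSucc 1327382, .ofNat 3975511],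
  [.negSucc 1908212, .negSucc 1500790, .negSucc 724738, .negSucc 340337, .ofNat 2293573, .ofNat 1993166, .negSucc 242509, .negSucc 1497366, .ofNat 2947850, .ofNat 772859, .ofNat 2262615, .ofNat 2876942],
  [.negSucc 154641, .negSucc 2299311, .negSucc 359104, .negSucc 64065, .ofNat 496555, .negSucc 222442, .negSucc 430303, .ofNat 33541, .ofNat 299944, .negSucc 306758, .negSucc 245704, .ofNat 334098, .ofNat 975916],
  [.ofNat 3040240, .ofNat 130320, .negSucc 957312, .ofNat 753042, .ofNat 341251, .negSucc 8223, .negSucc 1944587, .ofNat 1460147, .ofNat 306804, .negSucc 1113613, .ofNat 1194460, .ofNat 455685, .negSucc 190031, .ofNat 1623446],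
  [.ofNat 899230, .negSucc 734770, .negSucc 636969, .negSucc 1040723, .negSucc 213438, .negSucc 441707, .ofNat 1116673, .ofNat 25357, .ofNat 657642, .ofNat 258033, .ofNat 297604, .negSucc 46889, .ofNat 566331, .ofNat 337648, .ofNat 1294280],
  [.negSucc 131889, .ofNat 388064, .ofNat 81000, .negSucc 681700, .negSucc 192579, .ofNat 299356, .negSucc 107073, .ofNat 511566, .ofNat 228831, .ofNat 583274, .negSucc 196308, .ofNat 391022, .ofNat 33009, .ofNat 254971, .negSucc 41253, .ofNat 1203484],
  [.ofNat 232243, .negSucc 47332, .ofNat 235825, .negSucc 1239562, .negSucc 318808, .ofNat 435335, .ofNat 259964, .negSucc 58082, .ofNat 713853, .negSucc 333336, .negSucc 185557, .negSucc 606619, .negSucc 118110, .negSucc 174968, .ofNat 114342, .negSucc 132527, .ofNat 1076207],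
  [.ofNat 384617, .negSucc 162935, .ofNat 362581, .ofNat 968979, .negSucc 535793, .negSucc 141754, .negSucc 501922, .negSucc 124656, .ofNat 141104, .ofNat 177862, .ofNat 98430, .negSucc 39829, .ofNat 134188, .negSucc 143656, .ofNat 266143, .negSucc 245668, .ofNat 306077, .ofNat 477695],
  [.ofNat 168029, .ofNat 429352, .ofNat 3399, .ofNat 153690, .ofNat 301436, .ofNat 112322, .negSucc 346802, .ofNat 528237, .ofNat 376847, .ofNat 166280, .ofNat 129159, .negSucc 397595, .negSucc 68649, .ofNat 710862, .ofNat 417259, .negSucc 185878, .ofNat 229648, .negSucc 57333, .ofNat 873780],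
  [.ofNat 1595668, .ofNat 88244, .ofNat 354553, .negSucc 167432, .ofNat 713676, .negSucc 557981, .negSucc 2184166, .ofNat 959448, .ofNat 999231, .negSucc 1306895, .ofNat 205273, .negSucc 227344, .negSucc 736851, .negSucc 380579, .negSucc 371040, .ofNat 425496, .ofNat 268742, .negSucc 478035, .negSucc 578381, .ofNat 1771733],
  [.ofNat 6710687, .ofNat 2646807, .ofNat 758054, .ofNat 1438834, .ofNat 214306, .ofNat 346752, .negSucc 183033, .ofNat 1714675, .ofNat 965699, .negSucc 2223666, .negSucc 3257475, .negSucc 1829775, .negSucc 864746, .negSucc 894206, .negSucc 509708, .ofNat 329518, .ofNat 2394475, .negSucc 792423, .negSucc 39332, .ofNat 1769873, .ofNat 1711383],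
  [.ofNat 3052113, .ofNat 245954, .negSucc 2683689, .negSucc 907166, .negSucc 4080339, .negSucc 1936953, .negSucc 3234791, .ofNat 3765272, .negSucc 1505888, .negSucc 1893805, .negSucc 1454865, .negSucc 2254832, .negSucc 449580, .negSucc 159388, .negSucc 163261, .negSucc 755459, .ofNat 257213, .negSucc 132186, .negSucc 1769314, .ofNat 941336, .ofNat 290184, .ofNat 1875845],
  [.ofNat 1239797, .ofNat 1424317, .negSucc 251785, .negSucc 1214447, .negSucc 417123, .negSucc 312207, .ofNat 528392, .ofNat 345081, .ofNat 583260, .ofNat 469665, .ofNat 803135, .negSucc 613329, .negSucc 375168, .ofNat 36328, .ofNat 1323773, .negSucc 829012, .negSucc 221183, .ofNat 111098, .negSucc 140081, .ofNat 76125, .negSucc 155285, .ofNat 89412, .ofNat 389397],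
  [.negSucc 4837778, .negSucc 436627, .ofNat 15891, .ofNat 139453, .ofNat 1513796, .negSucc 1704909, .negSucc 414928, .negSucc 1950073, .ofNat 2640210, .negSucc 533097, .negSucc 1239661, .negSucc 1039447, .negSucc 785585, .negSucc 336604, .negSucc 1551489, .ofNat 1366857, .ofNat 2060090, .negSucc 1526462, .ofNat 1158629, .ofNat 904095, .ofNat 1062823, .ofNat 73053, .negSucc 501867, .ofNat 2014152],
  [.negSucc 907574, .ofNat 1424212, .ofNat 1896391, .ofNat 1553237, .ofNat 2410802, .ofNat 291311, .negSucc 804974, .ofNat 2314, .negSucc 575677, .negSucc 1050827, .negSucc 813589, .negSucc 32336, .ofNat 122874, .negSucc 8902, .negSucc 1122605, .ofNat 1281241, .ofNat 1486219, .ofNat 175008, .ofNat 550725, .negSucc 295722, .ofNat 299644, .negSucc 1077459, .negSucc 53745, .ofNat 74293, .ofNat 1121057],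
  [.negSucc 170061, .negSucc 1336687, .ofNat 863315, .negSucc 46171, .ofNat 925847, .negSucc 667136, .negSucc 1347163, .ofNat 9069, .ofNat 508940, .negSucc 1086217, .negSucc 1161446, .negSucc 214808, .negSucc 386031, .ofNat 41866, .negSucc 334138, .negSucc 890052, .ofNat 243599, .negSucc 514188, .ofNat 359407, .negSucc 137941, .ofNat 351224, .ofNat 249154, .negSucc 244002, .ofNat 134881, .negSucc 87075, .ofNat 961237],
  [.ofNat 399299, .negSucc 332294, .negSucc 292890, .ofNat 1607626, .ofNat 590615, .negSucc 316996, .ofNat 8501, .ofNat 333311, .negSucc 599427, .negSucc 578463, .ofNat 505550, .ofNat 153514, .ofNat 634431, .negSucc 214430, .ofNat 310852, .ofNat 12512, .negSucc 371609, .ofNat 139482, .negSucc 248381, .negSucc 22273, .ofNat 29637, .negSucc 95468, .ofNat 291072, .negSucc 90722, .ofNat 98480, .negSucc 344740, .ofNat 470164],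
  [.negSucc 538485, .ofNat 95386, .negSucc 195363, .negSucc 587396, .ofNat 39908, .ofNat 440132, .ofNat 663143, .ofNat 351282, .ofNat 87409, .negSucc 156258, .ofNat 387738, .ofNat 362526, .ofNat 468382, .ofNat 426908, .ofNat 49821, .ofNat 270657, .negSucc 689217, .negSucc 231819, .ofNat 145, .negSucc 291019, .negSucc 188629, .negSucc 271124, .ofNat 188645, .negSucc 42517, .ofNat 27878, .negSucc 28321, .ofNat 145240, .ofNat 473899],
  [.negSucc 1513637, .negSucc 520697, .ofNat 122143, .ofNat 967847, .negSucc 164531, .negSucc 865737, .ofNat 160904, .negSucc 1032483, .negSucc 39991, .negSucc 579553, .negSucc 805060, .ofNat 313225, .negSucc 321363, .negSucc 133938, .negSucc 896634, .ofNat 1055638, .ofNat 531005, .negSucc 392588, .negSucc 88516, .ofNat 167574, .ofNat 304484, .negSucc 307343, .negSucc 200925, .ofNat 365758, .ofNat 10753, .ofNat 212497, .negSucc 66841, .ofNat 28118, .ofNat 419819],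
  [.negSucc 915463, .ofNat 738194, .ofNat 346169, .ofNat 306074, .negSucc 884404, .ofNat 1017473, .ofNat 1188465, .negSucc 321558, .negSucc 405833, .ofNat 637966, .ofNat 559892, .ofNat 116994, .ofNat 1161883, .ofNat 676861, .ofNat 474410, .ofNat 165897, .ofNat 82685, .ofNat 327128, .ofNat 867620, .negSucc 1688004, .ofNat 68986, .negSucc 337398, .ofNat 330580, .ofNat 307993, .ofNat 47302, .negSucc 246352, .ofNat 457584, .ofNat 136756, .ofNat 72492, .ofNat 620435],
  [.negSucc 1820217, .ofNat 883476, .negSucc 1605643, .negSucc 1254149, .ofNat 2250614, .negSucc 337539, .negSucc 1102467, .negSucc 79813, .ofNat 2707637, .ofNat 107509, .negSucc 2059739, .negSucc 804423, .negSucc 8810, .ofNat 2391148, .negSucc 443330, .ofNat 1769320, .ofNat 3007425, .negSucc 1445210, .ofNat 2958986, .ofNat 90874, .ofNat 168710, .ofNat 5283, .negSucc 1066691, .ofNat 840361, .ofNat 826540, .negSucc 73186, .negSucc 248982, .negSucc 349497, .ofNat 585838, .negSucc 205021, .ofNat 1699067],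
  [.negSucc 463593, .ofNat 3004988, .ofNat 2715134, .negSucc 293406, .negSucc 3047361, .negSucc 3730733, .negSucc 2260579, .negSucc 2016468, .negSucc 1861144, .negSucc 2790859, .ofNat 2020144, .ofNat 1250378, .ofNat 956568, .ofNat 7068, .ofNat 162053, .negSucc 763718, .negSucc 1380340, .ofNat 1314101, .negSucc 123242, .negSucc 2015612, .negSucc 281708, .negSucc 1756693, .ofNat 58861, .negSucc 693572, .ofNat 68623, .negSucc 200591, .ofNat 249560, .ofNat 223849, .negSucc 284382, .ofNat 53574, .negSucc 131878, .ofNat 2215568],
  [.negSucc 1257687, .ofNat 1264914, .negSucc 1080700, .ofNat 33883, .ofNat 762382, .ofNat 652417, .negSucc 958953, .ofNat 226729, .negSucc 528802, .negSucc 816395, .ofNat 280146, .ofNat 118176, .ofNat 161238, .ofNat 399047, .negSucc 1044114, .ofNat 1040021, .ofNat 468988, .ofNat 149262, .negSucc 127368, .negSucc 724136, .negSucc 14831, .negSucc 139492, .negSucc 213305, .ofNat 16076, .ofNat 203688, .negSucc 406844, .ofNat 239111, .negSucc 90693, .negSucc 98982, .ofNat 66408, .ofNat 145644, .ofNat 52275, .ofNat 593308],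
  [.negSucc 6444652, .negSucc 723894, .ofNat 949238, .negSucc 1280743, .negSucc 2788305, .negSucc 1721166, .negSucc 213533, .ofNat 1170502, .negSucc 739199, .ofNat 885180, .ofNat 2365285, .ofNat 1930792, .ofNat 669740, .ofNat 1286563, .ofNat 103109, .ofNat 27558, .negSucc 3313968, .ofNat 1007116, .negSucc 770547, .negSucc 2044687, .negSucc 969057, .negSucc 204610, .ofNat 314423, .negSucc 811977, .negSucc 118640, .ofNat 200644, .ofNat 70934, .ofNat 412784, .negSucc 197920, .ofNat 82882, .negSucc 234476, .ofNat 1443830, .ofNat 350736, .ofNat 1197030],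
  [.negSucc 2088125, .negSucc 1270848, .negSucc 530563, .negSucc 265570, .ofNat 640663, .ofNat 1330030, .negSucc 2063301, .ofNat 1867044, .ofNat 1858581, .negSucc 476045, .negSucc 581997, .negSucc 66777, .negSucc 685092, .ofNat 711567, .negSucc 309163, .negSucc 283397, .negSucc 492845, .negSucc 811214, .ofNat 213638, .negSucc 210693, .ofNat 137671, .ofNat 1114663, .negSucc 80044, .ofNat 199722, .negSucc 975782, .ofNat 705889, .ofNat 12145, .negSucc 29618, .negSucc 8601, .negSucc 58411, .ofNat 157153, .ofNat 89863, .ofNat 406813, .ofNat 5420, .ofNat 440127],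
  [.negSucc 135434, .negSucc 563049, .ofNat 33143, .ofNat 790264, .negSucc 1112421, .negSucc 1499983, .ofNat 1317967, .ofNat 243837, .negSucc 203791, .negSucc 62373, .ofNat 846480, .negSucc 314635, .ofNat 302657, .negSucc 542507, .ofNat 523056, .negSucc 319109, .ofNat 199801, .ofNat 495968, .negSucc 488308, .ofNat 408564, .negSucc 393610, .negSucc 413504, .ofNat 326770, .negSucc 427236, .ofNat 211808, .negSucc 699628, .negSucc 161027, .ofNat 179054, .negSucc 53446, .negSucc 84504, .ofNat 113259, .ofNat 24943, .ofNat 47698, .negSucc 145493, .ofNat 125306, .ofNat 615860],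
  [.ofNat 199022, .ofNat 548176, .negSucc 648265, .negSucc 1491217, .ofNat 398201, .ofNat 299046, .negSucc 916154, .ofNat 56075, .ofNat 798083, .ofNat 336965, .negSucc 975544, .ofNat 98924, .negSucc 341346, .ofNat 884261, .negSucc 262315, .ofNat 766480, .ofNat 171915, .negSucc 696581, .ofNat 895452, .negSucc 209430, .ofNat 206196, .ofNat 117753, .negSucc 406240, .ofNat 263402, .negSucc 42517, .ofNat 479912, .negSucc 330030, .negSucc 74317, .ofNat 69439, .ofNat 127782, .ofNat 176310, .ofNat 19953, .ofNat 76344, .ofNat 13801, .ofNat 4378, .ofNat 9798, .ofNat 409415],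
  [.ofNat 522224, .negSucc 276722, .ofNat 463963, .ofNat 42729, .ofNat 374745, .negSucc 3166, .ofNat 829496, .ofNat 229593, .negSucc 29124, .negSucc 507250, .negSucc 516464, .ofNat 48330, .negSucc 389504, .negSucc 456209, .ofNat 51384, .ofNat 48784, .ofNat 191404, .negSucc 77930, .negSucc 80224, .ofNat 511077, .ofNat 274750, .ofNat 219350, .negSucc 101115, .negSucc 85279, .ofNat 47005, .ofNat 65493, .negSucc 64075, .negSucc 440887, .negSucc 4684, .negSucc 93453, .negSucc 148561, .ofNat 11289, .negSucc 73225, .ofNat 17036, .ofNat 3432, .negSucc 84471, .negSucc 17817, .ofNat 446016],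
  [.ofNat 316603, .ofNat 280814, .negSucc 64738, .negSucc 659430, .ofNat 909380, .ofNat 125440, .negSucc 840702, .ofNat 464200, .ofNat 77968, .ofNat 327043, .ofNat 408100, .ofNat 307277, .ofNat 84435, .negSucc 444548, .ofNat 372279, .negSucc 828755, .negSucc 980769, .ofNat 364847, .negSucc 399558, .ofNat 227435, .negSucc 125417, .ofNat 294818, .ofNat 25983, .negSucc 286397, .negSucc 20700, .negSucc 1595, .negSucc 38050, .ofNat 10532, .negSucc 157055, .negSucc 160554, .negSucc 171297, .ofNat 36867, .negSucc 119277, .ofNat 106791, .negSucc 60271, .negSucc 224839, .negSucc 75950, .ofNat 360536, .ofNat 335447],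
  [.ofNat 1020576, .negSucc 919921, .ofNat 976361, .negSucc 369228, .negSucc 630379, .ofNat 653023, .ofNat 545223, .ofNat 356108, .ofNat 635276, .ofNat 671020, .negSucc 400823, .negSucc 624495, .negSucc 742954, .negSucc 919552, .negSucc 943752, .negSucc 723496, .ofNat 583685, .negSucc 203599, .negSucc 267355, .ofNat 1009985, .ofNat 238659, .ofNat 943173, .negSucc 469767, .ofNat 70727, .ofNat 106883, .negSucc 97985, .negSucc 451995, .negSucc 201663, .negSucc 30453, .negSucc 661174, .ofNat 363393, .negSucc 232630, .negSucc 68719, .negSucc 22717, .ofNat 31471, .negSucc 97130, .negSucc 468226, .negSucc 67946, .ofNat 104804, .ofNat 617198],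
  [.negSucc 2011376, .ofNat 576827, .ofNat 626400, .ofNat 482997, .ofNat 91530, .negSucc 1348533, .negSucc 1286328, .negSucc 159938, .negSucc 1584898, .negSucc 178247, .negSucc 516469, .ofNat 486163, .ofNat 267497, .negSucc 1597215, .ofNat 320832, .negSucc 1006240, .negSucc 1391121, .ofNat 859586, .negSucc 1331799, .ofNat 37373, .negSucc 639466, .negSucc 366084, .ofNat 437803, .negSucc 488646, .negSucc 381785, .ofNat 19671, .ofNat 306252, .negSucc 224826, .negSucc 387407, .ofNat 80104, .negSucc 877227, .negSucc 235195, .ofNat 47490, .negSucc 287623, .negSucc 191307, .ofNat 85763, .ofNat 63786, .ofNat 68779, .negSucc 94334, .ofNat 143365, .ofNat 505433],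
  [.ofNat 120756, .negSucc 677526, .negSucc 432959, .ofNat 1655723, .ofNat 3869686, .ofNat 725187, .ofNat 1070960, .ofNat 15560, .negSucc 1378846, .ofNat 1305262, .negSucc 1984020, .negSucc 1738712, .negSucc 29042, .negSucc 192182, .ofNat 328872, .ofNat 516692, .ofNat 548328, .negSucc 772035, .ofNat 1232384, .ofNat 1054369, .negSucc 187388, .negSucc 51336, .negSucc 220177, .ofNat 400385, .negSucc 30701, .ofNat 59031, .ofNat 173607, .negSucc 310744, .ofNat 144441, .ofNat 118900, .ofNat 37951, .negSucc 2295193, .ofNat 183470, .negSucc 183594, .negSucc 438170, .negSucc 53457, .ofNat 44782, .ofNat 97001, .ofNat 119268, .negSucc 21902, .ofNat 188885, .ofNat 436383],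
  [.negSucc 203591, .negSucc 94373, .ofNat 504425, .ofNat 765759, .negSucc 408622, .negSucc 119998, .ofNat 388210, .negSucc 175121, .ofNat 269479, .negSucc 231538, .negSucc 643574, .ofNat 202344, .negSucc 438888, .negSucc 8095, .negSucc 137463, .ofNat 161577, .negSucc 233048, .negSucc 390617, .ofNat 408001, .ofNat 415819, .ofNat 191502, .negSucc 77384, .negSucc 11488, .ofNat 49266, .negSucc 153256, .ofNat 419448, .negSucc 162370, .ofNat 150397, .ofNat 150754, .ofNat 35562, .negSucc 106755, .ofNat 33634, .negSucc 353721, .ofNat 24015, .ofNat 48762, .negSucc 815, .ofNat 73295, .ofNat 56307, .negSucc 4999, .negSucc 46463, .negSucc 58833, .ofNat 30168, .ofNat 216145],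
  [.ofNat 317714, .ofNat 2150270, .negSucc 1223813, .ofNat 47230, .ofNat 1687096, .ofNat 2847136, .ofNat 201940, .ofNat 500844, .negSucc 1989049, .negSucc 1148512, .negSucc 1694571, .negSucc 2064075, .ofNat 508838, .negSucc 567197, .ofNat 1508753, .negSucc 770844, .ofNat 2082598, .negSucc 344350, .ofNat 976548, .ofNat 1001068, .negSucc 13668, .ofNat 40524, .negSucc 136506, .negSucc 877214, .ofNat 396759, .negSucc 163778, .ofNat 98200, .negSucc 249728, .ofNat 313240, .ofNat 123412, .ofNat 667189, .negSucc 1401053, .negSucc 80783, .negSucc 1041534, .negSucc 103678, .negSucc 39399, .ofNat 238128, .negSucc 99122, .ofNat 33031, .ofNat 122658, .negSucc 240420, .ofNat 226094, .ofNat 108748, .ofNat 367621],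
  [.negSucc 83320, .ofNat 519946, .negSucc 384739, .negSucc 173053, .negSucc 51407, .negSucc 585020, .ofNat 1773964, .negSucc 788959, .negSucc 429211, .ofNat 81254, .ofNat 538061, .negSucc 251664, .negSucc 212453, .negSucc 628206, .negSucc 9637, .negSucc 244863, .negSucc 225899, .negSucc 55591, .negSucc 220634, .ofNat 801731, .negSucc 107393, .negSucc 209692, .ofNat 100473, .negSucc 155798, .ofNat 85781, .negSucc 530487, .negSucc 182753, .negSucc 288, .ofNat 138272, .negSucc 42883, .negSucc 6376, .ofNat 28950, .negSucc 227760, .ofNat 51750, .negSucc 150438, .ofNat 31824, .ofNat 41913, .ofNat 143503, .ofNat 39499, .negSucc 1204, .ofNat 19190, .negSucc 12583, .ofNat 189374, .ofNat 31655, .ofNat 305663],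
  [.negSucc 58918, .ofNat 1405111, .negSucc 542699, .negSucc 129030, .ofNat 1346212, .ofNat 711073, .negSucc 6687, .negSucc 911052, .negSucc 791662, .negSucc 258226, .ofNat 146679, .negSucc 55086, .negSucc 259779, .negSucc 33141, .negSucc 277609, .negSucc 65869, .negSucc 238470, .negSucc 205605, .ofNat 138645, .ofNat 172325, .ofNat 209301, .ofNat 196885, .negSucc 167990, .ofNat 192923, .negSucc 13119, .negSucc 135580, .ofNat 42758, .negSucc 286669, .ofNat 47188, .negSucc 95762, .negSucc 86444, .ofNat 1207, .negSucc 66641, .ofNat 135642, .negSucc 128536, .negSucc 596481, .negSucc 46120, .ofNat 112004, .ofNat 133300, .ofNat 22412, .ofNat 53043, .ofNat 13575, .ofNat 27146, .negSucc 8854, .ofNat 201202, .ofNat 197863],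
  [.negSucc 902385, .negSucc 12869, .ofNat 377385, .ofNat 383459, .ofNat 7528, .negSucc 233359, .negSucc 216617, .ofNat 45094, .ofNat 435191, .ofNat 68166, .ofNat 120197, .negSucc 113973, .ofNat 46935, .negSucc 519501, .negSucc 121858, .ofNat 32775, .ofNat 354377, .ofNat 220825, .negSucc 414858, .ofNat 476378, .negSucc 6929, .ofNat 17776, .ofNat 232069, .negSucc 10577, .ofNat 91942, .negSucc 267649, .ofNat 118826, .ofNat 21996, .negSucc 54717, .negSucc 71743, .negSucc 43237, .negSucc 72905, .ofNat 12624, .negSucc 81460, .ofNat 31084, .ofNat 85034, .negSucc 225499, .negSucc 122632, .negSucc 121148, .ofNat 100633, .ofNat 135600, .negSucc 85942, .negSucc 25829, .ofNat 15916, .negSucc 11217, .negSucc 13391, .ofNat 185511],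
  [.negSucc 12747, .ofNat 538059, .ofNat 45221, .negSucc 2563, .negSucc 359516, .ofNat 141871, .negSucc 717691, .ofNat 243303, .negSucc 252890, .ofNat 851501, .ofNat 384111, .negSucc 226411, .negSucc 28200, .negSucc 34417, .negSucc 1273, .negSucc 278778, .negSucc 230992, .ofNat 92217, .negSucc 34046, .ofNat 20750, .negSucc 144390, .ofNat 113605, .ofNat 85126, .negSucc 2012, .negSucc 65026, .negSucc 168609, .ofNat 69800, .ofNat 53389, .negSucc 34146, .ofNat 22045, .ofNat 61820, .negSucc 51636, .ofNat 8110, .negSucc 9373, .negSucc 7568, .ofNat 43675, .negSucc 25323, .negSucc 311674, .ofNat 11856, .ofNat 37391, .ofNat 16602, .negSucc 1976, .ofNat 21271, .negSucc 20220, .ofNat 51695, .ofNat 20308, .ofNat 52814, .ofNat 172556],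
  [.negSucc 967307, .negSucc 64394, .ofNat 162497, .negSucc 53367, .negSucc 526933, .negSucc 30875, .ofNat 946835, .negSucc 232612, .negSucc 471232, .negSucc 453089, .ofNat 348271, .negSucc 651487, .negSucc 101780, .ofNat 473879, .negSucc 96933, .negSucc 85133, .ofNat 478594, .negSucc 207196, .ofNat 393831, .negSucc 109456, .negSucc 11019, .negSucc 119110, .negSucc 80979, .negSucc 14109, .ofNat 71705, .negSucc 106490, .negSucc 114251, .negSucc 43423, .negSucc 121690, .negSucc 35896, .ofNat 359935, .ofNat 19475, .ofNat 77424, .negSucc 25507, .ofNat 69261, .ofNat 166241, .ofNat 14292, .negSucc 262742, .negSucc 196096, .ofNat 17294, .negSucc 126823, .ofNat 33694, .ofNat 43642, .negSucc 470, .ofNat 33276, .negSucc 17638, .ofNat 10968, .ofNat 32793, .ofNat 194269],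
  [.negSucc 2363158, .ofNat 905768, .negSucc 333065, .ofNat 804907, .ofNat 28505, .negSucc 878210, .negSucc 1193017, .ofNat 536991, .negSucc 1124404, .negSucc 867922, .ofNat 23157, .ofNat 527915, .ofNat 511542, .ofNat 636230, .ofNat 1340328, .ofNat 131106, .negSucc 758844, .ofNat 331350, .ofNat 306536, .negSucc 311343, .negSucc 256161, .negSucc 630194, .ofNat 202099, .negSucc 441038, .negSucc 30370, .ofNat 157658, .ofNat 244733, .ofNat 12798, .negSucc 76871, .ofNat 166058, .negSucc 246944, .ofNat 45727, .negSucc 65012, .negSucc 114991, .negSucc 132444, .ofNat 39268, .ofNat 409302, .ofNat 151549, .negSucc 7961, .negSucc 508149, .ofNat 97340, .ofNat 166408, .ofNat 15365, .negSucc 117, .negSucc 46474, .ofNat 23685, .negSucc 86132, .negSucc 29046, .negSucc 151208, .ofNat 250260]]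

theorem okB2 : psdOK 50 4096 gB2 lB2 = true := by decide +kernel

end Pool.Agent.H2AF
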