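import Pool.Agent.Lib.H2AF.PSD

/-! # Certificate B of MP_afe93a, block 3 (P1_B1, sq, size 27): the Gram matrix is positive semidefinite -/

namespace Pool.Agent.H2AF

/-- Gram matrix (integers), block P1_B1, certificate B. -/
def gB3 : List (List Int) :=
 [[.ofNat 344546550, .negSucc 14716799, .negSucc 316257749, .ofNat 276652800, .ofNat 87850800, .ofNat 180688500, .ofNat 82510200, .negSucc 133611299, .ofNat 51091200, .negSucc 139136399, .ofNat 221954400, .ofNat 446688000, .negSucc 168456149, .ofNat 180007650, .negSucc 11545199, .negSucc 395981999, .negSucc 180107999, .ofNat 117388800, .negSucc 18827099, .ofNat 189545400, .negSucc 170740799, .negSucc 207615599, .negSucc 135187199, .negSucc 287139599, .ofNat 31551300, .negSucc 133963199, .ofNat 102412800],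
  [.negSucc 14716799, .ofNat 53741592, .negSucc 14720399, .negSucc 73429199, .ofNat 135666000, .ofNat 105451200, .ofNat 3293100, .ofNat 15562800, .negSucc 18845999, .ofNat 147384000, .negSucc 109465199, .negSucc 117579599, .ofNat 12292200, .negSucc 28391399, .ofNat 16128000, .negSucc 117579599, .negSucc 109465199, .ofNat 147384000, .negSucc 16127999, .ofNat 28414800, .negSucc 12286799, .ofNat 105451200, .ofNat 135666000, .negSucc 73429199, .ofNat 18846000, .negSucc 15562799, .negSucc 3283199],
  [.negSucc 316257749, .negSucc 14720399, .ofNat 344523600, .negSucc 287139599, .negSucc 135187199, .negSucc 207615599, .negSucc 102412799, .ofNat 133963200, .negSucc 31553999, .ofNat 117388800, .negSucc 180107999, .negSucc 395981999, .ofNat 170740800, .negSucc 189539999, .ofNat 18802800, .ofNat 446688000, .ofNat 221954400, .negSucc 139136399, .ofNat 11545200, .negSucc 179999999, .ofNat 168454800, .ofNat 180691200, .ofNat 87850800, .ofNat 276652800, .negSucc 51091199, .ofNat 133606800, .negSucc 82519199],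
  [.ofNat 276652800, .negSucc 73429199, .negSucc 287139599, .ofNat 2283430800, .negSucc 500316299, .negSucc 207319499, .ofNat 84222900, .negSucc 80474399, .negSucc 3743999, .negSucc 2020406399, .ofNat 1423167300, .ofNat 489866400, .negSucc 56603699, .ofNat 107589600, .negSucc 50990399, .ofNat 228740400, .negSucc 803674799, .ofNat 398192400, .ofNat 60532200, .negSucc 138761099, .ofNat 78238800, .negSucc 632825999, .negSucc 263271599, .negSucc 859991399, .negSucc 71932499, .negSucc 12927599, .ofNat 84859200],
  [.ofNat 87850800, .ofNat 135666000, .negSucc 135187199, .negSucc 500316299, .ofNat 1379312100, .ofNat 1164433500, .negSucc 154099799, .ofNat 77866200, .ofNat 76226400, .ofNat 1394769600, .negSucc 1137229199, .negSucc 935679599, .ofNat 149308200, .negSucc 167855399, .ofNat 18547200, .negSucc 19220399, .ofNat 285827400, .negSucc 53150399, .negSucc 117617399, .ofNat 79088400, .ofNat 38556000, .negSucc 272894399, .negSucc 290973599, .negSucc 263271599, .ofNat 200905200, .negSucc 16901999, .negSucc 183995999],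
  [.ofNat 180688500, .ofNat 105451200, .negSucc 207615599, .negSucc 207319499, .ofNat 1164433500, .ofNat 1400191800, .negSucc 156477599, .ofNat 25084800, .ofNat 131403600, .ofNat 1209933900, .negSucc 732059999, .negSucc 1329843599, .ofNat 228003300, .negSucc 216186299, .negSucc 11818799, .ofNat 534744000, .ofNat 56044800, .ofNat 43462800, .negSucc 104061599, .ofNat 5821200, .ofNat 98229600, .negSucc 552347999, .negSucc 272894399, .negSucc 632825999, .ofNat 213782400, .negSucc 40111199, .negSucc 173671199],
  [.ofNat 82510200, .ofNat 3293100, .negSucc 102412799, .ofNat 84222900, .negSucc 154099799, .negSucc 156477599, .ofNat 237290400, .negSucc 105943499, .negSucc 72917999, .negSucc 68564699, .ofNat 93997800, .ofNat 193539600, .negSucc 183017699, .ofNat 77297400, .ofNat 55773900, .negSucc 263739599, .negSucc 136732499, .ofNat 89184600, .ofNat 106287750, .ofNat 36034650, .negSucc 121770449, .ofNat 173671200, .ofNat 183996000, .negSucc 84859199, .negSucc 34300799, .negSucc 102221099, .ofNat 124332300],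
  [.negSucc 133611299, .ofNat 15562800, .ofNat 133963200, .negSucc 80474399, .ofNat 77866200, .ofNat 25084800, .negSucc 105943499, .ofNat 189175500, .negSucc 24782399, .negSucc 133610399, .negSucc 222833699, .negSucc 125322299, .ofNat 81499500, .negSucc 108347399, .negSucc 23090399, .ofNat 53798400, .ofNat 123505200, .ofNat 230864400, .negSucc 79481249, .negSucc 16703549, .ofNat 116708400, .ofNat 40111200, .ofNat 16902000, .ofNat 12927600, .negSucc 12081599, .ofNat 102117600, .negSucc 102225599],
  [.ofNat 51091200, .negSucc 18845999, .negSucc 31553999, .negSucc 3743999, .ofNat 76226400, .ofNat 131403600, .negSucc 72917999, .negSucc 24782399, .ofNat 156135600, .ofNat 202168800, .ofNat 128822400, .negSucc 68241599, .ofNat 51577200, .negSucc 18892799, .negSucc 82630799, .ofNat 209937600, .ofNat 13237200, .negSucc 320050799, .negSucc 6267599, .ofNat 1206000, .ofNat 25603200, .negSucc 213782399, .negSucc 200897999, .ofNat 71935200, .ofNat 34192800, .negSucc 12081599, .negSucc 34300799],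
  [.negSucc 139136399, .ofNat 147384000, .ofNat 117388800, .negSucc 2020406399, .ofNat 1394769600, .ofNat 1209933900, .negSucc 68564699, .negSucc 133610399, .ofNat 202168800, .ofNat 3763614600, .negSucc 1106755199, .negSucc 2058512399, .ofNat 245974950, .negSucc 467467199, .ofNat 221490000, .ofNat 837723600, .ofNat 52678800, .negSucc 1533959999, .ofNat 63567900, .negSucc 112864499, .ofNat 49312800, .ofNat 43462800, .negSucc 53150399, .ofNat 398192400, .ofNat 320050800, .negSucc 230864399, .negSucc 89186399],
  [.ofNat 221954400, .negSucc 109465199, .negSucc 180107999, .ofNat 1423167300, .negSucc 1137229199, .negSucc 732059999, .ofNat 93997800, .negSucc 222833699, .ofNat 128822400, .negSucc 1106755199, .ofNat 3360267000, .ofNat 952524000, .negSucc 82763099, .ofNat 82857600, .negSucc 86399, .negSucc 180093599, .negSucc 2634260399, .ofNat 52678800, .ofNat 144059400, .negSucc 102333599, .negSucc 41727599, .ofNat 56044800, .ofNat 285814800, .negSucc 803674799, .negSucc 13237199, .negSucc 123505199, .ofNat 136742400],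
  [.ofNat 446688000, .negSucc 117579599, .negSucc 395981999, .ofNat 489866400, .negSucc 935679599, .negSucc 1329843599, .ofNat 193539600, .negSucc 125322299, .negSucc 68241599, .negSucc 2058512399, .ofNat 952524000, .ofNat 3405719700, .negSucc 645291899, .ofNat 804344400, .negSucc 159055199, .negSucc 2517638399, .negSucc 180093599, .ofNat 837723600, .negSucc 49779899, .ofNat 619466400, .negSucc 569696399, .ofNat 534744000, .negSucc 19220399, .ofNat 228740400, .negSucc 209937599, .negSucc 53798399, .ofNat 263736000],
  [.negSucc 168456149, .ofNat 12292200, .ofNat 170740800, .negSucc 56603699, .ofNat 149308200, .ofNat 228003300, .negSucc 183017699, .ofNat 81499500, .ofNat 51577200, .ofNat 245974950, .negSucc 82763099, .negSucc 645291899, .ofNat 294651900, .negSucc 184193999, .negSucc 46814399, .ofNat 569696400, .ofNat 41727600, .negSucc 49312799, .negSucc 55655099, .negSucc 160651799, .ofNat 184069800, .negSucc 98229599, .negSucc 38555999, .negSucc 78238799, .ofNat 25603200, .ofNat 116708400, .negSucc 121773599],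
  [.ofNat 180007650, .negSucc 28391399, .negSucc 189539999, .ofNat 107589600, .negSucc 167855399, .negSucc 216186299, .ofNat 77297400, .negSucc 108347399, .negSucc 18892799, .negSucc 467467199, .ofNat 82857600, .ofNat 804344400, .negSucc 184193999, .ofNat 329637600, .negSucc 81799199, .negSucc 619466399, .ofNat 102333600, .ofNat 112878000, .negSucc 11123999, .ofNat 139539600, .negSucc 160646399, .negSucc 5821199, .negSucc 79070399, .ofNat 138765600, .ofNat 1206000, .negSucc 16700399, .ofNat 36036000],
  [.negSucc 11545199, .ofNat 16128000, .ofNat 18802800, .negSucc 50990399, .ofNat 18547200, .negSucc 11818799, .ofNat 55773900, .negSucc 23090399, .negSucc 82630799, .ofNat 221490000, .negSucc 86399, .negSucc 159055199, .negSucc 46814399, .negSucc 81799199, .ofNat 192266100, .ofNat 49770000, .negSucc 144057599, .negSucc 63565199, .ofNat 34542000, .negSucc 11123999, .negSucc 55652399, .ofNat 104050800, .ofNat 117626400, .negSucc 60530399, .negSucc 6267599, .negSucc 79469999, .ofNat 106275600],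
  [.negSucc 395981999, .negSucc 117579599, .ofNat 446688000, .ofNat 228740400, .negSucc 19220399, .ofNat 534744000, .negSucc 263739599, .ofNat 53798400, .ofNat 209937600, .ofNat 837723600, .negSucc 180093599, .negSucc 2517638399, .ofNat 569696400, .negSucc 619466399, .ofNat 49770000, .ofNat 3405715200, .ofNat 952524000, .negSucc 2058512399, .ofNat 159055200, .negSucc 804344399, .ofNat 645292800, .negSucc 1329843599, .negSucc 935675999, .ofNat 489852000, .ofNat 68241600, .ofNat 125316000, .negSucc 193553999],
  [.negSucc 180107999, .negSucc 109465199, .ofNat 221954400, .negSucc 803674799, .ofNat 285827400, .ofNat 56044800, .negSucc 136732499, .ofNat 123505200, .ofNat 13237200, .ofNat 52678800, .negSucc 2634260399, .negSucc 180093599, .ofNat 41727600, .ofNat 102333600, .negSucc 144057599, .ofNat 952524000, .ofNat 3360272400, .negSucc 1106755199, .ofNat 86400, .negSucc 82857599, .ofNat 82771200, .negSucc 732059999, .negSucc 1137229199, .ofNat 1423170000, .negSucc 128822399, .ofNat 222825600, .negSucc 94003199],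
  [.ofNat 117388800, .ofNat 147384000, .negSucc 139136399, .ofNat 398192400, .negSucc 53150399, .ofNat 43462800, .ofNat 89184600, .ofNat 230864400, .negSucc 320050799, .negSucc 1533959999, .ofNat 52678800, .ofNat 837723600, .negSucc 49312799, .ofNat 112878000, .negSucc 63565199, .negSucc 2058512399, .negSucc 1106755199, .ofNat 3763623600, .negSucc 221489999, .ofNat 467467200, .negSucc 245980799, .ofNat 1209934800, .ofNat 1394769600, .negSucc 2020406399, .negSucc 202168799, .ofNat 133610400, .ofNat 68558400],
  [.negSucc 18827099, .negSucc 16127999, .ofNat 11545200, .ofNat 60532200, .negSucc 117617399, .negSucc 104061599, .ofNat 106287750, .negSucc 79481249, .negSucc 6267599, .ofNat 63567900, .ofNat 144059400, .negSucc 49779899, .negSucc 55655099, .negSucc 11123999, .ofNat 34542000, .ofNat 159055200, .ofNat 86400, .negSucc 221489999, .ofNat 192261600, .negSucc 81799199, .negSucc 46814399, .ofNat 11818800, .negSucc 18547199, .ofNat 50990400, .negSucc 82630799, .negSucc 23090399, .ofNat 55774800],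
  [.ofNat 189545400, .ofNat 28414800, .negSucc 179999999, .negSucc 138761099, .ofNat 79088400, .ofNat 5821200, .ofNat 36034650, .negSucc 16703549, .ofNat 1206000, .negSucc 112864499, .negSucc 102333599, .ofNat 619466400, .negSucc 160651799, .ofNat 139539600, .negSucc 11123999, .negSucc 804344399, .negSucc 82857599, .ofNat 467467200, .negSucc 81799199, .ofNat 329641200, .negSucc 184193999, .ofNat 216172800, .ofNat 167850000, .negSucc 107589599, .negSucc 18892799, .negSucc 108352799, .ofNat 77299200],
  [.negSucc 170740799, .negSucc 12286799, .ofNat 168454800, .ofNat 78238800, .ofNat 38556000, .ofNat 98229600, .negSucc 121770449, .ofNat 116708400, .ofNat 25603200, .ofNat 49312800, .negSucc 41727599, .negSucc 569696399, .ofNat 184069800, .negSucc 160646399, .negSucc 55652399, .ofNat 645292800, .ofNat 82771200, .negSucc 245980799, .negSucc 46814399, .negSucc 184193999, .ofNat 294656400, .negSucc 227991599, .negSucc 149302799, .ofNat 56602800, .ofNat 51577200, .ofNat 81496800, .negSucc 183020399],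
  [.negSucc 207615599, .ofNat 105451200, .ofNat 180691200, .negSucc 632825999, .negSucc 272894399, .negSucc 552347999, .ofNat 173671200, .ofNat 40111200, .negSucc 213782399, .ofNat 43462800, .ofNat 56044800, .ofNat 534744000, .negSucc 98229599, .negSucc 5821199, .ofNat 104050800, .negSucc 1329843599, .negSucc 732059999, .ofNat 1209934800, .ofNat 11818800, .ofNat 216172800, .negSucc 227991599, .ofNat 1400191200, .ofNat 1164434400, .negSucc 207313199, .negSucc 131403599, .negSucc 25081199, .ofNat 156481200],
  [.negSucc 135187199, .ofNat 135666000, .ofNat 87850800, .negSucc 263271599, .negSucc 290973599, .negSucc 272894399, .ofNat 183996000, .ofNat 16902000, .negSucc 200897999, .negSucc 53150399, .ofNat 285814800, .negSucc 19220399, .negSucc 38555999, .negSucc 79070399, .ofNat 117626400, .negSucc 935675999, .negSucc 1137229199, .ofNat 1394769600, .negSucc 18547199, .ofNat 167850000, .negSucc 149302799, .ofNat 1164434400, .ofNat 1379314800, .negSucc 500313599, .negSucc 76226399, .negSucc 77864399, .ofNat 154094400],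
  [.negSucc 287139599, .negSucc 73429199, .ofNat 276652800, .negSucc 859991399, .negSucc 263271599, .negSucc 632825999, .negSucc 84859199, .ofNat 12927600, .ofNat 71935200, .ofNat 398192400, .negSucc 803674799, .ofNat 228740400, .negSucc 78238799, .ofNat 138765600, .negSucc 60530399, .ofNat 489852000, .ofNat 1423170000, .negSucc 2020406399, .ofNat 50990400, .negSucc 107589599, .ofNat 56602800, .negSucc 207313199, .negSucc 500313599, .ofNat 2283433200, .ofNat 3744000, .ofNat 80467200, .negSucc 84211199],
  [.ofNat 31551300, .ofNat 18846000, .negSucc 51091199, .negSucc 71932499, .ofNat 200905200, .ofNat 213782400, .negSucc 34300799, .negSucc 12081599, .ofNat 34192800, .ofNat 320050800, .negSucc 13237199, .negSucc 209937599, .ofNat 25603200, .ofNat 1206000, .negSucc 6267599, .ofNat 68241600, .negSucc 128822399, .negSucc 202168799, .negSucc 82630799, .negSucc 18892799, .ofNat 51577200, .negSucc 131403599, .negSucc 76226399, .ofNat 3744000, .ofNat 156139200, .negSucc 24782399, .negSucc 72917999],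
  [.negSucc 133963199, .negSucc 15562799, .ofNat 133606800, .negSucc 12927599, .negSucc 16901999, .negSucc 40111199, .negSucc 102221099, .ofNat 102117600, .negSucc 12081599, .negSucc 230864399, .negSucc 123505199, .negSucc 53798399, .ofNat 116708400, .negSucc 16700399, .negSucc 79469999, .ofNat 125316000, .ofNat 222825600, .ofNat 133610400, .negSucc 23090399, .negSucc 108352799, .ofNat 81496800, .negSucc 25081199, .negSucc 77864399, .ofNat 80467200, .negSucc 24782399, .ofNat 189169200, .negSucc 105947999],
  [.ofNat 102412800, .negSucc 3283199, .negSucc 82519199, .ofNat 84859200, .negSucc 183995999, .negSucc 173671199, .ofNat 124332300, .negSucc 102225599, .negSucc 34300799, .negSucc 89186399, .ofNat 136742400, .ofNat 263736000, .negSucc 121773599, .ofNat 36036000, .ofNat 106275600, .negSucc 193553999, .negSucc 94003199, .ofNat 68558400, .ofNat 55774800, .ofNat 77299200, .negSucc 183020399, .ofNat 156481200, .ofNat 154094400, .negSucc 84211199, .negSucc 72917999, .negSucc 105947999, .ofNat 237304800]]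

/-- Rounded Cholesky factor (lower triangular rows). -/
def lB3 : List (List Int) :=
 [[.ofNat 1179606],
  [.negSucc 51101, .ofNat 444660],
  [.negSucc 1098155, .negSucc 261800, .ofNat 341894],
  [.ofNat 960634, .negSucc 565995, .negSucc 787893, .ofNat 2732983],
  [.ofNat 305048, .ofNat 1284747, .ofNat 344000, .negSucc 491820, .ofNat 1877769],
  [.ofNat 627413, .ofNat 1043470, .ofNat 326958, .negSucc 220888, .ofNat 1606386, .ofNat 1223417],
  [.ofNat 286504, .ofNat 63260, .negSucc 258253, .negSucc 35828, .negSucc 388037, .negSucc 152716, .ofNat 790057],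
  [.negSucc 463943, .ofNat 90039, .ofNat 183689, .ofNat 114068, .ofNat 179841, .negSucc 19516, .negSucc 238449, .ofNat 628796],
  [.ofNat 177406, .negSucc 153211, .ofNat 74478, .negSucc 78227, .ofNat 208146, .ofNat 172305, .negSucc 273769, .negSucc 174165, .ofNat 612233],
  [.negSucc 483129, .ofNat 1302108, .ofNat 851627, .negSucc 2343041, .ofNat 1460327, .ofNat 619946, .ofNat 724671, .negSucc 1360617, .ofNat 681461, .ofNat 1376319],
  [.ofNat 770702, .negSucc 919769, .negSucc 386574, .ofNat 1560114, .negSucc 1497117, .ofNat 289060, .negSucc 453563, .negSucc 656119, .ofNat 692892, .ofNat 1447490, .ofNat 2045495],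
  [.ofNat 1551055, .negSucc 904834, .negSucc 454904, .negSucc 129547, .negSucc 1624497, .negSucc 2244804, .negSucc 872991, .ofNat 677910, .negSucc 107108, .negSucc 747126, .ofNat 646043, .ofNat 771333],
  [.negSucc 584937, .ofNat 46007, .ofNat 201952, .ofNat 188519, .ofNat 401614, .ofNat 476825, .negSucc 376420, .negSucc 243285, .ofNat 17327, .negSucc 12652, .ofNat 37876, .negSucc 65958, .ofNat 413191],
  [.ofNat 625049, .negSucc 189694, .negSucc 408364, .negSucc 215467, .negSucc 319521, .negSucc 392769, .negSucc 186846, .negSucc 50713, .negSucc 211650, .negSucc 437473, .ofNat 77494, .ofNat 13887, .negSucc 67710, .ofNat 386958],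
  [.negSucc 40088, .ofNat 143956, .ofNat 206732, .ofNat 27082, .negSucc 82302, .negSucc 84085, .ofNat 304295, .negSucc 129585, .negSucc 376015, .ofNat 450137, .negSucc 115537, .ofNat 52135, .negSucc 223840, .negSucc 235306, .ofNat 336369],
  [.negSucc 1374985, .negSucc 1241104, .negSucc 15317, .ofNat 564676, .ofNat 1181298, .ofNat 2108986, .ofNat 239117, .negSucc 766029, .ofNat 460237, .ofNat 840976, .negSucc 1211345, .negSucc 511919, .negSucc 190428, .negSucc 84993, .ofNat 108261, .ofNat 994508],
  [.negSucc 625396, .negSucc 1080213, .negSucc 176835, .negSucc 1259355, .ofNat 1166694, .negSucc 282329, .ofNat 7939, .ofNat 438438, .negSucc 328862, .negSucc 1593940, .negSucc 2322404, .ofNat 332998, .negSucc 2191, .negSucc 115034, .ofNat 54421, .ofNat 797913, .ofNat 359671],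
  [.ofNat 407614, .ofNat 1404475, .ofNat 717808, .ofNat 951309, .negSucc 1025415, .ofNat 64907, .negSucc 11211, .ofNat 1512271, .negSucc 1118088, .negSucc 1462167, .ofNat 1129876, .ofNat 29156, .ofNat 852134, .negSucc 418715, .negSucc 121658, .negSucc 1157401, .negSucc 235435, .ofNat 1231868],
  [.negSucc 65373, .negSucc 156075, .negSucc 191178, .ofNat 26262, .negSucc 97252, .ofNat 1778, .ofNat 478523, .negSucc 283210, .ofNat 130541, .negSucc 17284, .ofNat 98605, .ofNat 85330, .negSucc 185183, .negSucc 163705, .negSucc 18392, .ofNat 201404, .ofNat 170997, .ofNat 123275, .ofNat 449900],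
  [.ofNat 658167, .ofNat 337382, .ofNat 215905, .negSucc 307193, .negSucc 285249, .negSucc 344422, .negSucc 228903, .ofNat 305241, .ofNat 14654, .negSucc 207776, .ofNat 3024, .ofNat 105334, .negSucc 8272, .negSucc 252275, .negSucc 43428, .negSucc 236253, .negSucc 2913, .negSucc 78205, .negSucc 48600, .ofNat 335366],
  [.negSucc 592870, .negSucc 181314, .negSucc 24984, .ofNat 280898, .ofNat 382619, .ofNat 342568, .negSucc 143082, .ofNat 152051, .ofNat 89424, .ofNat 224938, .negSucc 101460, .negSucc 190812, .ofNat 63569, .ofNat 254349, .negSucc 296831, .ofNat 35277, .negSucc 167448, .negSucc 44841, .negSucc 65173, .ofNat 165125, .ofNat 301548],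
  [.negSucc 720912, .ofNat 888516, .ofNat 529553, .negSucc 358360, .negSucc 1276938, .negSucc 766941, .ofNat 472101, .ofNat 32897, .negSucc 238773, .negSucc 299553, .ofNat 738656, .ofNat 225781, .ofNat 356269, .negSucc 265808, .negSucc 10509, .negSucc 671983, .negSucc 2540, .negSucc 66638, .ofNat 25202, .negSucc 20025, .ofNat 4751, .ofNat 395642],
  [.negSucc 469416, .ofNat 1195744, .ofNat 460350, .ofNat 150777, .negSucc 1421402, .ofNat 77759, .ofNat 502622, .ofNat 30245, .negSucc 250814, .negSucc 119817, .ofNat 498446, .negSucc 251992, .ofNat 214800, .negSucc 96717, .negSucc 36289, .negSucc 931437, .negSucc 64232, .negSucc 68365, .ofNat 60020, .ofNat 71753, .negSucc 186416, .ofNat 115595, .ofNat 292965],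
  [.negSucc 997047, .negSucc 790978, .negSucc 493785, .negSucc 1244598, .negSucc 106648, .negSucc 885457, .negSucc 456435, .negSucc 338217, .ofNat 458417, .negSucc 38892, .negSucc 1023760, .negSucc 345958, .negSucc 761071, .ofNat 516977, .ofNat 43118, .ofNat 494063, .ofNat 585469, .negSucc 1268753, .ofNat 96830, .ofNat 133252, .negSucc 330267, .negSucc 117425, .ofNat 329496, .ofNat 345611],
  [.ofNat 109557, .ofNat 186191, .negSucc 117620, .negSucc 141664, .ofNat 277492, .ofNat 142253, .negSucc 113551, .negSucc 82477, .ofNat 31198, .ofNat 250703, .ofNat 45142, .negSucc 58126, .negSucc 82642, .ofNat 311027, .ofNat 1631, .negSucc 114783, .negSucc 118411, .negSucc 100668, .negSucc 380303, .negSucc 63953, .ofNat 48522, .ofNat 12620, .negSucc 9499, .negSucc 71284, .ofNat 236002],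
  [.negSucc 465165, .negSucc 196814, .negSucc 44159, .ofNat 90638, .ofNat 205187, .ofNat 30878, .negSucc 249090, .ofNat 194438, .negSucc 112859, .negSucc 334887, .ofNat 190141, .negSucc 22102, .ofNat 126577, .ofNat 132489, .ofNat 6736, .ofNat 66155, .ofNat 116696, .ofNat 75309, .ofNat 49802, .negSucc 263031, .negSucc 101144, .negSucc 99198, .ofNat 44844, .ofNat 59700, .ofNat 38013, .ofNat 171126],
  [.ofNat 355613, .ofNat 10625, .ofNat 161749, .ofNat 51015, .negSucc 482661, .negSucc 173149, .ofNat 299440, .negSucc 215322, .negSucc 57555, .ofNat 84202, .negSucc 235286, .ofNat 80184, .ofNat 47084, .negSucc 330394, .ofNat 243163, .ofNat 48351, .ofNat 1068, .ofNat 25330, .ofNat 7619, .negSucc 153076, .negSucc 236670, .ofNat 86623, .negSucc 34883, .ofNat 11341, .negSucc 102214, .ofNat 28314, .ofNat 229385]]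

theorem okB3 : psdOK 27 4096 gB3 lB3 = true := by decide +kernel

end Pool.Agent.H2AF
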