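import Pool.Agent.Lib.H2AF.PSD

/-! # Certificate B of MP_afe93a, block 4 (P1_T2, sq, size 27): the Gram matrix is positive semidefinite -/

namespace Pool.Agent.H2AF

/-- Gram matrix (integers), block P1_T2, certificate B. -/
def gB4 : List (List Int) :=
 [[.ofNat 348809400, .negSucc 608657399, .ofNat 227098800, .ofNat 158734800, .negSucc 431629199, .negSucc 170352899, .negSucc 246070799, .ofNat 106755300, .ofNat 128292300, .negSucc 480927599, .ofNat 70477200, .ofNat 56084400, .ofNat 155646000, .negSucc 312299, .negSucc 147592799, .ofNat 224352000, .ofNat 512870400, .negSucc 300121199, .ofNat 116560800, .ofNat 6256800, .negSucc 77018399, .negSucc 179971199, .negSucc 181483199, .ofNat 249051600, .negSucc 14860799, .negSucc 100270799, .ofNat 104817600],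
  [.negSucc 608657399, .ofNat 1872293400, .negSucc 608669999, .negSucc 176587199, .ofNat 956739600, .ofNat 556005600, .ofNat 567273600, .negSucc 511459199, .negSucc 283006799, .ofNat 1066194000, .negSucc 936341999, .negSucc 348530399, .negSucc 15508799, .ofNat 73677600, .ofNat 521488800, .negSucc 348530399, .negSucc 936341999, .ofNat 1066194000, .negSucc 521488799, .negSucc 73677599, .ofNat 15508800, .ofNat 556005600, .ofNat 956739600, .negSucc 176587199, .ofNat 283006800, .ofNat 511459200, .negSucc 567273599],
  [.ofNat 227098800, .negSucc 608669999, .ofNat 348836400, .ofNat 249051600, .negSucc 181483199, .negSucc 179971199, .negSucc 104817599, .ofNat 100270800, .ofNat 14860800, .negSucc 300121199, .ofNat 512870400, .ofNat 224352000, .ofNat 77018400, .negSucc 6256799, .negSucc 116560799, .ofNat 56084400, .ofNat 70477200, .negSucc 480927599, .ofNat 147592800, .ofNat 313200, .negSucc 155645999, .negSucc 170369999, .negSucc 431629199, .ofNat 158734800, .negSucc 128296799, .negSucc 106772399, .ofNat 246070800],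
  [.ofNat 158734800, .negSucc 176587199, .ofNat 249051600, .ofNat 1489635450, .ofNat 310114800, .negSucc 19816199, .ofNat 189402300, .ofNat 203436000, .negSucc 683999, .negSucc 948671999, .ofNat 114482700, .ofNat 108853200, .ofNat 221058900, .negSucc 224531999, .ofNat 25020900, .negSucc 450226799, .negSucc 370713599, .ofNat 439081200, .negSucc 274759199, .negSucc 104493599, .negSucc 405135899, .ofNat 111780000, .negSucc 156646799, .negSucc 411523199, .ofNat 6861600, .ofNat 316710900, .ofNat 386210700],
  [.negSucc 431629199, .ofNat 956739600, .negSucc 181483199, .ofNat 310114800, .ofNat 1281837600, .ofNat 565517700, .ofNat 493279200, .negSucc 179224199, .negSucc 147986099, .ofNat 950961600, .negSucc 334335599, .negSucc 252957599, .negSucc 7121699, .negSucc 126501299, .ofNat 245702700, .negSucc 1062201599, .negSucc 1252850399, .ofNat 471981600, .negSucc 567467999, .ofNat 6274800, .negSucc 173429099, .ofNat 550087200, .ofNat 283370400, .negSucc 156646799, .ofNat 133925400, .ofNat 269341200, .ofNat 12013200],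
  [.negSucc 170352899, .ofNat 556005600, .negSucc 179971199, .negSucc 19816199, .ofNat 565517700, .ofNat 805109400, .ofNat 113515200, .negSucc 119591099, .negSucc 162728099, .ofNat 560562300, .negSucc 605318399, .negSucc 808531199, .ofNat 107775000, .negSucc 76743899, .ofNat 358398000, .negSucc 698255999, .negSucc 580337999, .ofNat 542775600, .negSucc 506278799, .ofNat 87080400, .negSucc 82252799, .ofNat 645123600, .ofNat 550087200, .ofNat 111780000, .ofNat 279820800, .ofNat 72162000, .negSucc 77137199],
  [.negSucc 246070799, .ofNat 567273600, .negSucc 104817599, .ofNat 189402300, .ofNat 493279200, .ofNat 113515200, .ofNat 454671000, .negSucc 63663299, .negSucc 34600499, .ofNat 275767200, .ofNat 70804800, .ofNat 195235200, .negSucc 130975199, .negSucc 37187999, .negSucc 58420799, .negSucc 190637999, .negSucc 500092199, .ofNat 405500400, .negSucc 200731049, .negSucc 119027249, .negSucc 21005099, .ofNat 77137200, .negSucc 12013199, .negSucc 386215199, .ofNat 55686600, .ofNat 246224700, .ofNat 1854000],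
  [.ofNat 106755300, .negSucc 511459199, .ofNat 100270800, .ofNat 203436000, .negSucc 179224199, .negSucc 119591099, .negSucc 63663299, .ofNat 333987300, .ofNat 122114700, .negSucc 411429599, .ofNat 230842800, .ofNat 53838000, .negSucc 110887199, .negSucc 144911699, .negSucc 214059599, .negSucc 83149199, .ofNat 209390400, .ofNat 3153600, .ofNat 100620900, .ofNat 11008800, .ofNat 67392000, .negSucc 72161999, .negSucc 269341199, .negSucc 316717199, .negSucc 75059999, .negSucc 107092799, .ofNat 246240000],
  [.ofNat 128292300, .negSucc 283006799, .ofNat 14860800, .negSucc 683999, .negSucc 147986099, .negSucc 162728099, .negSucc 34600499, .ofNat 122114700, .ofNat 371707200, .negSucc 220617899, .negSucc 116204399, .ofNat 134247600, .negSucc 40982399, .negSucc 48655799, .negSucc 442913399, .ofNat 136936800, .ofNat 446241600, .negSucc 53855999, .ofNat 42199200, .negSucc 2547899, .ofNat 108873450, .negSucc 279820799, .negSucc 133923599, .negSucc 6861599, .ofNat 11620800, .negSucc 75059999, .ofNat 55692000],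
  [.negSucc 480927599, .ofNat 1066194000, .negSucc 300121199, .negSucc 948671999, .ofNat 950961600, .ofNat 560562300, .ofNat 275767200, .negSucc 411429599, .negSucc 220617899, .ofNat 1916381250, .negSucc 362681999, .negSucc 390085199, .negSucc 110242799, .ofNat 105732000, .ofNat 339976800, .negSucc 693413999, .negSucc 1002905999, .negSucc 16178399, .negSucc 227048399, .ofNat 121006800, .ofNat 102711600, .ofNat 542775600, .ofNat 471981600, .ofNat 439081200, .ofNat 53856000, .negSucc 3153599, .negSucc 405500399],
  [.ofNat 70477200, .negSucc 936341999, .ofNat 512870400, .ofNat 114482700, .negSucc 334335599, .negSucc 605318399, .ofNat 70804800, .ofNat 230842800, .negSucc 116204399, .negSucc 362681999, .ofNat 2786950800, .ofNat 1064005200, .negSucc 205736399, .ofNat 86346000, .negSucc 391874399, .ofNat 365112000, .negSucc 1125302399, .negSucc 1002905999, .ofNat 541684800, .negSucc 100400399, .ofNat 48949200, .negSucc 580337999, .negSucc 1252850399, .negSucc 370713599, .negSucc 446241599, .negSucc 209390399, .ofNat 500086800],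
  [.ofNat 56084400, .negSucc 348530399, .ofNat 224352000, .ofNat 108853200, .negSucc 252957599, .negSucc 808531199, .ofNat 195235200, .ofNat 53838000, .ofNat 134247600, .negSucc 390085199, .ofNat 1064005200, .ofNat 1463813550, .negSucc 192290399, .ofNat 125172000, .negSucc 568778399, .ofNat 599554800, .ofNat 365112000, .negSucc 693413999, .ofNat 301258800, .negSucc 261899999, .ofNat 55710000, .negSucc 698255999, .negSucc 1062201599, .negSucc 450226799, .negSucc 136936799, .ofNat 83149200, .ofNat 190638000],
  [.ofNat 155646000, .negSucc 15508799, .ofNat 77018400, .ofNat 221058900, .negSucc 7121699, .ofNat 107775000, .negSucc 130975199, .negSucc 110887199, .negSucc 40982399, .negSucc 110242799, .negSucc 205736399, .negSucc 192290399, .ofNat 304340400, .ofNat 13672800, .ofNat 183801600, .negSucc 55709999, .negSucc 48949199, .negSucc 102711599, .negSucc 190204199, .ofNat 32137200, .negSucc 194972399, .ofNat 82252800, .ofNat 173430000, .ofNat 405136800, .ofNat 108874800, .ofNat 67392000, .negSucc 21002399],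
  [.negSucc 312299, .ofNat 73677600, .negSucc 6256799, .negSucc 224531999, .negSucc 126501299, .negSucc 76743899, .negSucc 37187999, .negSucc 144911699, .negSucc 48655799, .ofNat 105732000, .ofNat 86346000, .ofNat 125172000, .ofNat 13672800, .ofNat 172057500, .ofNat 10173600, .ofNat 261900000, .ofNat 100400400, .negSucc 121006799, .ofNat 112554900, .negSucc 65836799, .ofNat 32137200, .negSucc 87080399, .negSucc 6274799, .ofNat 104490000, .negSucc 2545199, .ofNat 11008800, .negSucc 119037599],
  [.negSucc 147592799, .ofNat 521488800, .negSucc 116560799, .ofNat 25020900, .ofNat 245702700, .ofNat 358398000, .negSucc 58420799, .negSucc 214059599, .negSucc 442913399, .ofNat 339976800, .negSucc 391874399, .negSucc 568778399, .ofNat 183801600, .ofNat 10173600, .ofNat 767084400, .negSucc 301258799, .negSucc 541684799, .ofNat 227048400, .negSucc 175276799, .ofNat 112554000, .negSucc 190205999, .ofNat 506278800, .ofNat 567475200, .ofNat 274759200, .ofNat 42199200, .ofNat 100620000, .negSucc 200735999],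
  [.ofNat 224352000, .negSucc 348530399, .ofNat 56084400, .negSucc 450226799, .negSucc 1062201599, .negSucc 698255999, .negSucc 190637999, .negSucc 83149199, .ofNat 136936800, .negSucc 693413999, .ofNat 365112000, .ofNat 599554800, .negSucc 55709999, .ofNat 261900000, .negSucc 301258799, .ofNat 1463814000, .ofNat 1064005200, .negSucc 390085199, .ofNat 568778400, .negSucc 125171999, .ofNat 192290400, .negSucc 808531199, .negSucc 252957599, .ofNat 108853200, .negSucc 134247599, .negSucc 53837999, .negSucc 195235199],
  [.ofNat 512870400, .negSucc 936341999, .ofNat 70477200, .negSucc 370713599, .negSucc 1252850399, .negSucc 580337999, .negSucc 500092199, .ofNat 209390400, .ofNat 446241600, .negSucc 1002905999, .negSucc 1125302399, .ofNat 365112000, .negSucc 48949199, .ofNat 100400400, .negSucc 541684799, .ofNat 1064005200, .ofNat 2786947200, .negSucc 362681999, .ofNat 391874400, .negSucc 86345999, .ofNat 205736400, .negSucc 605318399, .negSucc 334335599, .ofNat 114483600, .ofNat 116204400, .negSucc 230842799, .negSucc 70804799],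
  [.negSucc 300121199, .ofNat 1066194000, .negSucc 480927599, .ofNat 439081200, .ofNat 471981600, .ofNat 542775600, .ofNat 405500400, .ofNat 3153600, .negSucc 53855999, .negSucc 16178399, .negSucc 1002905999, .negSucc 693413999, .negSucc 102711599, .negSucc 121006799, .ofNat 227048400, .negSucc 390085199, .negSucc 362681999, .ofNat 1916380800, .negSucc 339976799, .negSucc 105731999, .ofNat 110242800, .ofNat 560563200, .ofNat 950961600, .negSucc 948671999, .ofNat 220615200, .ofNat 411429600, .negSucc 275767199],
  [.ofNat 116560800, .negSucc 521488799, .ofNat 147592800, .negSucc 274759199, .negSucc 567467999, .negSucc 506278799, .negSucc 200731049, .ofNat 100620900, .ofNat 42199200, .negSucc 227048399, .ofNat 541684800, .ofNat 301258800, .negSucc 190204199, .ofNat 112554900, .negSucc 175276799, .ofNat 568778400, .ofNat 391874400, .negSucc 339976799, .ofNat 767077200, .ofNat 10173600, .ofNat 183801600, .negSucc 358397999, .negSucc 245699999, .negSucc 25016399, .negSucc 442911599, .negSucc 214059599, .negSucc 58424399],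
  [.ofNat 6256800, .negSucc 73677599, .ofNat 313200, .negSucc 104493599, .ofNat 6274800, .ofNat 87080400, .negSucc 119027249, .ofNat 11008800, .negSucc 2547899, .ofNat 121006800, .negSucc 100400399, .negSucc 261899999, .ofNat 32137200, .negSucc 65836799, .ofNat 112554000, .negSucc 125171999, .negSucc 86345999, .negSucc 105731999, .ofNat 10173600, .ofNat 172058400, .ofNat 13672800, .ofNat 76744800, .ofNat 126500400, .ofNat 224535600, .negSucc 48653999, .negSucc 144907199, .negSucc 37187999],
  [.negSucc 77018399, .ofNat 15508800, .negSucc 155645999, .negSucc 405135899, .negSucc 173429099, .negSucc 82252799, .negSucc 21005099, .ofNat 67392000, .ofNat 108873450, .ofNat 102711600, .ofNat 48949200, .ofNat 55710000, .negSucc 194972399, .ofNat 32137200, .negSucc 190205999, .ofNat 192290400, .ofNat 205736400, .ofNat 110242800, .ofNat 183801600, .ofNat 13672800, .ofNat 304340400, .negSucc 107769599, .ofNat 7117200, .negSucc 221054399, .negSucc 40982399, .negSucc 110876399, .negSucc 130978799],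
  [.negSucc 179971199, .ofNat 556005600, .negSucc 170369999, .ofNat 111780000, .ofNat 550087200, .ofNat 645123600, .ofNat 77137200, .negSucc 72161999, .negSucc 279820799, .ofNat 542775600, .negSucc 580337999, .negSucc 698255999, .ofNat 82252800, .negSucc 87080399, .ofNat 506278800, .negSucc 808531199, .negSucc 605318399, .ofNat 560563200, .negSucc 358397999, .ofNat 76744800, .negSucc 107769599, .ofNat 805089600, .ofNat 565516800, .negSucc 19817999, .ofNat 162741600, .ofNat 119602800, .negSucc 113518799],
  [.negSucc 181483199, .ofNat 956739600, .negSucc 431629199, .negSucc 156646799, .ofNat 283370400, .ofNat 550087200, .negSucc 12013199, .negSucc 269341199, .negSucc 133923599, .ofNat 471981600, .negSucc 1252850399, .negSucc 1062201599, .ofNat 173430000, .negSucc 6274799, .ofNat 567475200, .negSucc 252957599, .negSucc 334335599, .ofNat 950961600, .negSucc 245699999, .ofNat 126500400, .ofNat 7117200, .ofNat 565516800, .ofNat 1281834000, .ofNat 310111200, .ofNat 147985200, .ofNat 179222400, .negSucc 493279199],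
  [.ofNat 249051600, .negSucc 176587199, .ofNat 158734800, .negSucc 411523199, .negSucc 156646799, .ofNat 111780000, .negSucc 386215199, .negSucc 316717199, .negSucc 6861599, .ofNat 439081200, .negSucc 370713599, .negSucc 450226799, .ofNat 405136800, .ofNat 104490000, .ofNat 274759200, .ofNat 108853200, .ofNat 114483600, .negSucc 948671999, .negSucc 25016399, .ofNat 224535600, .negSucc 221054399, .negSucc 19817999, .ofNat 310111200, .ofNat 1489633200, .ofNat 680400, .negSucc 203435999, .negSucc 189403199],
  [.negSucc 14860799, .ofNat 283006800, .negSucc 128296799, .ofNat 6861600, .ofNat 133925400, .ofNat 279820800, .ofNat 55686600, .negSucc 75059999, .ofNat 11620800, .ofNat 53856000, .negSucc 446241599, .negSucc 136936799, .ofNat 108874800, .negSucc 2545199, .ofNat 42199200, .negSucc 134247599, .ofNat 116204400, .ofNat 220615200, .negSucc 442911599, .negSucc 48653999, .negSucc 40982399, .ofNat 162741600, .ofNat 147985200, .ofNat 680400, .ofNat 371703600, .ofNat 122101200, .negSucc 34599599],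
  [.negSucc 100270799, .ofNat 511459200, .negSucc 106772399, .ofNat 316710900, .ofNat 269341200, .ofNat 72162000, .ofNat 246224700, .negSucc 107092799, .negSucc 75059999, .negSucc 3153599, .negSucc 209390399, .ofNat 83149200, .ofNat 67392000, .ofNat 11008800, .ofNat 100620000, .negSucc 53837999, .negSucc 230842799, .ofNat 411429600, .negSucc 214059599, .negSucc 144907199, .negSucc 110876399, .ofNat 119602800, .ofNat 179222400, .negSucc 203435999, .ofNat 122101200, .ofNat 333990000, .negSucc 63665999],
  [.ofNat 104817600, .negSucc 567273599, .ofNat 246070800, .ofNat 386210700, .ofNat 12013200, .negSucc 77137199, .ofNat 1854000, .ofNat 246240000, .ofNat 55692000, .negSucc 405500399, .ofNat 500086800, .ofNat 190638000, .negSucc 21002399, .negSucc 119037599, .negSucc 200735999, .negSucc 195235199, .negSucc 70804799, .negSucc 275767199, .negSucc 58424399, .negSucc 37187999, .negSucc 130978799, .negSucc 113518799, .negSucc 493279199, .negSucc 189403199, .negSucc 34599599, .negSucc 63665999, .ofNat 454669200]]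

/-- Rounded Cholesky factor (lower triangular rows). -/
def lB4 : List (List Int) :=
 [[.ofNat 1186984],
  [.negSucc 2100330, .ofNat 1799370],
  [.ofNat 783664, .negSucc 470808, .ofNat 757135],
  [.ofNat 547756, .ofNat 237399, .ofNat 928009, .ofNat 2205484],
  [.negSucc 1489448, .ofNat 439303, .ofNat 833009, .ofNat 548068, .ofNat 1350884],
  [.negSucc 587846, .ofNat 579495, .negSucc 4828, .ofNat 48851, .ofNat 861264, .ofNat 1361019],
  [.negSucc 849131, .ofNat 300158, .ofNat 498482, .ofNat 320590, .ofNat 24375, .negSucc 178093, .ofNat 804891],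
  [.ofNat 368387, .negSucc 734257, .negSucc 295425, .ofNat 489669, .ofNat 85036, .ofNat 39399, .ofNat 332546, .ofNat 476396],
  [.ofNat 442706, .negSucc 127469, .negSucc 457087, .ofNat 94830, .ofNat 324247, .negSucc 454456, .ofNat 473433, .negSucc 220569, .ofNat 698645],
  [.negSucc 1659565, .ofNat 489889, .ofNat 398726, .negSucc 1570196, .ofNat 1285470, .ofNat 5956, .negSucc 189259, .ofNat 264308, .negSucc 59475, .ofNat 670350],
  [.ofNat 243200, .negSucc 1847566, .ofNat 1373969, .negSucc 227042, .negSucc 899896, .negSucc 347525, .ofNat 495744, .negSucc 122188, .negSucc 425672, .ofNat 266260, .ofNat 2130774],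
  [.ofNat 193534, .negSucc 567473, .ofNat 660528, .negSucc 62754, .negSucc 750910, .negSucc 1628293, .ofNat 687701, .negSucc 298626, .negSucc 269411, .negSucc 287137, .ofNat 320823, .ofNat 1068173],
  [.ofNat 537097, .ofNat 591628, .ofNat 228635, .ofNat 117268, .ofNat 189638, .ofNat 181025, .negSucc 474521, .negSucc 153193, .negSucc 36063, .negSucc 79633, .ofNat 135248, .negSucc 54037, .ofNat 419568],
  [.negSucc 1077, .ofNat 166458, .ofNat 70776, .negSucc 464428, .negSucc 294101, .negSucc 99269, .negSucc 124364, .negSucc 319764, .negSucc 89615, .ofNat 39650, .ofNat 62656, .ofNat 99393, .negSucc 97844, .ofNat 435310],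
  [.negSucc 509307, .ofNat 592598, .ofNat 265069, .negSucc 2360, .negSucc 171761, .ofNat 716025, .negSucc 1055177, .ofNat 341542, .negSucc 623765, .ofNat 55296, .negSucc 174708, .negSucc 282405, .ofNat 143768, .negSucc 192591, .ofNat 330041],
  [.ofNat 774185, .ofNat 110297, .negSucc 429315, .negSucc 859660, .negSucc 1789453, .negSucc 652272, .ofNat 323626, .negSucc 378733, .ofNat 235521, .negSucc 460307, .ofNat 39790, .negSucc 210446, .negSucc 5314, .ofNat 164756, .negSucc 31368, .ofNat 473257],
  [.ofNat 1769793, .negSucc 65636, .negSucc 1491346, .negSucc 493447, .negSucc 706259, .negSucc 494835, .ofNat 378688, .negSucc 184372, .ofNat 265125, .negSucc 405513, .negSucc 1887037, .ofNat 916220, .negSucc 134456, .ofNat 196660, .negSucc 44541, .ofNat 287611, .ofNat 306323],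
  [.negSucc 1035646, .ofNat 1218165, .negSucc 772329, .ofNat 1266523, .negSucc 144522, .ofNat 710760, .ofNat 652200, .ofNat 436484, .ofNat 110812, .ofNat 165717, .negSucc 190855, .negSucc 458341, .negSucc 628684, .ofNat 439767, .negSucc 103091, .negSucc 278144, .negSucc 47086, .ofNat 982646],
  [.ofNat 402223, .negSucc 717592, .negSucc 64079, .negSucc 505970, .negSucc 798980, .negSucc 520851, .negSucc 179396, .ofNat 239338, .ofNat 117494, .ofNat 387989, .negSucc 31367, .negSucc 318883, .negSucc 660416, .ofNat 188776, .negSucc 59905, .ofNat 132677, .negSucc 54263, .ofNat 58274, .ofNat 647970],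
  [.ofNat 21591, .negSucc 142513, .negSucc 109271, .negSucc 138106, .ofNat 212590, .ofNat 202115, .negSucc 368827, .ofNat 135291, .ofNat 218088, .ofNat 90896, .negSucc 14763, .negSucc 207744, .ofNat 48173, .negSucc 413779, .ofNat 74731, .ofNat 45711, .ofNat 6444, .ofNat 17996, .ofNat 16140, .ofNat 334293],
  [.negSucc 265771, .negSucc 274921, .negSucc 737893, .negSucc 346326, .negSucc 133958, .negSucc 150692, .ofNat 280897, .ofNat 99898, .ofNat 126131, .ofNat 107548, .ofNat 195937, .ofNat 76744, .negSucc 218915, .ofNat 107342, .negSucc 87266, .ofNat 52143, .ofNat 21873, .ofNat 105183, .ofNat 112753, .ofNat 239075, .ofNat 252298],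
  [.negSucc 621037, .ofNat 540753, .ofNat 57375, .ofNat 279490, .ofNat 658551, .ofNat 1016463, .negSucc 406177, .ofNat 523463, .negSucc 352674, .ofNat 380127, .negSucc 132564, .ofNat 176532, .negSucc 171062, .ofNat 39467, .ofNat 55237, .negSucc 337545, .ofNat 5374, .negSucc 89050, .ofNat 79651, .negSucc 9420, .negSucc 64226, .ofNat 358511],
  [.negSucc 626254, .ofNat 1446875, .negSucc 787149, .ofNat 40085, .ofNat 167318, .ofNat 658840, .negSucc 649136, .ofNat 237977, .ofNat 221153, .ofNat 254058, .negSucc 215245, .negSucc 906753, .negSucc 115032, .ofNat 44076, .ofNat 8353, .negSucc 232414, .negSucc 242539, .ofNat 10703, .ofNat 107801, .negSucc 37164, .ofNat 56240, .ofNat 57001, .ofNat 232518],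
  [.ofNat 859418, .ofNat 601189, .ofNat 343041, .negSucc 1186776, .ofNat 547055, .ofNat 149259, .negSucc 1006240, .negSucc 436089, .ofNat 297794, .ofNat 251197, .negSucc 144499, .negSucc 520563, .ofNat 595881, .negSucc 458667, .ofNat 39386, .ofNat 210636, .ofNat 42195, .negSucc 855119, .ofNat 72722, .negSucc 39998, .ofNat 73568, .negSucc 166037, .ofNat 158590, .ofNat 279843],
  [.negSucc 51280, .ofNat 584365, .negSucc 277615, .ofNat 79392, .ofNat 298478, .ofNat 378449, .ofNat 226371, .negSucc 201388, .negSucc 94492, .negSucc 314637, .negSucc 13786, .ofNat 451388, .ofNat 312650, .ofNat 65407, .ofNat 40343, .negSucc 61310, .ofNat 38976, .negSucc 38939, .negSucc 527282, .ofNat 154, .negSucc 125, .negSucc 931, .negSucc 22135, .ofNat 25528, .ofNat 222753],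
  [.negSucc 346010, .ofNat 760377, .ofNat 253335, .ofNat 485684, .negSucc 165370, .negSucc 167914, .ofNat 221935, .ofNat 65112, .negSucc 144563, .negSucc 101829, .ofNat 23405, .ofNat 89605, .ofNat 149061, .ofNat 239357, .negSucc 22426, .ofNat 6153, .negSucc 27447, .negSucc 32153, .ofNat 18412, .negSucc 261288, .negSucc 45459, .ofNat 94868, .negSucc 19223, .negSucc 46720, .ofNat 41346, .ofNat 188697],
  [.ofNat 361701, .negSucc 869115, .ofNat 416395, .ofNat 545778, .ofNat 239667, .ofNat 124356, .ofNat 260118, .negSucc 39505, .negSucc 81994, .negSucc 295326, .ofNat 35332, .ofNat 47195, .ofNat 227401, .ofNat 8599, .negSucc 116075, .negSucc 78192, .negSucc 863, .negSucc 81611, .negSucc 148448, .negSucc 221790, .negSucc 192503, .negSucc 45508, .negSucc 1544, .negSucc 27319, .negSucc 11241, .ofNat 62681, .ofNat 228792]]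

theorem okB4 : psdOK 27 4096 gB4 lB4 = true := by decide +kernel

end Pool.Agent.H2AF
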