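import Pool.Agent.Lib.H2AF.PSD

/-! # Certificate B of MP_afe93a, block 5 (P4_T1, xx, size 13): the Gram matrix is positive semidefinite -/

namespace Pool.Agent.H2AF

/-- Gram matrix (integers), block P4_T1, certificate B. -/
def gB5 : List (List Int) :=
 [[.ofNat 11641321008, .ofNat 11625915600, .ofNat 9166078800, .ofNat 2202976800, .negSucc 7550315999, .negSucc 5974984799, .ofNat 2228083200, .negSucc 2404555199, .negSucc 5967039599, .negSucc 2850249599, .ofNat 270176400, .negSucc 2841159599, .ofNat 5194627200],
  [.ofNat 11625915600, .ofNat 11641305600, .ofNat 9166078800, .ofNat 2228083200, .negSucc 7550315999, .negSucc 5967039599, .ofNat 2202976800, .negSucc 2404555199, .negSucc 5974984799, .negSucc 2841159599, .ofNat 270176400, .negSucc 2850249599, .ofNat 5194627200],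
  [.ofNat 9166078800, .ofNat 9166078800, .ofNat 8205642000, .negSucc 52682399, .negSucc 9498445199, .negSucc 5723164799, .negSucc 52682399, .negSucc 2938676399, .negSucc 5723164799, .negSucc 2545210799, .negSucc 184856399, .negSucc 2545210799, .ofNat 2420856000],
  [.ofNat 2202976800, .ofNat 2228083200, .negSucc 52682399, .ofNat 3979949400, .ofNat 5108407200, .ofNat 731091600, .ofNat 3803356800, .ofNat 1474740000, .ofNat 742957200, .ofNat 88812000, .ofNat 784908000, .ofNat 29188800, .ofNat 4128836400],
  [.negSucc 7550315999, .negSucc 7550315999, .negSucc 9498445199, .ofNat 5108407200, .ofNat 17836504200, .ofNat 7586971200, .ofNat 5108407200, .ofNat 5371293600, .ofNat 7586971200, .ofNat 2944641600, .ofNat 1280448000, .ofNat 2944641600, .ofNat 2735539200],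
  [.negSucc 5974984799, .negSucc 5967039599, .negSucc 5723164799, .ofNat 731091600, .ofNat 7586971200, .ofNat 4156569000, .ofNat 742957200, .ofNat 2346624000, .ofNat 4128116400, .ofNat 1770739200, .ofNat 283622400, .ofNat 1777640400, .negSucc 914158799],
  [.ofNat 2228083200, .ofNat 2202976800, .negSucc 52682399, .ofNat 3803356800, .ofNat 5108407200, .ofNat 742957200, .ofNat 3979944000, .ofNat 1474740000, .ofNat 731091600, .ofNat 29188800, .ofNat 784908000, .ofNat 88812000, .ofNat 4128836400],
  [.negSucc 2404555199, .negSucc 2404555199, .negSucc 2938676399, .ofNat 1474740000, .ofNat 5371293600, .ofNat 2346624000, .ofNat 1474740000, .ofNat 1668344400, .ofNat 2346624000, .ofNat 912268800, .ofNat 383796000, .ofNat 912268800, .ofNat 730789200],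
  [.negSucc 5967039599, .negSucc 5974984799, .negSucc 5723164799, .ofNat 742957200, .ofNat 7586971200, .ofNat 4128116400, .ofNat 731091600, .ofNat 2346624000, .ofNat 4156567200, .ofNat 1777640400, .ofNat 283622400, .ofNat 1770739200, .negSucc 914158799],
  [.negSucc 2850249599, .negSucc 2841159599, .negSucc 2545210799, .ofNat 88812000, .ofNat 2944641600, .ofNat 1770739200, .ofNat 29188800, .ofNat 912268800, .ofNat 1777640400, .ofNat 827334000, .ofNat 61315200, .ofNat 796712400, .negSucc 750441599],
  [.ofNat 270176400, .ofNat 270176400, .negSucc 184856399, .ofNat 784908000, .ofNat 1280448000, .ofNat 283622400, .ofNat 784908000, .ofNat 383796000, .ofNat 283622400, .ofNat 61315200, .ofNat 186516000, .ofNat 61315200, .ofNat 801504000],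
  [.negSucc 2841159599, .negSucc 2850249599, .negSucc 2545210799, .ofNat 29188800, .ofNat 2944641600, .ofNat 1777640400, .ofNat 88812000, .ofNat 912268800, .ofNat 1770739200, .ofNat 796712400, .ofNat 61315200, .ofNat 827334000, .negSucc 750441599],
  [.ofNat 5194627200, .ofNat 5194627200, .ofNat 2420856000, .ofNat 4128836400, .ofNat 2735539200, .negSucc 914158799, .ofNat 4128836400, .ofNat 730789200, .negSucc 914158799, .negSucc 750441599, .ofNat 801504000, .negSucc 750441599, .ofNat 5257558800]]

/-- Rounded Cholesky factor (lower triangular rows). -/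
def lB5 : List (List Int) :=
 [[.ofNat 6903844],
  [.ofNat 6897571, .ofNat 294136],
  [.ofNat 5438167, .ofNat 115983, .ofNat 2000850],
  [.ofNat 1307010, .ofNat 377495, .negSucc 3682089, .ofNat 934623],
  [.negSucc 4479546, .negSucc 95537, .negSucc 7263923, .ofNat 73287, .ofNat 439429],
  [.negSucc 3544914, .ofNat 35036, .negSucc 2083267, .negSucc 60146, .ofNat 163114, .ofNat 260074],
  [.ofNat 1321905, .negSucc 321425, .negSucc 3682059, .ofNat 443460, .ofNat 82292, .ofNat 319097, .ofNat 753985],
  [.negSucc 1426604, .negSucc 30425, .negSucc 2136677, .ofNat 52607, .ofNat 188527, .ofNat 295241, .negSucc 111193, .ofNat 272736],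
  [.negSucc 3540200, .negSucc 186144, .negSucc 2083258, .ofNat 74634, .ofNat 140755, .ofNat 27379, .negSucc 145320, .ofNat 182162, .ofNat 132047],
  [.negSucc 1691031, .ofNat 90517, .negSucc 619518, .ofNat 276768, .negSucc 58221, .negSucc 35643, .negSucc 4829, .ofNat 35424, .ofNat 16745, .ofNat 185907],
  [.ofNat 160294, .ofNat 3419, .negSucc 814289, .ofNat 6311, .ofNat 108508, .ofNat 61987, .negSucc 33930, .ofNat 66254, .negSucc 7513, .ofNat 117403, .ofNat 142714],
  [.negSucc 1685638, .negSucc 162533, .negSucc 619508, .ofNat 110177, .negSucc 30300, .ofNat 124692, .ofNat 228870, .negSucc 29966, .negSucc 30736, .ofNat 100301, .ofNat 70408, .ofNat 139764],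
  [.ofNat 3081934, .ofNat 65730, .negSucc 3424479, .ofNat 266994, .ofNat 277601, .ofNat 58310, .ofNat 119128, .ofNat 17059, .negSucc 14869, .negSucc 242459, .negSucc 27710, .negSucc 134568, .ofNat 203344]]

theorem okB5 : psdOK 13 4096 gB5 lB5 = true := by decide +kernel

end Pool.Agent.H2AF
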