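import Pool.Agent.Lib.H2AF.PSD

/-! # Certificate B of MP_afe93a, block 6 (T2_m3, loc, size 17): the Gram matrix is positive semidefinite -/

namespace Pool.Agent.H2AF

/-- Gram matrix (integers), block T2_m3, certificate B. -/
def gB6 : List (List Int) :=
 [[.ofNat 3114162000, .negSucc 1468843199, .negSucc 3645640799, .ofNat 2201781600, .ofNat 787460400, .ofNat 721238400, .ofNat 5641729200, .ofNat 2298747600, .ofNat 9651600, .negSucc 209941199, .negSucc 191969999, .negSucc 1114977599, .negSucc 1221458399, .ofNat 518122800, .negSucc 253882799, .negSucc 1158436799, .ofNat 414320400],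
  [.negSucc 1468843199, .ofNat 1055811600, .ofNat 1574953200, .negSucc 1168898399, .negSucc 433727999, .negSucc 23331599, .negSucc 3199352399, .negSucc 924217199, .negSucc 345067199, .negSucc 423136799, .ofNat 749466000, .ofNat 726850800, .ofNat 904935600, .ofNat 223210800, .ofNat 158680800, .ofNat 597992400, .negSucc 348123599],
  [.negSucc 3645640799, .ofNat 1574953200, .ofNat 5774036400, .negSucc 1867751999, .negSucc 1163768399, .negSucc 1264841999, .negSucc 7375226399, .negSucc 2906225999, .negSucc 12477599, .ofNat 362512800, .negSucc 19994399, .ofNat 1037786400, .ofNat 1508014800, .negSucc 619228799, .ofNat 312458400, .ofNat 1260259200, .negSucc 382359599],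
  [.ofNat 2201781600, .negSucc 1168898399, .negSucc 1867751999, .ofNat 4522899600, .ofNat 259707600, .negSucc 546335999, .ofNat 5576457600, .ofNat 542134800, .ofNat 93193200, .negSucc 780692399, .negSucc 869511599, .negSucc 1194562799, .negSucc 1163188799, .ofNat 1364259600, .negSucc 200001599, .negSucc 1262451599, .ofNat 481298400],
  [.ofNat 787460400, .negSucc 433727999, .negSucc 1163768399, .ofNat 259707600, .ofNat 467899200, .ofNat 297770400, .ofNat 1632952800, .ofNat 632869200, .negSucc 53953199, .ofNat 173653200, .negSucc 236498399, .negSucc 299455199, .negSucc 366249599, .negSucc 115833599, .negSucc 73717199, .negSucc 249155999, .ofNat 107935200],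
  [.ofNat 721238400, .negSucc 23331599, .negSucc 1264841999, .negSucc 546335999, .ofNat 297770400, .ofNat 1198432800, .ofNat 381834000, .ofNat 1067014800, .negSucc 402429599, .negSucc 403631999, .ofNat 578818800, .negSucc 138988799, .ofNat 229287600, .negSucc 590399, .negSucc 12826799, .negSucc 53017199, .negSucc 74926799],
  [.ofNat 5641729200, .negSucc 3199352399, .negSucc 7375226399, .ofNat 5576457600, .ofNat 1632952800, .ofNat 381834000, .ofNat 14014634400, .ofNat 3369355200, .ofNat 480970800, .ofNat 648475200, .negSucc 2882678399, .negSucc 2653772399, .negSucc 3009844799, .ofNat 173912400, .negSucc 577857599, .negSucc 2252613599, .ofNat 821617200],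
  [.ofNat 2298747600, .negSucc 924217199, .negSucc 2906225999, .ofNat 542134800, .ofNat 632869200, .ofNat 1067014800, .ofNat 3369355200, .ofNat 3581265600, .negSucc 302842799, .negSucc 282729599, .ofNat 487432800, .negSucc 1863010799, .negSucc 518270399, .ofNat 270579600, .negSucc 165157199, .negSucc 724121999, .ofNat 177627600],
  [.ofNat 9651600, .negSucc 345067199, .negSucc 12477599, .ofNat 93193200, .negSucc 53953199, .negSucc 402429599, .ofNat 480970800, .negSucc 302842799, .ofNat 727171200, .ofNat 410936400, .negSucc 378914399, .ofNat 39124800, .negSucc 591598799, .negSucc 250516799, .negSucc 48009599, .negSucc 109630799, .ofNat 231408000],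
  [.negSucc 209941199, .negSucc 423136799, .ofNat 362512800, .negSucc 780692399, .ofNat 173653200, .negSucc 403631999, .ofNat 648475200, .negSucc 282729599, .ofNat 410936400, .ofNat 1847959200, .negSucc 1831417199, .negSucc 325677599, .negSucc 360392399, .negSucc 1785794399, .negSucc 55306799, .ofNat 232030800, .ofNat 19688400],
  [.negSucc 191969999, .ofNat 749466000, .negSucc 19994399, .negSucc 869511599, .negSucc 236498399, .ofNat 578818800, .negSucc 2882678399, .ofNat 487432800, .negSucc 378914399, .negSucc 1831417199, .ofNat 3113172000, .ofNat 941929200, .ofNat 608173200, .ofNat 1781132400, .ofNat 123282000, .ofNat 13244400, .negSucc 62816399],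
  [.negSucc 1114977599, .ofNat 726850800, .ofNat 1037786400, .negSucc 1194562799, .negSucc 299455199, .negSucc 138988799, .negSucc 2653772399, .negSucc 1863010799, .ofNat 39124800, .negSucc 325677599, .ofNat 941929200, .ofNat 1969538400, .ofNat 412736400, .ofNat 288604800, .ofNat 114400800, .ofNat 455792400, .negSucc 189266399],
  [.negSucc 1221458399, .ofNat 904935600, .ofNat 1508014800, .negSucc 1163188799, .negSucc 366249599, .ofNat 229287600, .negSucc 3009844799, .negSucc 518270399, .negSucc 591598799, .negSucc 360392399, .ofNat 608173200, .ofNat 412736400, .ofNat 1117792800, .ofNat 28980000, .ofNat 159105600, .ofNat 578984400, .negSucc 361663199],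
  [.ofNat 518122800, .ofNat 223210800, .negSucc 619228799, .ofNat 1364259600, .negSucc 115833599, .negSucc 590399, .ofNat 173912400, .ofNat 270579600, .negSucc 250516799, .negSucc 1785794399, .ofNat 1781132400, .ofNat 288604800, .ofNat 28980000, .ofNat 2112591600, .ofNat 23288400, .negSucc 441302399, .ofNat 79930800],
  [.negSucc 253882799, .ofNat 158680800, .ofNat 312458400, .negSucc 200001599, .negSucc 73717199, .negSucc 12826799, .negSucc 577857599, .negSucc 165157199, .negSucc 48009599, .negSucc 55306799, .ofNat 123282000, .ofNat 114400800, .ofNat 159105600, .ofNat 23288400, .ofNat 48729600, .ofNat 95097600, .negSucc 43991999],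
  [.negSucc 1158436799, .ofNat 597992400, .ofNat 1260259200, .negSucc 1262451599, .negSucc 249155999, .negSucc 53017199, .negSucc 2252613599, .negSucc 724121999, .negSucc 109630799, .ofNat 232030800, .ofNat 13244400, .ofNat 455792400, .ofNat 578984400, .negSucc 441302399, .ofNat 95097600, .ofNat 557276400, .negSucc 243889199],
  [.ofNat 414320400, .negSucc 348123599, .negSucc 382359599, .ofNat 481298400, .ofNat 107935200, .negSucc 74926799, .ofNat 821617200, .ofNat 177627600, .ofNat 231408000, .ofNat 19688400, .negSucc 62816399, .negSucc 189266399, .negSucc 361663199, .ofNat 79930800, .negSucc 43991999, .negSucc 243889199, .ofNat 208314000]]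

/-- Rounded Cholesky factor (lower triangular rows). -/
def lB6 : List (List Int) :=
 [[.ofNat 3568728],
  [.negSucc 1685861, .ofNat 1209414],
  [.negSucc 4184276, .negSucc 498674, .ofNat 2423595],
  [.ofNat 2527090, .negSucc 436146, .ofNat 1116622, .ofNat 3268448],
  [.ofNat 903806, .negSucc 209073, .negSucc 449447, .negSucc 247689, .ofNat 879086],
  [.ofNat 827800, .ofNat 1074892, .negSucc 487303, .negSucc 1014784, .ofNat 256926, .ofNat 1309610],
  [.ofNat 6475284, .negSucc 1809233, .negSucc 1657358, .ofNat 2306629, .ofNat 323450, .negSucc 306596, .ofNat 1978770],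
  [.ofNat 2638383, .ofNat 547667, .negSucc 243880, .negSucc 1204137, .negSucc 97505, .ofNat 215349, .ofNat 90118, .ofNat 2411356],
  [.ofNat 11078, .negSucc 1153218, .negSucc 239246, .ofNat 36072, .negSucc 649204, .negSucc 252836, .negSucc 270559, .negSucc 264362, .ofNat 970381],
  [.negSucc 240959, .negSucc 1768949, .negSucc 167321, .negSucc 970942, .ofNat 277023, .negSucc 527171, .ofNat 1378155, .negSucc 309840, .negSucc 22268, .ofNat 1020303],
  [.negSucc 220332, .ofNat 2231131, .ofNat 44883, .negSucc 636917, .negSucc 501283, .negSucc 260124, .negSucc 2384403, .ofNat 340869, .ofNat 114271, .negSucc 806372, .ofNat 716778],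
  [.negSucc 1279712, .ofNat 677817, .negSucc 316014, .negSucc 309161, .negSucc 167048, .negSucc 506517, .negSucc 641260, .negSucc 2042211, .negSucc 60029, .negSucc 752180, .ofNat 325177, .ofNat 462014],
  [.negSucc 1401925, .ofNat 1110589, .ofNat 356744, .negSucc 347441, .ofNat 83481, .ofNat 538885, .ofNat 146431, .ofNat 213690, .negSucc 765128, .negSucc 18355, .negSucc 2818, .negSucc 200363, .ofNat 348592],
  [.ofNat 594674, .ofNat 1584908, .ofNat 306271, .ofNat 1356753, .negSucc 235305, .negSucc 467145, .negSucc 1495833, .ofNat 245581, .ofNat 215081, .negSucc 1017180, .ofNat 8570, .negSucc 224006, .ofNat 267697, .ofNat 242853],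
  [.negSucc 291392, .ofNat 131227, .ofNat 51988, .negSucc 25591, .ofNat 6690, .ofNat 34566, .negSucc 44977, .negSucc 173, .negSucc 28707, .negSucc 3042, .ofNat 49286, .negSucc 33238, .ofNat 82914, .ofNat 12315, .ofNat 244255],
  [.negSucc 1329593, .ofNat 171873, .negSucc 130242, .negSucc 486653, .ofNat 43237, .ofNat 99501, .ofNat 311780, .negSucc 89255, .negSucc 139872, .ofNat 19380, .negSucc 102244, .negSucc 60563, .negSucc 25449, .negSucc 1140, .negSucc 60099, .ofNat 237469],
  [.ofNat 475535, .negSucc 516139, .ofNat 68593, .ofNat 143179, .negSucc 33338, .ofNat 31714, .negSucc 426411, .negSucc 11166, .ofNat 233573, .ofNat 47100, .ofNat 107517, .negSucc 47964, .ofNat 13133, .ofNat 7157, .ofNat 20185, .negSucc 116819, .ofNat 216196]]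

theorem okB6 : psdOK 17 4096 gB6 lB6 = true := by decide +kernel

end Pool.Agent.H2AF
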