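import Pool.Agent.Lib.H2AF.PSD

/-! # Certificate B of MP_afe93a, block 9 (T2_3, loc, size 17): the Gram matrix is positive semidefinite -/

namespace Pool.Agent.H2AF

/-- Gram matrix (integers), block T2_3, certificate B. -/
def gB9 : List (List Int) :=
 [[.ofNat 94388400, .negSucc 1630799, .negSucc 24958799, .ofNat 56390400, .negSucc 57059999, .ofNat 19011600, .ofNat 49892400, .ofNat 4147200, .ofNat 9864000, .negSucc 92879999, .ofNat 3085200, .negSucc 20728799, .ofNat 58366800, .ofNat 71719200, .negSucc 59777999, .negSucc 3409199, .negSucc 82083599],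
  [.negSucc 1630799, .ofNat 315270000, .negSucc 308426399, .ofNat 94086000, .negSucc 97934399, .ofNat 260312400, .ofNat 188377200, .ofNat 65304000, .negSucc 65980799, .negSucc 417884399, .ofNat 68630400, .negSucc 149565599, .ofNat 233524800, .ofNat 205585200, .negSucc 265111199, .negSucc 15415199, .negSucc 252215999],
  [.negSucc 24958799, .negSucc 308426399, .ofNat 342158400, .negSucc 89798399, .ofNat 91594800, .negSucc 263620799, .negSucc 193143599, .negSucc 69713999, .ofNat 60757200, .ofNat 415159200, .negSucc 81287999, .ofNat 150717600, .negSucc 226025999, .negSucc 201632399, .ofNat 279046800, .ofNat 19224000, .ofNat 250682400],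
  [.ofNat 56390400, .ofNat 94086000, .negSucc 89798399, .ofNat 221652000, .negSucc 211499999, .ofNat 110116800, .ofNat 118062000, .ofNat 38433600, .ofNat 2520000, .negSucc 369525599, .ofNat 102193200, .negSucc 96523199, .ofNat 190054800, .ofNat 284760000, .negSucc 200541599, .ofNat 12294000, .negSucc 233535599],
  [.negSucc 57059999, .negSucc 97934399, .ofNat 91594800, .negSucc 211499999, .ofNat 220021200, .negSucc 116171999, .negSucc 118360799, .negSucc 40579199, .ofNat 1429200, .ofNat 371124000, .negSucc 82569599, .ofNat 104810400, .negSucc 204562799, .negSucc 286988399, .ofNat 181036800, .negSucc 14396399, .ofNat 244609200],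
  [.ofNat 19011600, .ofNat 260312400, .negSucc 263620799, .ofNat 110116800, .negSucc 116171999, .ofNat 468968400, .ofNat 217832400, .ofNat 80290800, .negSucc 71020799, .negSucc 603557999, .ofNat 217015200, .negSucc 154659599, .ofNat 208278000, .ofNat 221079600, .negSucc 408275999, .negSucc 28943999, .negSucc 224060399],
  [.ofNat 49892400, .ofNat 188377200, .negSucc 193143599, .ofNat 118062000, .negSucc 118360799, .ofNat 217832400, .ofNat 222523200, .ofNat 46836000, .negSucc 29941199, .negSucc 337723199, .ofNat 54954000, .negSucc 119563199, .ofNat 180486000, .ofNat 151545600, .negSucc 276001199, .negSucc 3221999, .negSucc 216802799],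
  [.ofNat 4147200, .ofNat 65304000, .negSucc 69713999, .ofNat 38433600, .negSucc 40579199, .ofNat 80290800, .ofNat 46836000, .ofNat 61394400, .ofNat 237600, .negSucc 126071999, .ofNat 62661600, .negSucc 86241599, .ofNat 46735200, .ofNat 65329200, .negSucc 106660799, .ofNat 21416400, .negSucc 53161199],
  [.ofNat 9864000, .negSucc 65980799, .ofNat 60757200, .ofNat 2520000, .ofNat 1429200, .negSucc 71020799, .negSucc 29941199, .ofNat 237600, .ofNat 49672800, .ofNat 75556800, .negSucc 40435199, .ofNat 13201200, .negSucc 65858399, .negSucc 24285599, .ofNat 64623600, .ofNat 18540000, .ofNat 48621600],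
  [.negSucc 92879999, .negSucc 417884399, .ofNat 415159200, .negSucc 369525599, .ofNat 371124000, .negSucc 603557999, .negSucc 337723199, .negSucc 126071999, .ofNat 75556800, .ofNat 1132196400, .negSucc 331970399, .ofNat 280562400, .negSucc 454413599, .negSucc 628034399, .ofNat 633160800, .ofNat 22226400, .ofNat 530146800],
  [.ofNat 3085200, .ofNat 68630400, .negSucc 81287999, .ofNat 102193200, .negSucc 82569599, .ofNat 217015200, .ofNat 54954000, .ofNat 62661600, .negSucc 40435199, .negSucc 331970399, .ofNat 644806800, .negSucc 65095199, .ofNat 43124400, .ofNat 169927200, .negSucc 617399999, .negSucc 23360399, .negSucc 41900399],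
  [.negSucc 20728799, .negSucc 149565599, .ofNat 150717600, .negSucc 96523199, .ofNat 104810400, .negSucc 154659599, .negSucc 119563199, .negSucc 86241599, .ofNat 13201200, .ofNat 280562400, .negSucc 65095199, .ofNat 195296400, .negSucc 128685599, .negSucc 172133999, .ofNat 173988000, .negSucc 55724399, .ofNat 148006800],
  [.ofNat 58366800, .ofNat 233524800, .negSucc 226025999, .ofNat 190054800, .negSucc 204562799, .ofNat 208278000, .ofNat 180486000, .ofNat 46735200, .negSucc 65858399, .negSucc 454413599, .ofNat 43124400, .negSucc 128685599, .ofNat 366415200, .ofNat 298018800, .negSucc 226094399, .negSucc 20977199, .negSucc 371973599],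
  [.ofNat 71719200, .ofNat 205585200, .negSucc 201632399, .ofNat 284760000, .negSucc 286988399, .ofNat 221079600, .ofNat 151545600, .ofNat 65329200, .negSucc 24285599, .negSucc 628034399, .ofNat 169927200, .negSucc 172133999, .ofNat 298018800, .ofNat 486226800, .negSucc 268567199, .ofNat 10281600, .negSucc 354304799],
  [.negSucc 59777999, .negSucc 265111199, .ofNat 279046800, .negSucc 200541599, .ofNat 181036800, .negSucc 408275999, .negSucc 276001199, .negSucc 106660799, .ofNat 64623600, .ofNat 633160800, .negSucc 617399999, .ofNat 173988000, .negSucc 226094399, .negSucc 268567199, .ofNat 892198800, .ofNat 29840400, .ofNat 263998800],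
  [.negSucc 3409199, .negSucc 15415199, .ofNat 19224000, .ofNat 12294000, .negSucc 14396399, .negSucc 28943999, .negSucc 3221999, .ofNat 21416400, .ofNat 18540000, .ofNat 22226400, .negSucc 23360399, .negSucc 55724399, .negSucc 20977199, .ofNat 10281600, .ofNat 29840400, .ofNat 57391200, .ofNat 20325600],
  [.negSucc 82083599, .negSucc 252215999, .ofNat 250682400, .negSucc 233535599, .ofNat 244609200, .negSucc 224060399, .negSucc 216802799, .negSucc 53161199, .ofNat 48621600, .ofNat 530146800, .negSucc 41900399, .ofNat 148006800, .negSucc 371973599, .negSucc 354304799, .ofNat 263998800, .ofNat 20325600, .ofNat 422506800]]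

/-- Rounded Cholesky factor (lower triangular rows). -/
def lB9 : List (List Int) :=
 [[.ofNat 605660],
  [.negSucc 11028, .ofNat 1127578],
  [.negSucc 168792, .negSucc 1122028, .ofNat 306999],
  [.ofNat 381361, .ofNat 345503, .ofNat 274339, .ofNat 740287],
  [.negSucc 385889, .negSucc 359526, .negSucc 304115, .negSucc 690936, .ofNat 182658],
  [.ofNat 128573, .ofNat 946859, .ofNat 14055, .ofNat 95918, .negSucc 83523, .ofNat 985726],
  [.ofNat 337416, .ofNat 687592, .ofNat 121617, .ofNat 113436, .ofNat 43635, .ofNat 191595, .ofNat 488631],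
  [.ofNat 28047, .ofNat 237495, .negSucc 46702, .ofNat 104669, .negSucc 65076, .ofNat 86811, .negSucc 1860, .ofNat 386754],
  [.ofNat 66709, .negSucc 239026, .negSucc 26298, .ofNat 100881, .ofNat 40318, .negSucc 80237, .ofNat 50292, .ofNat 139017, .ofNat 285127],
  [.negSucc 628135, .negSucc 1524134, .negSucc 376735, .negSucc 870044, .ofNat 76900, .negSucc 865452, .ofNat 375714, .ofNat 45269, .negSucc 115014, .ofNat 299786],
  [.ofNat 20865, .ofNat 249508, .negSucc 161166, .ofNat 497962, .ofNat 298913, .ofNat 638545, .negSucc 257412, .ofNat 260404, .negSucc 511772, .negSucc 127157, .ofNat 1172803],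
  [.negSucc 140185, .negSucc 544677, .negSucc 56897, .negSucc 186548, .ofNat 181667, .negSucc 66815, .negSucc 71542, .negSucc 479884, .ofNat 28685, .ofNat 91164, .ofNat 65743, .ofNat 373427],
  [.ofNat 394727, .ofNat 852154, .ofNat 315855, .ofNat 333461, .negSucc 288723, .negSucc 65995, .negSucc 63131, .negSucc 143127, .negSucc 309741, .ofNat 180940, .negSucc 123982, .ofNat 128401, .ofNat 339678],
  [.ofNat 485028, .ofNat 751545, .ofNat 323255, .ofNat 855159, .negSucc 158588, .ofNat 32219, .negSucc 399593, .negSucc 33034, .ofNat 13010, .negSucc 211135, .ofNat 31574, .negSucc 124450, .negSucc 29311, .ofNat 294759],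
  [.negSucc 404270, .negSucc 966986, .negSucc 33389, .negSucc 437650, .negSucc 408850, .negSucc 706504, .negSucc 250272, .negSucc 303500, .ofNat 415176, .ofNat 159547, .negSucc 1062320, .negSucc 126809, .negSucc 75386, .ofNat 337718, .ofNat 245508],
  [.negSucc 23055, .negSucc 56221, .ofNat 38329, .ofNat 91936, .negSucc 70623, .negSucc 78734, .ofNat 74324, .ofNat 248906, .ofNat 48969, .negSucc 36612, .negSucc 63668, .negSucc 279355, .negSucc 21125, .negSucc 26949, .negSucc 1400, .ofNat 189730],
  [.negSucc 555120, .negSucc 921619, .negSucc 328959, .negSucc 454134, .ofNat 232866, .ofNat 95259, .negSucc 7998, .ofNat 144128, .ofNat 111097, .negSucc 90530, .ofNat 100917, .negSucc 122973, .negSucc 268019, .negSucc 20789, .ofNat 28446, .ofNat 99087, .ofNat 161003]]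

theorem okB9 : psdOK 17 4096 gB9 lB9 = true := by decide +kernel

end Pool.Agent.H2AF
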